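import Mathlib
import Pool.Agent.Work.MP_59f3ad_nt.Defs
import Pool.Agent.Work.MP_59f3ad_nt.FE.Defs
import Pool.Agent.Work.MP_59f3ad_nt.Q3.Defs

/-!
Block PX (captain helper67): Schneider's conjecture ascends in most cyclic extensions of degree `p`
of a number field `F` containing the `p`-th roots of unity. Definitions.
-/

set_option autoImplicit false

open NumberField IsDedekindDomain

namespace Pool.Agent.Work.MP_59f3ad_nt.PX

open Pool.Agent.Work.MP_59f3ad_nt.FE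

universe u

/-! ### Galois side -/

/-- `g` is in the decomposition group of the prime `Q` of the ring of integers of `Ω`. -/
def Dec {k Ω : Type u} [Field k] [Field Ω] [Algebra k Ω] (Q : Ideal (𝓞 Ω)) (g : Ω ≃ₐ[k] Ω) : Prop :=
  ∀ y y' : 𝓞 Ω, (y' : Ω) = g (y : Ω) → (y ∈ Q ↔ y' ∈ Q)

/-- `χ(g)^r` for an automorphism `g` of `Ω` over `k`, `χ` the `p`-adic cyclotomic character. -/
noncomputable def tw {k Ω : Type u} [Field k] [Field Ω] [Algebra k Ω] (p : ℕ) [Fact p.Prime]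
    (r : ℤ) (g : Ω ≃ₐ[k] Ω) : ℤ_[p] :=
  (((cyclotomicCharacter Ω p (g : Ω ≃+* Ω)) ^ r : ℤ_[p]ˣ) : ℤ_[p])

theorem twist_eq (K : Type u) [Field K] (p : ℕ) [Fact p.Prime] (r : ℤ) (g : GK K) :
    twist K p r g = tw p r g := rfl

theorem tw_mul {k Ω : Type u} [Field k] [Field Ω] [Algebra k Ω] (p : ℕ) [Fact p.Prime]
    (r : ℤ) (g h : Ω ≃ₐ[k] Ω) : tw p r (g * h) = tw p r g * tw p r h := by
  have e : ((g * h : Ω ≃ₐ[k] Ω) : Ω ≃+* Ω) = (g : Ω ≃+* Ω) * (h : Ω ≃+* Ω) := rfl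
  simp [tw, e, map_mul, mul_zpow]

theorem tw_one {k Ω : Type u} [Field k] [Field Ω] [Algebra k Ω] (p : ℕ) [Fact p.Prime]
    (r : ℤ) : tw p r (1 : Ω ≃ₐ[k] Ω) = 1 := by
  have e : ((1 : Ω ≃ₐ[k] Ω) : Ω ≃+* Ω) = 1 := rfl
  simp [tw, e]

/-- Tate-Shafarevich cocycles: continuous cocycles of the Galois group of `Ω/k` with values in
`ℤ_p(r)` which vanish on the inertia groups of the primes not above `p` and are coboundaries on the
decomposition groups of the primes above `p`. -/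
structure SH (k Ω : Type u) [Field k] [Field Ω] [Algebra k Ω] (p : ℕ) [Fact p.Prime] (r : ℤ)
    (φ : (Ω ≃ₐ[k] Ω) → ℤ_[p]) : Prop where
  cont : Continuous φ
  mul : ∀ g h, φ (g * h) = φ g + tw p r g * φ h
  inr : ∀ Q : Ideal (𝓞 Ω), Q.IsPrime → (p : 𝓞 Ω) ∉ Q → ∀ h, Inr Q h → φ h = 0
  dec : ∀ Q : Ideal (𝓞 Ω), Q.IsPrime → (p : 𝓞 Ω) ∈ Q → ∃ c : ℤ_[p], ∀ h, Dec Q h →
    φ h = (tw p r h - 1) * c

/-- The same, but only a multiple is a coboundary on the decomposition groups above `p` (locally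
torsion classes). -/
structure SQ (k Ω : Type u) [Field k] [Field Ω] [Algebra k Ω] (p : ℕ) [Fact p.Prime] (r : ℤ)
    (φ : (Ω ≃ₐ[k] Ω) → ℤ_[p]) : Prop where
  cont : Continuous φ
  mul : ∀ g h, φ (g * h) = φ g + tw p r g * φ h
  inr : ∀ Q : Ideal (𝓞 Ω), Q.IsPrime → (p : 𝓞 Ω) ∉ Q → ∀ h, Inr Q h → φ h = 0
  dec : ∀ Q : Ideal (𝓞 Ω), Q.IsPrime → (p : 𝓞 Ω) ∈ Q → ∃ (n : ℕ) (c : ℤ_[p]), ∀ h, Dec Q h →
    (p : ℤ_[p]) ^ n * φ h = (tw p r h - 1) * c

/-- The places above `p`. -/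
def Sp (K : Type u) [Field K] [NumberField K] (p : ℕ) : Set (HeightOneSpectrum (𝓞 K)) :=
  {v | (p : 𝓞 K) ∈ v.asIdeal}

/-- The valuation of `a` at `v` is divisible by `p`. -/
def Vd (K : Type u) [Field K] [NumberField K] (p : ℕ) (v : HeightOneSpectrum (𝓞 K)) (a : K) :
    Prop := ∃ y : K, v.valuation K a = v.valuation K y ^ p

/-- `a` is a `p`-th power in the completion `K_v`. -/
def Lp (K : Type u) [Field K] [NumberField K] (p : ℕ) (v : HeightOneSpectrum (𝓞 K)) (a : K) :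
    Prop := ∃ y : v.adicCompletion K, y ^ p = algebraMap K (v.adicCompletion K) a

/-- The configuration: `L = F(x)` is cyclic of degree `p` over `F`, `x^p = m`, `σ x = ζ x`. -/
structure Cf (F L : Type u) [Field F] [NumberField F] [Field L] [NumberField L] [Algebra F L]
    (p : ℕ) (ζ m : F) (x : L) (σ : L ≃ₐ[F] L) : Prop where
  h2 : p ≠ 2
  hζ : IsPrimitiveRoot ζ p
  hm : m ≠ 0
  hL : Module.finrank F L = p
  hx : x ^ p = algebraMap F L m
  hσ : σ x = algebraMap F L ζ * x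
  hfix : ∀ y : L, σ y = y → ∃ z : F, y = algebraMap F L z

/-- `s` is an automorphism of the algebraic closure of `L` over `F` which extends `σ`. -/
def Ex {F L : Type u} [Field F] [Field L] [Algebra F L] (σ : L ≃ₐ[F] L)
    (s : AlgebraicClosure L ≃ₐ[F] AlgebraicClosure L) : Prop :=
  ∀ y : L, s (algebraMap L (AlgebraicClosure L) y) = algebraMap L (AlgebraicClosure L) (σ y)

/-- The conjugate `s⁻¹ h s`, an automorphism over `L`. -/
noncomputable def cs {F L : Type u} [Field F] [Field L] [Algebra F L] {σ : L ≃ₐ[F] L}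
    {s : AlgebraicClosure L ≃ₐ[F] AlgebraicClosure L} (hs : Ex σ s) (h : GK L) : GK L :=
  AlgEquiv.ofRingEquiv (f := (((s : AlgebraicClosure L ≃+* AlgebraicClosure L).trans
    (h : AlgebraicClosure L ≃+* AlgebraicClosure L)).trans
      (s : AlgebraicClosure L ≃+* AlgebraicClosure L).symm))
    (by
      intro y
      simp only [RingEquiv.trans_apply]
      rw [RingEquiv.symm_apply_eq]
      change h (s (algebraMap L _ y)) = s (algebraMap L _ y)
      rw [hs y]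
      exact h.commutes _)

theorem cs_apply {F L : Type u} [Field F] [Field L] [Algebra F L] {σ : L ≃ₐ[F] L}
    {s : AlgebraicClosure L ≃ₐ[F] AlgebraicClosure L} (hs : Ex σ s) (h : GK L)
    (y : AlgebraicClosure L) : cs hs h y = s.symm (h (s y)) := rfl

/-! ### Counting side -/

/-- A system of indices: for every prime element `π` not above `p`, `ind π` is a non-trivial
homomorphism from the units modulo `π` to `ℤ/p` whose kernel consists of the `p`-th powers. -/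
structure Sym (F : Type u) [Field F] [NumberField F] (p : ℕ) (ind : 𝓞 F → 𝓞 F → ZMod p) :
    Prop where
  mul : ∀ π : 𝓞 F, Prime π → ¬ π ∣ (p : 𝓞 F) → ∀ z z' : 𝓞 F, ¬ π ∣ z → ¬ π ∣ z' →
    ind π (z * z') = ind π z + ind π z'
  cong : ∀ π : 𝓞 F, Prime π → ¬ π ∣ (p : 𝓞 F) → ∀ z z' : 𝓞 F, π ∣ z - z' → ind π z = ind π z'
  pow : ∀ π : 𝓞 F, Prime π → ¬ π ∣ (p : 𝓞 F) → ∀ z : 𝓞 F, ¬ π ∣ z →
    (ind π z = 0 ↔ ∃ y : 𝓞 F, π ∣ y ^ p - z)
  non : ∀ π : 𝓞 F, Prime π → ¬ π ∣ (p : 𝓞 F) → ∃ z : 𝓞 F, ¬ π ∣ z ∧ ind π z ≠ 0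

/-- The additive character `j ↦ e(j/p)` of `ℤ/p`. -/
noncomputable def ep (p : ℕ) (j : ZMod p) : ℂ :=
  Complex.exp (2 * (Real.pi : ℂ) * Complex.I * ((j.val : ℂ) / (p : ℂ)))

open Classical in
/-- The character modulo `π` attached to `ind π` and `e`. -/
noncomputable def chi {F : Type u} [Field F] [NumberField F] (p : ℕ) (ind : 𝓞 F → 𝓞 F → ZMod p)
    (e : ZMod p) (π z : 𝓞 F) : ℂ := if π ∣ z then 0 else ep p (e * ind π z)

/-- The norm of the ideal generated by `π`. -/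
noncomputable def nm {F : Type u} [Field F] [NumberField F] (π : 𝓞 F) : ℕ :=
  Ideal.absNorm (Ideal.span {π})

open Classical in
/-- The box of the elements with coordinates at most `B` in absolute value. -/
noncomputable def bx {F : Type u} [Field F] [NumberField F] {ι : Type} [Fintype ι]
    (b : Module.Basis ι ℤ (𝓞 F)) (B : ℕ) : Finset (𝓞 F) :=
  (Fintype.piFinset fun _ : ι => Finset.Icc (-(B : ℤ)) B).image fun a => ∑ i, a i • b i

/-- Finite sets of prime elements not above `p`, all conjugates of absolute value at most `X`, no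
two of them associated. -/
structure Adm (F : Type u) [Field F] [NumberField F] (p X : ℕ) (P : Finset (𝓞 F)) : Prop where
  pr : ∀ z ∈ P, Prime z
  np : ∀ z ∈ P, ¬ z ∣ (p : 𝓞 F)
  bd : ∀ z ∈ P, ∀ s : F →+* ℂ, ‖s (z : F)‖ ≤ (X : ℝ)
  na : ∀ z ∈ P, ∀ z' ∈ P, Associated z z' → z = z'

end Pool.Agent.Work.MP_59f3ad_nt.PX
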