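import Mathlib
import Pool.Agent.Work.MP_59f3ad_nt.PX.Defs

/-!
Block PX, part D: decomposition groups, transport between algebraic closures, Kummer theory at one
place. Every docstring is the complete proof. `Inr Q g`, `Dec Q g`: `g` is in the inertia group,
decomposition group of the prime `Q` of the ring of all algebraic integers of `Ω`. Landed models in
the folder `FE` (all assembled in `FE/All.lean`): `pr_DN`, `pr_DQ`, `pr_DV`, `all_DK`, `pr_DX`,
`all_DT`, `all_DE`, `all_LO`, `pr_MU`, `pr_LI`, `pr_IC`, `all_UX`, `all_KF`; in `Q3`: `pr_Fix`,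
`pr_Mon` (file `I_Mon.lean`, with the helper lemmas `IMon.U`, `IMon.fix`, `IMon.dvd_cyc`), `pr_Inf`,
`pr_Cyl`; `CycLocal.lean`: `exists_restrict`, `exists_cyc_ne_one`.
-/

set_option autoImplicit false

open NumberField IsDedekindDomain

namespace Pool.Agent.Work.MP_59f3ad_nt.PX

open Pool.Agent.Work.MP_59f3ad_nt.FE

universe u

/-- NI (EASY-MEDIUM, extend `FE/I_DN.lean`). `N = spectralNorm L_v C` as in `FE.pr_DN`; the spectral norm
is invariant under automorphisms of `C` over `L_v` (Mathlib `spectralNorm_aut_isom`, or: the minimal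
polynomials of `x` and `g x` are equal, `minpoly.algEquiv_eq`, and the spectral norm is defined by the
minimal polynomial). -/
def StNI : Prop := ∀ (K : Type u) [Field K] [NumberField K] (v : HeightOneSpectrum (𝓞 K)),
  ∃ N : AlgebraicClosure (v.adicCompletion K) → ℝ, NN K v N ∧
    ∀ (g : GK (v.adicCompletion K)) (x : AlgebraicClosure (v.adicCompletion K)), N (g x) = N x

/-- DK (EASY, copy of `FE/I_DK.lean` with `Dec Q h` in place of `Inr Q h`). The only place where `Inr`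
is used there is: `b ∉ Q` implies `h b ∉ Q`, which is part of `Dec Q h` (lemma `IDK.unit`). You may use
`FE.pr_DV`. -/
def StDK : Prop := ∀ (L : Type u) [Field L] [NumberField L] (v : HeightOneSpectrum (𝓞 L))
  (N : AlgebraicClosure (v.adicCompletion L) → ℝ), NN L v N →
  ∀ (Q : Ideal (𝓞 (AlgebraicClosure L)))
    (ι : AlgebraicClosure L →ₐ[L] AlgebraicClosure (v.adicCompletion L)), QI L v N Q ι →
  ∀ h : GK L, Dec Q h → ∀ (n : ℕ) (a : Fin n → v.adicCompletion L) (x : Fin n → AlgebraicClosure L),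
    ∑ i, algebraMap (v.adicCompletion L) (AlgebraicClosure (v.adicCompletion L)) (a i) *
      ι (x i) = 0 →
    ∑ i, algebraMap (v.adicCompletion L) (AlgebraicClosure (v.adicCompletion L)) (a i) *
      ι (h (x i)) = 0

/-- LD (EASY, from StDK; `FE.pr_DN`, `FE.all_DT`, `FE.pr_DX` are landed). `N` from DN, `ι` with `QI` from
DT for `Q`, StDK and DX give for `h` with `Dec Q h` some `g ∈ GK K_v` with `ι h = g ι` (compare
`FE/I_DE.lean`); the constant `c` of `LocTriv` for `ι` works. -/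
def StLD : Prop := ∀ (K : Type u) [Field K] [NumberField K] (p : ℕ) [Fact p.Prime] (r : ℤ)
  (v : HeightOneSpectrum (𝓞 K)) (φ : GK K → ℤ_[p]), LocTriv K p r (v.adicCompletion K) φ →
  ∀ Q : Ideal (𝓞 (AlgebraicClosure K)), Q.IsPrime →
  Q.comap (algebraMap (𝓞 K) (𝓞 (AlgebraicClosure K))) = v.asIdeal →
  ∃ c : ℤ_[p], ∀ h : GK K, Dec Q h → φ h = (tw p r h - 1) * c

/-- DI (EASY). `N` invariant under `GK K_v`, `QI K v N Q ι`, `ι h = g ι`: for `y` in `𝓞 Ω` and
`y' = h y`: `y' ∈ Q ↔ N (ι (h y)) < 1 ↔ N (g (ι y)) < 1 ↔ N (ι y) < 1 ↔ y ∈ Q`. -/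
def StDI : Prop := ∀ (K : Type u) [Field K] [NumberField K] (v : HeightOneSpectrum (𝓞 K))
  (N : AlgebraicClosure (v.adicCompletion K) → ℝ), NN K v N →
  (∀ (g : GK (v.adicCompletion K)) (x : AlgebraicClosure (v.adicCompletion K)), N (g x) = N x) →
  ∀ (Q : Ideal (𝓞 (AlgebraicClosure K)))
    (ι : AlgebraicClosure K →ₐ[K] AlgebraicClosure (v.adicCompletion K)), QI K v N Q ι →
  ∀ (g : GK (v.adicCompletion K)) (h : GK K), (∀ x, ι (h x) = g (ι x)) → Dec Q h

/-- DL (EASY, from StNI, StDI; `FE.pr_DQ`). Given `ι` take `N` from NI and `Q` from DQ; `Q` is prime and lies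
over `v`; the constant `c` of the hypothesis for `Q` works, as all `h` induced by `g ∈ GK K_v` are in
the decomposition group of `Q` (DI). -/
def StDL : Prop := ∀ (K : Type u) [Field K] [NumberField K] (p : ℕ) [Fact p.Prime] (r : ℤ)
  (v : HeightOneSpectrum (𝓞 K)) (φ : GK K → ℤ_[p]),
  (∀ Q : Ideal (𝓞 (AlgebraicClosure K)), Q.IsPrime →
    Q.comap (algebraMap (𝓞 K) (𝓞 (AlgebraicClosure K))) = v.asIdeal →
    ∃ c : ℤ_[p], ∀ h : GK K, Dec Q h → φ h = (tw p r h - 1) * c) →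
  LocTriv K p r (v.adicCompletion K) φ

/-- ND (EASY-MEDIUM, from StNI, StDI; `FE.all_DT`, `exists_cyc_ne_one`, `Tw.pr_Tf`). `v = Q ∩ 𝓞 K` is a place
above `p`; `N` from NI, `ι` with `QI K v N Q ι` from DT. `exists_cyc_ne_one K p v hv ι` gives `g ∈ GK K_v` and
`h` with `ι h = g ι`, `cyc h ≠ 1`; `Dec Q h` by DI. We need an `h` with `cyc(h)^r ≠ 1`. Let `ζ ∈ K` be a
primitive `p`-th root of unity: `h` fixes it, so `cyc h = 1` modulo `p`, and the group of the units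
`= 1` modulo `p` is torsion-free for odd `p` (landed `Tw.StTf`, `pr_Tf`, used in the same way in
`Q3/I_Cyl.lean`), so `cyc(h)^r ≠ 1` for `r ≠ 0`. -/
def StND : Prop := ∀ (K : Type u) [Field K] [NumberField K] (p : ℕ) [Fact p.Prime], p ≠ 2 →
  ∀ ζ : K, IsPrimitiveRoot ζ p → ∀ r : ℤ, r ≠ 0 →
  ∀ Q : Ideal (𝓞 (AlgebraicClosure K)), Q.IsPrime → (p : 𝓞 (AlgebraicClosure K)) ∈ Q →
  ∃ h : GK K, Dec Q h ∧ tw p r h ≠ 1

/-- LP (MEDIUM, from StNI, StDI; `FE.all_DT`). `N` from NI, `ι` with `QI K v N Q ι` from DT. Every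
`g ∈ GK K_v` induces some `h ∈ GK K` with `ι h = g ι` (`exists_restrict`, `CycLocal.lean`), and `Dec Q h` by
DI. So `h A = A` and `g (ι A) = ι A` for all `g ∈ GK K_v`: `ι A` lies in `K_v` (fixed field of the
absolute Galois group in characteristic `0`: `InfiniteGalois` or
`IsGalois.mem_bot_iff_fixed`/`IntermediateField`; `AlgebraicClosure K_v` is Galois over `K_v`), `ι A = y`,
`y^p = ι (A^p) = a`. -/
def StLP : Prop := ∀ (K : Type u) [Field K] [NumberField K] (p : ℕ) (v : HeightOneSpectrum (𝓞 K))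
  (Q : Ideal (𝓞 (AlgebraicClosure K))), Q.IsPrime →
  Q.comap (algebraMap (𝓞 K) (𝓞 (AlgebraicClosure K))) = v.asIdeal →
  ∀ (A : AlgebraicClosure K) (a : K), A ^ p = algebraMap K (AlgebraicClosure K) a →
  (∀ h : GK K, Dec Q h → h A = A) → Lp K p v a

/-- LG (EASY-MEDIUM, from StLP). Transport to an arbitrary algebraic closure `Ω` of `K`:
`e : AlgebraicClosure K ≃ₐ[K] Ω` (`IsAlgClosure.equiv`), `Q0 = {y : e y ∈ Q}` (comap along the
isomorphism of the rings of integers, `RingOfIntegers.mapRingEquiv` or by hand), `A0 = e⁻¹ A`. For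
`h ∈ GK K` with `Dec Q0 h` the automorphism `e h e⁻¹` of `Ω` satisfies `Dec Q`, so it fixes `A` and `h` fixes
`A0`. -/
def StLG : Prop := ∀ (K Ω : Type u) [Field K] [NumberField K] [Field Ω] [Algebra K Ω]
  [IsAlgClosure K Ω] (p : ℕ) (v : HeightOneSpectrum (𝓞 K)) (Q : Ideal (𝓞 Ω)), Q.IsPrime →
  Q.comap (algebraMap (𝓞 K) (𝓞 Ω)) = v.asIdeal →
  ∀ (A : Ω) (a : K), A ^ p = algebraMap K Ω a →
  (∀ h : Ω ≃ₐ[K] Ω, Dec Q h → h A = A) → Lp K p v a

/-- SHS (EASY, from StLD; `Q3.pr_Mon`, `Q3.pr_Fix`). By `Q3.pr_Mon` `φ ∈ ShaZ K p r (Sp K p)`. `cont`, `mul`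
are the definition of `Z1` (`twist_eq`). `inr`: let `p ∉ Q`. If `Q = ⊥` then `Inr ⊥ h` says that `h` fixes
all algebraic integers, so `h = 1`, `φ 1 = 0` (cocycle identity). Otherwise `v = Q ∩ 𝓞 K` is a place
not above `p`, and `Q3.pr_Fix` gives `h ∈ (maxUnram K (Sp K p)).fixingSubgroup`, so `φ h = 0` (compare
`FE/I_LO.lean`). `dec`: `v = Q ∩ 𝓞 K` contains `p`, so it is a place in `Sp K p`, LD. -/
def StSHS : Prop := ∀ (K : Type u) [Field K] [NumberField K] (p : ℕ) [Fact p.Prime] (r : ℤ)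
  (S : Set (HeightOneSpectrum (𝓞 K))), (∀ v ∈ Sp K p, v ∈ S) → ∀ φ ∈ ShaZ K p r S,
  SH K (AlgebraicClosure K) p r φ

/-- UM (MEDIUM, `FE.pr_LI`, compare `FE/I_UX.lean`). `U` is open, so closed; `M = fixedField U`,
`M.fixingSubgroup = U`, `M/K` is finite Galois. `M/K` is unramified outside `Sp K p`: let `v ∉ Sp K p`,
`P` a prime of `𝓞 M` over `v`, `Q` a prime of `𝓞 Ω` over `P`, `p ∉ Q`. If `σ` is in the inertia group of
`P`, `FE.pr_LI` gives `τ ∈ GK K` with `Inr Q τ` and `τ = σ` on `M`, so `τ ∈ U` fixes `M` and `σ = 1`. The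
inertia group has order `1 = e(P|v)` (as in `I_UX.lean`), so `v` is unramified in `M`
(`Algebra.IsUnramifiedIn`; compare `Q3/I_Mon.lean` and `Q3/I_Fix.lean` for the passage between
ramification indices and `Algebra.IsUnramifiedIn`). So `M ≤ maxUnram K (Sp K p)` and the fixing
subgroup of `maxUnram` is contained in that of `M`, which is `U`. -/
def StUM : Prop := ∀ (K : Type u) [Field K] [NumberField K] (p : ℕ) [Fact p.Prime]
  (U : Subgroup (GK K)) [U.Normal], IsOpen (U : Set (GK K)) →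
  (∀ Q : Ideal (𝓞 (AlgebraicClosure K)), Q.IsPrime → (p : 𝓞 (AlgebraicClosure K)) ∉ Q →
    ∀ h : GK K, Inr Q h → h ∈ U) → (maxUnram K (Sp K p)).fixingSubgroup ≤ U

/-- ZS (EASY-MEDIUM, from StUM; `Q3/I_Mon.lean`, `FE.pr_MU`). Only `φ g = 0` for
`g ∈ (maxUnram K (Sp K p)).fixingSubgroup` has to be shown. For every `n` the set
`U_n = {h : cyc h = 1 mod p^n, φ h = 0 mod p^n}` is an open normal subgroup (`IMon.U` and the lemmas
after it in `Q3/I_Mon.lean`); it contains the inertia groups of the primes `Q` not above `p` (`φ = 0`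
by hypothesis, `cyc = 1` by `FE.pr_MU`). By StUM `g ∈ U_n` for all `n`, so `φ g` is divisible by all
`p^n` and is `0`. -/
def StZS : Prop := ∀ (K : Type u) [Field K] [NumberField K] (p : ℕ) [Fact p.Prime] (r : ℤ)
  (φ : GK K → ℤ_[p]), φ ∈ Z1 K p r →
  (∀ Q : Ideal (𝓞 (AlgebraicClosure K)), Q.IsPrime → (p : 𝓞 (AlgebraicClosure K)) ∉ Q →
    ∀ h : GK K, Inr Q h → φ h = 0) → φ ∈ Z1S K p r (Sp K p)

/-- INF (EASY, copy of `Q3/I_Inf.lean` for `p`). `K` contains a primitive `p`-th root of unity, `p > 2`, so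
every infinite place is complex and its completion is algebraically closed; the local Galois group is
trivial. -/
def StINF : Prop := ∀ (K : Type u) [Field K] [NumberField K] (p : ℕ) [Fact p.Prime], p ≠ 2 →
  ∀ ζ : K, IsPrimitiveRoot ζ p → ∀ (r : ℤ) (φ : GK K → ℤ_[p]), φ 1 = 0 →
  ∀ v : InfinitePlace K, LocTriv K p r v.Completion φ

/-- SHZ (EASY, from StDL, StZS, StINF). `Z1S`: StZS. At `v ∈ Sp K p`: StDL, where every prime `Q` over `v`
contains `p`. Infinite places: StINF (`φ 1 = 0` by the cocycle identity). -/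
def StSHZ : Prop := ∀ (K : Type u) [Field K] [NumberField K] (p : ℕ) [Fact p.Prime], p ≠ 2 →
  ∀ ζ : K, IsPrimitiveRoot ζ p → ∀ (r : ℤ) (φ : GK K → ℤ_[p]),
  SH K (AlgebraicClosure K) p r φ → φ ∈ ShaZ K p r (Sp K p)

/-- TRN (MEDIUM). Transport along `e : Ω ≃ₐ[k] Ω'`. `c(g) = e⁻¹ g e`, that is
`(AlgEquiv.autCongr e).symm`-like: `φ' g = φ (e⁻¹ ∘ g ∘ e)` for `g ∈ Gal(Ω'/k)`, here written
`(e.trans g).trans e.symm`. Continuity: `g ↦ e⁻¹ g e` is a group homomorphism, continuous for the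
Krull topologies: the preimage of the fixing subgroup of the finite extension `E` of `k` in `Ω` is the
fixing subgroup of `e(E)` (`IntermediateField.map`), open; use `continuous_of_continuousAt_one` and the
basis of neighbourhoods of `1` (`krullTopology_mem_nhds_one_iff`). `tw p r (e⁻¹ g e) = tw p r g`: the
cyclotomic character is determined by the action on the roots of unity of order `p^n`
(`cyclotomicCharacter.spec`, uniqueness, or `ext` on `toZModPow`); if `g ζ = ζ^a` for all roots of unity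
of order `p^n` in `Ω'` then the same holds for `e⁻¹ g e` in `Ω`. `Inr`, `Dec`: for a prime `Q` of `𝓞 Ω'` put
`Q0 = {y ∈ 𝓞 Ω : e y ∈ Q}`, a prime (comap along the ring isomorphism of the rings of integers);
`Inr Q g` implies `Inr Q0 (e⁻¹ g e)`, the same for `Dec`. -/
def StTRN : Prop := ∀ (k Ω Ω' : Type u) [Field k] [Field Ω] [Field Ω'] [Algebra k Ω]
  [Algebra k Ω'] [CharZero Ω] [CharZero Ω'] [IsAlgClosed Ω] [IsAlgClosed Ω']
  (p : ℕ) [Fact p.Prime] (r : ℤ) (e : Ω ≃ₐ[k] Ω') (φ : (Ω ≃ₐ[k] Ω) → ℤ_[p]),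
  SH k Ω p r φ → SH k Ω' p r (fun g => φ ((e.trans g).trans e.symm)) ∧
    ∀ g : Ω' ≃ₐ[k] Ω', tw p r ((e.trans g).trans e.symm) = tw p r g

/-- SHF (EASY-MEDIUM, from StSHZ, StTRN). `F ⊂ L`, `Ω = AlgebraicClosure L` is an algebraic closure of `F`
too. `e : Ω ≃ₐ[F] AlgebraicClosure F` (`IsAlgClosure.equiv`; `L` is algebraic over `F`, both are number
fields). `Ψ' g = Ψ (e⁻¹ g e)` satisfies `SH F (AlgebraicClosure F) p r` (StTRN), so it lies in
`ShaZ F p r (Sp F p)` (StSHZ), so in `B1 F p r` (`Sha1_eq_bot_iff`): `Ψ' g = (tw g - 1) c`. Every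
`h ∈ Gal(Ω/F)` is `e⁻¹ g e` for `g = e h e⁻¹`, and `tw p r (e⁻¹ g e) = tw p r g`. -/
def StSHF : Prop := ∀ (F L : Type u) [Field F] [NumberField F] [Field L] [NumberField L]
  [Algebra F L] (p : ℕ) [Fact p.Prime], p ≠ 2 → ∀ ζ : F, IsPrimitiveRoot ζ p → ∀ r : ℤ,
  Sha1 F p r (Sp F p) = ⊥ → ∀ Ψ : (AlgebraicClosure L ≃ₐ[F] AlgebraicClosure L) → ℤ_[p],
  SH F (AlgebraicClosure L) p r Ψ → ∃ c : ℤ_[p], ∀ g, Ψ g = (tw p r g - 1) * c

/-- I1 (MEDIUM, `FE.pr_LI`). `q` a place of `K`, `Q` a prime of `𝓞 Ω` over `q`, `A^p = a ≠ 0`. `M = K(A)`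
(`IntermediateField.adjoin`) is finite Galois over `K` (`ζ ∈ K`; the other roots of `X^p - a` are
`ζ^i A`). `P = Q ∩ 𝓞 M`. If `σ` is in the inertia group of `P` in `Gal(M/K)` then `FE.pr_LI` gives
`τ ∈ Gal(Ω/K)` with `Inr Q τ`, `τ = σ` on `M`; `τ A = A` by hypothesis, so `σ = 1`. The inertia group has
order `1 = e(P|q)` (`Ideal.card_inertia_eq_ramificationIdxIn`, as in `FE/I_UX.lean`), so
`P.valuation M b = q.valuation K b` for `b ∈ K` (`HeightOneSpectrum.valuation_liesOver`), and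
`q.valuation K a = P.valuation M A ^ p`, a `p`-th power of an element of the value group of `q`: the
value of some `y ∈ K` (`valuation_surjective` or powers of a uniformizer). -/
def StI1 : Prop := ∀ (K Ω : Type u) [Field K] [NumberField K] [Field Ω] [Algebra K Ω]
  [IsAlgClosure K Ω] (p : ℕ) [Fact p.Prime] (ζ : K), IsPrimitiveRoot ζ p →
  ∀ (q : HeightOneSpectrum (𝓞 K)) (Q : Ideal (𝓞 Ω)), Q.IsPrime →
  Q.comap (algebraMap (𝓞 K) (𝓞 Ω)) = q.asIdeal →
  ∀ (A : Ω) (a : K), a ≠ 0 → A ^ p = algebraMap K Ω a →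
  (∀ h : Ω ≃ₐ[K] Ω, Inr Q h → h A = A) → Vd K p q a

/-- I2 (EASY-MEDIUM, compare `Q3/I_Rtt.lean`). `q ∌ p`, `q(a) = p q(y)`, `y ≠ 0` as `a ≠ 0`. `B = A / y` has
`B^p = a / y^p = b1 / b2` with `b1, b2 ∈ 𝓞 K` outside `q` (value `1`; the local ring of `q`). `u = B b2`
is integral (`u^p = b1 b2^(p-1)`) and not in `Q`. `h B = ζ^i B` for some `i` (`(h B)^p = B^p`), so
`h u = ζ^i u`, `h u - u ∈ Q`, `(ζ^i - 1) u ∈ Q`, `ζ^i - 1 ∈ Q`. If `ζ^i ≠ 1` then `p ∈ Q`
(`p = ∏_(0<j<p) (1 - ζ^(ij))`), so `p ∈ q`, a contradiction. So `h B = B`, `h A = A`. -/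
def StI2 : Prop := ∀ (K Ω : Type u) [Field K] [NumberField K] [Field Ω] [Algebra K Ω]
  [IsAlgClosure K Ω] (p : ℕ) [Fact p.Prime] (ζ : K), IsPrimitiveRoot ζ p →
  ∀ (q : HeightOneSpectrum (𝓞 K)), (p : 𝓞 K) ∉ q.asIdeal → ∀ (Q : Ideal (𝓞 Ω)), Q.IsPrime →
  Q.comap (algebraMap (𝓞 K) (𝓞 Ω)) = q.asIdeal →
  ∀ (A : Ω) (a : K), a ≠ 0 → A ^ p = algebraMap K Ω a → Vd K p q a →
  ∀ h : Ω ≃ₐ[K] Ω, Inr Q h → h A = A

/-- MUF (EASY, `FE/I_MU.lean`, `Q3/I_Mon.lean` lemma `IMon.fix`). An inertia element of a prime not above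
`p` fixes all roots of unity of order `p^n`, so its cyclotomic character is `1`. (For `Ω` over any
field `k`.) -/
def StMUF : Prop := ∀ (k Ω : Type u) [Field k] [Field Ω] [Algebra k Ω] [CharZero Ω]
  [IsAlgClosed Ω] (p : ℕ) [Fact p.Prime] (Q : Ideal (𝓞 Ω)), Q.IsPrime → (p : 𝓞 Ω) ∉ Q →
  ∀ h : Ω ≃ₐ[k] Ω, Inr Q h → ∀ r : ℤ, tw p r h = 1

/-- TW1 (EASY). `h` fixes `ζ`, a primitive `p`-th root of unity, so the cyclotomic character of `h` is `1`
modulo `p` (`cyclotomicCharacter.spec` for `n = 1`; `Q3/I_Mon.lean` `IMon.dvd_cyc`, `IMon.dvd_twist`; `Q3/I_Cyl.lean`), and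
so is its `r`-th power. -/
def StTW1 : Prop := ∀ (k Ω : Type u) [Field k] [Field Ω] [Algebra k Ω] [CharZero Ω]
  [IsAlgClosed Ω] (p : ℕ) [Fact p.Prime] (ζ : k), IsPrimitiveRoot ζ p →
  ∀ (r : ℤ) (h : Ω ≃ₐ[k] Ω), (p : ℤ_[p]) ∣ tw p r h - 1

/-- KUM (EASY-MEDIUM, simplify `Tw/Kum.lean`). `f` modulo `p` is a continuous homomorphism
`GK K → ℤ/p`. Its kernel `U` is open and normal, `M = fixedField U` is finite Galois over `K` with group
`GK K / U`, embedded in `ℤ/p` by `f`. Independence of characters: for `σ ∈ Gal(M/K)` with value `f(σ)`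
there is `z ∈ M` with `β = ∑_σ ζ^(-f(σ)) σ z ≠ 0`, and `τ β = ζ^(f(τ)) β`. (In `Tw/Kum.lean` this is done
with Hilbert 90.) -/
def StKUM : Prop := ∀ (K : Type u) [Field K] [NumberField K] (p : ℕ) [Fact p.Prime] (ζ : K),
  IsPrimitiveRoot ζ p → ∀ f : GK K → ℤ_[p], Continuous f →
  (∀ g h, (p : ℤ_[p]) ∣ f (g * h) - (f g + f h)) →
  ∃ β : AlgebraicClosure K, β ≠ 0 ∧ ∀ g : GK K,
    g β = algebraMap K (AlgebraicClosure K) (ζ ^ (PadicInt.toZMod (f g)).val) * β

/-- BET (EASY-MEDIUM). `χ^r - 1` divided by the largest possible power of `p`. There is `h` with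
`tw h ≠ 1` (StND for a prime `Q` above `p`; it is a hypothesis of your theorem), so there is a largest
`m` with `p^m ∣ tw g - 1` for all `g`; `β g = (tw g - 1)/p^m`. Some `β g` is not divisible by `p`. `β` is
continuous (`tw` is continuous: landed `continuous_zpow_cyc` in `Bdx/B04.lean`; division by `p^m` is
continuous on its multiples, or: `β` is the unique function with `p^m β = tw - 1`, and
`‖β g - β h‖ = p^m ‖tw g - tw h‖`), a cocycle (`tw (g h) - 1 = (tw g - 1) + tw g (tw h - 1)`, divide by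
`p^m`), `0` on inertia at `Q ∌ p` (`tw = 1`, StMUF), and `p^m β = (tw - 1) * 1` everywhere. -/
def StBET : Prop := ∀ (K : Type u) [Field K] [NumberField K] (p : ℕ) [Fact p.Prime], p ≠ 2 →
  ∀ ζ : K, IsPrimitiveRoot ζ p → ∀ r : ℤ, r ≠ 0 →
  ∃ (m : ℕ) (β : GK K → ℤ_[p]), (∀ g, (p : ℤ_[p]) ^ m * β g = tw p r g - 1) ∧
    (∃ g, ¬ (p : ℤ_[p]) ∣ β g) ∧ SQ K (AlgebraicClosure K) p r β

end Pool.Agent.Work.MP_59f3ad_nt.PX
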