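import Mathlib
import Pool.Agent.Work.MP_59f3ad_nt.PX.StmtsD

/-!
Block PX, part A: the cyclic extension `L = F(x)`, `x^p = m`, of degree `p`: the action of an inertia
element `s` extending the generator `σ` on the Tate-Shafarevich cocycles of `L`, the chain lemma,
Kummer theory and Hilbert 90, and the translation to `F`. Every docstring is the complete proof.
`Ω = AlgebraicClosure L`; `Gal(Ω/F) = Ω ≃ₐ[F] Ω`; `GK L = Gal(Ω/L)`, embedded by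
`AlgEquiv.restrictScalars F`; `cs hs h = s⁻¹ h s`. Models: folder `Q3` (the case `p = 3`).
-/

set_option autoImplicit false

open NumberField IsDedekindDomain

namespace Pool.Agent.Work.MP_59f3ad_nt.PX

open Pool.Agent.Work.MP_59f3ad_nt.FE

universe u

/-- What the failure of the conjecture for `L` produces: `a ∈ F*` is the norm of `δ`, its `p`-th root
`A` is not in `L`, but it is fixed by the inertia groups of the primes not above `p` and by the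
decomposition groups of the primes above `p` of `GK L`. -/
structure Bad {F L : Type u} [Field F] [NumberField F] [Field L] [NumberField L] [Algebra F L]
    (p : ℕ) (σ : L ≃ₐ[F] L) (A : AlgebraicClosure L) (a : F) (δ : L) : Prop where
  ha : a ≠ 0
  hA : A ^ p = algebraMap F (AlgebraicClosure L) a
  hδ : ∏ i ∈ Finset.range p, (σ ^ i) δ = algebraMap F L a
  inr : ∀ Q : Ideal (𝓞 (AlgebraicClosure L)), Q.IsPrime → (p : 𝓞 (AlgebraicClosure L)) ∉ Q →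
    ∀ h : GK L, Inr Q h → h A = A
  dec : ∀ Q : Ideal (𝓞 (AlgebraicClosure L)), Q.IsPrime → (p : 𝓞 (AlgebraicClosure L)) ∈ Q →
    ∀ h : GK L, Dec Q h → h A = A
  ne : ∃ h : GK L, h A ≠ A

/-- The prime element `π` of `F` is totally ramified in `L`; `v` is the prime above it. -/
structure Rt {F L : Type u} [Field F] [NumberField F] [Field L] [NumberField L] [Algebra F L]
    (p : ℕ) (x : L) (σ : L ≃ₐ[F] L) (π : 𝓞 F) (c : ℕ) (q : HeightOneSpectrum (𝓞 F))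
    (v : HeightOneSpectrum (𝓞 L)) : Prop where
  qs : q.asIdeal = Ideal.span {π}
  inr : Q3.Inert (σ : L ≃+* L) v
  res : ∀ y : 𝓞 L, ∃ z : 𝓞 F, y - algebraMap (𝓞 F) (𝓞 L) z ∈ v.asIdeal
  ram : ∀ a : F, v.valuation L (algebraMap F L a) = q.valuation F a ^ p
  vx : v.valuation L x = WithZero.exp (-(c : ℤ))

/-! ### The field `L` -/

/-- CFG (MEDIUM). `X^p - m` has no root in `F`, so it is irreducible (`X_pow_sub_C_irreducible_of_prime`),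
`[F(x) : F] = p = [L : F]`, so `L = F(x)` with the power basis `1, x, ..., x^(p-1)`
(`IntermediateField.adjoin`, `Field.primitive...`, `PowerBasis`). `ζ x` is another root, so there is an
`F`-algebra map `σ : L → L`, `x ↦ ζ x` (`PowerBasis.lift`), an automorphism (finite dimension). If
`y = ∑ y_i x^i`, then `σ y = ∑ ζ^i y_i x^i`, and `σ y = y` forces `y_i = 0` for `0 < i < p`. -/
def StCFG : Prop := ∀ (F L : Type u) [Field F] [NumberField F] [Field L] [NumberField L]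
  [Algebra F L] (p : ℕ) [Fact p.Prime], p ≠ 2 → ∀ (ζ m : F) (x : L), IsPrimitiveRoot ζ p →
  m ≠ 0 → Module.finrank F L = p → x ^ p = algebraMap F L m → (∀ z : F, z ^ p ≠ m) →
  ∃ σ : L ≃ₐ[F] L, Cf F L p ζ m x σ

/-- GX (EASY-MEDIUM). `x ≠ 0`, `σ x = ζ x ≠ x`, so `x` is not in `F`, and `F(x) = L` because `[L : F] = p`
is prime (the degree of `F(x)` over `F` divides `p` and is not `1`). `σ^p` fixes `x` and `F`. If `g` and `g'`
agree at `x` (both `F`-linear) then they agree on `F(x) = L`: first for `g` and the identity (an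
automorphism of `Ω` which is the identity on `L` is an element of `GK L`: `AlgEquiv.ofRingEquiv`), then
for `s` and `σ`. -/
def StGX : Prop := ∀ (F L : Type u) [Field F] [NumberField F] [Field L] [NumberField L]
  [Algebra F L] (p : ℕ) [Fact p.Prime] (ζ m : F) (x : L) (σ : L ≃ₐ[F] L), Cf F L p ζ m x σ →
  σ ^ p = 1 ∧
  (∀ g : AlgebraicClosure L ≃ₐ[F] AlgebraicClosure L,
    g (algebraMap L (AlgebraicClosure L) x) = algebraMap L (AlgebraicClosure L) x →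
    ∃ h : GK L, ∀ y, h y = g y) ∧
  ∀ s : AlgebraicClosure L ≃ₐ[F] AlgebraicClosure L,
    s (algebraMap L (AlgebraicClosure L) x) = algebraMap L (AlgebraicClosure L) (σ x) → Ex σ s

/-- H90 (EASY-MEDIUM). Hilbert 90, elementary. `σ^p = 1` (StGX). The automorphisms `σ^j`, `j < p`, of `L` are
different (`σ^j x = ζ^j x`), so linearly independent (`linearIndependent_monoidHom`). With
`c_j = ∏_(i<j) σ^i c` (`c_0 = 1`, `c_p = 1`, all not `0`) there is `z ∈ L` with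
`e = ∑_(j<p) c_j σ^j z ≠ 0`. `c σ(e) = ∑_j c_(j+1) σ^(j+1) z = e`. `d = e⁻¹` has `σ d = c d`. (Or Mathlib's
Hilbert 90 for cyclic extensions.) -/
def StH90 : Prop := ∀ (F L : Type u) [Field F] [NumberField F] [Field L] [NumberField L]
  [Algebra F L] (p : ℕ) [Fact p.Prime] (ζ m : F) (x : L) (σ : L ≃ₐ[F] L), Cf F L p ζ m x σ →
  ∀ c : L, ∏ i ∈ Finset.range p, (σ ^ i) c = 1 → ∃ d : L, d ≠ 0 ∧ σ d = c * d

/-- NX (EASY). `(σ^i) x = ζ^i x`, the product is `ζ^(0 + 1 + ... + (p-1)) x^p = m` since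
`p` divides `p (p-1)/2` (`p` odd). -/
def StNX : Prop := ∀ (F L : Type u) [Field F] [NumberField F] [Field L] [NumberField L]
  [Algebra F L] (p : ℕ) [Fact p.Prime] (ζ m : F) (x : L) (σ : L ≃ₐ[F] L), Cf F L p ζ m x σ →
  ∏ i ∈ Finset.range p, (σ ^ i) x = algebraMap F L m

/-- PW (EASY-MEDIUM, from StGX). `(τ x)^p = τ m = m = x^p`, so `τ x = ζ^j x` for some `j < p`
(`IsPrimitiveRoot.eq_pow_of_pow_eq_one`), `j ≠ 0`. Choose `i` with `i j = 1` modulo `p`. `τ` fixes `ζ ∈ F`, so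
`τ^i x = ζ^(ij) x = ζ x = σ x`; StGX, last part. -/
def StPW : Prop := ∀ (F L : Type u) [Field F] [NumberField F] [Field L] [NumberField L]
  [Algebra F L] (p : ℕ) [Fact p.Prime] (ζ m : F) (x : L) (σ : L ≃ₐ[F] L), Cf F L p ζ m x σ →
  ∀ τ : AlgebraicClosure L ≃ₐ[F] AlgebraicClosure L,
  τ (algebraMap L (AlgebraicClosure L) x) ≠ algebraMap L (AlgebraicClosure L) x →
  ∃ i : ℕ, Ex σ (τ ^ i)

/-- SEX (EASY-MEDIUM, from StI1, StPW; `FE.pr_IC`). By StI1 for `K = F`, `Ω = AlgebraicClosure L`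
(`IsAlgClosure F Ω` as `L/F` is algebraic), `A = x`, `a = m`: if all `h ∈ Gal(Ω/F)` with `Inr Q h` fixed `x`,
then `Vd F p q m`. So some `τ` with `Inr Q τ` moves `x`; `s = τ^i` (StPW), and the elements with `Inr Q` form
a subgroup (`FE.pr_IC`). -/
def StSEX : Prop := ∀ (F L : Type u) [Field F] [NumberField F] [Field L] [NumberField L]
  [Algebra F L] (p : ℕ) [Fact p.Prime] (ζ m : F) (x : L) (σ : L ≃ₐ[F] L), Cf F L p ζ m x σ →
  ∀ q : HeightOneSpectrum (𝓞 F), ¬ Vd F p q m →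
  ∀ Q : Ideal (𝓞 (AlgebraicClosure L)), Q.IsPrime →
  Q.comap (algebraMap (𝓞 F) (𝓞 (AlgebraicClosure L))) = q.asIdeal →
  ∃ s : AlgebraicClosure L ≃ₐ[F] AlgebraicClosure L, Inr Q s ∧ Ex σ s

/-- DEX (EASY-MEDIUM, from StLG, StPW). By StLG for `K = F`, `Ω = AlgebraicClosure L`, `A = x`, `a = m`: if
all `h` with `Dec Q h` fixed `x` then `m` would be a `p`-th power in `F_v`. So some `τ` with `Dec Q τ` moves
`x`; `s = τ^i` (StPW); `Dec Q` is stable under products. -/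
def StDEX : Prop := ∀ (F L : Type u) [Field F] [NumberField F] [Field L] [NumberField L]
  [Algebra F L] (p : ℕ) [Fact p.Prime] (ζ m : F) (x : L) (σ : L ≃ₐ[F] L), Cf F L p ζ m x σ →
  ∀ v : HeightOneSpectrum (𝓞 F), ¬ Lp F p v m →
  ∀ Q : Ideal (𝓞 (AlgebraicClosure L)), Q.IsPrime →
  Q.comap (algebraMap (𝓞 F) (𝓞 (AlgebraicClosure L))) = v.asIdeal →
  ∃ s : AlgebraicClosure L ≃ₐ[F] AlgebraicClosure L, Dec Q s ∧ Ex σ s

/-- KK (EASY, from StGX). `s^p x = ζ^p x = x`, so `s^p` is the identity on `L` (StGX): it is an element `k`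
of `GK L`. `cs^[n] h = s⁻ⁿ h sⁿ` by induction, so `cs^[p] h = k⁻¹ h k`. `cs` is the conjugation. -/
def StKK : Prop := ∀ (F L : Type u) [Field F] [NumberField F] [Field L] [NumberField L]
  [Algebra F L] (p : ℕ) [Fact p.Prime] (ζ m : F) (x : L) (σ : L ≃ₐ[F] L), Cf F L p ζ m x σ →
  ∀ (s : AlgebraicClosure L ≃ₐ[F] AlgebraicClosure L) (hs : Ex σ s),
  ∃ k : GK L, (∀ y, k y = (s ^ p) y) ∧ ∀ h : GK L, (cs hs)^[p] h = k⁻¹ * h * k

/-! ### The action on cocycles -/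

/-- TS (MEDIUM). `h ↦ s⁻¹ h s` is a continuous automorphism of the group `GK L` (compare
`Q3/I_Tst.lean`), `tw (s⁻¹ h s) = tw h` (the cyclotomic character of `Ω` is defined on all ring
automorphisms, a homomorphism to a commutative group). For a prime `Q` put `Q' = {y ∈ 𝓞 Ω : s y ∈ Q}`, a
prime (comap along the automorphism of `𝓞 Ω` induced by `s`), with `p ∈ Q' ↔ p ∈ Q`. If `Inr Q h` then
`Inr Q' (s⁻¹ h s)`: `s (s⁻¹ h s y - y) = h (s y) - s y ∈ Q`. The same for `Dec`. So the conditions `inr`, `dec`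
for `φ` at `Q'` give those for `φ ∘ cs` at `Q` with the same constants. -/
def StTS : Prop := ∀ (F L : Type u) [Field F] [NumberField F] [Field L] [NumberField L]
  [Algebra F L] (p : ℕ) [Fact p.Prime] (r : ℤ) (σ : L ≃ₐ[F] L)
  (s : AlgebraicClosure L ≃ₐ[F] AlgebraicClosure L) (hs : Ex σ s),
  (∀ h : GK L, tw p r (cs hs h) = tw p r h) ∧
  (∀ φ : GK L → ℤ_[p], SH L (AlgebraicClosure L) p r φ →
    SH L (AlgebraicClosure L) p r (fun h => φ (cs hs h))) ∧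
  (∀ φ : GK L → ℤ_[p], SQ L (AlgebraicClosure L) p r φ →
    SQ L (AlgebraicClosure L) p r (fun h => φ (cs hs h))) ∧
  ∀ (Q : Ideal (𝓞 (AlgebraicClosure L))), Q.IsPrime → ∃ Q' : Ideal (𝓞 (AlgebraicClosure L)),
    Q'.IsPrime ∧ ((p : 𝓞 (AlgebraicClosure L)) ∈ Q' ↔ (p : 𝓞 (AlgebraicClosure L)) ∈ Q) ∧
    (∀ h : GK L, Inr Q h → Inr Q' (cs hs h)) ∧ ∀ h : GK L, Dec Q h → Dec Q' (cs hs h)

/-- SQM (EASY). Closed under sums and multiples. `SQ`: `dec` for a sum with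
`p^(n1) φ = (tw - 1) c1`, `p^(n2) ψ = (tw - 1) c2` on `Dec Q`: `n = n1 + n2`, `c = p^(n2) c1 + p^(n1) c2`. `SH`
implies `SQ` with `n = 0`. Saturated: if `p φ` is in `SQ` then `φ` is continuous (`‖p φ g - p φ h‖ =
p⁻¹ ‖φ g - φ h‖`), a cocycle, `0` on inertia (cancel `p`), and `dec` with `n + 1`. -/
def StSQM : Prop := ∀ (L : Type u) [Field L] [NumberField L] (p : ℕ) [Fact p.Prime] (r : ℤ),
  (∃ A : Submodule ℤ_[p] (GK L → ℤ_[p]), (∀ φ, φ ∈ A ↔ SQ L (AlgebraicClosure L) p r φ) ∧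
    ∀ φ : GK L → ℤ_[p], (fun g => (p : ℤ_[p]) * φ g) ∈ A → φ ∈ A) ∧
  (∃ A : Submodule ℤ_[p] (GK L → ℤ_[p]), ∀ φ, φ ∈ A ↔ SH L (AlgebraicClosure L) p r φ) ∧
  ∀ φ : GK L → ℤ_[p], SH L (AlgebraicClosure L) p r φ → SQ L (AlgebraicClosure L) p r φ

/-- CH0 (EASY-MEDIUM). `X ∑_(i<p) (1+X)^i = (1+X)^p - 1 = ∑_(j=1)^p C(p,j) X^j`, so the sum is
`X^(p-1) + ∑_(j=1)^(p-1) C(p,j) X^(j-1)`; the constant term of the last sum is `p`, and `p` divides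
`C(p,j)` for `0 < j < p` (`Nat.Prime.dvd_choose_self`). -/
def StCH0 : Prop := ∀ p : ℕ, p.Prime → ∃ V : Polynomial ℤ,
  ∑ i ∈ Finset.range p, (1 + Polynomial.X) ^ i =
    Polynomial.X ^ (p - 1) + Polynomial.C (p : ℤ) * (1 + Polynomial.X * V)

/-- The hypotheses of the chain lemma. -/
structure Chain (G : Type u) (p : ℕ) [Fact p.Prime] (κ : G → G) (β : G → ℤ_[p])
    (A : Submodule ℤ_[p] (G → ℤ_[p])) : Prop where
  un : ∃ g, ¬ (p : ℤ_[p]) ∣ β g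
  inv : ∀ g, β (κ g) = β g
  mem : β ∈ A
  sta : ∀ φ ∈ A, (fun g => φ (κ g)) ∈ A
  per : ∀ φ ∈ A, ∀ g, φ (κ^[p] g) = φ g
  sat : ∀ φ : G → ℤ_[p], (fun g => (p : ℤ_[p]) * φ g) ∈ A → φ ∈ A
  no : ∀ θ ∈ A, (∃ c : ℤ_[p], ∀ g, (p : ℤ_[p]) ∣ θ (κ (κ g)) - 2 * θ (κ g) + θ g - c * β g) →
    ∃ c : ℤ_[p], ∀ g, (p : ℤ_[p]) ∣ θ (κ g) - θ g - c * β g

/-- CH1 (MEDIUM-HARD, from StCH0). Work in the commutative ring generated by the linear operator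
`T φ = φ ∘ κ` on `A` (`Module.End ℤ_[p] A`, or on all functions, `A` being stable), `π = T - 1`,
`N = ∑_(i<p) T^i = π^(p-1) + p W`, `W = 1 + π V(π)` (StCH0 at `π`), `T^p = 1` on `A`, so `π N = N π = 0` on
`A`. `T β = β`, so `π β = 0`, `N β = p β`, `W β = β`. `R` = the `φ ∈ A` with `N φ ∈ ℤ_p β`; it is stable under
`T` and contains `ℤ_p β`. Claim: every `φ ∈ R` is `π α + c β` with `α ∈ R`. Suppose not for `φ`. `θ = π^(p-3) φ`
(`p ≥ 3`) `∈ A`. `π² θ = π^(p-1) φ = N φ - p W φ`, congruent to a multiple of `β` modulo `p`. By `no`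
`π θ` is congruent to `c β` modulo `p`: `π θ - c β = p α` for a function `α`, `α ∈ A` by `sat`. Apply `N`:
`0 = N π^(p-2) φ` (`p - 2 ≥ 1`) `= p N α + p c β`, so `N α = -c β` and `α ∈ R`. Apply `π`:
`π^(p-1) φ = p π α`, and `= N φ - p W φ = c' β - p W φ`; so `c' β = p (π α + W φ)`, and `p` divides `c'`
because some `β g` is a unit; `c' = p c''`: `π α + φ + π V φ = c'' β`, that is
`φ = π (-(α + V φ)) + c'' β` with `α + V φ ∈ R` (`N V φ = V N φ` is a multiple of `β`): contradiction. -/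
def StCH1 : Prop := ∀ (G : Type u) (p : ℕ) [Fact p.Prime], p ≠ 2 → ∀ (κ : G → G)
  (β : G → ℤ_[p]) (A : Submodule ℤ_[p] (G → ℤ_[p])), Chain G p κ β A →
  ∀ φ ∈ A, (∃ c : ℤ_[p], ∀ g, ∑ i ∈ Finset.range p, φ (κ^[i] g) = c * β g) →
  ∃ α ∈ A, (∃ c : ℤ_[p], ∀ g, ∑ i ∈ Finset.range p, α (κ^[i] g) = c * β g) ∧
    ∃ c : ℤ_[p], ∀ g, φ g = α (κ g) - α g + c * β g

/-- CHN (MEDIUM, from StCH0, StCH1). As in CH1. Iterating CH1 `p - 1` times (`π β = 0`):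
`φ = π^(p-1) α + c β` with `α ∈ R`, and `π^(p-1) α = N α - p W α = c' β - p W α`. So every `φ ∈ R` is
`p φ1 + c β` with `φ1 ∈ R` (`W` preserves `R`). Iterate: for every `n` `φ = p^n φ_n + c_n β`. Choose `g0` with
`β g0` a unit and put `c = φ g0 / β g0`; `c_n - c` is divisible by `p^n`, so `φ g - c β g` is divisible by
`p^n` for all `n`: `φ = c β`. -/
def StCHN : Prop := ∀ (G : Type u) (p : ℕ) [Fact p.Prime], p ≠ 2 → ∀ (κ : G → G)
  (β : G → ℤ_[p]) (A : Submodule ℤ_[p] (G → ℤ_[p])), Chain G p κ β A →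
  ∀ φ ∈ A, (∃ c : ℤ_[p], ∀ g, ∑ i ∈ Finset.range p, φ (κ^[i] g) = c * β g) →
  ∃ c : ℤ_[p], ∀ g, φ g = c * β g

/-! ### Local conditions, Kummer theory, Hilbert 90 -/

/-- LCT (MEDIUM, from StDEX, StTW1). `v = Q ∩ 𝓞 F` is a place above `p`. By StDEX there is `s'` with
`Dec Q s'`, `Ex σ s'`. `g = s⁻¹ s'` is the identity on `L`, an element of `GK L`, `s' = s g`. For `h` with
`Dec Q h` let `h' = s'⁻¹ h s' ∈ GK L`: `Dec Q h'` (`Dec Q` is stable under products and inverses) and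
`tw h' = tw h`. With `p^n θ = (tw - 1) c` on `Dec Q`: `p^n θ h' = p^n θ h`, so `θ h' = θ h`. And
`h' = g⁻¹ (s⁻¹ h s) g`; `θ` is a homomorphism modulo `p` (`tw = 1` modulo `p`, StTW1), so
`θ h' = θ (s⁻¹ h s)` modulo `p`. -/
def StLCT : Prop := ∀ (F L : Type u) [Field F] [NumberField F] [Field L] [NumberField L]
  [Algebra F L] (p : ℕ) [Fact p.Prime] (ζ m : F) (x : L) (σ : L ≃ₐ[F] L), Cf F L p ζ m x σ →
  (∀ v ∈ Sp F p, ¬ Lp F p v m) →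
  ∀ (s : AlgebraicClosure L ≃ₐ[F] AlgebraicClosure L) (hs : Ex σ s) (r : ℤ) (θ : GK L → ℤ_[p]),
  SQ L (AlgebraicClosure L) p r θ → ∀ Q : Ideal (𝓞 (AlgebraicClosure L)), Q.IsPrime →
  (p : 𝓞 (AlgebraicClosure L)) ∈ Q → ∀ h : GK L, Dec Q h → (p : ℤ_[p]) ∣ θ (cs hs h) - θ h

/-- FX (MEDIUM, from StH90, StKK). A Kummer radical which is invariant under `s` modulo `L*`. `c = s u / u`:
for `h ∈ GK L`: `h (s u) = s ((cs h) u) = s (ζ^(f (cs h)) u) = ζ^(f h) s u` (`s` fixes `ζ ∈ F`, exponents modulo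
`p`), so `h c = c` for all `h` and `c ∈ L`. `∏_(i<p) σ^i c = ∏ s^i (s u / u) = s^p u / u = k u / u =
ζ^(f k) = 1`. H90: `d ≠ 0`, `σ d = c d`. `A = u / d`: `s A = s u / σ d = c u / (c d) = A`. `A^p`: every `h ∈ GK L`
maps `A` to `ζ^i A`, so `A^p` is fixed by `GK L`: it is in `L`, fixed by `s`, so by `σ`, and it lies in `F`
(`Cf.hfix`). -/
def StFX : Prop := ∀ (F L : Type u) [Field F] [NumberField F] [Field L] [NumberField L]
  [Algebra F L] (p : ℕ) [Fact p.Prime] (ζ m : F) (x : L) (σ : L ≃ₐ[F] L), Cf F L p ζ m x σ →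
  ∀ (s : AlgebraicClosure L ≃ₐ[F] AlgebraicClosure L) (hs : Ex σ s) (k : GK L),
  (∀ y, k y = (s ^ p) y) → ∀ f : GK L → ℤ_[p], (∀ h, (p : ℤ_[p]) ∣ f (cs hs h) - f h) →
  (p : ℤ_[p]) ∣ f k → ∀ u : AlgebraicClosure L, u ≠ 0 →
  (∀ h : GK L, h u = algebraMap F (AlgebraicClosure L) (ζ ^ (PadicInt.toZMod (f h)).val) * u) →
  ∃ (d : L) (a : F), d ≠ 0 ∧ a ≠ 0 ∧
    s (u / algebraMap L (AlgebraicClosure L) d) = u / algebraMap L (AlgebraicClosure L) d ∧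
    (u / algebraMap L (AlgebraicClosure L) d) ^ p = algebraMap F (AlgebraicClosure L) a

/-- NRR (MEDIUM-HARD, from StKUM, StFX, StLCT, StTS, StTW1, StMUF, StGX). `θ`, `β` are homomorphisms modulo
`p` (StTW1). KUM for `θ`: `u ≠ 0`, `h u = ζ^(θ h) u`. `b = s u / u`: `h b = ζ^(θ (cs h) - θ h) b` (as in FX).
`c = s b / b`: `h c = ζ^(f h) c`, `f h = θ (cs (cs h)) - 2 θ (cs h) + θ h`, congruent to `c0 β h`. `k` is
in the inertia group of `Q0`, so `θ k = 0`, `β k = 0` (`SQ.inr`), and `cs k = k` (`k = s^p`).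
`∏_(i<p) s^i b = s^p u / u = k u / u = 1`, `∏_(i<p) s^i c = k b / b = 1`.
Case A: `p ∣ c0`. FX for `f h = θ (cs h) - θ h`, radical `b` (invariant modulo `p` because
`f (cs h) - f h` is divisible by `p`; `f k = 0`): `A = b / d`, `s A = A`, `A^p = a ∈ F*`. `b = A d` gives
`1 = ∏ s^i b = A^p ∏ σ^i d`, so `a = ∏ σ^i (d⁻¹)`, `δ = d⁻¹`. `h A = ζ^(θ (cs h) - θ h) A`: on inertia at
`Q ∌ p`: `θ h = 0` and `θ (cs h) = 0` (StTS, `Q'`); on `Dec Q`, `p ∈ Q`: `= 0` modulo `p` by LCT. Some `h`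
has `θ (cs h) - θ h ≠ 0` modulo `p` (hypothesis with `c = 0`), so `h A ≠ A`.
Case B: `p ∤ c0`. KUM for `β`: `e`, `h e = ζ^(β h) e`; FX for `f = β` (`tw (cs h) = tw h`, so
`β (cs h) = β h` by cancelling `p^m'`): `E = e / d'`, `s E = E`, `E^p = a' ∈ F*`, `h E = ζ^(β h) E`. Let `n0` be
the natural number `(toZMod c0).val`, prime to `p`. `l = c / E^(n0)` is fixed by `GK L`, `l ∈ L*`.
`1 = ∏ s^i c = E^(p n0) ∏ σ^i l`. So `A = E^(n0)`, `a = a'^(n0)`, `δ = l⁻¹`. `h A = ζ^(n0 β h) A`: inertia: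
`β h = 0`. `Dec Q`, `p ∈ Q`: `n0 β h = f h = (θ (cs (cs h)) - θ (cs h)) - (θ (cs h) - θ h)` modulo `p`,
where the second bracket is `0` by LCT for `Q` and the first by LCT for `Q'` (StTS: `Dec Q' (cs h)`).
Some `β h` is a unit, so `h A ≠ A`. -/
def StNRR : Prop := ∀ (F L : Type u) [Field F] [NumberField F] [Field L] [NumberField L]
  [Algebra F L] (p : ℕ) [Fact p.Prime] (ζ m : F) (x : L) (σ : L ≃ₐ[F] L), Cf F L p ζ m x σ →
  (∀ v ∈ Sp F p, ¬ Lp F p v m) →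
  ∀ (s : AlgebraicClosure L ≃ₐ[F] AlgebraicClosure L) (hs : Ex σ s) (k : GK L),
  (∀ y, k y = (s ^ p) y) →
  ∀ Q0 : Ideal (𝓞 (AlgebraicClosure L)), Q0.IsPrime → (p : 𝓞 (AlgebraicClosure L)) ∉ Q0 →
  Inr Q0 k → ∀ (r : ℤ) (m' : ℕ) (β : GK L → ℤ_[p]),
  (∀ g, (p : ℤ_[p]) ^ m' * β g = tw p r g - 1) → (∃ g, ¬ (p : ℤ_[p]) ∣ β g) →
  SQ L (AlgebraicClosure L) p r β → ∀ θ : GK L → ℤ_[p], SQ L (AlgebraicClosure L) p r θ →
  (∀ c : ℤ_[p], ∃ g, ¬ (p : ℤ_[p]) ∣ θ (cs hs g) - θ g - c * β g) →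
  (∃ c : ℤ_[p], ∀ g, (p : ℤ_[p]) ∣ θ (cs hs (cs hs g)) - 2 * θ (cs hs g) + θ g - c * β g) →
  ∃ (A : AlgebraicClosure L) (a : F) (δ : L), Bad p σ A a δ

/-! ### Invariant cocycles -/

/-- EXT (MEDIUM-HARD, from StGX, StKK). Every `g ∈ Gal(Ω/F)` has `g x = ζ^j x` with a unique `j < p`, and
`s⁻ʲ g` fixes `x`, so it is (the restriction of scalars of) a unique `h ∈ GK L` (StGX); put `Ψ g = φ h`.
Cocycle: `g = s^j h`, `g' = s^(j') h'`: `g g' = s^(j+j') (s⁻ʲ' h sʲ') h'`, where `s⁻ʲ' h sʲ' = cs^[j'] h`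
and `φ (cs^[j'] h) = φ h`. If `j + j' < p`: `Ψ (g g') = φ (cs^[j'] h * h') = φ h + tw h φ h'`, and
`tw g = (tw s)^j tw h = tw h` (`tw (cs^[j'] h) = tw h`). If `j + j' ≥ p`: `s^(j+j') = s^(j+j'-p) k`, and
`φ (k * y) = φ k + tw k φ y = φ y` (`tw k = (tw s)^p = 1`). `Ψ s = φ 1 = 0`, `Ψ h = φ h`. Continuity: by
the cocycle identity it suffices that for every `n` there is an open subgroup of `Gal(Ω/F)` on which
`Ψ = 0` modulo `p^n`. There is a finite `E/L` inside `Ω` with `φ h = 0` modulo `p^n` for `h` fixing `E`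
(`φ` is continuous, `φ 1 = 0`); `E/F` is finite (`IntermediateField.restrictScalars F`), and an
automorphism over `F` which fixes `E` fixes `L`, so it comes from such an `h`. -/
def StEXT : Prop := ∀ (F L : Type u) [Field F] [NumberField F] [Field L] [NumberField L]
  [Algebra F L] (p : ℕ) [Fact p.Prime] (ζ m : F) (x : L) (σ : L ≃ₐ[F] L), Cf F L p ζ m x σ →
  ∀ (s : AlgebraicClosure L ≃ₐ[F] AlgebraicClosure L) (hs : Ex σ s) (k : GK L),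
  (∀ y, k y = (s ^ p) y) → ∀ (r : ℤ), tw p r s = 1 → ∀ φ : GK L → ℤ_[p], Continuous φ →
  (∀ g h, φ (g * h) = φ g + tw p r g * φ h) → (∀ h, φ (cs hs h) = φ h) → φ k = 0 →
  ∃ Ψ : (AlgebraicClosure L ≃ₐ[F] AlgebraicClosure L) → ℤ_[p], Continuous Ψ ∧
    (∀ g h, Ψ (g * h) = Ψ g + tw p r g * Ψ h) ∧ ∀ h : GK L, Ψ (h.restrictScalars F) = φ h

/-- EXS (MEDIUM, from StGX, StMUF, StND; `FE.pr_IC`). `inr`: let `Inr Q g`, `p ∉ Q`. `g x = ζ^j x`, so `g^p`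
fixes `x` and is the restriction of scalars of some `h ∈ GK L` (StGX), `Inr Q h` (powers of `g` are in the
inertia group), so `Ψ (g^p) = φ h = 0`. `tw g = 1` (StMUF), so `Ψ (g^p) = p Ψ g` and `Ψ g = 0`. `dec`: let
`p ∈ Q`, `φ h = (tw h - 1) c` for `h ∈ GK L`, `Dec Q h`. `Ψ' g = Ψ g - (tw g - 1) c` is a cocycle on
`Gal(Ω/F)` which vanishes on these `h`. Let `Dec Q g`, `g ∈ Gal(Ω/F)`. For `h ∈ GK L`, `Dec Q h`:
`g⁻¹ h g` fixes `x` (`g x = ζ^j x`), so it is some `h' ∈ GK L`, `Dec Q h'`.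
`Ψ' (h g) = Ψ' h + tw h Ψ' g = tw h Ψ' g` and `Ψ' (h g) = Ψ' (g h') = Ψ' g + tw g Ψ' h' = Ψ' g`. So
`(tw h - 1) Ψ' g = 0`; by StND some such `h` has `tw h ≠ 1`, so `Ψ' g = 0`. -/
def StEXS : Prop := ∀ (F L : Type u) [Field F] [NumberField F] [Field L] [NumberField L]
  [Algebra F L] (p : ℕ) [Fact p.Prime] (ζ m : F) (x : L) (σ : L ≃ₐ[F] L), Cf F L p ζ m x σ →
  ∀ r : ℤ, r ≠ 0 → ∀ φ : GK L → ℤ_[p], SH L (AlgebraicClosure L) p r φ →
  ∀ Ψ : (AlgebraicClosure L ≃ₐ[F] AlgebraicClosure L) → ℤ_[p], Continuous Ψ →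
  (∀ g h, Ψ (g * h) = Ψ g + tw p r g * Ψ h) → (∀ h : GK L, Ψ (h.restrictScalars F) = φ h) →
  SH F (AlgebraicClosure L) p r Ψ

/-- INH (MEDIUM-HARD, assembly, from StSHS, StSHF, StBET, StND, StMUF, StSEX, StKK, StTS, StSQM, StCHN, StNRR,
StEXT, StEXS; `Q3`/`FE` for lying over, `FE.pr_IC`). Suppose that there is no `Bad`. `Q0` a prime of `𝓞 Ω`
over `q` (lying over, `ITau.exists_over` in `Q3/I_Tau.lean`), `p ∉ Q0`; `s` from SEX: `Inr Q0 s`, `Ex σ s`;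
`k` from KK, `Inr Q0 k`; `tw s = tw k = 1` (MUF). `A` = the submodule of SQM, `β`, `m'` from BET.
`Chain (GK L) p (cs hs) β A`: `inv`: `p^m' β (cs g) = tw (cs g) - 1 = tw g - 1 = p^m' β g`; `sta`: TS; `per`:
`cs^[p] g = k⁻¹ g k` (KK), `φ k = 0` (`inr`), so `φ (k⁻¹ g k) = φ k⁻¹ + tw k⁻¹ (φ g + tw g φ k) = φ g`
(`φ k⁻¹ = 0`); `sat`: SQM; `no`: if it fails for `θ` then NRR gives a `Bad`. Now let `φ ∈ ShaZ L p r S`; it
is in `SH` (SHS). `ψ h = ∑_(i<p) φ (cs^[i] h)` is in `SH` (TS, SQM), `ψ (cs h) = ψ h` (`per`), `ψ k = 0`. EXT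
and EXS give `Ψ` in `SH F Ω`, SHF: `Ψ g = (tw g - 1) c`, so `ψ h = (tw h - 1) c = (c p^m') β h`. CHN:
`φ = c' β`. Take a prime `Q ∋ p` (lying over; `exists_prime_above`), `φ h = (tw h - 1) c1` on `Dec Q`, and
`h` with `Dec Q h`, `tw h ≠ 1` (ND): `c' β h = p^m' β h c1`, `β h ≠ 0`, so `c' = p^m' c1` and
`φ g = c1 p^m' β g = (tw g - 1) c1` for all `g`: `φ ∈ B1`. So `Sha1 L p r S = ⊥` (`Sha1_eq_bot_iff`), a
contradiction. -/
def StINH : Prop := ∀ (F L : Type u) [Field F] [NumberField F] [Field L] [NumberField L]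
  [Algebra F L] (p : ℕ) [Fact p.Prime] (ζ m : F) (x : L) (σ : L ≃ₐ[F] L), Cf F L p ζ m x σ →
  (∀ v ∈ Sp F p, ¬ Lp F p v m) →
  ∀ q : HeightOneSpectrum (𝓞 F), q ∉ Sp F p → ¬ Vd F p q m →
  ∀ r : ℤ, r ≠ 0 → Sha1 F p r (Sp F p) = ⊥ →
  ∀ S : Set (HeightOneSpectrum (𝓞 L)), (∀ v ∈ Sp L p, v ∈ S) → Sha1 L p r S ≠ ⊥ →
  ∃ (A : AlgebraicClosure L) (a : F) (δ : L), Bad p σ A a δ

/-! ### Translation to `F` -/

/-- TR1 (MEDIUM, from StDEX, StLG, StGX). `Q` a prime of `𝓞 Ω` over `v` (lying over), `p ∈ Q`. `s'` with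
`Dec Q s'`, `Ex σ s'` (DEX). `(s' A)^p = a = A^p`, so `s' A = ζ^j A`, `j < p`. `k = p - j`, `A' = A x^k`:
`s' A' = ζ^(j + k) A' = A'`. Let `g ∈ Gal(Ω/F)`, `Dec Q g`; `g x = ζ^i x`, so `(s'^i)⁻¹ g` fixes `x`, it comes
from some `h ∈ GK L` (StGX), `Dec Q h`, `h A = A` (`Bad.dec`), `h x = x`; so `g A' = s'^i A' = A'`. LG for
`A'^p = a m^k`. -/
def StTR1 : Prop := ∀ (F L : Type u) [Field F] [NumberField F] [Field L] [NumberField L]
  [Algebra F L] (p : ℕ) [Fact p.Prime] (ζ m : F) (x : L) (σ : L ≃ₐ[F] L), Cf F L p ζ m x σ →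
  ∀ v ∈ Sp F p, ¬ Lp F p v m →
  ∀ (A : AlgebraicClosure L) (a : F) (δ : L), Bad p σ A a δ → ∃ k : ℕ, Lp F p v (a * m ^ k)

/-- TR2 (EASY-MEDIUM, from StI1, StI2, StGX). `Q` a prime of `𝓞 Ω` over `q`. Let `g ∈ Gal(Ω/F)`,
`Inr Q g`. By StI2 for `x`, `m`: `g x = x`. So `g` comes from `h ∈ GK L` (StGX), `Inr Q h`, and `h A = A`
(`Bad.inr`). StI1 for `A`, `a`. -/
def StTR2 : Prop := ∀ (F L : Type u) [Field F] [NumberField F] [Field L] [NumberField L]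
  [Algebra F L] (p : ℕ) [Fact p.Prime] (ζ m : F) (x : L) (σ : L ≃ₐ[F] L), Cf F L p ζ m x σ →
  ∀ q : HeightOneSpectrum (𝓞 F), q ∉ Sp F p → Vd F p q m →
  ∀ (A : AlgebraicClosure L) (a : F) (δ : L), Bad p σ A a δ → Vd F p q a

/-- RAM (MEDIUM-HARD, from StSEX; compare `Q3/I_Ram.lean`). `q = (π)` (a nonzero prime ideal), `q(m) = c`
(`π ∤ N`), so `¬ Vd F p q m` (`1 ≤ c < p`). `Q` a prime of `𝓞 Ω` over `q`, `s` from SEX, `v = Q ∩ 𝓞 L`:
`σ y - y = s y - y ∈ Q` for `y ∈ 𝓞 L`, so `Inert σ v`. So `σ` lies in the inertia group of `v` in `Gal(L/F)`,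
which has `p` elements (`L/F` is Galois with group generated by `σ`); the order of the inertia group is
the ramification index (`Ideal.card_inertia_eq_ramificationIdxIn`), so `e = p`, and `e f g = p` gives
`f = 1`: `𝓞 F → 𝓞 L / v` is onto. `v(a) = q(a)^p` for `a ∈ F` (`HeightOneSpectrum.valuation_liesOver`).
`v(x)^p = v(m) = q(m)^p = exp(-c)^p`, so `v(x) = exp(-c)`. -/
def StRAM : Prop := ∀ (F L : Type u) [Field F] [NumberField F] [Field L] [NumberField L]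
  [Algebra F L] (p : ℕ) [Fact p.Prime] (ζ m : F) (x : L) (σ : L ≃ₐ[F] L), Cf F L p ζ m x σ →
  ∀ (π N : 𝓞 F) (c : ℕ), Prime π → ¬ π ∣ (p : 𝓞 F) → 1 ≤ c → c < p → ¬ π ∣ N →
  m = ((π ^ c * N : 𝓞 F) : F) →
  ∃ (q : HeightOneSpectrum (𝓞 F)) (v : HeightOneSpectrum (𝓞 L)), Rt p x σ π c q v

/-- TAM (MEDIUM-HARD, from StNX; compare `Q3/I_Tam.lean`). The tame symbol. `a = ((π^e N'' : 𝓞 F) : F)`,
`a = ∏ σ^i δ`. `σ` maps `v` to itself (it acts trivially modulo `v`), so `v(σ^i δ) = v(δ)`; with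
`v(δ) = exp(-s)`: `v(δ)^p = v(a) = q(a)^p`, so `s = e`. `ε = δ^c / x^e` has `v(ε) = 1` (value one), and
`∏ σ^i ε = a^c / m^e = N''^c / N^e` (StNX; the powers of `π` cancel). `ε = y1 / y2` with `y1, y2 ∈ 𝓞 L`
outside `v`; `y1`, `y2` are congruent modulo `v` to `z1, z2 ∈ 𝓞 F`, and `σ^i y - y ∈ v` for `y ∈ 𝓞 L`. So
`N''^c ∏ σ^i y2 = N^e ∏ σ^i y1` gives `N''^c z2^p = N^e z1^p` modulo `v`, so modulo `q` (`v ∩ 𝓞 F = q`),
`z2 ∉ q`. Choose `w ∈ 𝓞 F` with `w z2 = 1` modulo `q`: `N''^c = N^e (z1 w)^p`, multiply by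
`N^((p-1) e)`: `y = N^e z1 w`. -/
def StTAM : Prop := ∀ (F L : Type u) [Field F] [NumberField F] [Field L] [NumberField L]
  [Algebra F L] (p : ℕ) [Fact p.Prime] (ζ m : F) (x : L) (σ : L ≃ₐ[F] L), Cf F L p ζ m x σ →
  ∀ (π N N'' : 𝓞 F) (c e : ℕ) (q : HeightOneSpectrum (𝓞 F)) (v : HeightOneSpectrum (𝓞 L)),
  Prime π → 1 ≤ c → c < p → ¬ π ∣ N → ¬ π ∣ N'' → m = ((π ^ c * N : 𝓞 F) : F) →
  Rt p x σ π c q v → ∀ δ : L,
  ∏ i ∈ Finset.range p, (σ ^ i) δ = algebraMap F L ((π ^ e * N'' : 𝓞 F) : F) →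
  ∃ y : 𝓞 F, π ∣ y ^ p - N'' ^ c * N ^ ((p - 1) * e)

/-- DET (MEDIUM-HARD, assembly, from StCFG, StINH, StTR1, StTR2, StRAM, StTAM, StNX). The deterministic theorem.
Let `m = m0 ∏ π_i^(c_i)`. Take `i0 : Fin t` (`t ≥ 1`). `q0 = (π_(i0))` is a place not above `p`, `q0(m) = c_(i0)`
(`π_(i0)` divides neither `m0` nor the other `π_i`, which are not associated to it), so `m` is not a
`p`-th power in `F` and `¬ Vd F p q0 m`. CFG gives `σ`, INH (the negation of the conclusion is the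
hypothesis `Sha1 L p r S ≠ ⊥`) gives `A`, `a`, `δ`. First claim: TR1. Second: if `π_i ∉ q` for all `i`, then
`q(m) = q(m0)`, so `Vd F p q m` and TR2. Third: if `a = m^j g^p` then `A^p = (x^j g)^p`, so
`A = ζ^i x^j g ∈ L` is fixed by `GK L`, against `Bad.ne`. Fourth: let `a^l m^j g^p = D ∏ π_i^(e_i)`. It is the
norm of `δ^l x^j g` (NX; `σ` fixes `g ∈ F`). For every `k`: `m = π_k^(c_k) N`,
`N = m0 ∏_(i≠k) π_i^(c_i)`, `D ∏ π_i^(e_i) = π_k^(e_k) N''`, `N'' = D ∏_(i≠k) π_i^(e_i)`, `π_k` divides neither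
`N` nor `N''` (a prime element; not associated to the other `π_i`; `Finset.mul_prod_erase`). RAM and TAM. -/
def StDET : Prop := ∀ (F : Type u) [Field F] [NumberField F] (p : ℕ) [Fact p.Prime], p ≠ 2 →
  ∀ ζ : F, IsPrimitiveRoot ζ p → ∀ (t : ℕ) (m0 : 𝓞 F) (π : Fin t → 𝓞 F) (c : Fin t → ℕ),
  1 ≤ t → m0 ≠ 0 → (∀ q, q ∉ Sp F p → Vd F p q (m0 : F)) → (∀ i, Prime (π i)) →
  (∀ i, ¬ π i ∣ (p : 𝓞 F)) → (∀ i k, Associated (π i) (π k) → i = k) → (∀ i, ¬ π i ∣ m0) →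
  (∀ i, 1 ≤ c i ∧ c i < p) →
  (∀ v ∈ Sp F p, ¬ Lp F p v ((m0 * ∏ i, π i ^ c i : 𝓞 F) : F)) →
  ∀ (L : Type u) [Field L] [NumberField L] [Algebra F L] (x : L), Module.finrank F L = p →
  x ^ p = algebraMap F L ((m0 * ∏ i, π i ^ c i : 𝓞 F) : F) →
  ∀ r : ℤ, r ≠ 0 → Sha1 F p r (Sp F p) = ⊥ →
  ∀ S : Set (HeightOneSpectrum (𝓞 L)), (∀ v ∈ Sp L p, v ∈ S) → Sha1 L p r S ≠ ⊥ →
  ∃ a : F, a ≠ 0 ∧
    (∀ v ∈ Sp F p, ∃ k : ℕ, Lp F p v (a * ((m0 * ∏ i, π i ^ c i : 𝓞 F) : F) ^ k)) ∧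
    (∀ q, q ∉ Sp F p → (∀ i, π i ∉ q.asIdeal) → Vd F p q a) ∧
    (∀ (j : ℕ) (g : F), a ≠ ((m0 * ∏ i, π i ^ c i : 𝓞 F) : F) ^ j * g ^ p) ∧
    ∀ (l j : ℕ) (g : F) (D : 𝓞 F) (e : Fin t → ℕ), g ≠ 0 → (∀ k, ¬ π k ∣ D) →
      a ^ l * ((m0 * ∏ i, π i ^ c i : 𝓞 F) : F) ^ j * g ^ p = ((D * ∏ i, π i ^ e i : 𝓞 F) : F) →
      ∀ k, ∃ y : 𝓞 F, π k ∣ y ^ p - (D * ∏ i ∈ Finset.univ.erase k, π i ^ e i) ^ c k *
        (m0 * ∏ i ∈ Finset.univ.erase k, π i ^ c i) ^ ((p - 1) * e k)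

end Pool.Agent.Work.MP_59f3ad_nt.PX
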