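import Mathlib
import Pool.Agent.Work.MP_59f3ad_nt.PX.StmtsA

/-!
Block PX, part B: residue symbols, the bilinear large sieve in an arbitrary number field, the count.
Every docstring is the complete proof. Models: folder `Q3` (`ℤ[ω]`, `p = 3`): `I_Per`, `I_Box`, `I_Dua`,
`I_UF`, `I_Rep`, `I_Bil`, `I_Blt`, `I_Fmo`, `I_Eqn`, `MainB`. `n` is the degree of `F`, the cardinality of
the index set `ι` of an integral basis `b`. `nm π` is the norm of the ideal `(π)`.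
-/

set_option autoImplicit false

open NumberField IsDedekindDomain

namespace Pool.Agent.Work.MP_59f3ad_nt.PX

universe u

/-! ### Symbols and the large sieve -/

/-- EP (EASY). `ep` is `ZMod.stdAddChar` (or the exponential directly): an additive character with values
of absolute value `1`; the sum over `ℤ/p` of the nontrivial character `j ↦ ep (j a)` is `0`. -/
def StEP : Prop := ∀ (p : ℕ) [Fact p.Prime], (∀ a b : ZMod p, ep p (a + b) = ep p a * ep p b) ∧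
  (∀ a : ZMod p, ‖ep p a‖ = 1) ∧ (∀ a : ZMod p, (starRingEnd ℂ) (ep p a) = ep p (-a)) ∧
  (∀ a : ZMod p, a ≠ 0 → ep p a ≠ 1) ∧
  ∀ a : ZMod p, a ≠ 0 → ∑ j : ZMod p, ep p (j * a) = 0

/-- IND (MEDIUM). Let `π` be a prime element not above `p`, `k = 𝓞 F / (π)`, a finite field with `N`
elements (`(π)` is a nonzero prime ideal, so maximal; finite quotient). `ζ` is in `𝓞 F`, its powers
`ζ^i`, `0 < i < p`, are not `1` modulo `π` (`p` is the product of the `1 - ζ^i`), so `p ∣ N - 1`. The unit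
group of `k` is cyclic with a generator `g`; for `z` with `π ∤ z` put `ind π z = (j mod p)` where
`z = g^j` modulo `π` (`p ∣ N - 1`: well defined), `ind π z = 0` otherwise; for other `π` anything. `z` is a
`p`-th power modulo `π` if and only if `p ∣ j`; `ind π z = 1` for a lift `z` of `g`. `cong`: if `π ∣ z - z'`
then `π ∣ z ↔ π ∣ z'`. -/
def StIND : Prop := ∀ (F : Type u) [Field F] [NumberField F] (p : ℕ) [Fact p.Prime] (ζ : F),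
  IsPrimitiveRoot ζ p → ∃ ind : 𝓞 F → 𝓞 F → ZMod p, Sym F p ind

open Classical in
/-- PER (MEDIUM-HARD). `q = nm π * nm π1`. `nm π ∈ (π)` (`Ideal.absNorm_mem`), so `π ∣ q`, `π1 ∣ q` and the
first claim is `Sym.cong` (and `π ∣ z ↔ π ∣ z + q z'`). Sum: the map `a ↦ ∑ a_i b_i` from `(ℤ/q)^ι` to
`𝓞 F / (q)` is a bijection, followed by the surjective additive map to `𝓞 F / (π) × 𝓞 F / (π1)` (the
ideals are different maximal ideals, so coprime: Chinese remainder theorem), whose fibres all have the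
same number of elements. So the sum is a multiple of
`(∑_(u mod π) χ(u)) (∑_(v mod π1) conj χ1(v))`, and the first factor is `0`: `χ` is a homomorphism on the
units modulo `π` (`Sym.mul`, StEP), not trivial as some `z` has `ind π z ≠ 0`, `e ≠ 0` (multiply the sum
by `χ(z) ≠ 1`). Variant: choose `w ∈ 𝓞 F` with `w = z` modulo `π`, `w = 1` modulo all other primes
dividing `q` (so `w` is a unit modulo `q` and `w = 1` modulo `π1`); multiplication by `w` permutes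
`𝓞 F / (q)` and multiplies the sum by `χ(z) ≠ 1`. -/
def StPER : Prop := ∀ (F : Type u) [Field F] [NumberField F] (p : ℕ) [Fact p.Prime]
  (ind : 𝓞 F → 𝓞 F → ZMod p), Sym F p ind → ∀ (ι : Type) [Fintype ι]
  (b : Module.Basis ι ℤ (𝓞 F)) (π π1 : 𝓞 F), Prime π → Prime π1 → ¬ π ∣ (p : 𝓞 F) →
  ¬ π1 ∣ (p : 𝓞 F) → ¬ Associated π π1 → ∀ e : ZMod p, e ≠ 0 →
  (∀ z z' : 𝓞 F, chi p ind e π (z + ((nm π * nm π1 : ℕ) : 𝓞 F) * z') = chi p ind e π z ∧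
    chi p ind e π1 (z + ((nm π * nm π1 : ℕ) : 𝓞 F) * z') = chi p ind e π1 z) ∧
  (∑ a ∈ Fintype.piFinset (fun _ : ι => Finset.Ico (0 : ℤ) ((nm π * nm π1 : ℕ) : ℤ)),
    chi p ind e π (∑ i, a i • b i) * (starRingEnd ℂ) (chi p ind e π1 (∑ i, a i • b i))) = 0

open Classical in
/-- PBX (MEDIUM). Incomplete sums of periodic functions. `S = 2B + 1 = q s + ρ`, `ρ < q`. The box
`[-B, -B + q s)^ι` is the disjoint union of the `s^n` translates of `[0, q)^ι` by the vectors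
`-B + q j`, `j ∈ [0, s)^ι`, and the sum of `f` over any translate of `[0, q)^ι` is the sum over
`[0, q)^ι`, `0` (every translate is a complete system of residues modulo `q`; `f` depends only on the
residues). The rest of the box has `S^n - (q s)^n ≤ n (S - q s) S^(n-1) ≤ n q S^(n-1)` elements, where
`‖f‖ ≤ 1`. -/
def StPBX : Prop := ∀ (ι : Type) [Fintype ι] (q B : ℕ) (f : (ι → ℤ) → ℂ), 0 < q →
  (∀ a, ‖f a‖ ≤ 1) → (∀ a a' : ι → ℤ, f (fun i => a i + (q : ℤ) * a' i) = f a) →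
  ∑ a ∈ Fintype.piFinset (fun _ : ι => Finset.Ico (0 : ℤ) (q : ℤ)), f a = 0 →
  ‖∑ a ∈ Fintype.piFinset (fun _ : ι => Finset.Icc (-(B : ℤ)) B), f a‖ ≤
    (Fintype.card ι : ℝ) * (2 * (B : ℝ) + 1) ^ (Fintype.card ι - 1) * q

/-- BOX (EASY-MEDIUM, from StPER, StPBX, StEP). `bx b B` is the injective image of the box of
coordinates. `f a = χ_π(z) conj χ_(π1)(z)`, `z = ∑ a_i b_i`; `‖f‖ ≤ 1`; period `q = nm π * nm π1 > 0`. -/
def StBOX : Prop := ∀ (F : Type u) [Field F] [NumberField F] (p : ℕ) [Fact p.Prime]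
  (ind : 𝓞 F → 𝓞 F → ZMod p), Sym F p ind → ∀ (ι : Type) [Fintype ι]
  (b : Module.Basis ι ℤ (𝓞 F)) (π π1 : 𝓞 F), Prime π → Prime π1 → ¬ π ∣ (p : 𝓞 F) →
  ¬ π1 ∣ (p : 𝓞 F) → ¬ Associated π π1 → ∀ e : ZMod p, e ≠ 0 → ∀ B : ℕ,
  ‖∑ z ∈ bx b B, chi p ind e π z * (starRingEnd ℂ) (chi p ind e π1 z)‖ ≤
    (Fintype.card ι : ℝ) * (2 * (B : ℝ) + 1) ^ (Fintype.card ι - 1) * (nm π * nm π1)

/-- DUA (MEDIUM, from StBOX, StEP; copy of `Q3/I_Dua.lean`). Large sieve by duality.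
`S_π = ∑_z c(z) χ_π(z)`, `W = ∑_π ‖S_π‖²`. `W = ∑_z c(z) T(z)`, `T(z) = ∑_π conj(S_π) χ_π(z)`. Cauchy:
`W² ≤ (∑‖c‖²) ∑_z ‖T(z)‖²`, and `∑_(z ∈ bx b B) ‖T(z)‖² ≤ ∑_(π,π1) ‖S_π‖ ‖S_π1‖ G(π,π1) ≤
∑_π ‖S_π‖² ∑_π1 G(π,π1)` with `G(π,π) ≤ #bx b B ≤ (2B+1)^n` and `G(π,π1) ≤ n (2B+1)^(n-1) Y²` for
`π ≠ π1` (StBOX). So `W² ≤ Δ W ∑‖c‖²`; divide by `W`. -/
def StDUA : Prop := ∀ (F : Type u) [Field F] [NumberField F] (p : ℕ) [Fact p.Prime]
  (ind : 𝓞 F → 𝓞 F → ZMod p), Sym F p ind → ∀ (ι : Type) [Fintype ι]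
  (b : Module.Basis ι ℤ (𝓞 F)) (Y B : ℕ) (P : Finset (𝓞 F)),
  (∀ π ∈ P, Prime π ∧ ¬ π ∣ (p : 𝓞 F) ∧ nm π ≤ Y) →
  (∀ π ∈ P, ∀ π1 ∈ P, Associated π π1 → π = π1) → ∀ e : ZMod p, e ≠ 0 → ∀ c : 𝓞 F → ℂ,
  ∑ π ∈ P, ‖∑ z ∈ bx b B, c z * chi p ind e π z‖ ^ 2 ≤
    ((2 * (B : ℝ) + 1) ^ Fintype.card ι +
      P.card * ((Fintype.card ι : ℝ) * (2 * (B : ℝ) + 1) ^ (Fintype.card ι - 1) * (Y : ℝ) ^ 2)) *
      ∑ z ∈ bx b B, ‖c z‖ ^ 2

/-- CRD (MEDIUM). Coordinates are bounded by conjugates. `b` is a `ℚ`-basis of `F`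
(`Basis.localizationLocalization` or `NumberField.integralBasis`-type; or: `b i` is linearly independent over `ℚ`
and spans, `card ι = n`). Let `b*` be the dual basis for the trace form of `F/ℚ`
(`LinearMap.BilinForm.dualBasis (Algebra.traceForm ℚ F)`, nondegenerate): the coordinate of `z` at `i` is
`Tr(z b*_i) = ∑_s s(z) s(b*_i)`, the sum over the `n` embeddings `s : F → ℂ`
(`trace_eq_sum_embeddings`), of absolute value at most `n Y max ‖s(b*_i)‖`. `C` is any natural number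
above `n max ‖s(b*_i)‖ + 1`. (Another way: all norms on `ℝ^n` are equivalent,
`NumberField.mixedEmbedding`.) -/
def StCRD : Prop := ∀ (F : Type u) [Field F] [NumberField F] (ι : Type) [Fintype ι]
  (b : Module.Basis ι ℤ (𝓞 F)), ∃ C : ℕ, 1 ≤ C ∧ ∀ (Y : ℕ) (z : 𝓞 F),
    (∀ s : F →+* ℂ, ‖s (z : F)‖ ≤ (Y : ℝ)) → z ∈ bx b (C * Y)

/-- NMB (EASY). `nm z = |N(z)|` (`Ideal.absNorm_span_singleton`) `= ∏_s ‖s(z)‖ ≤ X^n`
(`Algebra.norm_eq_prod_embeddings`). -/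
def StNMB : Prop := ∀ (F : Type u) [Field F] [NumberField F] (X : ℕ) (z : 𝓞 F),
  (∀ s : F →+* ℂ, ‖s (z : F)‖ ≤ (X : ℝ)) → nm z ≤ X ^ Module.finrank ℚ F

/-- UFD (EASY-MEDIUM, copy of `Q3/I_UF.lean`). `𝓞 F` is a domain; products of prime elements factor
uniquely up to associated elements (`prime_factors_unique`, valid in any cancellative monoid with zero), and associated elements of
`P` are equal. So the multisets are equal and there is a permutation. -/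
def StUFD : Prop := ∀ (F : Type u) [Field F] [NumberField F] (P : Finset (𝓞 F)),
  (∀ z ∈ P, Prime z) → (∀ z ∈ P, ∀ z' ∈ P, Associated z z' → z = z') →
  ∀ (J : ℕ) (v v' : Fin J → 𝓞 F), (∀ i, v i ∈ P) → (∀ i, v' i ∈ P) →
  ∏ i, v i = ∏ i, v' i → ∃ ρ : Equiv.Perm (Fin J), ∀ i, v' i = v (ρ i)

open Classical in
/-- REP (EASY-MEDIUM, from StUFD; copy of `Q3/I_Rep.lean`). The inner sum has absolute value at most the
number `n(z)` of `v ∈ P^J` with product `z`, and `∑_z n(z)² ≤ #{(v, v') : ∏ v = ∏ v'} ≤ |P|^J J!` (for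
given `v` at most `J!` tuples `v'`). -/
def StREP : Prop := ∀ (F : Type u) [Field F] [NumberField F] (P : Finset (𝓞 F)),
  (∀ z ∈ P, Prime z) → (∀ z ∈ P, ∀ z' ∈ P, Associated z z' → z = z') →
  ∀ (J : ℕ) (β : 𝓞 F → ℂ), (∀ z, ‖β z‖ ≤ 1) → ∀ Z : Finset (𝓞 F),
  ∑ z ∈ Z, ‖∑ v ∈ (Fintype.piFinset (fun _ : Fin J => P)).filter
    (fun v => ∏ i, v i = z), ∏ i, β (v i)‖ ^ 2 ≤ (J.factorial : ℝ) * (P.card : ℝ) ^ J

/-- BIL (MEDIUM, from StDUA, StREP, StNMB, StEP; copy of `Q3/I_Bil.lean`). `S = ∑_π α_π A_π`,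
`A_π = ∑_(π') β_π' χ_π(π')`. `‖S‖^(2J) ≤ |P|^(2J-1) ∑_π ‖A_π‖^(2J)` (Hoelder:
`inner_le_nnorm_mul_nnorm`, `inv_mul...`, or `Finset.inner...`: see `Q3/I_Bil.lean`), and
`A_π^J = ∑_(v ∈ P'^J) ∏ β(v i) χ_π(∏ v) = ∑_(z ∈ bx b B) c(z) χ_π(z)`, `B = C X^J`,
`c(z) = ∑_(∏ v = z) ∏ β(v i)` (`χ_π` is completely multiplicative: `Sym.mul`, `Prime π`; all
conjugates of `∏ v` are at most `X^J` in absolute value, so `∏ v ∈ bx b B` by hypothesis). So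
`∑_π ‖A_π‖^(2J) = ∑_π ‖A_π^J‖² ≤ Δ ∑‖c‖²` (StDUA, `Y = X^n` by StNMB) `≤ Δ J! |P'|^J` (StREP). -/
def StBIL : Prop := ∀ (F : Type u) [Field F] [NumberField F] (p : ℕ) [Fact p.Prime]
  (ind : 𝓞 F → 𝓞 F → ZMod p), Sym F p ind → ∀ (ι : Type) [Fintype ι]
  (b : Module.Basis ι ℤ (𝓞 F)) (C : ℕ), (∀ (Y : ℕ) (z : 𝓞 F),
    (∀ s : F →+* ℂ, ‖s (z : F)‖ ≤ (Y : ℝ)) → z ∈ bx b (C * Y)) →
  ∀ (X J : ℕ), 1 ≤ J → ∀ P P' : Finset (𝓞 F), Adm F p X P → Adm F p X P' →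
  ∀ e : ZMod p, e ≠ 0 → ∀ α β : 𝓞 F → ℂ, (∀ z, ‖α z‖ ≤ 1) → (∀ z, ‖β z‖ ≤ 1) →
  ‖∑ π ∈ P, ∑ π' ∈ P', α π * β π' * chi p ind e π π'‖ ^ (2 * J) ≤
    (P.card : ℝ) ^ (2 * J - 1) * (((2 * ((C * X ^ J : ℕ) : ℝ) + 1) ^ Fintype.card ι +
      P.card * ((Fintype.card ι : ℝ) * (2 * ((C * X ^ J : ℕ) : ℝ) + 1) ^ (Fintype.card ι - 1) *
        ((X : ℝ) ^ Module.finrank ℚ F) ^ 2)) * ((J.factorial : ℝ) * (P'.card : ℝ) ^ J))

/-- BLT (MEDIUM-HARD, from StBIL, StCRD, StEP; compare `Q3/I_Blt.lean`). Let `n` be the degree, `b` the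
integral basis reindexed by `Fin n` (`Module.finBasis ℤ (𝓞 F)`, `RingOfIntegers.rank`), `C` from CRD,
`J = 3 n`. For `π ∤ π'` `ep (e * ind π π') = chi p ind e π π'`; for every `π ∈ P` at most one `π' ∈ P'` is
divisible by `π` (then `π`, `π'` are associated, and `Adm.na` for `P'`), so the sum differs from the sum
of BIL by at most `|P|`, which is `≤ (δ/2) |P||P'|` for large `X`. `X ≥ 1`. All elements of `P` are in
`bx b (C X)`, so `|P| ≤ (2 C X + 1)^n ≤ (3C)^n X^n`. So the bracket of BIL is at most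
`(3C)^n X^(nJ) + (3C)^n X^n n (3C)^(n-1) X^(J(n-1)) X^(2n) = C' X^(nJ)` (as `n + J(n-1) + 2n = nJ`), and
`(‖S‖/(|P||P'|))^(2J) ≤ C' J! X^(nJ) / (|P| |P'|^J) ≤ C' J! X^(nJ - (n - 1/4)(J+1)) =
C' J! X^((1-n)/4)`, which tends to `0` as `n ≥ 2`. -/
def StBLT : Prop := ∀ (F : Type u) [Field F] [NumberField F] (p : ℕ) [Fact p.Prime]
  (ind : 𝓞 F → 𝓞 F → ZMod p), Sym F p ind → 2 ≤ Module.finrank ℚ F → ∀ δ : ℝ, 0 < δ →
  ∃ X0 : ℕ, ∀ X : ℕ, X0 ≤ X → ∀ P P' : Finset (𝓞 F), Adm F p X P → Adm F p X P' →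
  (X : ℝ) ^ ((Module.finrank ℚ F : ℝ) - 1 / 4) ≤ P.card →
  (X : ℝ) ^ ((Module.finrank ℚ F : ℝ) - 1 / 4) ≤ P'.card →
  ∀ e : ZMod p, e ≠ 0 → ∀ α β : 𝓞 F → ℂ, (∀ z, ‖α z‖ ≤ 1) → (∀ z, ‖β z‖ ≤ 1) →
  ‖∑ π ∈ P, ∑ π' ∈ P', α π * β π' * ep p (e * ind π π')‖ ≤ δ * (P.card * P'.card)

open Classical in
/-- FMO (MEDIUM-HARD, from StBLT, StEP; compare `Q3/I_Fmo.lean`, `Q3/I_FmT.lean`). First moment. Put
`u k i = c k * e i - c i * e k` (antisymmetric; `u k i = c k c i (h i - h k)`, `h = e / c`). Choose any index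
`j0 : Fin t` and drop the condition at `j0`: the number is at most the number of tuples with
`v_k := ∑_(i ≠ k) u k i ind (π k) (π i) - f k (π k) = 0` for all `k ≠ j0`, which is
`p^(1-t) ∑_y ∑_π ep (∑_k y_k v_k)`, `y` in `(ℤ/p)^t` with `y_(j0) = 0` (orthogonality, StEP). `y = 0` gives
`∏ |P i|`. Let `y ≠ 0`. There are `k`, `i` with `y_k ≠ 0`, `y_i = 0`, `u k i ≠ 0`: otherwise `h_k = h_i` for
all `k` with `y_k ≠ 0` and all `i` with `y_i = 0`; both sets are not empty, so `h` is constant,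
contradiction. Fix all components except `i`, `k`. In `ep (∑_l y_l v_l)` the symbol `ind (π i) (π k)` does
not occur (`y_i = 0`), the symbol `ind (π k) (π i)` occurs with the coefficient `y_k u k i ≠ 0`, all other
terms depend on `π i` or on `π k` (and the fixed components) only. So it is
`α(π k) β(π i) ep (e' ind (π k) (π i))`, `‖α‖, ‖β‖ ≤ 1`, and StBLT (`P = P k`, `P' = P i`) bounds the sum by
`δ ∏ |P i|`. Total `≤ p^(1-t) (1 + (p^(t-1) - 1) δ) ∏ |P i|`. -/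
def StFMO : Prop := ∀ (F : Type u) [Field F] [NumberField F] (p : ℕ) [Fact p.Prime]
  (ind : 𝓞 F → 𝓞 F → ZMod p), Sym F p ind → 2 ≤ Module.finrank ℚ F →
  ∀ (t : ℕ) (c e : Fin t → ZMod p), (∀ i, c i ≠ 0) → (∃ i k, c k * e i ≠ c i * e k) →
  ∀ δ : ℝ, 0 < δ → ∃ X0 : ℕ, ∀ X : ℕ, X0 ≤ X → ∀ P : Fin t → Finset (𝓞 F),
  (∀ i, Adm F p X (P i)) →
  (∀ i, (X : ℝ) ^ ((Module.finrank ℚ F : ℝ) - 1 / 4) ≤ (P i).card) →
  ∀ f : Fin t → 𝓞 F → ZMod p,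
  (((Fintype.piFinset P).filter (fun π => ∀ k,
    ∑ i ∈ Finset.univ.erase k, (c k * e i - c i * e k) * ind (π k) (π i) =
      f k (π k))).card : ℝ) ≤ ((p : ℝ) / (p : ℝ) ^ t + δ) * ∏ i, ((P i).card : ℝ)

open Classical in
/-- EXC (MEDIUM; compare `Q3/I_Eqn.lean`). Exceptional tuples are rare. Given `i ≠ k` and `π_i`, at most one
`z ∈ P k` is associated to `π_i` (`Adm.na`). The nonassociated prime elements dividing `D0 ≠ 0` generate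
different prime ideals dividing `(D0)`, so there are at most `N0` of them (the number of ideals dividing
`(D0)` is finite). So the number of exceptional tuples is at most
`∑_(i≠k) ∏_(j≠k) |P j| + ∑_i N0 ∏_(j≠i) |P j| ≤ (t² + t N0) X^(-(n-1/4)) ∏ |P j|` (`n ≥ 1`). -/
def StEXC : Prop := ∀ (F : Type u) [Field F] [NumberField F] (p t : ℕ) (D0 : 𝓞 F), D0 ≠ 0 →
  ∀ δ : ℝ, 0 < δ → ∃ X0 : ℕ, ∀ X : ℕ, X0 ≤ X → ∀ P : Fin t → Finset (𝓞 F),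
  (∀ i, Adm F p X (P i)) →
  (∀ i, (X : ℝ) ^ ((Module.finrank ℚ F : ℝ) - 1 / 4) ≤ (P i).card) →
  (((Fintype.piFinset P).filter (fun π => (∃ i k, i ≠ k ∧ Associated (π i) (π k)) ∨
    ∃ i, π i ∣ D0)).card : ℝ) ≤ δ * ∏ i, ((P i).card : ℝ)

/-- DEG (EASY). `ℚ(ζ) ⊆ F` has degree `p - 1 ≥ 2` over `ℚ` and it divides `[F : ℚ]`; or: a field of degree
`1` over `ℚ` has only the roots of unity `1, -1`. -/
def StDEG : Prop := ∀ (F : Type u) [Field F] [NumberField F] (p : ℕ) [Fact p.Prime], p ≠ 2 →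
  ∀ ζ : F, IsPrimitiveRoot ζ p → 2 ≤ Module.finrank ℚ F

/-! ### From the deterministic theorem to relations -/

/-- The element `m0 ∏ x_i^(c_i)`. -/
noncomputable def Mx {F : Type u} [Field F] [NumberField F] {t : ℕ} (m0 : 𝓞 F)
    (x : Fin t → 𝓞 F) (c : Fin t → ℕ) : 𝓞 F := m0 * ∏ i, x i ^ c i

/-- `d` is a witness for the exponent vector `e`: its valuations outside `p` are divisible by `p`, and
`d ∏ x_i^(e_i)` is, at every place above `p`, a `p`-th power times a power of `M = m0 ∏ x_i^(c_i)`. -/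
structure Wt {F : Type u} [Field F] [NumberField F] (p : ℕ) {t : ℕ} (m0 : 𝓞 F)
    (x : Fin t → 𝓞 F) (c : Fin t → ℕ) (e : Fin t → ZMod p) (d : 𝓞 F) : Prop where
  ne : d ≠ 0
  val : ∀ q : HeightOneSpectrum (𝓞 F), q ∉ Sp F p → Vd F p q (d : F)
  loc : ∀ v ∈ Sp F p, ∃ k : ℕ,
    Lp F p v ((d * (∏ i, x i ^ (e i).val) * Mx m0 x c ^ k : 𝓞 F) : F)

/-- The standing hypotheses: `m0`, the reference elements `x`, the exponents `c`, and the tuple `π`. -/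
structure Ctx {F : Type u} [Field F] [NumberField F] (p : ℕ) {t : ℕ} (m0 : 𝓞 F)
    (x : Fin t → 𝓞 F) (c : Fin t → ℕ) (π : Fin t → 𝓞 F) : Prop where
  ht : 1 ≤ t
  m0n : m0 ≠ 0
  m0v : ∀ q : HeightOneSpectrum (𝓞 F), q ∉ Sp F p → Vd F p q (m0 : F)
  xn : ∀ i, x i ≠ 0
  hc : ∀ i, 1 ≤ c i ∧ c i < p
  nsp : ∀ v ∈ Sp F p, ¬ Lp F p v (Mx m0 x c : F)
  hH : ∀ d : 𝓞 F, Wt p m0 x c 0 d → ∃ g : 𝓞 F, g ^ p = d
  pr : ∀ i, Prime (π i)
  np : ∀ i, ¬ π i ∣ (p : 𝓞 F)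
  na : ∀ i k, Associated (π i) (π k) → i = k
  nm0 : ∀ i, ¬ π i ∣ m0
  lc : ∀ i, ∀ v ∈ Sp F p, ∃ y : v.adicCompletion F,
    algebraMap F (v.adicCompletion F) (π i : F) =
      algebraMap F (v.adicCompletion F) (x i : F) * y ^ p

/-- The conclusion of the deterministic theorem `StDET`. -/
structure Dt {F : Type u} [Field F] [NumberField F] (p : ℕ) {t : ℕ} (m0 : 𝓞 F)
    (c : Fin t → ℕ) (π : Fin t → 𝓞 F) (a : F) : Prop where
  ne : a ≠ 0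
  loc : ∀ v ∈ Sp F p, ∃ k : ℕ, Lp F p v (a * (Mx m0 π c : F) ^ k)
  val : ∀ q : HeightOneSpectrum (𝓞 F), q ∉ Sp F p → (∀ i, π i ∉ q.asIdeal) → Vd F p q a
  non : ∀ (j : ℕ) (g : F), a ≠ (Mx m0 π c : F) ^ j * g ^ p
  tam : ∀ (l j : ℕ) (g : F) (D : 𝓞 F) (e : Fin t → ℕ), g ≠ 0 → (∀ k, ¬ π k ∣ D) →
    a ^ l * (Mx m0 π c : F) ^ j * g ^ p = ((D * ∏ i, π i ^ e i : 𝓞 F) : F) →
    ∀ k, ∃ y : 𝓞 F, π k ∣ y ^ p - (D * ∏ i ∈ Finset.univ.erase k, π i ^ e i) ^ c k *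
      (m0 * ∏ i ∈ Finset.univ.erase k, π i ^ c i) ^ ((p - 1) * e k)

/-- `a^l m^j` has the exponent vector `e` at the `π_i` and the cofactor `D`. -/
structure Rl {F : Type u} [Field F] [NumberField F] (p : ℕ) {t : ℕ} (m0 : 𝓞 F)
    (x : Fin t → 𝓞 F) (c : Fin t → ℕ) (π : Fin t → 𝓞 F) (a : F) (l j : ℕ) (e : Fin t → ZMod p)
    (D : 𝓞 F) (g : F) : Prop where
  gn : g ≠ 0
  cop : ∀ k, ¬ π k ∣ D
  eq : a ^ l * (Mx m0 π c : F) ^ j * g ^ p = ((D * ∏ i, π i ^ (e i).val : 𝓞 F) : F)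
  wit : Wt p m0 x c e D

/-- LFT (MEDIUM). Let `q_i = (π_i)`, different places, `n_i ∈ ℤ` the value of `a` at `q_i`,
`n_i = e_i + p f_i` with `0 ≤ e_i < p`. `b = a ∏ π_i^(-n_i)` has value zero at all `q_i`
(`q_i(π_j) = 0` for `j ≠ i`). Write `b = b1 / b2` with `b1 ∈ 𝓞 F`, `b2 ∈ 𝓞 F` outside all `q_i`: the ideal of
the `y ∈ 𝓞 F` with `y b ∈ 𝓞 F` is not contained in any `q_i` (`b` is integral at `q_i`), so by prime
avoidance (`Ideal.subset_union_prime`) it contains an element `b2` outside all `q_i`. `D = b1 b2^(p-1)`,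
`g = b2 ∏ π_i^(-f_i)`: `a g^p = b ∏ π_i^(n_i) b2^p ∏ π_i^(-p f_i) = D ∏ π_i^(e_i)`; `π_i ∤ b1` as the value
of `b` is zero. -/
def StLFT : Prop := ∀ (F : Type u) [Field F] [NumberField F] (p t : ℕ), 1 ≤ p →
  ∀ π : Fin t → 𝓞 F, (∀ i, Prime (π i)) → (∀ i k, Associated (π i) (π k) → i = k) →
  ∀ a : F, a ≠ 0 → ∃ (e : Fin t → ℕ) (g : F) (D : 𝓞 F), (∀ i, e i < p) ∧ g ≠ 0 ∧
    (∀ k, ¬ π k ∣ D) ∧ a * g ^ p = ((D * ∏ i, π i ^ e i : 𝓞 F) : F)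

/-- LPM (EASY). Local `p`-th powers: multiplicative; nonzero elements congruent modulo local `p`-th powers
can be exchanged; cancellation. (1) `Lp a`, `Lp b` give `Lp (a b)`, `Lp (a^k)`; (2) `Lp (g^p)`; (3) if
`Lp (a b)`, `Lp b`, `b ≠ 0` then `Lp a`. (4) In a context: for every `e : Fin t → ℕ`, `k` and `v ∈ Sp F p` and
`D`: `Lp v (D ∏ π_i^(e_i) (Mx m0 π c)^k) ↔ Lp v (D ∏ x_i^(e_i) (Mx m0 x c)^k)`, because `π_i = x_i y_i^p`
in the completion, `y_i ≠ 0`. -/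
def StLPM : Prop := (∀ (F : Type u) [Field F] [NumberField F] (p : ℕ)
    (v : HeightOneSpectrum (𝓞 F)), (∀ a b : F, Lp F p v a → Lp F p v b → Lp F p v (a * b)) ∧
    (∀ (a : F) (k : ℕ), Lp F p v a → Lp F p v (a ^ k)) ∧ (∀ g : F, Lp F p v (g ^ p)) ∧
    ∀ a b : F, b ≠ 0 → Lp F p v (a * b) → Lp F p v b → Lp F p v a) ∧
  ∀ (F : Type u) [Field F] [NumberField F] (p : ℕ) [Fact p.Prime] (t : ℕ) (m0 : 𝓞 F)
    (x : Fin t → 𝓞 F) (c : Fin t → ℕ) (π : Fin t → 𝓞 F), Ctx p m0 x c π →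
    ∀ v ∈ Sp F p, ∀ (D : 𝓞 F) (e : Fin t → ℕ) (k : ℕ),
    Lp F p v ((D * (∏ i, π i ^ e i) * Mx m0 π c ^ k : 𝓞 F) : F) ↔
      Lp F p v ((D * (∏ i, x i ^ e i) * Mx m0 x c ^ k : 𝓞 F) : F)

/-- RL1 (MEDIUM, from StLFT, StLPM). `LFT` for `a^l m^j`, `m = Mx m0 π c ≠ 0`, gives `e`, `g`, `D`; as an element
of `(ℤ/p)^t`, `(e_i : ZMod p).val = e_i` since `e_i < p`. `D ≠ 0` (`t ≥ 1`, `π_0 ∤ D`). Valuations of `D` at
`q ∉ Sp F p`: if some `π_i ∈ q` then `q = (π_i)` and `q(D) = 0`, divisible by `p` (`y = 1`); otherwise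
`q(D) = l q(a) + j q(m0) + p q(g)`, all divisible by `p` (`Dt.val`, `Ctx.m0v`; `q(π_i) = 0`). At `v ∈ Sp F p`:
`Lp (a m^k)` (`Dt.loc`), so `Lp (a^l m^(k l))` and with `k' = k l + (p-1) j`:
`D ∏ π_i^(e_i) m^(k') = a^l m^(k l) (m^j g)^p` is `Lp`; LPM (4). -/
def StRL1 : Prop := ∀ (F : Type u) [Field F] [NumberField F] (p : ℕ) [Fact p.Prime] (t : ℕ)
  (m0 : 𝓞 F) (x : Fin t → 𝓞 F) (c : Fin t → ℕ) (π : Fin t → 𝓞 F), Ctx p m0 x c π →
  ∀ a : F, Dt p m0 c π a → ∀ l j : ℕ, ∃ (e : Fin t → ZMod p) (D : 𝓞 F) (g : F),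
    Rl p m0 x c π a l j e D g

/-- WW (EASY-MEDIUM, from StLPM). Two witnesses for the same `e` differ by a `p`-th power: `d d'^(p-1)` is a
witness for `e = 0`. Valuations: clear. `v ∈ Sp F p`: multiply `Lp (d ∏ x^e M^k)` by the `(p-1)`-st power of
`Lp (d' ∏ x^e M^k')`: `d d'^(p-1) (∏ x^e)^p M^(k + (p-1) k')` is `Lp`; cancel `(∏ x^e)^p ≠ 0` (LPM (3));
for `e = 0` the product `∏ x_i^0` is `1`. Then `Ctx.hH`. -/
def StWW : Prop := ∀ (F : Type u) [Field F] [NumberField F] (p : ℕ) [Fact p.Prime] (t : ℕ)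
  (m0 : 𝓞 F) (x : Fin t → 𝓞 F) (c : Fin t → ℕ) (π : Fin t → 𝓞 F), Ctx p m0 x c π →
  ∀ (e : Fin t → ZMod p) (d d' : 𝓞 F), Wt p m0 x c e d → Wt p m0 x c e d' →
  ∃ g : 𝓞 F, g ^ p = d * d' ^ (p - 1)

/-- RL2 (MEDIUM, from StWW). The relation. `D`, `d` are witnesses for `e`: `D d^(p-1) = g'^p` (WW). Fix `k`;
`ind = ind (π k)`. `ind D + (p-1) ind d = ind (g'^p) = p ind g' = 0`, so `ind D = ind d` (`π k` divides
neither `D` nor `d`, so not `g'`). `Dt.tam` for `l, j, g, D`, `e_i = (e i).val` gives `y` with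
`π_k ∣ y^p - (D ∏_(i≠k) π_i^(e_i))^(c_k) (m0 ∏_(i≠k) π_i^(c_i))^((p-1) e_k)`; the second term is not
divisible by `π_k`, so by `Sym.pow` its index is `0`:
`c_k (ind D + ∑_(i≠k) e_i ind π_i) + (p-1) e_k (ind m0 + ∑_(i≠k) c_i ind π_i) = 0` in `ℤ/p`, where
`p - 1 = -1`. Rearrange. -/
def StRL2 : Prop := ∀ (F : Type u) [Field F] [NumberField F] (p : ℕ) [Fact p.Prime]
  (ind : 𝓞 F → 𝓞 F → ZMod p), Sym F p ind → ∀ (t : ℕ)
  (m0 : 𝓞 F) (x : Fin t → 𝓞 F) (c : Fin t → ℕ) (π : Fin t → 𝓞 F), Ctx p m0 x c π →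
  ∀ a : F, Dt p m0 c π a → ∀ (l j : ℕ) (e : Fin t → ZMod p) (D : 𝓞 F) (g : F),
  Rl p m0 x c π a l j e D g → ∀ d : 𝓞 F, Wt p m0 x c e d → (∀ k, ¬ π k ∣ d) →
  ∀ k, ∑ i ∈ Finset.univ.erase k, ((c k : ZMod p) * e i - (c i : ZMod p) * e k) *
    ind (π k) (π i) = -((c k : ZMod p) * ind (π k) d - e k * ind (π k) m0)

/-- RL3 (MEDIUM, from StLPM). The vector `e` is not proportional to `c`, if `p ∤ l`. Suppose
`c_k e_i = c_i e_k` in `ℤ/p` for all `i, k`. `t ≥ 1`; `λ` with `e_i = λ c_i` for all `i` (`λ = e_0 / c_0`; `c_i` is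
not `0` modulo `p`). Let `λ' = p - λ.val`. `m = Mx m0 π c`. `(e i).val + λ' c_i = p f_i` for natural `f_i`, so
`D ∏ π_i^(e_i) m^(λ') = D m0^(λ') (∏ π_i^(f_i))^p`. `d' = D m0^(λ')` is a witness for `0`: valuations clear;
at `v ∈ Sp F p`: `d' (∏ π_i^(f_i))^p = a^l m^(j + λ') g^p`, and `Lp (a m^k)` gives with `k' = k l + (p-1)(j+λ')`:
`Lp (a^l m^(j+λ') m^(k'))`, so `Lp (d' m^(k'))` and (LPM (4)) `Lp (d' (Mx m0 x c)^(k'))`. So `d' = g'^p` (`hH`) and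
`a^l m^(j+λ')` is a `p`-th power in `F`. Let `l l' = 1 + p s` (`l'` natural, `p ∤ l`): raise to the power `l'`:
`a^(1 + p s) m^((j+λ') l')` is a `p`-th power, so `a = m^(j'') g''^p` with `j'' = (p-1)(j+λ') l'` (multiply by
`m^(p (j+λ') l')` and divide): against `Dt.non`. -/
def StRL3 : Prop := ∀ (F : Type u) [Field F] [NumberField F] (p : ℕ) [Fact p.Prime] (t : ℕ)
  (m0 : 𝓞 F) (x : Fin t → 𝓞 F) (c : Fin t → ℕ) (π : Fin t → 𝓞 F), Ctx p m0 x c π →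
  ∀ a : F, Dt p m0 c π a → ∀ (l j : ℕ) (e : Fin t → ZMod p) (D : 𝓞 F) (g : F),
  Rl p m0 x c π a l j e D g → ¬ p ∣ l →
  ∃ i k, (c k : ZMod p) * e i ≠ (c i : ZMod p) * e k

/-- RL4 (MEDIUM, from StWW, StLPM). Different `(l, j)` have different `e`. `D`, `D'` are witnesses for the same `e`:
`D D'^(p-1) = g0^p` (WW). With `E = ∏ π_i^(e_i)`: `D E = a^l m^j g^p`, `D' E = a^(l') m^(j') g'^p`, so
`(a^l m^j g^p) (a^(l') m^(j') g'^p)^(p-1) = g0^p E^p`: `a^(l + (p-1) l') m^(j + (p-1) j')` is a `p`-th power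
in `F`. If `l ≠ l'` then `p ∤ l + (p-1) l'` (`1 ≤ l, l' < p`), and as in RL3 `a = m^(j'') g''^p`, against
`Dt.non`. So `l = l'`, and `m^(j + (p-1) j')` is a `p`-th power in `F`; if `j ≠ j'` then the exponent is
prime to `p` and `m` itself is a `p`-th power in `F`, so a `p`-th power in `F_v` for a place `v` above `p`
(`exists_prime_above`), so `Lp (Mx m0 x c)` by LPM (4) with `D = 1`, `e = 0`, `k = 1`: against `Ctx.nsp`. -/
def StRL4 : Prop := ∀ (F : Type u) [Field F] [NumberField F] (p : ℕ) [Fact p.Prime] (t : ℕ)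
  (m0 : 𝓞 F) (x : Fin t → 𝓞 F) (c : Fin t → ℕ) (π : Fin t → 𝓞 F), Ctx p m0 x c π →
  ∀ a : F, Dt p m0 c π a → ∀ (l j l' j' : ℕ) (e : Fin t → ZMod p) (D D' : 𝓞 F) (g g' : F),
  1 ≤ l → l < p → 1 ≤ l' → l' < p → j < p → j' < p →
  Rl p m0 x c π a l j e D g → Rl p m0 x c π a l' j' e D' g' → l = l' ∧ j = j'

/-- The vectors `e`, not proportional to `c`, which have a witness. -/
def EE {F : Type u} [Field F] [NumberField F] (p : ℕ) {t : ℕ} (m0 : 𝓞 F)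
    (x : Fin t → 𝓞 F) (c : Fin t → ℕ) : Set (Fin t → ZMod p) :=
  {e | (∃ i k, (c k : ZMod p) * e i ≠ (c i : ZMod p) * e k) ∧ ∃ d : 𝓞 F, Wt p m0 x c e d}

/-- Schneider's conjecture at `p` for all twists `r ≠ 0` is inherited by the field
`F(m^(1/p))`, `m = m0 ∏ π_i^(c_i)`, from `F`. -/
def Good {F : Type u} [Field F] [NumberField F] (p : ℕ) [Fact p.Prime] {t : ℕ} (m0 : 𝓞 F)
    (c : Fin t → ℕ) (π : Fin t → 𝓞 F) : Prop :=
  ∀ (L : Type u) [Field L] [NumberField L] [Algebra F L] (x : L), Module.finrank F L = p →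
    x ^ p = algebraMap F L (Mx m0 π c : F) → ∀ r : ℤ, r ≠ 0 → Sha1 F p r (Sp F p) = ⊥ →
    ∀ S : Set (HeightOneSpectrum (𝓞 L)), (∀ v ∈ Sp L p, v ∈ S) → Sha1 L p r S = ⊥

/-- RLS (MEDIUM, from StDET, StRL1, StRL2, StRL3, StRL4, StLPM). If `π` is not good then there are `L`, `x`, `r`,
`S` as in `Good` with `Sha1 L p r S ≠ ⊥`. `¬ Lp F p v (Mx m0 π c)` for `v ∈ Sp F p` by LPM (4) (`D = 1`, `e = 0`,
`k = 1`) and `Ctx.nsp`. DET gives `a` with `Dt p m0 c π a`. For every `(l, j)` with `1 ≤ l < p`, `j < p` take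
`e(l, j)`, `D`, `g` from RL1. They are different (RL4), not proportional to `c` (RL3), so they lie in `EE`
with the witness `D`, and by RL2 with the witness `d (e)` the relation holds. `T` = the set of the
`e(l, j)`, `(p-1) p` elements. -/
def StRLS : Prop := ∀ (F : Type u) [Field F] [NumberField F] (p : ℕ) [Fact p.Prime], p ≠ 2 →
  ∀ ζ : F, IsPrimitiveRoot ζ p → ∀ ind : 𝓞 F → 𝓞 F → ZMod p, Sym F p ind → ∀ (t : ℕ)
  (m0 : 𝓞 F) (x : Fin t → 𝓞 F) (c : Fin t → ℕ) (π : Fin t → 𝓞 F), Ctx p m0 x c π →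
  ∀ d : (Fin t → ZMod p) → 𝓞 F, (∀ e ∈ EE p m0 x c, Wt p m0 x c e (d e) ∧ ∀ k, ¬ π k ∣ d e) →
  ¬ Good p m0 c π →
  ∃ T : Finset (Fin t → ZMod p), T.card = (p - 1) * p ∧ ∀ e ∈ T, e ∈ EE p m0 x c ∧
    ∀ k, ∑ i ∈ Finset.univ.erase k, ((c k : ZMod p) * e i - (c i : ZMod p) * e k) *
      ind (π k) (π i) = -((c k : ZMod p) * ind (π k) (d e) - e k * ind (π k) m0)

open Classical in
/-- CNT (MEDIUM-HARD, assembly, from StIND, StDEG, StRLS, StFMO, StEXC; compare `Q3/MainB.lean`). `ind` from IND.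
`(ℤ/p)^t` is finite, so `EE` is a finite set `H`. For `e ∈ EE` choose a witness `d e`; `d e = 1` otherwise.
`D0 = m0 ∏_(e ∈ H) d e ≠ 0`. `X0` is the maximum of the bounds of EXC (`δ = ε/2`) and of FMO for the finitely
many `e ∈ H` (`δ = ε'`, small: `#H ε' ≤ ε/2 (p-1) p`). Bad tuples which are not exceptional: `Ctx p m0 x c π` holds
(`nm0`: `m0 ∣ D0`), and `π_k ∤ d e`, so RLS gives at least `(p-1) p` vectors `e ∈ H` with the relation. Double counting: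
`(p-1) p #bad' ≤ ∑_(e ∈ H) #{π : relation} ≤ #H (p/p^t + ε') ∏ |P i|` (FMO with
`f k z = -(c_k ind z (d e) - e_k ind z m0)`; `c_i ≠ 0` in `ℤ/p`). So
`#bad ≤ (ε/2 + #H/((p-1) p^t) + ε/2) ∏ |P i|`. -/
def StCNT : Prop := ∀ (F : Type u) [Field F] [NumberField F] (p : ℕ) [Fact p.Prime], p ≠ 2 →
  ∀ ζ : F, IsPrimitiveRoot ζ p → ∀ (t : ℕ) (m0 : 𝓞 F) (x : Fin t → 𝓞 F) (c : Fin t → ℕ), 1 ≤ t →
  m0 ≠ 0 → (∀ q : HeightOneSpectrum (𝓞 F), q ∉ Sp F p → Vd F p q (m0 : F)) → (∀ i, x i ≠ 0) →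
  (∀ i, 1 ≤ c i ∧ c i < p) → (∀ v ∈ Sp F p, ¬ Lp F p v (Mx m0 x c : F)) →
  (∀ d : 𝓞 F, Wt p m0 x c 0 d → ∃ g : 𝓞 F, g ^ p = d) → ∀ ε : ℝ, 0 < ε →
  ∃ X0 : ℕ, ∀ X : ℕ, X0 ≤ X → ∀ P : Fin t → Finset (𝓞 F), (∀ i, Adm F p X (P i)) →
  (∀ i, (X : ℝ) ^ ((Module.finrank ℚ F : ℝ) - 1 / 4) ≤ (P i).card) →
  (∀ i, ∀ z ∈ P i, ∀ v ∈ Sp F p, ∃ y : v.adicCompletion F,
    algebraMap F (v.adicCompletion F) (z : F) =
      algebraMap F (v.adicCompletion F) (x i : F) * y ^ p) →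
  (((Fintype.piFinset P).filter (fun π => ¬ Good p m0 c π)).card : ℝ) ≤
    ((Nat.card (EE p m0 x c) : ℝ) / (((p : ℝ) - 1) * (p : ℝ) ^ t) + ε) *
      ∏ i, ((P i).card : ℝ)

/-! ### Fields with one place above `p` and class number prime to `p` -/

/-- UNR (MEDIUM; `FE.all_UX`, `UCF.ucf`). `U = {g : p ∣ φ g}` is a subgroup (a homomorphism modulo `p`, StTW1),
open (`φ` continuous), normal, and contains all commutators. It contains the inertia groups of all primes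
`Q ≠ ⊥`: if `p ∉ Q` by hypothesis 3; if `p ∈ Q` by hypothesis 4. `FE.all_UX` (`k = K`, `Ω = AlgebraicClosure K`) gives
`M/K`, abelian, unramified at all finite places, of degree the index of `U`, which divides `p` (the
quotient embeds in `ℤ/p`), so odd. `UCF.ucf`: the degree divides the class number, so it is `1` and `U` is
everything. -/
def StUNR : Prop := ∀ (K : Type u) [Field K] [NumberField K] (p : ℕ) [Fact p.Prime], p ≠ 2 →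
  ¬ p ∣ classNumber K → ∀ f : GK K → ℤ_[p], Continuous f →
  (∀ g h, (p : ℤ_[p]) ∣ f (g * h) - (f g + f h)) →
  (∀ Q : Ideal (𝓞 (AlgebraicClosure K)), Q.IsPrime → (p : 𝓞 (AlgebraicClosure K)) ∉ Q →
    ∀ h, FE.Inr Q h → (p : ℤ_[p]) ∣ f h) →
  (∀ Q : Ideal (𝓞 (AlgebraicClosure K)), Q.IsPrime → (p : 𝓞 (AlgebraicClosure K)) ∈ Q →
    ∀ h, FE.Inr Q h → (p : ℤ_[p]) ∣ f h) → ∀ g, (p : ℤ_[p]) ∣ f g

/-- DIV (MEDIUM, from StTW1; compare `Q3/I_Div.lean`). `Q0 ∋ p` a prime (`exists_prime_above`, lying over), `c` with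
`φ h = (tw h - 1) c` on `Dec Q0`. `ψ g = (φ g - (tw g - 1) c)/p` (`p ∣ φ g`, `p ∣ tw g - 1`), continuous, a cocycle,
`0` on inertia at `Q ∌ p` (`φ h = 0`, `tw h = 1`: StMUF), `0` on `Dec Q0`. Any other `Q ∋ p`: `Q` and `Q0`
lie over the same place of `K`, so `Q0 = {y : a y ∈ Q}` for some `a ∈ GK K` (transitivity:
`Algebra.IsInvariant.exists_smul_of_under_eq_of_profinite`, as in `FE/I_DT.lean`), and for `Dec Q h` the
conjugate `h' = a⁻¹ h a` is in `Dec Q0`: `ψ h' = 0`. `h = a h' a⁻¹`: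
`ψ h = ψ a + tw a ψ h' - tw h ψ a = (tw h - 1) (-ψ a)`. -/
def StDIV : Prop := ∀ (K : Type u) [Field K] [NumberField K] (p : ℕ) [Fact p.Prime], p ≠ 2 →
  ∀ ζ : K, IsPrimitiveRoot ζ p → (∀ v ∈ Sp K p, ∀ v' ∈ Sp K p, v = v') → ∀ (r : ℤ)
  (φ : GK K → ℤ_[p]), SH K (AlgebraicClosure K) p r φ → (∀ g, (p : ℤ_[p]) ∣ φ g) →
  ∃ ψ : GK K → ℤ_[p], SH K (AlgebraicClosure K) p r ψ ∧ ∃ y : ℤ_[p], ∀ g,
    φ g = p * ψ g + (tw p r g - 1) * y

/-- BAS (EASY-MEDIUM, from StSHS, StUNR, StDIV, StTW1; `exists_coboundary_of_forall_mod` of `Bridge.lean`). Let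
`φ ∈ ShaZ K p r (Sp K p)`; it is in `SH` (SHS). Every `φ` in `SH` is divisible by `p` (UNR: a homomorphism modulo `p`
by TW1; `0` on inertia at `Q ∌ p`; at `Q ∋ p`, `Inr Q h` implies `Dec Q h`, so `φ h = (tw h - 1) c` is divisible by
`p`). So `φ = p ψ + (tw - 1) y` with `ψ` in `SH` (DIV); iterate: `φ = p^n ψ_n + (tw - 1) y_n` for all `n`, and
`exists_coboundary_of_forall_mod` gives `φ = (tw - 1) y`. `Sha1_eq_bot_iff`. -/
def StBAS : Prop := ∀ (K : Type u) [Field K] [NumberField K] (p : ℕ) [Fact p.Prime], p ≠ 2 →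
  ∀ ζ : K, IsPrimitiveRoot ζ p → (∀ v ∈ Sp K p, ∀ v' ∈ Sp K p, v = v') →
  ¬ p ∣ classNumber K → ∀ r : ℤ, Sha1 K p r (Sp K p) = ⊥

/-- VFK (MEDIUM, from StUNR, StNI, StI2; `FE.all_DT`). Let `d ∈ 𝓞 K`, `d ≠ 0`, with valuations divisible by `p` at
the places not above `p`, a `p`-th power `y^p` in `K_v` for all `v` above `p`. Let `D ∈ Ω`, `D^p = d`. For
`g ∈ GK K` `g D = ζ^(f g) D` with `f g ∈ {0, ..., p-1}`, as an element of `ℤ_p`; `f` is locally constant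
(continuous) and a homomorphism modulo `p`. Inertia at `Q ∌ p`: `h D = D` (StI2), `f h = 0`. Inertia at
`Q ∋ p`: `v = Q ∩ 𝓞 K`; `FE.all_DE` gives `ι` such that every `h` with `Inr Q h` is induced by some
`g ∈ GK K_v`: `ι (h D) = g (ι D)`; `(ι D)^p = d = y^p`, so `ι D = ζ^i y` is in `K_v` and `g` fixes it: `h D = D`,
`f h = 0`. UNR: `f = 0` modulo `p`, so `g D = D` for all `g`, and `D` is in `K`; it is integral over `ℤ`. -/
def StVFK : Prop := ∀ (K : Type u) [Field K] [NumberField K] (p : ℕ) [Fact p.Prime], p ≠ 2 →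
  ∀ ζ : K, IsPrimitiveRoot ζ p → ¬ p ∣ classNumber K → ∀ d : 𝓞 K, d ≠ 0 →
  (∀ q : HeightOneSpectrum (𝓞 K), q ∉ Sp K p → Vd K p q (d : K)) →
  (∀ v ∈ Sp K p, Lp K p v (d : K)) → ∃ g : 𝓞 K, g ^ p = d

/-- HHR (EASY-MEDIUM, from StVFK, StLPM first part). One place `v` above `p`. Let `M = Mx m0 x c ≠ 0`. The hypothesis
for `d = 1` says that `M` is not a `p`-th power in `K_v`. Let `Wt p m0 x c 0 d`: `Lp (d M^k)` at `v` (for the vector `0`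
the product is `1`). If `p ∣ k`, `k = p s`: `Lp d` (cancel `(M^s)^p`), and VFK gives `g`. Otherwise let
`k i = 1 + p s`: `Lp (d^i M^(k i))`, `= d^i M (M^s)^p`, so `Lp (d^i M)`, against the hypothesis for `d^i`. -/
def StHHR : Prop := ∀ (K : Type u) [Field K] [NumberField K] (p : ℕ) [Fact p.Prime], p ≠ 2 →
  ∀ ζ : K, IsPrimitiveRoot ζ p → (∀ v ∈ Sp K p, ∀ v' ∈ Sp K p, v = v') →
  ¬ p ∣ classNumber K → ∀ (t : ℕ) (m0 : 𝓞 K) (x : Fin t → 𝓞 K) (c : Fin t → ℕ), m0 ≠ 0 →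
  (∀ i, x i ≠ 0) →
  (∀ d : 𝓞 K, d ≠ 0 → (∀ q : HeightOneSpectrum (𝓞 K), q ∉ Sp K p → Vd K p q (d : K)) →
    ∀ v ∈ Sp K p, ¬ Lp K p v ((d * Mx m0 x c : 𝓞 K) : K)) →
  (∀ v ∈ Sp K p, ¬ Lp K p v (Mx m0 x c : K)) ∧
    ∀ d : 𝓞 K, Wt p m0 x c 0 d → ∃ g : 𝓞 K, g ^ p = d

end Pool.Agent.Work.MP_59f3ad_nt.PX
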