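import Mathlib
import Pool.Agent.Work.MP_59f3ad_nt.PX.StmtsB
import Pool.Agent.Work.MP_59f3ad_nt.Bridge

/-!
Block PX, item BAS: one place above `p` and class number prime to `p`.
-/

set_option autoImplicit false

open NumberField IsDedekindDomain

namespace Pool.Agent.Work.MP_59f3ad_nt.PX

open Pool.Agent.Work.MP_59f3ad_nt.FE

universe u

theorem pr_BAS (hSHS : StSHS.{u}) (hUNR : StUNR.{u}) (hDIV : StDIV.{u}) (hTW1 : StTW1.{u}) :
    StBAS.{u} := by
  intro K _ _ p _ h2 ζ hζ hone hcl r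
  have hdvd : ∀ φ : GK K → ℤ_[p], SH K (AlgebraicClosure K) p r φ → ∀ g, (p : ℤ_[p]) ∣ φ g := by
    intro φ hφ
    refine hUNR K p h2 hcl φ hφ.cont ?_ ?_ ?_
    · intro g h
      obtain ⟨a, ha⟩ := hTW1 K (AlgebraicClosure K) p ζ hζ r g
      refine ⟨a * φ h, ?_⟩
      rw [hφ.mul g h]
      linear_combination φ h * ha
    · intro Q hQ hp h hh
      rw [hφ.inr Q hQ hp h hh]
      exact dvd_zero _
    · intro Q hQ hp h hh
      obtain ⟨c, hc⟩ := hφ.dec Q hQ hp
      have hdec : Dec Q h := by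
        intro y y' hy
        have h1 := hh y y' hy
        constructor
        · intro h3
          have := Q.add_mem h1 h3
          simpa using this
        · intro h3
          have := Q.sub_mem h3 h1
          simpa using this
      rw [hc h hdec]
      exact Dvd.dvd.mul_right (hTW1 K (AlgebraicClosure K) p ζ hζ r h) _
  rw [Sha1_eq_bot_iff]
  intro φ hφ
  have hSH := hSHS K p r (Sp K p) (fun v hv => hv) φ hφ
  have key : ∀ n : ℕ, ∃ ψ : GK K → ℤ_[p], SH K (AlgebraicClosure K) p r ψ ∧ ∃ y : ℤ_[p],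
      ∀ g, φ g = (p : ℤ_[p]) ^ n * ψ g + (tw p r g - 1) * y := by
    intro n
    induction n with
    | zero => exact ⟨φ, hSH, 0, fun g => by ring⟩
    | succ n ih =>
      obtain ⟨ψ, hψ, y, hy⟩ := ih
      obtain ⟨ψ', hψ', y', hy'⟩ := hDIV K p h2 ζ hζ hone r ψ hψ (hdvd ψ hψ)
      refine ⟨ψ', hψ', y + (p : ℤ_[p]) ^ n * y', fun g => ?_⟩
      rw [hy g, hy' g]
      ring
  obtain ⟨x, hx⟩ := exists_coboundary_of_forall_mod (GK K) p φ (fun g => tw p r g - 1) (by
    intro m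
    obtain ⟨ψ, -, y, hy⟩ := key m
    refine ⟨y, fun g => ⟨ψ g, ?_⟩⟩
    rw [hy g]
    ring)
  exact ⟨x, fun g => hx g⟩

end Pool.Agent.Work.MP_59f3ad_nt.PX
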