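import Mathlib
import Pool.Agent.Work.MP_59f3ad_nt.PX.StmtsD

/-!
Block PX, item BET: `χ^r - 1` divided by the largest possible power of `p`.
-/

set_option autoImplicit false

open NumberField IsDedekindDomain

namespace Pool.Agent.Work.MP_59f3ad_nt.PX

open Pool.Agent.Work.MP_59f3ad_nt.FE

universe u

namespace IBET

/-- there is a prime above `p` -/
theorem exQ (K : Type u) [Field K] [NumberField K] (p : ℕ) [hp : Fact p.Prime] :
    ∃ Q : Ideal (𝓞 (AlgebraicClosure K)), Q.IsPrime ∧ (p : 𝓞 (AlgebraicClosure K)) ∈ Q := by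
  have hmax : (Ideal.span {(p : ℤ)} : Ideal ℤ).IsMaximal :=
    Int.ideal_span_isMaximal_of_prime p
  have hinj : Function.Injective (algebraMap ℤ (𝓞 (AlgebraicClosure K))) :=
    FaithfulSMul.algebraMap_injective ℤ (𝓞 (AlgebraicClosure K))
  have hker : RingHom.ker (algebraMap ℤ (𝓞 (AlgebraicClosure K))) ≤ Ideal.span {(p : ℤ)} := by
    rw [(RingHom.injective_iff_ker_eq_bot _).mp hinj]
    exact bot_le
  obtain ⟨Q, hQ1, hQ2⟩ := Ideal.exists_ideal_over_maximal_of_isIntegral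
    (S := 𝓞 (AlgebraicClosure K)) (Ideal.span {(p : ℤ)}) hker
  refine ⟨Q, hQ1.isPrime, ?_⟩
  have h1 : (p : ℤ) ∈ Q.comap (algebraMap ℤ (𝓞 (AlgebraicClosure K))) := by
    rw [hQ2]
    exact Ideal.mem_span_singleton_self _
  rw [Ideal.mem_comap] at h1
  simpa using h1

theorem cont_tw (K : Type u) [Field K] (p : ℕ) [Fact p.Prime] (r : ℤ) :
    Continuous fun g : GK K => tw p r g := by
  have h1 : Continuous fun g : GK K => cyc K p g :=
    cyclotomicCharacter.continuous p K (AlgebraicClosure K)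
  exact Units.continuous_val.comp (h1.zpow r)

/-- a nonzero element is not divisible by all powers -/
theorem exn (p : ℕ) [hp : Fact p.Prime] (x : ℤ_[p]) (hx : x ≠ 0) :
    ∃ n : ℕ, ¬ (p : ℤ_[p]) ^ (n + 1) ∣ x := by
  refine ⟨x.valuation, fun h => ?_⟩
  have h1 : x ∈ (Ideal.span {(p : ℤ_[p]) ^ (x.valuation + 1)} : Ideal ℤ_[p]) :=
    Ideal.mem_span_singleton.mpr h
  have h2 := (PadicInt.mem_span_pow_iff_le_valuation x hx (x.valuation + 1)).mp h1
  omega

end IBET

open IBET in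
/-- item BET -/
theorem pr_BET (hND : StND.{u}) (hMUF : StMUF.{u}) : StBET.{u} := by
  intro K _ _ p _ hp2 ζ hζ r hr
  classical
  obtain ⟨Q, hQ1, hQ2⟩ := exQ K p
  obtain ⟨h0, -, hh0⟩ := hND K p hp2 ζ hζ r hr Q hQ1 hQ2
  have hp0 : (p : ℤ_[p]) ≠ 0 := by
    exact_mod_cast (Fact.out : p.Prime).ne_zero
  have hex : ∃ m : ℕ, ∃ g : GK K, ¬ (p : ℤ_[p]) ^ (m + 1) ∣ tw p r g - 1 := by
    obtain ⟨n, hn⟩ := exn p (tw p r h0 - 1) (sub_ne_zero.mpr hh0)
    exact ⟨n, h0, hn⟩
  obtain ⟨g0, hg0⟩ := Nat.find_spec hex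
  set m : ℕ := Nat.find hex with hm
  have hdiv : ∀ g : GK K, (p : ℤ_[p]) ^ m ∣ tw p r g - 1 := by
    intro g
    rcases Nat.eq_zero_or_pos m with h1 | h1
    · rw [h1, pow_zero]
      exact one_dvd _
    · by_contra hc
      have h2 : m - 1 < Nat.find hex := by omega
      apply Nat.find_min hex h2
      refine ⟨g, ?_⟩
      rw [Nat.sub_add_cancel h1]
      exact hc
  choose β hβ using hdiv
  have hpm : (p : ℤ_[p]) ^ m ≠ 0 := pow_ne_zero _ hp0
  refine ⟨m, β, fun g => (hβ g).symm, ⟨g0, ?_⟩, ?_, ?_, ?_, ?_⟩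
  · rintro ⟨c, hc⟩
    apply hg0
    refine ⟨c, ?_⟩
    rw [hβ g0, hc]
    ring
  · -- continuity
    have h1 : Continuous fun g : GK K => ((β g : ℤ_[p]) : ℚ_[p]) := by
      have h2 : (fun g : GK K => ((β g : ℤ_[p]) : ℚ_[p])) =
          fun g : GK K => (((tw p r g : ℤ_[p]) : ℚ_[p]) - 1) / ((p : ℚ_[p]) ^ m) := by
        funext g
        have h3 : ((p : ℚ_[p]) ^ m) ≠ 0 := by
          apply pow_ne_zero
          exact_mod_cast (Fact.out : p.Prime).ne_zero
        rw [eq_div_iff h3]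
        have h4 := congrArg (fun x : ℤ_[p] => (x : ℚ_[p])) (hβ g)
        simp only [PadicInt.coe_sub, PadicInt.coe_one, PadicInt.coe_mul, PadicInt.coe_pow,
          PadicInt.coe_natCast] at h4
        rw [h4]
        ring
      rw [h2]
      exact ((continuous_subtype_val.comp (cont_tw K p r)).sub continuous_const).div_const _
    exact Continuous.subtype_mk h1 _
  · intro g h
    apply mul_left_cancel₀ hpm
    rw [← hβ, tw_mul, mul_add, ← hβ, mul_left_comm, ← hβ]
    ring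
  · intro Q' hQ' hpQ' h hh
    have h1 := hβ h
    rw [hMUF K (AlgebraicClosure K) p Q' hQ' hpQ' h hh r, sub_self] at h1
    exact (mul_eq_zero.mp h1.symm).resolve_left hpm
  · intro Q' _ _
    refine ⟨m, 1, fun h _ => ?_⟩
    rw [mul_one, hβ]

end Pool.Agent.Work.MP_59f3ad_nt.PX
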