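import Mathlib
import Pool.Agent.Work.MP_59f3ad_nt.PX.StmtsB

/-!
Block PX, item BIL: the bilinear estimate in a number field (Hoelder, duality, representation of the
power of order `J`).
-/

set_option autoImplicit false

open NumberField IsDedekindDomain

namespace Pool.Agent.Work.MP_59f3ad_nt.PX

universe u

namespace IBIL

variable {F : Type u} [Field F] [NumberField F] {p : ℕ} [Fact p.Prime] {ind : 𝓞 F → 𝓞 F → ZMod p}

theorem ep_zero (p : ℕ) : ep p 0 = 1 := by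
  unfold ep
  cases p <;> simp

theorem chi_mul (hEP : StEP) (hS : Sym F p ind) (e : ZMod p) (π : 𝓞 F) (hπ : Prime π)
    (hp : ¬ π ∣ (p : 𝓞 F)) (z z' : 𝓞 F) :
    chi p ind e π (z * z') = chi p ind e π z * chi p ind e π z' := by
  unfold chi
  by_cases hz : π ∣ z
  · rw [if_pos hz, if_pos (hz.mul_right z'), zero_mul]
  · by_cases hz' : π ∣ z'
    · rw [if_pos hz', if_pos (hz'.mul_left z), mul_zero]
    · have hzz : ¬ π ∣ z * z' := fun h => (hπ.dvd_or_dvd h).elim hz hz'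
      rw [if_neg hz, if_neg hz', if_neg hzz, hS.mul π hπ hp z z' hz hz', mul_add, (hEP p).1]

theorem chi_one (hS : Sym F p ind) (e : ZMod p) (π : 𝓞 F) (hπ : Prime π)
    (hp : ¬ π ∣ (p : 𝓞 F)) : chi p ind e π 1 = 1 := by
  have h1' : ¬ π ∣ 1 := fun h => hπ.not_isUnit (isUnit_of_dvd_one h)
  have h0 : ind π 1 = 0 := by
    have := hS.mul π hπ hp 1 1 h1' h1'
    rw [mul_one] at this
    have h2 : ind π 1 + 0 = ind π 1 + ind π 1 := by rw [add_zero]; exact this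
    exact (add_left_cancel h2).symm
  unfold chi
  rw [if_neg h1', h0, mul_zero, ep_zero]

theorem chi_prod (hEP : StEP) (hS : Sym F p ind) (e : ZMod p) (π : 𝓞 F) (hπ : Prime π)
    (hp : ¬ π ∣ (p : 𝓞 F)) (n : ℕ) (v : Fin n → 𝓞 F) :
    chi p ind e π (∏ i, v i) = ∏ i, chi p ind e π (v i) := by
  induction n with
  | zero => simpa using chi_one hS e π hπ hp
  | succ n ih =>
    rw [Fin.prod_univ_castSucc, Fin.prod_univ_castSucc, chi_mul hEP hS e π hπ hp, ih]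

open Classical in
/-- The coefficients of the power of order `J`. -/
noncomputable def cc (J : ℕ) (P' : Finset (𝓞 F)) (β : 𝓞 F → ℂ) (z : 𝓞 F) : ℂ :=
  ∑ v ∈ (Fintype.piFinset (fun _ : Fin J => P')).filter (fun v => ∏ i, v i = z), ∏ i, β (v i)

theorem powJ (hEP : StEP) (hS : Sym F p ind) (e : ZMod p) (π : 𝓞 F) (hπ : Prime π)
    (hp : ¬ π ∣ (p : 𝓞 F)) (J : ℕ) (P' : Finset (𝓞 F)) (β : 𝓞 F → ℂ) (Z : Finset (𝓞 F))
    (hB : ∀ v ∈ Fintype.piFinset (fun _ : Fin J => P'), ∏ i, v i ∈ Z) :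
    (∑ π' ∈ P', β π' * chi p ind e π π') ^ J = ∑ z ∈ Z, cc J P' β z * chi p ind e π z := by
  classical
  have h2 : (∑ π' ∈ P', β π' * chi p ind e π π') ^ J =
      ∏ _i : Fin J, ∑ π' ∈ P', β π' * chi p ind e π π' := by
    rw [Finset.prod_const, Finset.card_univ, Fintype.card_fin]
  rw [h2, Finset.prod_univ_sum, ← Finset.sum_fiberwise_of_maps_to hB]
  apply Finset.sum_congr rfl
  intro z _
  unfold cc
  rw [Finset.sum_mul]
  apply Finset.sum_congr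
  · ext v
    simp only [Finset.mem_filter]
  intro v hv
  rw [Finset.mem_filter] at hv
  rw [Finset.prod_mul_distrib, ← chi_prod hEP hS e π hπ hp, hv.2]

/-- Products of `J` elements of an admissible set have conjugates at most `X ^ J`. -/
theorem norm_prod (X J : ℕ) (P' : Finset (𝓞 F)) (hP' : Adm F p X P') (v : Fin J → 𝓞 F)
    (hv : ∀ i, v i ∈ P') (s : F →+* ℂ) :
    ‖s ((∏ i, v i : 𝓞 F) : F)‖ ≤ ((X ^ J : ℕ) : ℝ) := by
  have h1 : ((∏ i, v i : 𝓞 F) : F) = ∏ i, (v i : F) := by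
    exact map_prod (algebraMap (𝓞 F) F) _ _
  rw [h1, map_prod, Complex.norm_prod]
  calc ∏ i, ‖s (v i : F)‖ ≤ ∏ _i : Fin J, (X : ℝ) :=
        Finset.prod_le_prod (fun i _ => norm_nonneg _) (fun i _ => hP'.bd (v i) (hv i) s)
    _ = ((X ^ J : ℕ) : ℝ) := by
        rw [Finset.prod_const, Finset.card_univ, Fintype.card_fin]; push_cast; rfl

end IBIL

theorem pr_BIL (hDUA : StDUA.{u}) (hREP : StREP.{u}) (hNMB : StNMB.{u}) (hEP : StEP) :
    StBIL.{u} := by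
  classical
  intro F _ _ p _ ind hS ι _ b C hC X J hJ P P' hP hP' e he α β hα hβ
  have hB : ∀ v ∈ Fintype.piFinset (fun _ : Fin J => P'), ∏ i, v i ∈ bx b (C * X ^ J) := by
    intro v hv
    rw [Fintype.mem_piFinset] at hv
    exact hC (X ^ J) _ (IBIL.norm_prod X J P' hP' v hv)
  have hc : ∑ z ∈ bx b (C * X ^ J), ‖IBIL.cc J P' β z‖ ^ 2 ≤
      (J.factorial : ℝ) * (P'.card : ℝ) ^ J := by
    have := hREP F P' hP'.pr hP'.na J β hβ (bx b (C * X ^ J))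
    unfold IBIL.cc
    exact this
  have hd := hDUA F p ind hS ι b (X ^ Module.finrank ℚ F) (C * X ^ J) P
    (fun π hπ => ⟨hP.pr π hπ, hP.np π hπ, hNMB F X π (hP.bd π hπ)⟩) hP.na e he (IBIL.cc J P' β)
  have hcast : (((X ^ Module.finrank ℚ F : ℕ)) : ℝ) = (X : ℝ) ^ Module.finrank ℚ F := by
    push_cast; rfl
  rw [hcast] at hd
  set A : 𝓞 F → ℂ := fun π => ∑ π' ∈ P', β π' * chi p ind e π π' with hA
  have hSS : ‖∑ π ∈ P, ∑ π' ∈ P', α π * β π' * chi p ind e π π'‖ ≤ ∑ π ∈ P, ‖A π‖ := by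
    refine (norm_sum_le _ _).trans (Finset.sum_le_sum fun π _ => ?_)
    have : ∑ π' ∈ P', α π * β π' * chi p ind e π π' = α π * A π := by
      rw [hA, Finset.mul_sum]
      exact Finset.sum_congr rfl fun _ _ => by ring
    rw [this, norm_mul]
    calc ‖α π‖ * ‖A π‖ ≤ 1 * ‖A π‖ := mul_le_mul_of_nonneg_right (hα π) (norm_nonneg _)
      _ = ‖A π‖ := one_mul _
  have hJ2 : 2 * J - 1 + 1 = 2 * J := by omega
  have hH : (∑ π ∈ P, ‖A π‖) ^ (2 * J) ≤
      (P.card : ℝ) ^ (2 * J - 1) * ∑ π ∈ P, ‖A π‖ ^ (2 * J) := by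
    have := pow_sum_le_card_mul_sum_pow (s := P) (f := fun π => ‖A π‖)
      (fun _ _ => norm_nonneg _) (2 * J - 1)
    rw [hJ2] at this
    exact this
  have h6 : ∀ π ∈ P, ‖A π‖ ^ (2 * J) =
      ‖∑ z ∈ bx b (C * X ^ J), IBIL.cc J P' β z * chi p ind e π z‖ ^ 2 := by
    intro π hπ
    rw [← IBIL.powJ hEP hS e π (hP.pr π hπ) (hP.np π hπ) J P' β (bx b (C * X ^ J)) hB,
      norm_pow, ← pow_mul, mul_comm J 2]
  rw [Finset.sum_congr rfl h6] at hH
  have hΔ : (0 : ℝ) ≤ (2 * ((C * X ^ J : ℕ) : ℝ) + 1) ^ Fintype.card ι +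
      P.card * ((Fintype.card ι : ℝ) * (2 * ((C * X ^ J : ℕ) : ℝ) + 1) ^ (Fintype.card ι - 1) *
        ((X : ℝ) ^ Module.finrank ℚ F) ^ 2) := by positivity
  have hP0 : (0 : ℝ) ≤ (P.card : ℝ) ^ (2 * J - 1) := by positivity
  calc ‖∑ π ∈ P, ∑ π' ∈ P', α π * β π' * chi p ind e π π'‖ ^ (2 * J)
      ≤ (∑ π ∈ P, ‖A π‖) ^ (2 * J) := pow_le_pow_left₀ (norm_nonneg _) hSS _
    _ ≤ _ := hH
    _ ≤ _ := mul_le_mul_of_nonneg_left (hd.trans (mul_le_mul_of_nonneg_left hc hΔ)) hP0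

end Pool.Agent.Work.MP_59f3ad_nt.PX
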