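import Pool.Agent.Work.MP_59f3ad_nt.PX.StmtsB

/-!
Block PX, item BLT: the bilinear estimate in the limit.
-/

set_option autoImplicit false

open NumberField IsDedekindDomain

namespace Pool.Agent.Work.MP_59f3ad_nt.PX

universe u

namespace IBLT

theorem arith (n : ℕ) (hn : 2 ≤ n) (C : ℝ) (hC : 1 ≤ C) (δ : ℝ) (hδ : 0 < δ) (Y p p' s : ℝ)
    (hY : 1 ≤ Y) (hp : Y ^ (4 * n - 1) ≤ p) (hp' : Y ^ (4 * n - 1) ≤ p')
    (hpu : p ≤ (3 * C) ^ n * (Y ^ 4) ^ n)
    (hT : ((3 * C) ^ n + (3 * C) ^ n * (n * (3 * C) ^ (n - 1))) * ((3 * n).factorial : ℝ) ≤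
      δ ^ (2 * (3 * n)) * Y)
    (hs : s ^ (2 * (3 * n)) ≤ p ^ (2 * (3 * n) - 1) *
      (((2 * (C * (Y ^ 4) ^ (3 * n)) + 1) ^ n +
        p * ((n : ℝ) * (2 * (C * (Y ^ 4) ^ (3 * n)) + 1) ^ (n - 1) * ((Y ^ 4) ^ n) ^ 2)) *
        (((3 * n).factorial : ℝ) * p' ^ (3 * n)))) :
    s ≤ δ * (p * p') := by
  have hY0 : 0 < Y := by linarith
  have hYn : 0 < Y ^ (4 * n - 1) := by positivity
  have hp0 : 0 < p := lt_of_lt_of_le hYn hp
  have hp0' : 0 < p' := lt_of_lt_of_le hYn hp'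
  have hC0 : 0 < C := by linarith
  obtain ⟨f, hf⟩ : ∃ f : ℝ, f = ((3 * n).factorial : ℝ) := ⟨_, rfl⟩
  have hf0 : 0 ≤ f := by rw [hf]; exact Nat.cast_nonneg _
  rw [← hf] at hT hs
  obtain ⟨Z, hZ⟩ : ∃ Z : ℝ, Z = (Y ^ 4) ^ (3 * n) := ⟨_, rfl⟩
  have hZ1 : 1 ≤ Z := by
    rw [hZ]
    exact one_le_pow₀ (one_le_pow₀ hY)
  have hZ0 : 0 < Z := by linarith
  rw [← hZ] at hs
  have b1 : 2 * (C * Z) + 1 ≤ 3 * C * Z := by nlinarith
  have b0 : 0 ≤ 2 * (C * Z) + 1 := by positivity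
  have b2 : (2 * (C * Z) + 1) ^ n ≤ (3 * C) ^ n * Z ^ n := by
    rw [← mul_pow]
    exact pow_le_pow_left₀ b0 b1 n
  have b3 : (2 * (C * Z) + 1) ^ (n - 1) ≤ (3 * C) ^ (n - 1) * Z ^ (n - 1) := by
    rw [← mul_pow]
    exact pow_le_pow_left₀ b0 b1 (n - 1)
  have hZX : (Y ^ 4) ^ n * ((Y ^ 4) ^ n) ^ 2 = Z := by
    rw [hZ, ← pow_mul, ← pow_mul, ← pow_mul, ← pow_add]
    congr 1
    ring
  have hZn : Z * Z ^ (n - 1) = Z ^ n := by
    rw [← pow_succ']
    congr 1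
    omega
  have b4 : p * ((n : ℝ) * (2 * (C * Z) + 1) ^ (n - 1) * ((Y ^ 4) ^ n) ^ 2) ≤
      (3 * C) ^ n * (n * (3 * C) ^ (n - 1)) * Z ^ n := by
    calc p * ((n : ℝ) * (2 * (C * Z) + 1) ^ (n - 1) * ((Y ^ 4) ^ n) ^ 2)
        ≤ ((3 * C) ^ n * (Y ^ 4) ^ n) *
          ((n : ℝ) * ((3 * C) ^ (n - 1) * Z ^ (n - 1)) * ((Y ^ 4) ^ n) ^ 2) := by
          apply mul_le_mul hpu _ (by positivity) (by positivity)
          apply mul_le_mul_of_nonneg_right _ (by positivity)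
          exact mul_le_mul_of_nonneg_left b3 (Nat.cast_nonneg _)
      _ = (3 * C) ^ n * (n * (3 * C) ^ (n - 1)) *
          (((Y ^ 4) ^ n * ((Y ^ 4) ^ n) ^ 2) * Z ^ (n - 1)) := by ring
      _ = _ := by rw [hZX, hZn]
  obtain ⟨K0, hK0⟩ : ∃ K0 : ℝ, K0 = (3 * C) ^ n + (3 * C) ^ n * (n * (3 * C) ^ (n - 1)) := ⟨_, rfl⟩
  have hK00 : 0 ≤ K0 := by rw [hK0]; positivity
  have b5 : (2 * (C * Z) + 1) ^ n +
      p * ((n : ℝ) * (2 * (C * Z) + 1) ^ (n - 1) * ((Y ^ 4) ^ n) ^ 2) ≤ K0 * Z ^ n := by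
    calc _ ≤ (3 * C) ^ n * Z ^ n + (3 * C) ^ n * (n * (3 * C) ^ (n - 1)) * Z ^ n :=
          add_le_add b2 b4
      _ = _ := by rw [hK0]; ring
  have b6 : Z ^ n * Y ≤ p * p' ^ (3 * n) := by
    calc Z ^ n * Y = Y ^ (4 * (3 * n) * n + 1) := by
          rw [hZ, ← pow_mul, ← pow_mul, ← pow_succ]
          congr 1
          ring
      _ ≤ Y ^ ((4 * n - 1) + (4 * n - 1) * (3 * n)) := by
          apply pow_le_pow_right₀ hY
          obtain ⟨m, rfl⟩ : ∃ m, n = m + 2 := ⟨n - 2, by omega⟩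
          have : 4 * (m + 2) - 1 = 4 * m + 7 := by omega
          rw [this]
          nlinarith
      _ = Y ^ (4 * n - 1) * (Y ^ (4 * n - 1)) ^ (3 * n) := by rw [pow_add, pow_mul]
      _ ≤ p * p' ^ (3 * n) := by
          apply mul_le_mul hp (pow_le_pow_left₀ hYn.le hp' _) (by positivity) hp0.le
  have b7 : s ^ (2 * (3 * n)) * Y ≤ K0 * f * (p * p') ^ (2 * (3 * n)) := by
    calc s ^ (2 * (3 * n)) * Y ≤ p ^ (2 * (3 * n) - 1) *
          (((2 * (C * Z) + 1) ^ n +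
            p * ((n : ℝ) * (2 * (C * Z) + 1) ^ (n - 1) * ((Y ^ 4) ^ n) ^ 2)) *
            (f * p' ^ (3 * n))) * Y := mul_le_mul_of_nonneg_right hs hY0.le
      _ ≤ p ^ (2 * (3 * n) - 1) * ((K0 * Z ^ n) * (f * p' ^ (3 * n))) * Y := by
          apply mul_le_mul_of_nonneg_right _ hY0.le
          apply mul_le_mul_of_nonneg_left _ (by positivity)
          exact mul_le_mul_of_nonneg_right b5 (by positivity)
      _ = K0 * f * (p ^ (2 * (3 * n) - 1) * p' ^ (3 * n)) * (Z ^ n * Y) := by ring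
      _ ≤ K0 * f * (p ^ (2 * (3 * n) - 1) * p' ^ (3 * n)) * (p * p' ^ (3 * n)) := by
          apply mul_le_mul_of_nonneg_left b6 (by positivity)
      _ = K0 * f * ((p ^ (2 * (3 * n) - 1) * p) * (p' ^ (3 * n) * p' ^ (3 * n))) := by ring
      _ = K0 * f * (p * p') ^ (2 * (3 * n)) := by
          have e1 : p ^ (2 * (3 * n) - 1) * p = p ^ (2 * (3 * n)) := by
            rw [← pow_succ]
            congr 1
            omega
          have e2 : p' ^ (3 * n) * p' ^ (3 * n) = p' ^ (2 * (3 * n)) := by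
            rw [← pow_add]
            congr 1
            ring
          rw [e1, e2, mul_pow]
  rw [← hK0] at hT
  have b8 : s ^ (2 * (3 * n)) * Y ≤ (δ * (p * p')) ^ (2 * (3 * n)) * Y := by
    calc s ^ (2 * (3 * n)) * Y ≤ K0 * f * (p * p') ^ (2 * (3 * n)) := b7
      _ ≤ δ ^ (2 * (3 * n)) * Y * (p * p') ^ (2 * (3 * n)) :=
          mul_le_mul_of_nonneg_right hT (by positivity)
      _ = (δ * (p * p')) ^ (2 * (3 * n)) * Y := by rw [mul_pow δ]; ring
  have b9 := le_of_mul_le_mul_right b8 hY0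
  exact le_of_pow_le_pow_left₀ (by omega) (by positivity) b9

open Classical in
theorem card_bx' {F : Type u} [Field F] [NumberField F] {ι : Type} [Fintype ι]
    (b : Module.Basis ι ℤ (𝓞 F)) (B : ℕ) : (bx b B).card ≤ (2 * B + 1) ^ Fintype.card ι := by
  unfold bx
  refine Finset.card_image_le.trans ?_
  rw [Fintype.card_piFinset]
  simp only [Int.card_Icc, Finset.prod_const, Finset.card_univ]
  apply le_of_eq
  congr 1
  omega

theorem card_bx {F : Type u} [Field F] [NumberField F] {n : ℕ}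
    (b : Module.Basis (Fin n) ℤ (𝓞 F)) (B : ℕ) : (bx b B).card ≤ (2 * B + 1) ^ n := by
  have h := card_bx' b B
  rwa [Fintype.card_fin] at h

theorem assoc_of_dvd {F : Type u} [Field F] [NumberField F] {π π' : 𝓞 F} (h : Prime π)
    (h' : Prime π') (hd : π ∣ π') : Associated π π' :=
  h.irreducible.associated_of_dvd h'.irreducible hd

end IBLT

/-- Item BLT. -/
theorem pr_BLT (hBIL : StBIL.{u}) (hCRD : StCRD.{u}) (hEP : StEP) : StBLT.{u} := by
  classical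
  intro F _ _ p _ ind hind hn2 δ hδ
  obtain ⟨n, hn⟩ : ∃ n : ℕ, n = Module.finrank ℚ F := ⟨_, rfl⟩
  rw [← hn] at hn2 ⊢
  let b : Module.Basis (Fin n) ℤ (𝓞 F) :=
    Module.finBasisOfFinrankEq ℤ (𝓞 F) ((RingOfIntegers.rank F).trans hn.symm)
  obtain ⟨C, hC1, hC⟩ := hCRD F (Fin n) b
  obtain ⟨K, hK⟩ : ∃ K : ℝ, K = ((3 * (C : ℝ)) ^ n + (3 * (C : ℝ)) ^ n *
    (n * (3 * (C : ℝ)) ^ (n - 1))) * ((3 * n).factorial : ℝ) := ⟨_, rfl⟩
  have hK0 : 0 ≤ K := by rw [hK]; positivity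
  obtain ⟨T, hT1, hT2, hT3⟩ : ∃ T : ℝ, 1 ≤ T ∧ K ≤ (δ / 2) ^ (2 * (3 * n)) * T ∧
      1 ≤ δ / 2 * T := by
    have hd : 0 < δ / 2 := by positivity
    have hd12 : 0 < (δ / 2) ^ (2 * (3 * n)) := by positivity
    refine ⟨1 + K / (δ / 2) ^ (2 * (3 * n)) + 1 / (δ / 2), ?_, ?_, ?_⟩
    · have : 0 ≤ K / (δ / 2) ^ (2 * (3 * n)) := by positivity
      have : 0 ≤ 1 / (δ / 2) := by positivity
      linarith
    · have e1 : (δ / 2) ^ (2 * (3 * n)) * (K / (δ / 2) ^ (2 * (3 * n))) = K :=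
        mul_div_cancel₀ _ hd12.ne'
      have e2 : 0 ≤ (δ / 2) ^ (2 * (3 * n)) * (1 + 1 / (δ / 2)) := by positivity
      calc K = (δ / 2) ^ (2 * (3 * n)) * (K / (δ / 2) ^ (2 * (3 * n))) := e1.symm
        _ ≤ (δ / 2) ^ (2 * (3 * n)) * (K / (δ / 2) ^ (2 * (3 * n))) +
            (δ / 2) ^ (2 * (3 * n)) * (1 + 1 / (δ / 2)) := by linarith
        _ = _ := by ring
    · have e1 : δ / 2 * (1 / (δ / 2)) = 1 := mul_div_cancel₀ _ hd.ne'
      have e2 : 0 ≤ δ / 2 * (1 + K / (δ / 2) ^ (2 * (3 * n))) := by positivity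
      calc (1 : ℝ) = δ / 2 * (1 / (δ / 2)) := e1.symm
        _ ≤ δ / 2 * (1 / (δ / 2)) + δ / 2 * (1 + K / (δ / 2) ^ (2 * (3 * n))) := by linarith
        _ = _ := by ring
  refine ⟨⌈T ^ 4⌉₊, ?_⟩
  intro X hX P P' hP hP' hcP hcP' e he α β hα hβ
  have hX1 : T ^ 4 ≤ (X : ℝ) := (Nat.le_ceil _).trans (by exact_mod_cast hX)
  have hX0 : (0 : ℝ) ≤ X := Nat.cast_nonneg X
  obtain ⟨Y, hY⟩ : ∃ Y : ℝ, Y = (X : ℝ) ^ (1 / 4 : ℝ) := ⟨_, rfl⟩
  have hY4 : Y ^ 4 = X := by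
    rw [hY, ← Real.rpow_natCast, ← Real.rpow_mul hX0]
    norm_num
  have hYn1 : Y ^ (4 * n - 1) = (X : ℝ) ^ ((n : ℝ) - 1 / 4) := by
    rw [hY, ← Real.rpow_natCast, ← Real.rpow_mul hX0]
    congr 1
    rw [Nat.cast_sub (by omega)]
    push_cast
    ring
  have hYn : 0 ≤ Y := by rw [hY]; exact Real.rpow_nonneg hX0 _
  have hTY : T ≤ Y := by
    have e1 : T ^ 4 ≤ Y ^ 4 := by rw [hY4]; exact hX1
    exact le_of_pow_le_pow_left₀ (by norm_num) hYn e1
  have hY1 : 1 ≤ Y := hT1.trans hTY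
  rw [← hYn1] at hcP hcP'
  have hCr : (1 : ℝ) ≤ C := by exact_mod_cast hC1
  have hB := hBIL F p ind hind (Fin n) b C hC X (3 * n) (by omega) P P' hP hP' e he α β hα hβ
  simp only [Fintype.card_fin] at hB
  rw [← hn] at hB
  have hcast : (((C * X ^ (3 * n) : ℕ) : ℝ)) = C * (Y ^ 4) ^ (3 * n) := by
    rw [hY4]
    push_cast
    ring
  rw [hcast, ← hY4] at hB
  have hPu : (P.card : ℝ) ≤ (3 * (C : ℝ)) ^ n * (Y ^ 4) ^ n := by
    have h1 : P ⊆ bx b (C * X) := fun z hz => hC X z (hP.bd z hz)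
    have h2 : P.card ≤ (2 * (C * X) + 1) ^ n := (Finset.card_le_card h1).trans (IBLT.card_bx b _)
    have h3 : (P.card : ℝ) ≤ (2 * ((C : ℝ) * X) + 1) ^ n := by exact_mod_cast h2
    have hX1' : (1 : ℝ) ≤ X := by
      rw [← hY4]
      exact one_le_pow₀ hY1
    rw [hY4, ← mul_pow]
    refine h3.trans (pow_le_pow_left₀ (by positivity) ?_ n)
    nlinarith
  have hS' : ‖∑ π ∈ P, ∑ π' ∈ P', α π * β π' * chi p ind e π π'‖ ≤
      δ / 2 * ((P.card : ℝ) * P'.card) := by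
    refine IBLT.arith n hn2 C hCr (δ / 2) (by positivity) Y _ _ _ hY1 hcP hcP' hPu ?_ hB
    rw [← hK]
    exact hT2.trans (mul_le_mul_of_nonneg_left hTY (by positivity))
  have hD : ‖∑ π ∈ P, ∑ π' ∈ P', α π * β π' * ep p (e * ind π π') -
      ∑ π ∈ P, ∑ π' ∈ P', α π * β π' * chi p ind e π π'‖ ≤ P.card := by
    rw [← Finset.sum_sub_distrib]
    calc ‖∑ π ∈ P, (∑ π' ∈ P', α π * β π' * ep p (e * ind π π') -
          ∑ π' ∈ P', α π * β π' * chi p ind e π π')‖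
        ≤ ∑ π ∈ P, ‖∑ π' ∈ P', α π * β π' * ep p (e * ind π π') -
          ∑ π' ∈ P', α π * β π' * chi p ind e π π'‖ := norm_sum_le _ _
      _ ≤ ∑ π ∈ P, (1 : ℝ) := by
          refine Finset.sum_le_sum fun π hπ => ?_
          rw [← Finset.sum_sub_distrib]
          calc ‖∑ π' ∈ P', (α π * β π' * ep p (e * ind π π') - α π * β π' * chi p ind e π π')‖
              ≤ ∑ π' ∈ P', ‖α π * β π' * ep p (e * ind π π') - α π * β π' * chi p ind e π π'‖ :=
                norm_sum_le _ _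
            _ ≤ ∑ π' ∈ P', (if π ∣ π' then (1 : ℝ) else 0) := by
                refine Finset.sum_le_sum fun π' hπ' => ?_
                rw [← mul_sub, norm_mul, norm_mul]
                have e2 : ‖α π‖ * ‖β π'‖ ≤ 1 :=
                  mul_le_one₀ (hα π) (norm_nonneg _) (hβ π')
                by_cases h : π ∣ π'
                · rw [if_pos h]
                  unfold chi
                  rw [if_pos h, sub_zero, (hEP p).2.1, mul_one]
                  exact e2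
                · rw [if_neg h]
                  unfold chi
                  rw [if_neg h, sub_self, norm_zero, mul_zero]
            _ = ((P'.filter (fun π' => π ∣ π')).card : ℝ) := by
                rw [Finset.sum_ite, Finset.sum_const_zero, add_zero, Finset.sum_const,
                  nsmul_eq_mul, mul_one]
            _ ≤ 1 := by
                have h1 : (P'.filter (fun π' => π ∣ π')).card ≤ 1 := by
                  rw [Finset.card_le_one]
                  intro x hx y hy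
                  rw [Finset.mem_filter] at hx hy
                  exact hP'.na x hx.1 y hy.1
                    ((IBLT.assoc_of_dvd (hP.pr π hπ) (hP'.pr x hx.1) hx.2).symm.trans
                      (IBLT.assoc_of_dvd (hP.pr π hπ) (hP'.pr y hy.1) hy.2))
                exact_mod_cast h1
      _ = P.card := by simp
  have hP1 : (P.card : ℝ) ≤ δ / 2 * ((P.card : ℝ) * P'.card) := by
    have e1 : T ≤ P'.card := by
      calc T ≤ Y := hTY
        _ = Y ^ 1 := (pow_one Y).symm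
        _ ≤ Y ^ (4 * n - 1) := pow_le_pow_right₀ hY1 (by omega)
        _ ≤ _ := hcP'
    have e2 : 1 ≤ δ / 2 * (P'.card : ℝ) :=
      hT3.trans (mul_le_mul_of_nonneg_left e1 (by positivity))
    calc (P.card : ℝ) = P.card * 1 := (mul_one _).symm
      _ ≤ P.card * (δ / 2 * (P'.card : ℝ)) := mul_le_mul_of_nonneg_left e2 (Nat.cast_nonneg _)
      _ = _ := by ring
  calc ‖∑ π ∈ P, ∑ π' ∈ P', α π * β π' * ep p (e * ind π π')‖
      = ‖(∑ π ∈ P, ∑ π' ∈ P', α π * β π' * ep p (e * ind π π') -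
        ∑ π ∈ P, ∑ π' ∈ P', α π * β π' * chi p ind e π π') +
        ∑ π ∈ P, ∑ π' ∈ P', α π * β π' * chi p ind e π π'‖ := by rw [sub_add_cancel]
    _ ≤ _ := norm_add_le _ _
    _ ≤ δ / 2 * ((P.card : ℝ) * P'.card) + δ / 2 * ((P.card : ℝ) * P'.card) :=
        add_le_add (hD.trans hP1) hS'
    _ = δ * (P.card * P'.card) := by ring

end Pool.Agent.Work.MP_59f3ad_nt.PX
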