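import Mathlib
import Pool.Agent.Work.MP_59f3ad_nt.PX.StmtsB

/-!
Block PX, item BOX: character sums over boxes.
-/

set_option autoImplicit false

open NumberField IsDedekindDomain

namespace Pool.Agent.Work.MP_59f3ad_nt.PX

universe u

namespace IBOX

theorem chi_norm_le {F : Type u} [Field F] [NumberField F] (p : ℕ) [Fact p.Prime]
    (hEP : StEP) (ind : 𝓞 F → 𝓞 F → ZMod p) (e : ZMod p) (π z : 𝓞 F) :
    ‖chi p ind e π z‖ ≤ 1 := by
  classical
  unfold chi
  split_ifs
  · rw [norm_zero]; exact zero_le_one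
  · exact ((hEP p).2.1 _).le

theorem nm_pos {F : Type u} [Field F] [NumberField F] (π : 𝓞 F) (h : π ≠ 0) : 0 < nm π := by
  unfold nm
  refine Nat.pos_of_ne_zero fun h0 => h ?_
  have h1 := Ideal.absNorm_eq_zero_iff.mp h0
  exact Ideal.span_singleton_eq_bot.mp h1

theorem sum_add {F : Type u} [Field F] [NumberField F] {ι : Type} [Fintype ι]
    (b : Module.Basis ι ℤ (𝓞 F)) (q : ℕ) (a a' : ι → ℤ) :
    ∑ i, (a i + (q : ℤ) * a' i) • b i = ∑ i, a i • b i + ((q : ℕ) : 𝓞 F) * ∑ i, a' i • b i := by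
  rw [Finset.mul_sum, ← Finset.sum_add_distrib]
  refine Finset.sum_congr rfl fun i _ => ?_
  rw [add_smul, mul_smul]
  congr 1
  rw [natCast_zsmul, nsmul_eq_mul]

theorem inj {F : Type u} [Field F] [NumberField F] {ι : Type} [Fintype ι]
    (b : Module.Basis ι ℤ (𝓞 F)) : Function.Injective (fun a : ι → ℤ => ∑ i, a i • b i) := by
  intro a a' h
  have h1 := (Fintype.linearIndependent_iff.mp b.linearIndependent) (fun i => a i - a' i) (by
    simp only at h
    simp only [sub_smul, Finset.sum_sub_distrib]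
    rw [h, sub_self])
  funext i
  exact sub_eq_zero.mp (h1 i)

end IBOX

open Classical in
theorem pr_BOX (hPER : StPER.{u}) (hPBX : StPBX) (hEP : StEP) : StBOX.{u} := by
  intro F _ _ p _ ind hS ι _ b π π1 hπ hπ1 hπp hπ1p hna e he B
  obtain ⟨hper, hsum⟩ := hPER F p ind hS ι b π π1 hπ hπ1 hπp hπ1p hna e he
  have hq : 0 < nm π * nm π1 :=
    Nat.mul_pos (IBOX.nm_pos π hπ.ne_zero) (IBOX.nm_pos π1 hπ1.ne_zero)
  have h := hPBX ι (nm π * nm π1) B
    (fun a => chi p ind e π (∑ i, a i • b i) *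
      (starRingEnd ℂ) (chi p ind e π1 (∑ i, a i • b i))) hq ?_ ?_ hsum
  · unfold bx
    rw [Finset.sum_image (fun x _ y _ hxy => IBOX.inj b hxy)]
    have e1 : (((nm π * nm π1 : ℕ)) : ℝ) = (nm π : ℝ) * nm π1 := by push_cast; rfl
    rw [e1] at h
    exact h
  · intro a
    rw [norm_mul, RCLike.norm_conj]
    exact mul_le_one₀ (IBOX.chi_norm_le p hEP ind e π _) (norm_nonneg _)
      (IBOX.chi_norm_le p hEP ind e π1 _)
  · intro a a'
    simp only
    rw [IBOX.sum_add b (nm π * nm π1) a a']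
    obtain ⟨h1, h2⟩ := hper (∑ i, a i • b i) (∑ i, a' i • b i)
    rw [h1, h2]

end Pool.Agent.Work.MP_59f3ad_nt.PX
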