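import Pool.Agent.Work.MP_59f3ad_nt.PX.StmtsA

/-!
Block PX, item CFG: the cyclic extension of degree `p` obtained by adjoining a `p`-th root.
-/

set_option autoImplicit false

open NumberField IsDedekindDomain Polynomial IntermediateField

namespace Pool.Agent.Work.MP_59f3ad_nt.PX

open Pool.Agent.Work.MP_59f3ad_nt.FE

universe u

/-- CFG -/
theorem pr_CFG : StCFG.{u} := by
  intro F L _ _ _ _ _ p hp h2 ζ m x hζ hm hL hx hno
  have hpp : p.Prime := hp.out
  have H : Irreducible (X ^ p - C m : F[X]) := X_pow_sub_C_irreducible_of_prime hpp hno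
  have : FiniteDimensional F L := Module.finite_of_finrank_pos (by rw [hL]; exact hpp.pos)
  have hmin : minpoly F x = X ^ p - C m :=
    (minpoly.eq_of_irreducible_of_monic H (by simp [hx]) (monic_X_pow_sub_C m hpp.ne_zero)).symm
  have htop : F⟮x⟯ = ⊤ := by
    rw [Field.primitive_element_iff_minpoly_natDegree_eq, hmin, hL]
    exact natDegree_X_pow_sub_C
  subst hL
  have : NeZero (Module.finrank F L) := ⟨hpp.ne_zero⟩
  have hroots : (primitiveRoots (Module.finrank F L) F).Nonempty :=
    ⟨ζ, (mem_primitiveRoots hpp.pos).mpr hζ⟩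
  have : IsSplittingField F L (X ^ (Module.finrank F L) - C m) :=
    isSplittingField_X_pow_sub_C_of_root_adjoin_eq_top hroots hx htop
  have : IsGalois F L := isGalois_of_isSplittingField_X_pow_sub_C hroots H L
  have hσ : (autEquivZmod H L hζ).symm
      (Multiplicative.ofAdd (1 : ZMod (Module.finrank F L))) x = ζ • x := by
    have := autEquivZmod_symm_apply_natCast H L hx hζ 1
    simpa using this
  refine ⟨(autEquivZmod H L hζ).symm (Multiplicative.ofAdd (1 : ZMod (Module.finrank F L))),
    ⟨h2, hζ, hm, rfl, hx, by rw [hσ, Algebra.smul_def], ?_⟩⟩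
  intro y hy
  have hall : ∀ f : L ≃ₐ[F] L, f y = y := by
    intro f
    obtain ⟨c, rfl⟩ := (autEquivZmod H L hζ).symm.surjective f
    have hc : c = (Multiplicative.ofAdd (1 : ZMod (Module.finrank F L))) ^
        (Multiplicative.toAdd c).val := by
      rw [← ofAdd_nsmul]
      apply Multiplicative.toAdd.injective
      simp
    rw [hc, map_pow]
    generalize (Multiplicative.toAdd c).val = k
    induction k with
    | zero => simp
    | succ k ih =>
      rw [pow_succ, AlgEquiv.mul_apply, hy, ih]
  have hb := (IsGalois.mem_bot_iff_fixed y).2 hall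
  rw [IntermediateField.mem_bot] at hb
  obtain ⟨z, hz⟩ := hb
  exact ⟨z, hz.symm⟩

end Pool.Agent.Work.MP_59f3ad_nt.PX
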