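import Mathlib
import Pool.Agent.Work.MP_59f3ad_nt.PX.StmtsA

/-!
Block PX, item CH0: the geometric sum of `1 + X`.
-/

set_option autoImplicit false

open NumberField IsDedekindDomain

namespace Pool.Agent.Work.MP_59f3ad_nt.PX

open Pool.Agent.Work.MP_59f3ad_nt.FE

/-- Item CH0. -/
theorem pr_CH0 : StCH0 := by
  intro p hp
  obtain ⟨q, rfl⟩ : ∃ q, p = q + 2 := ⟨p - 2, by have := hp.two_le; omega⟩
  refine ⟨∑ j ∈ Finset.range q,
    Polynomial.C (((q + 2).choose (j + 2) / (q + 2) : ℕ) : ℤ) * Polynomial.X ^ j, ?_⟩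
  apply mul_left_cancel₀ (Polynomial.X_ne_zero (R := ℤ))
  have h1 : (Polynomial.X : Polynomial ℤ) * ∑ i ∈ Finset.range (q + 2), (1 + Polynomial.X) ^ i =
      (1 + Polynomial.X) ^ (q + 2) - 1 := by
    have := mul_geom_sum (1 + Polynomial.X : Polynomial ℤ) (q + 2)
    rwa [add_sub_cancel_left] at this
  have h2 : ∀ j ∈ Finset.range q, (Polynomial.X : Polynomial ℤ) ^ (j + 1 + 1) *
      1 ^ (q + 2 - (j + 1 + 1)) * (((q + 2).choose (j + 1 + 1) : ℕ) : Polynomial ℤ) =
      (Polynomial.C ((q + 2 : ℕ) : ℤ) * Polynomial.X * Polynomial.X) *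
      (Polynomial.C (((q + 2).choose (j + 2) / (q + 2) : ℕ) : ℤ) * Polynomial.X ^ j) := by
    intro j hj
    rw [Finset.mem_range] at hj
    have h3 : (q + 2) ∣ (q + 2).choose (j + 2) := hp.dvd_choose_self (by omega) (by omega)
    have h4 : (((q + 2).choose (j + 2) : ℕ) : Polynomial ℤ) = Polynomial.C ((q + 2 : ℕ) : ℤ) *
        Polynomial.C (((q + 2).choose (j + 2) / (q + 2) : ℕ) : ℤ) := by
      rw [← Polynomial.C_mul, ← Nat.cast_mul, Nat.mul_div_cancel' h3]
      simp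
    rw [one_pow, mul_one, show j + 1 + 1 = j + 2 from rfl, h4]
    ring
  rw [h1, add_comm 1 Polynomial.X, add_pow, Finset.sum_range_succ, Finset.sum_range_succ',
    Finset.sum_range_succ', Finset.sum_congr rfl h2, ← Finset.mul_sum]
  have h5 : Polynomial.C ((q + 2 : ℕ) : ℤ) = ((q + 2 : ℕ) : Polynomial ℤ) := by simp
  have e1 : q + 2 - 1 = q + 1 := by omega
  rw [h5, e1]
  simp only [one_pow, mul_one, Nat.choose_self, Nat.choose_zero_right, Nat.cast_one, pow_zero,
    zero_add, Nat.choose_one_right, pow_one]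
  ring

end Pool.Agent.Work.MP_59f3ad_nt.PX
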