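import Pool.Agent.Work.MP_59f3ad_nt.PX.StmtsA

/-!
Item CH1 of the block PX (helper33): the step of the chain lemma.
-/

set_option autoImplicit false

universe u

namespace Pool.Agent.Work.MP_59f3ad_nt.PX

namespace ICH1

open Polynomial

section
variable {G : Type u} {p : ℕ} [Fact p.Prime]

/-- the operator `φ ↦ φ ∘ κ` -/
noncomputable def T (p : ℕ) [Fact p.Prime] (κ : G → G) : Module.End ℤ_[p] (G → ℤ_[p]) :=
  LinearMap.funLeft ℤ_[p] ℤ_[p] κ

theorem T_apply (κ : G → G) (φ : G → ℤ_[p]) (g : G) : T p κ φ g = φ (κ g) := rfl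

theorem T_pow (κ : G → G) (i : ℕ) (φ : G → ℤ_[p]) (g : G) : (T p κ ^ i) φ g = φ (κ^[i] g) := by
  induction i generalizing φ with
  | zero => rfl
  | succ i ih =>
    rw [pow_succ, Module.End.mul_apply, ih, T_apply, Function.iterate_succ_apply']

/-- the difference operator -/
noncomputable def D (p : ℕ) [Fact p.Prime] (κ : G → G) : Module.End ℤ_[p] (G → ℤ_[p]) :=
  T p κ - 1

theorem D_apply (κ : G → G) (φ : G → ℤ_[p]) (g : G) : D p κ φ g = φ (κ g) - φ g := rfl

/-- polynomials in the difference operator -/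
noncomputable def P (p : ℕ) [Fact p.Prime] (κ : G → G) :
    ℤ[X] →ₐ[ℤ] Module.End ℤ_[p] (G → ℤ_[p]) := aeval (D p κ)

theorem P_X (κ : G → G) : P p κ X = D p κ := aeval_X _

theorem P_oneX (κ : G → G) : P p κ (1 + X) = T p κ := by
  rw [map_add, map_one, P_X, D]
  abel

/-- the norm operator -/
noncomputable def N (p : ℕ) [Fact p.Prime] (κ : G → G) : Module.End ℤ_[p] (G → ℤ_[p]) :=
  P p κ (∑ i ∈ Finset.range p, (1 + X) ^ i)

theorem N_eq (κ : G → G) : N p κ = ∑ i ∈ Finset.range p, T p κ ^ i := by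
  rw [N, map_sum]
  refine Finset.sum_congr rfl fun i _ => ?_
  rw [map_pow, P_oneX]

theorem N_apply (κ : G → G) (φ : G → ℤ_[p]) (g : G) :
    N p κ φ g = ∑ i ∈ Finset.range p, φ (κ^[i] g) := by
  rw [N_eq, LinearMap.sum_apply, Finset.sum_apply]
  exact Finset.sum_congr rfl fun i _ => T_pow κ i φ g

theorem int_apply (a : ℤ) (φ : G → ℤ_[p]) :
    (algebraMap ℤ (Module.End ℤ_[p] (G → ℤ_[p])) a) φ = (a : ℤ_[p]) • φ := by
  rw [Algebra.algebraMap_eq_smul_one, LinearMap.smul_apply, Module.End.one_apply]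
  funext g
  rw [Pi.smul_apply, Pi.smul_apply, smul_eq_mul, zsmul_eq_mul]

theorem stab {κ : G → G} {A : Submodule ℤ_[p] (G → ℤ_[p])}
    (hst : ∀ φ ∈ A, (fun g => φ (κ g)) ∈ A) (q : ℤ[X]) : ∀ φ ∈ A, P p κ q φ ∈ A := by
  have hD : ∀ φ ∈ A, D p κ φ ∈ A := fun φ hφ => A.sub_mem (hst φ hφ) hφ
  have hDn : ∀ (n : ℕ), ∀ φ ∈ A, (D p κ ^ n) φ ∈ A := by
    intro n
    induction n with
    | zero => intro φ hφ; exact hφ
    | succ n ih =>
      intro φ hφ
      rw [pow_succ, Module.End.mul_apply]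
      exact ih _ (hD φ hφ)
  induction q using Polynomial.induction_on' with
  | add q r hq hr =>
    intro φ hφ
    rw [map_add, LinearMap.add_apply]
    exact A.add_mem (hq φ hφ) (hr φ hφ)
  | monomial n a =>
    intro φ hφ
    rw [P, aeval_monomial, Module.End.mul_apply, int_apply]
    exact A.smul_mem _ (hDn n φ hφ)

theorem comm (κ : G → G) (q r : ℤ[X]) (φ : G → ℤ_[p]) :
    P p κ q (P p κ r φ) = P p κ r (P p κ q φ) := by
  rw [← Module.End.mul_apply, ← Module.End.mul_apply, ← map_mul, ← map_mul, mul_comm]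

theorem P_beta {κ : G → G} {β : G → ℤ_[p]} (h : ∀ g, β (κ g) = β g) (q : ℤ[X]) :
    P p κ q β = ((q.coeff 0 : ℤ) : ℤ_[p]) • β := by
  have hD : D p κ β = 0 := by
    funext g
    rw [D_apply, h, sub_self]
    rfl
  conv_lhs => rw [← divX_mul_X_add q]
  rw [map_add, map_mul, P_X, LinearMap.add_apply, Module.End.mul_apply, hD, map_zero, zero_add]
  rw [P, aeval_C, int_apply]

theorem DN {κ : G → G} {φ : G → ℤ_[p]} (h : ∀ g, φ (κ^[p] g) = φ g) :
    N p κ (D p κ φ) = 0 := by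
  have e : N p κ * D p κ = T p κ ^ p - 1 := by
    rw [N_eq, D]
    exact geom_sum_mul _ _
  rw [← Module.End.mul_apply, e]
  funext g
  rw [LinearMap.sub_apply, Pi.sub_apply, T_pow, h, Module.End.one_apply, sub_self]
  rfl

end

end ICH1

open ICH1 Polynomial in
theorem pr_CH1 (hCH0 : StCH0) : StCH1.{u} := by
  intro G p hp hp2 κ β A hC φ hφ hN
  have hpp : p.Prime := hp.out
  obtain ⟨V, hV⟩ := hCH0 p hpp
  have hp3 : 3 ≤ p := by
    have := hpp.two_le
    omega
  have hp0 : (p : ℤ_[p]) ≠ 0 := by exact_mod_cast hpp.ne_zero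
  have hprime : Prime (p : ℤ_[p]) := PadicInt.prime_p
  obtain ⟨c', hc'⟩ := hN
  have hNφ : N p κ φ = c' • β := by
    funext g
    rw [N_apply, hc' g]
    rfl
  -- the formula for the norm
  have key : ∀ ψ : G → ℤ_[p], N p κ ψ = (D p κ ^ (p - 1)) ψ +
      (p : ℤ_[p]) • (ψ + D p κ (P p κ V ψ)) := by
    intro ψ
    rw [N, hV, map_add, map_pow, P_X, LinearMap.add_apply, map_mul, Module.End.mul_apply]
    congr 1
    rw [P, aeval_C, int_apply, ← P, map_add, map_one, map_mul, P_X, LinearMap.add_apply,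
      Module.End.one_apply, Module.End.mul_apply]
    push_cast
    rfl
  -- theta
  set θ := (D p κ ^ (p - 3)) φ with hθ
  have hPpow : ∀ n : ℕ, D p κ ^ n = P p κ (X ^ n) := fun n => by rw [map_pow, P_X]
  have hθA : θ ∈ A := by
    rw [hθ, hPpow]
    exact stab hC.sta _ φ hφ
  have e2 : D p κ (D p κ θ) = (D p κ ^ (p - 1)) φ := by
    rw [hθ, ← Module.End.mul_apply, ← Module.End.mul_apply, ← pow_two, ← pow_add]
    congr 2
    omega
  have e3 : D p κ (D p κ θ) = c' • β - (p : ℤ_[p]) • (φ + D p κ (P p κ V φ)) := by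
    rw [e2, ← hNφ, key φ]
    abel
  obtain ⟨c, hc⟩ := hC.no θ hθA ⟨c', fun g => by
    have h1 : θ (κ (κ g)) - 2 * θ (κ g) + θ g - c' * β g =
        D p κ (D p κ θ) g - c' * β g := by
      rw [D_apply, D_apply, D_apply]
      ring
    rw [h1, e3, Pi.sub_apply, Pi.smul_apply, Pi.smul_apply, smul_eq_mul, smul_eq_mul]
    refine ⟨-((φ + D p κ (P p κ V φ)) g), ?_⟩
    ring⟩
  choose α hα using hc
  have hα' : D p κ θ = (p : ℤ_[p]) • α + c • β := by
    funext g
    have := hα g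
    rw [D_apply, Pi.add_apply, Pi.smul_apply, Pi.smul_apply, smul_eq_mul, smul_eq_mul, ← this]
    ring
  have hαA : α ∈ A := by
    refine hC.sat α ?_
    have h1 : (fun g => (p : ℤ_[p]) * α g) = D p κ θ - c • β := by
      rw [hα', add_sub_cancel_right]
      rfl
    rw [h1]
    have h2 : D p κ θ = P p κ X θ := by rw [P_X]
    rw [h2]
    exact A.sub_mem (stab hC.sta _ θ hθA) (A.smul_mem _ hC.mem)
  have hNβ : N p κ β = (p : ℤ_[p]) • β := by
    funext g
    rw [N_apply]
    have : ∀ i : ℕ, β (κ^[i] g) = β g := by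
      intro i
      induction i with
      | zero => rfl
      | succ i ih => rw [Function.iterate_succ_apply', hC.inv, ih]
    rw [Finset.sum_congr rfl fun i _ => this i, Finset.sum_const, Finset.card_range,
      nsmul_eq_mul]
    rfl
  have hNα : N p κ α = (-c) • β := by
    have h1 : N p κ (D p κ θ) = 0 := DN (hC.per θ hθA)
    rw [hα', map_add, map_smul, map_smul, hNβ] at h1
    funext g
    have h2 := congrFun h1 g
    simp only [Pi.add_apply, Pi.smul_apply, smul_eq_mul, Pi.zero_apply] at h2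
    have h3 : (p : ℤ_[p]) * (N p κ α g + c * β g) = 0 := by
      rw [← h2]; ring
    rcases mul_eq_zero.1 h3 with h4 | h4
    · exact absurd h4 hp0
    · rw [Pi.smul_apply, smul_eq_mul]
      linear_combination h4
  have hDβ : D p κ β = 0 := by
    funext g
    rw [D_apply, hC.inv, sub_self]
    rfl
  have e4 : ∀ g, c' * β g = (p : ℤ_[p]) * (D p κ α g + φ g + D p κ (P p κ V φ) g) := by
    intro g
    have h1 : D p κ (D p κ θ) = (p : ℤ_[p]) • D p κ α := by
      rw [hα', map_add, map_smul, map_smul, hDβ, smul_zero, add_zero]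
    rw [e3] at h1
    have h2 := congrFun h1 g
    simp only [Pi.sub_apply, Pi.add_apply, Pi.smul_apply, smul_eq_mul] at h2
    linear_combination h2
  obtain ⟨g0, hg0⟩ := hC.un
  have hdc : (p : ℤ_[p]) ∣ c' := by
    have h1 : (p : ℤ_[p]) ∣ c' * β g0 := ⟨_, e4 g0⟩
    rcases hprime.dvd_or_dvd h1 with h2 | h2
    · exact h2
    · exact absurd h2 hg0
  obtain ⟨c'', hc''⟩ := hdc
  have e5 : ∀ g, c'' * β g = D p κ α g + φ g + D p κ (P p κ V φ) g := by
    intro g
    have h1 := e4 g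
    rw [hc'', mul_assoc] at h1
    exact mul_left_cancel₀ hp0 h1
  have hVβ := P_beta (κ := κ) hC.inv V
  refine ⟨-(α + P p κ V φ), A.neg_mem (A.add_mem hαA (stab hC.sta V φ hφ)),
    ⟨c - ((V.coeff 0 : ℤ) : ℤ_[p]) * c', fun g => ?_⟩, ⟨c'', fun g => ?_⟩⟩
  · rw [← N_apply, map_neg, map_add, hNα]
    have h1 : N p κ (P p κ V φ) = P p κ V (N p κ φ) := comm κ _ _ φ
    rw [h1, hNφ, map_smul, hVβ]
    simp only [Pi.neg_apply, Pi.add_apply, Pi.smul_apply, smul_eq_mul]
    ring
  · have h1 := e5 g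
    rw [D_apply, D_apply] at h1
    simp only [Pi.neg_apply, Pi.add_apply]
    linear_combination -h1

end Pool.Agent.Work.MP_59f3ad_nt.PX
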