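import Mathlib
import Pool.Agent.Work.MP_59f3ad_nt.PX.StmtsB

/-!
Block PX, item CNT: the count, from the deterministic relations, the first moment and the rarity of
exceptional tuples.
-/

set_option autoImplicit false

open NumberField IsDedekindDomain

namespace Pool.Agent.Work.MP_59f3ad_nt.PX

universe u

namespace ICNT

/-- Double counting with a factor `N`. -/
theorem double {α β : Type*} [DecidableEq α] (S : Finset α) (H : Finset β) (R : α → β → Prop)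
    [∀ a, DecidablePred (R a)] (W : Finset α) (hW : W ⊆ S) (N : ℕ)
    (h2 : ∀ a ∈ W, ∃ T : Finset β, T.card = N ∧ ∀ b ∈ T, b ∈ H ∧ R a b) :
    N * W.card ≤ ∑ b ∈ H, (S.filter fun a => R a b).card := by
  classical
  have h3 : ∑ b ∈ H, (S.filter fun a => R a b).card = ∑ a ∈ S, (H.filter fun b => R a b).card := by
    simp only [Finset.card_filter]
    exact Finset.sum_comm
  rw [h3]
  calc N * W.card = ∑ a ∈ W, N := by rw [Finset.sum_const, smul_eq_mul, mul_comm]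
    _ ≤ ∑ a ∈ W, (H.filter fun b => R a b).card := by
        refine Finset.sum_le_sum fun a ha => ?_
        obtain ⟨T, hT, hTR⟩ := h2 a ha
        rw [← hT]
        exact Finset.card_le_card fun b hb => Finset.mem_filter.mpr (hTR b hb)
    _ ≤ ∑ a ∈ S, (H.filter fun b => R a b).card :=
        Finset.sum_le_sum_of_subset hW

/-- The final numerical step. -/
theorem fin_step (p H t : ℕ) (hp : 2 ≤ p) (ε Q b b1 b2 : ℝ) (hε : 0 < ε) (hQ : 0 ≤ Q)
    (h0 : b ≤ b1 + b2) (h1 : b1 ≤ ε / 2 * Q)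
    (h2 : (((p : ℝ) - 1) * p) * b2 ≤
      H * (((p : ℝ) / (p : ℝ) ^ t + ε / (2 * ((H : ℝ) + 1))) * Q)) :
    b ≤ ((H : ℝ) / (((p : ℝ) - 1) * (p : ℝ) ^ t) + ε) * Q := by
  have hp' : (2 : ℝ) ≤ p := by exact_mod_cast hp
  have hp0 : (0 : ℝ) < p := by linarith
  have hp1 : (1 : ℝ) ≤ (p : ℝ) - 1 := by linarith
  have hp2 : (0 : ℝ) < (p : ℝ) - 1 := by linarith
  have hpt : (0 : ℝ) < (p : ℝ) ^ t := pow_pos hp0 t
  have hH0 : (0 : ℝ) ≤ H := Nat.cast_nonneg H
  have hN : (0 : ℝ) < ((p : ℝ) - 1) * p := mul_pos hp2 hp0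
  have hN1 : (1 : ℝ) ≤ ((p : ℝ) - 1) * p := by nlinarith
  have h3 : (H : ℝ) * (ε / (2 * ((H : ℝ) + 1))) ≤ ε / 2 := by
    rw [← mul_div_assoc, div_le_iff₀ (by positivity)]
    nlinarith
  have h4 : (H : ℝ) * ((p : ℝ) / (p : ℝ) ^ t) =
      (((p : ℝ) - 1) * p) * ((H : ℝ) / (((p : ℝ) - 1) * (p : ℝ) ^ t)) := by
    have := hp2.ne'
    field_simp
  have h5 : (((p : ℝ) - 1) * p) * b2 ≤
      (((p : ℝ) - 1) * p) * (((H : ℝ) / (((p : ℝ) - 1) * (p : ℝ) ^ t) + ε / 2) * Q) := by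
    have h6 : H * (((p : ℝ) / (p : ℝ) ^ t + ε / (2 * ((H : ℝ) + 1))) * Q) =
        (H : ℝ) * ((p : ℝ) / (p : ℝ) ^ t) * Q + (H : ℝ) * (ε / (2 * ((H : ℝ) + 1))) * Q := by
      ring
    rw [h6, h4] at h2
    have h7 : (H : ℝ) * (ε / (2 * ((H : ℝ) + 1))) * Q ≤ (((p : ℝ) - 1) * p) * (ε / 2 * Q) := by
      have h8 : (H : ℝ) * (ε / (2 * ((H : ℝ) + 1))) * Q ≤ ε / 2 * Q :=
        mul_le_mul_of_nonneg_right h3 hQ
      have h9 : 0 ≤ ε / 2 * Q := by positivity
      nlinarith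
    calc (((p : ℝ) - 1) * p) * b2 ≤ _ := h2
      _ ≤ (((p : ℝ) - 1) * p) * ((H : ℝ) / (((p : ℝ) - 1) * (p : ℝ) ^ t)) * Q +
          (((p : ℝ) - 1) * p) * (ε / 2 * Q) := by linarith
      _ = _ := by ring
  have h10 := le_of_mul_le_mul_left h5 hN
  have h11 : ((H : ℝ) / (((p : ℝ) - 1) * (p : ℝ) ^ t) + ε) * Q =
      ((H : ℝ) / (((p : ℝ) - 1) * (p : ℝ) ^ t) + ε / 2) * Q + ε / 2 * Q := by ring
  rw [h11]
  linarith

end ICNT

theorem pr_CNT (hIND : StIND.{u}) (hDEG : StDEG.{u}) (hRLS : StRLS.{u}) (hFMO : StFMO.{u})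
    (hEXC : StEXC.{u}) : StCNT.{u} := by
  classical
  intro F _ _ p _ hp2 ζ hζ t m0 x c ht hm0 hm0v hx hc hnsp hH ε hε
  obtain ⟨ind, hind⟩ := hIND F p ζ hζ
  have hdeg := hDEG F p hp2 ζ hζ
  set H : Finset (Fin t → ZMod p) := Finset.univ.filter (fun e => e ∈ EE p m0 x c) with hHdef
  have hHm : ∀ e, e ∈ H ↔ e ∈ EE p m0 x c := by
    intro e
    rw [hHdef, Finset.mem_filter]
    exact ⟨fun h => h.2, fun h => ⟨Finset.mem_univ _, h⟩⟩
  have hHc : Nat.card (EE p m0 x c) = H.card := by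
    have h1 : EE p m0 x c = (H : Set (Fin t → ZMod p)) := by
      ext e
      rw [Finset.mem_coe, hHm]
    rw [h1]
    simp
  have hdex : ∀ e : Fin t → ZMod p, ∃ d : 𝓞 F, d ≠ 0 ∧ (e ∈ EE p m0 x c → Wt p m0 x c e d) := by
    intro e
    by_cases he : e ∈ EE p m0 x c
    · obtain ⟨_, d, hd⟩ := he
      exact ⟨d, hd.ne, fun _ => hd⟩
    · exact ⟨1, one_ne_zero, fun h => absurd h he⟩
  choose d hd0 hdW using hdex
  set D0 : 𝓞 F := m0 * ∏ e ∈ H, d e with hD0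
  have hD0n : D0 ≠ 0 := mul_ne_zero hm0 (Finset.prod_ne_zero_iff.mpr fun e _ => hd0 e)
  have hmD : m0 ∣ D0 := Dvd.intro _ rfl
  have hdD : ∀ e ∈ H, d e ∣ D0 := fun e he =>
    (Finset.dvd_prod_of_mem d he).trans (Dvd.intro_left _ rfl)
  obtain ⟨X1, hX1⟩ := hEXC F p t D0 hD0n (ε / 2) (by positivity)
  have hcz : ∀ i, ((c i : ℕ) : ZMod p) ≠ 0 := by
    intro i h
    rw [ZMod.natCast_eq_zero_iff] at h
    have h1 := Nat.le_of_dvd (by have := (hc i).1; omega) h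
    have h2 := (hc i).2
    omega
  have hε' : 0 < ε / (2 * ((H.card : ℝ) + 1)) := by positivity
  have hFex : ∀ e : Fin t → ZMod p, ∃ X0 : ℕ, e ∈ H → ∀ X : ℕ, X0 ≤ X →
      ∀ P : Fin t → Finset (𝓞 F), (∀ i, Adm F p X (P i)) →
      (∀ i, (X : ℝ) ^ ((Module.finrank ℚ F : ℝ) - 1 / 4) ≤ (P i).card) →
      (((Fintype.piFinset P).filter (fun π => ∀ k,
        ∑ i ∈ Finset.univ.erase k, ((c k : ZMod p) * e i - (c i : ZMod p) * e k) *
          ind (π k) (π i) =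
          -((c k : ZMod p) * ind (π k) (d e) - e k * ind (π k) m0))).card : ℝ) ≤
        ((p : ℝ) / (p : ℝ) ^ t + ε / (2 * ((H.card : ℝ) + 1))) * ∏ i, ((P i).card : ℝ) := by
    intro e
    by_cases he : e ∈ H
    · obtain ⟨hne, _⟩ := (hHm e).mp he
      obtain ⟨X0, hX0⟩ := hFMO F p ind hind hdeg t (fun i => (c i : ZMod p)) e hcz hne _ hε'
      exact ⟨X0, fun _ X hX P hP hPc =>
        hX0 X hX P hP hPc (fun k z => -((c k : ZMod p) * ind z (d e) - e k * ind z m0))⟩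
    · exact ⟨0, fun h => absurd h he⟩
  choose X2 hX2 using hFex
  refine ⟨max X1 (H.sup X2), fun X hX P hP hPc hPl => ?_⟩
  have hXX1 : X1 ≤ X := (le_max_left _ _).trans hX
  have hXX2 : ∀ e ∈ H, X2 e ≤ X := fun e he =>
    (Finset.le_sup he).trans ((le_max_right _ _).trans hX)
  set Pi0 : ℝ := ∏ i, ((P i).card : ℝ) with hPi0
  have hPi : 0 ≤ Pi0 := Finset.prod_nonneg fun i _ => Nat.cast_nonneg _
  set S := Fintype.piFinset P with hS
  set B := S.filter (fun π => ¬ Good p m0 c π) with hB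
  set B1 := S.filter (fun π => (∃ i k, i ≠ k ∧ Associated (π i) (π k)) ∨ ∃ i, π i ∣ D0) with hB1
  set B2 := B.filter (fun π => ¬ ((∃ i k, i ≠ k ∧ Associated (π i) (π k)) ∨ ∃ i, π i ∣ D0))
    with hB2
  have hBle : B.card ≤ B1.card + B2.card := by
    refine (Finset.card_le_card ?_).trans (Finset.card_union_le _ _)
    intro π hπ
    rw [Finset.mem_union]
    by_cases h : (∃ i k, i ≠ k ∧ Associated (π i) (π k)) ∨ ∃ i, π i ∣ D0
    · left
      exact Finset.mem_filter.mpr ⟨(Finset.mem_filter.mp hπ).1, h⟩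
    · right
      exact Finset.mem_filter.mpr ⟨hπ, h⟩
  have hB1c : (B1.card : ℝ) ≤ ε / 2 * Pi0 := hX1 X hXX1 P hP hPc
  let R : (Fin t → 𝓞 F) → (Fin t → ZMod p) → Prop := fun π e => ∀ k,
    ∑ i ∈ Finset.univ.erase k, ((c k : ZMod p) * e i - (c i : ZMod p) * e k) *
      ind (π k) (π i) = -((c k : ZMod p) * ind (π k) (d e) - e k * ind (π k) m0)
  have hdb : ((p - 1) * p) * B2.card ≤ ∑ e ∈ H, (S.filter fun π => R π e).card := by
    refine ICNT.double S H R B2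
      ((Finset.filter_subset _ _).trans (Finset.filter_subset _ _)) _ ?_
    intro π hπ
    obtain ⟨hπB, hnex⟩ := Finset.mem_filter.mp hπ
    obtain ⟨hπS, hbad⟩ := Finset.mem_filter.mp hπB
    have hmem : ∀ i, π i ∈ P i := fun i => Fintype.mem_piFinset.mp hπS i
    have hndD : ∀ i, ¬ π i ∣ D0 := fun i h => hnex (Or.inr ⟨i, h⟩)
    have hctx : Ctx p m0 x c π :=
      { ht := ht
        m0n := hm0
        m0v := hm0v
        xn := hx
        hc := hc
        nsp := hnsp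
        hH := hH
        pr := fun i => (hP i).pr _ (hmem i)
        np := fun i => (hP i).np _ (hmem i)
        na := fun i k h => by
          by_contra hik
          exact hnex (Or.inl ⟨i, k, hik, h⟩)
        nm0 := fun i h => hndD i (h.trans hmD)
        lc := fun i v hv => hPl i _ (hmem i) v hv }
    obtain ⟨T, hT, hTR⟩ := hRLS F p hp2 ζ hζ ind hind t m0 x c π hctx d
      (fun e he => ⟨hdW e he, fun k h => hndD k (h.trans (hdD e ((hHm e).mpr he)))⟩) hbad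
    exact ⟨T, hT, fun e he => ⟨(hHm e).mpr (hTR e he).1, (hTR e he).2⟩⟩
  have hsum : ((∑ e ∈ H, (S.filter fun π => R π e).card : ℕ) : ℝ) ≤
      H.card * (((p : ℝ) / (p : ℝ) ^ t + ε / (2 * ((H.card : ℝ) + 1))) * Pi0) := by
    push_cast
    rw [← nsmul_eq_mul, ← Finset.sum_const]
    refine Finset.sum_le_sum fun e he => ?_
    exact hX2 e he X (hXX2 e he) P hP hPc
  have hp1 : 2 ≤ p := (Fact.out : p.Prime).two_le
  have hB2c : (((p : ℝ) - 1) * p) * B2.card ≤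
      H.card * (((p : ℝ) / (p : ℝ) ^ t + ε / (2 * ((H.card : ℝ) + 1))) * Pi0) := by
    refine le_trans ?_ hsum
    have h1 : (((p - 1) * p * B2.card : ℕ) : ℝ) = ((p : ℝ) - 1) * p * B2.card := by
      push_cast [Nat.cast_sub (show 1 ≤ p by omega)]
      ring
    rw [← h1]
    exact_mod_cast hdb
  rw [hHc]
  exact ICNT.fin_step p H.card t hp1 ε Pi0 B.card B1.card B2.card hε hPi
    (by exact_mod_cast hBle) hB1c hB2c

end Pool.Agent.Work.MP_59f3ad_nt.PX
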