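import Pool.Agent.Work.MP_59f3ad_nt.PX.StmtsB

/-!
Item CRD of the block PX (helper33): coordinates are bounded by conjugates.
-/

set_option autoImplicit false

universe u

namespace Pool.Agent.Work.MP_59f3ad_nt.PX

open scoped NumberField nonZeroDivisors

namespace ICRD

/-- the basis over the rational numbers -/
noncomputable def bQ {F : Type u} [Field F] [NumberField F] {ι : Type}
    (b : Module.Basis ι ℤ (𝓞 F)) : Module.Basis ι ℚ F :=
  b.localizationLocalization ℚ (nonZeroDivisors ℤ) F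

/-- a coordinate is a trace -/
theorem coord_eq {F : Type u} [Field F] [NumberField F] {ι : Type} [Fintype ι] [DecidableEq ι]
    (b : Module.Basis ι ℤ (𝓞 F)) : ∃ D : ι → F, ∀ (z : 𝓞 F) (i : ι),
      ((b.repr z i : ℤ) : ℚ) = Algebra.trace ℚ F (D i * (z : F)) := by
  have hn : (Algebra.traceForm ℚ F).Nondegenerate := traceForm_nondegenerate ℚ F
  refine ⟨(Algebra.traceForm ℚ F).dualBasis hn (bQ b), fun z i => ?_⟩
  have h1 : (bQ b).repr (z : F) i = ((b.repr z i : ℤ) : ℚ) := by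
    have := b.localizationLocalization_repr_algebraMap ℚ (nonZeroDivisors ℤ) F z i
    exact this
  rw [← Algebra.traceForm_apply, ← h1]
  conv_rhs => rw [← (bQ b).sum_repr (z : F)]
  rw [map_sum]
  simp only [map_smul, LinearMap.BilinForm.apply_dualBasis_left, smul_eq_mul, mul_ite, mul_one,
    mul_zero]
  rw [Finset.sum_ite_eq']
  simp

end ICRD

open ICRD in
theorem pr_CRD : StCRD.{u} := by
  intro F _ _ ι _ b
  classical
  obtain ⟨D, hD⟩ := coord_eq b
  let m : ι → ℝ := fun i => ∑ σ : F →ₐ[ℚ] ℂ, ‖σ (D i)‖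
  have hm : ∀ i, 0 ≤ m i := fun i => Finset.sum_nonneg fun σ _ => norm_nonneg _
  refine ⟨⌈∑ i, m i⌉₊ + 1, by omega, fun Y z hz => ?_⟩
  have key : ∀ i, |((b.repr z i : ℤ) : ℝ)| ≤ ((((⌈∑ i, m i⌉₊ + 1) * Y : ℕ) : ℤ) : ℝ) := by
    intro i
    have e1 : (((b.repr z i : ℤ) : ℚ) : ℂ) = ∑ σ : F →ₐ[ℚ] ℂ, σ (D i * (z : F)) := by
      rw [hD z i, ← trace_eq_sum_embeddings (K := ℚ) (L := F) ℂ (x := D i * (z : F)),
        eq_ratCast]
    have e2 : |((b.repr z i : ℤ) : ℝ)| = ‖(((b.repr z i : ℤ) : ℚ) : ℂ)‖ := by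
      rw [Rat.cast_intCast, Complex.norm_intCast]
    rw [e2, e1]
    have h1 : ‖∑ σ : F →ₐ[ℚ] ℂ, σ (D i * (z : F))‖ ≤ m i * Y := by
      refine (norm_sum_le _ _).trans ?_
      rw [Finset.sum_mul]
      refine Finset.sum_le_sum fun σ _ => ?_
      rw [map_mul, norm_mul]
      exact mul_le_mul_of_nonneg_left (hz σ.toRingHom) (norm_nonneg _)
    refine h1.trans ?_
    have h2 : m i ≤ ∑ i, m i := Finset.single_le_sum (fun j _ => hm j) (Finset.mem_univ i)
    have h3 : ∑ i, m i ≤ (⌈∑ i, m i⌉₊ : ℝ) := Nat.le_ceil _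
    push_cast
    refine mul_le_mul_of_nonneg_right ?_ (Nat.cast_nonneg _)
    linarith
  unfold bx
  rw [Finset.mem_image]
  refine ⟨fun i => b.repr z i, ?_, b.sum_repr z⟩
  rw [Fintype.mem_piFinset]
  intro i
  rw [Finset.mem_Icc, ← abs_le]
  have := key i
  exact_mod_cast this

end Pool.Agent.Work.MP_59f3ad_nt.PX
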