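import Mathlib
import Pool.Agent.Work.MP_59f3ad_nt.PX.StmtsB

/-!
Block PX, item DEG: a number field with the `p`-th roots of unity, `p` odd, has degree at least 2.
-/

set_option autoImplicit false

open NumberField IsDedekindDomain

namespace Pool.Agent.Work.MP_59f3ad_nt.PX

universe u

theorem pr_DEG : StDEG.{u} := by
  intro F _ _ p hp hp2 ζ hζ
  by_contra hlt
  have hpos : 0 < Module.finrank ℚ F := Module.finrank_pos
  have h1 : Module.finrank ℚ F = 1 := by omega
  have hbot : (⊥ : Subalgebra ℚ F) = ⊤ := Subalgebra.bot_eq_top_of_finrank_eq_one h1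
  have hmem : ζ ∈ (⊥ : Subalgebra ℚ F) := by
    rw [hbot]
    exact Algebra.mem_top
  obtain ⟨t, rfl⟩ := Algebra.mem_bot.1 hmem
  have ht : IsPrimitiveRoot t p := hζ.of_map_of_injective (algebraMap ℚ F).injective
  have hodd : Odd p := hp.out.odd_of_ne_two hp2
  have h2 : t = 1 := by
    apply hodd.strictMono_pow.injective
    change t ^ p = 1 ^ p
    rw [one_pow]
    exact ht.pow_eq_one
  rw [h2] at ht
  exact hp.out.one_lt.ne' (Nat.dvd_one.1 (ht.dvd_of_pow_eq_one 1 (one_pow 1)))

end Pool.Agent.Work.MP_59f3ad_nt.PX
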