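import Mathlib
import Pool.Agent.Work.MP_59f3ad_nt.PX.StmtsA

/-!
Block PX, item DET: the deterministic theorem (assembly).
-/

set_option autoImplicit false

open NumberField IsDedekindDomain

namespace Pool.Agent.Work.MP_59f3ad_nt.PX

open Pool.Agent.Work.MP_59f3ad_nt.FE

universe u

namespace IDET

/-- a prime element does not divide a product of powers of other prime elements -/
theorem nd {R : Type u} [CommRing R] [IsDomain R] {t : ℕ} (π : Fin t → R)
    (hπ : ∀ i, Prime (π i)) (hna : ∀ i k, Associated (π i) (π k) → i = k) (D : R) (e : Fin t → ℕ)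
    (k : Fin t) (hD : ¬ π k ∣ D) : ¬ π k ∣ D * ∏ i ∈ Finset.univ.erase k, π i ^ e i := by
  intro h
  rcases (hπ k).dvd_or_dvd h with h | h
  · exact hD h
  · obtain ⟨i, hi, hd⟩ := (hπ k).exists_mem_finset_dvd h
    have h1 : π k ∣ π i := (hπ k).dvd_of_dvd_pow hd
    have h2 : Associated (π k) (π i) := ((hπ k).dvd_prime_iff_associated (hπ i)).mp h1
    exact (Finset.ne_of_mem_erase hi) (hna k i h2).symm

theorem split {R : Type u} [CommRing R] {t : ℕ} (π : Fin t → R) (D : R) (e : Fin t → ℕ)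
    (k : Fin t) : D * ∏ i, π i ^ e i =
      π k ^ e k * (D * ∏ i ∈ Finset.univ.erase k, π i ^ e i) := by
  rw [← Finset.mul_prod_erase Finset.univ (fun i => π i ^ e i) (Finset.mem_univ k)]
  ring

/-- the place of a prime element -/
theorem place (F : Type u) [Field F] [NumberField F] (π : 𝓞 F) (hπ : Prime π) :
    ∃ q : HeightOneSpectrum (𝓞 F), q.asIdeal = Ideal.span {π} := by
  refine ⟨⟨Ideal.span {π}, (Ideal.span_singleton_prime hπ.ne_zero).mpr hπ, ?_⟩, rfl⟩
  intro h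
  exact hπ.ne_zero (Ideal.span_singleton_eq_bot.mp h)

/-- the valuation of `π^c N` is not divisible by `p` -/
theorem nVd (F : Type u) [Field F] [NumberField F] (p : ℕ) (hp : p.Prime) (π N : 𝓞 F)
    (hπ : Prime π) (hN : ¬ π ∣ N) (c : ℕ) (h1 : 1 ≤ c) (h2 : c < p)
    (q : HeightOneSpectrum (𝓞 F)) (hq : q.asIdeal = Ideal.span {π}) :
    ¬ Vd F p q ((π ^ c * N : 𝓞 F) : F) := by
  rintro ⟨y, hy⟩
  have hNq : N ∉ q.asIdeal := by
    rw [hq, Ideal.mem_span_singleton]
    exact hN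
  have e1 : q.valuation F ((π ^ c * N : 𝓞 F) : F) = WithZero.exp (-(c : ℤ)) := by
    rw [RingOfIntegers.coe_eq_algebraMap, HeightOneSpectrum.valuation_of_algebraMap, map_mul,
      map_pow, q.intValuation_singleton hπ.ne_zero hq,
      HeightOneSpectrum.intValuation_eq_one_iff.mpr hNq, mul_one, ← WithZero.exp_nsmul]
    simp
  have hy0 : q.valuation F y ≠ 0 := by
    intro h
    rw [h, zero_pow hp.ne_zero, e1] at hy
    exact WithZero.exp_ne_zero hy
  obtain ⟨n, hn⟩ : ∃ n : ℤ, q.valuation F y = WithZero.exp n :=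
    ⟨WithZero.log (q.valuation F y), (WithZero.exp_log hy0).symm⟩
  rw [hn, e1, ← WithZero.exp_nsmul, WithZero.exp_inj] at hy
  have h3 : (p : ℤ) ∣ (c : ℤ) := ⟨-n, by rw [nsmul_eq_mul] at hy; linarith⟩
  have h4 : p ∣ c := by exact_mod_cast h3
  exact absurd (Nat.le_of_dvd (by omega) h4) (by omega)

/-- a root of `m^j g^p` is in `L` -/
theorem rootL (F L : Type u) [Field F] [NumberField F] [Field L] [NumberField L] [Algebra F L]
    (p : ℕ) (hp : p.Prime) (ζ m : F) (x : L) (hζ : IsPrimitiveRoot ζ p)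
    (hx : x ^ p = algebraMap F L m) (A : AlgebraicClosure L) (a : F) (ha : a ≠ 0)
    (hA : A ^ p = algebraMap F (AlgebraicClosure L) a) (j : ℕ) (g : F)
    (haj : a = m ^ j * g ^ p) : ∃ y : L, A = algebraMap L (AlgebraicClosure L) y := by
  set B : AlgebraicClosure L :=
    algebraMap L (AlgebraicClosure L) (x ^ j * algebraMap F L g) with hB
  have hBp : B ^ p = algebraMap F (AlgebraicClosure L) a := by
    have h1 : (x ^ j * algebraMap F L g) ^ p = algebraMap F L a := by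
      rw [haj, mul_pow, ← pow_mul, mul_comm j p, pow_mul, hx, map_mul, map_pow, map_pow]
    rw [hB, ← map_pow, h1, ← IsScalarTower.algebraMap_apply]
  have hA0 : algebraMap F (AlgebraicClosure L) a ≠ 0 := by
    rw [Ne, FaithfulSMul.algebraMap_eq_zero_iff]
    exact ha
  have hB0 : B ≠ 0 := by
    intro h
    rw [h, zero_pow hp.ne_zero] at hBp
    exact hA0 hBp.symm
  have h2 : (A / B) ^ p = 1 := by
    rw [div_pow, hA, hBp, div_self hA0]
  have hζ' : IsPrimitiveRoot (algebraMap F (AlgebraicClosure L) ζ) p :=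
    hζ.map_of_injective (FaithfulSMul.algebraMap_injective F (AlgebraicClosure L))
  have : NeZero p := ⟨hp.ne_zero⟩
  obtain ⟨i, -, hi⟩ := hζ'.eq_pow_of_pow_eq_one h2
  refine ⟨(algebraMap F L ζ) ^ i * (x ^ j * algebraMap F L g), ?_⟩
  rw [map_mul, ← hB, map_pow, ← IsScalarTower.algebraMap_apply, hi, div_mul_cancel₀ _ hB0]

end IDET

open IDET in
/-- item DET -/
theorem pr_DET (hCFG : StCFG.{u}) (hINH : StINH.{u}) (hTR1 : StTR1.{u}) (hTR2 : StTR2.{u})
    (hRAM : StRAM.{u}) (hTAM : StTAM.{u}) (hNX : StNX.{u}) : StDET.{u} := by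
  intro F _ _ p _ hp2 ζ hζ t m0 π c ht hm0 hVd0 hπ hπp hna hπm0 hc hLp L _ _ _ x hfin hx r hr
    hF S hS hLS
  have hp : p.Prime := Fact.out
  set M : 𝓞 F := m0 * ∏ i, π i ^ c i with hM
  have hM0 : M ≠ 0 := by
    rw [hM]
    exact mul_ne_zero hm0 (Finset.prod_ne_zero_iff.mpr fun i _ => pow_ne_zero _ (hπ i).ne_zero)
  have hm : ((M : 𝓞 F) : F) ≠ 0 := by
    rw [RingOfIntegers.coe_eq_algebraMap, Ne, FaithfulSMul.algebraMap_eq_zero_iff]
    exact hM0
  have hsp : ∀ k, M = π k ^ c k * (m0 * ∏ i ∈ Finset.univ.erase k, π i ^ c i) := fun k =>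
    split π m0 c k
  -- the place `q0`
  let i0 : Fin t := ⟨0, by omega⟩
  obtain ⟨q0, hq0⟩ := place F (π i0) (hπ i0)
  have hq0p : q0 ∉ Sp F p := by
    intro h
    have h1 : (p : 𝓞 F) ∈ q0.asIdeal := h
    rw [hq0, Ideal.mem_span_singleton] at h1
    exact hπp i0 h1
  have hnVd : ¬ Vd F p q0 ((M : 𝓞 F) : F) := by
    rw [hsp i0]
    exact nVd F p hp (π i0) _ (hπ i0) (nd π hπ hna m0 c i0 (hπm0 i0)) (c i0) (hc i0).1 (hc i0).2
      q0 hq0
  have hnp : ∀ z : F, z ^ p ≠ ((M : 𝓞 F) : F) := by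
    intro z hz
    apply hnVd
    exact ⟨z, by rw [← hz, map_pow]⟩
  obtain ⟨σ, hσ⟩ := hCFG F L p hp2 ζ ((M : 𝓞 F) : F) x hζ hm hfin hx hnp
  obtain ⟨A, a, δ, hbad⟩ := hINH F L p ζ ((M : 𝓞 F) : F) x σ hσ hLp q0 hq0p hnVd r hr hF S hS hLS
  refine ⟨a, hbad.ha, ?_, ?_, ?_, ?_⟩
  · intro v hv
    exact hTR1 F L p ζ ((M : 𝓞 F) : F) x σ hσ v hv (hLp v hv) A a δ hbad
  · intro q hq hπq
    refine hTR2 F L p ζ ((M : 𝓞 F) : F) x σ hσ q hq ?_ A a δ hbad
    obtain ⟨y, hy⟩ := hVd0 q hq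
    refine ⟨y, ?_⟩
    rw [← hy, hM, RingOfIntegers.coe_eq_algebraMap, RingOfIntegers.coe_eq_algebraMap, map_mul,
      map_mul, map_prod, map_prod]
    have h1 : ∀ i : Fin t, q.valuation F (algebraMap (𝓞 F) F (π i ^ c i)) = 1 := by
      intro i
      rw [map_pow, map_pow, HeightOneSpectrum.valuation_of_algebraMap,
        HeightOneSpectrum.intValuation_eq_one_iff.mpr (hπq i), one_pow]
    rw [Finset.prod_congr rfl fun i _ => h1 i, Finset.prod_const_one, mul_one]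
  · intro j g haj
    obtain ⟨y, hy⟩ := rootL F L p hp ζ _ x hζ hx A a hbad.ha hbad.hA j g haj
    obtain ⟨h, hh⟩ := hbad.ne
    apply hh
    rw [hy]
    exact h.commutes y
  · intro l j g D e hg hD hEq k
    have hN := nd π hπ hna m0 c k (hπm0 k)
    have hN'' := nd π hπ hna D e k (hD k)
    obtain ⟨q, v, hRt⟩ := hRAM F L p ζ ((M : 𝓞 F) : F) x σ hσ (π k)
      (m0 * ∏ i ∈ Finset.univ.erase k, π i ^ c i) (c k) (hπ k) (hπp k) (hc k).1 (hc k).2 hN
      (by rw [← hsp k])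
    refine hTAM F L p ζ ((M : 𝓞 F) : F) x σ hσ (π k)
      (m0 * ∏ i ∈ Finset.univ.erase k, π i ^ c i) (D * ∏ i ∈ Finset.univ.erase k, π i ^ e i)
      (c k) (e k) q v (hπ k) (hc k).1 (hc k).2 hN hN'' (by rw [← hsp k]) hRt
      (δ ^ l * x ^ j * algebraMap F L g) ?_
    have h1 : ∏ i ∈ Finset.range p, (σ ^ i) (δ ^ l * x ^ j * algebraMap F L g) =
        (∏ i ∈ Finset.range p, (σ ^ i) δ) ^ l * (∏ i ∈ Finset.range p, (σ ^ i) x) ^ j *
          (algebraMap F L g) ^ p := by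
      have h2 : ∀ i ∈ Finset.range p, (σ ^ i) (δ ^ l * x ^ j * algebraMap F L g) =
          ((σ ^ i) δ) ^ l * ((σ ^ i) x) ^ j * algebraMap F L g := by
        intro i _
        rw [map_mul, map_mul, map_pow, map_pow, AlgEquiv.commutes]
      rw [Finset.prod_congr rfl h2, Finset.prod_mul_distrib, Finset.prod_mul_distrib,
        Finset.prod_pow, Finset.prod_pow, Finset.prod_const, Finset.card_range]
    rw [h1, hbad.hδ, hNX F L p ζ ((M : 𝓞 F) : F) x σ hσ, ← split π D e k, ← hEq, map_mul, map_mul,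
      map_pow, map_pow, map_pow]

end Pool.Agent.Work.MP_59f3ad_nt.PX
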