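import Mathlib
import Pool.Agent.Work.MP_59f3ad_nt.PX.StmtsA

/-!
Block PX, item DEX: an element of the decomposition group which extends `σ`.
-/

set_option autoImplicit false

open NumberField IsDedekindDomain

namespace Pool.Agent.Work.MP_59f3ad_nt.PX

open Pool.Agent.Work.MP_59f3ad_nt.FE

universe u

namespace IDEX

variable {k Ω : Type u} [Field k] [Field Ω] [Algebra k Ω]

theorem dec_one (Q : Ideal (𝓞 Ω)) : Dec Q (1 : Ω ≃ₐ[k] Ω) := by
  intro y y' h
  have h1 : y' = y := RingOfIntegers.ext h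
  rw [h1]

theorem dec_mul {Q : Ideal (𝓞 Ω)} {g h : Ω ≃ₐ[k] Ω} (hg : Dec Q g) (hh : Dec Q h) :
    Dec Q (g * h) := by
  intro y y' hy
  have h1 : ((RingOfIntegers.mapRingEquiv (h : Ω ≃+* Ω) y : 𝓞 Ω) : Ω) = h (y : Ω) :=
    RingOfIntegers.mapRingEquiv_apply (h : Ω ≃+* Ω) y
  rw [hh y _ h1]
  refine hg _ y' ?_
  rw [h1, hy]
  rfl

theorem dec_pow {Q : Ideal (𝓞 Ω)} {g : Ω ≃ₐ[k] Ω} (hg : Dec Q g) (i : ℕ) : Dec Q (g ^ i) := by
  induction i with
  | zero =>
    rw [pow_zero]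
    exact dec_one Q
  | succ i ih =>
    rw [pow_succ]
    exact dec_mul ih hg

end IDEX

open IDEX in
theorem pr_DEX (hLG : StLG.{u}) (hPW : StPW.{u}) : StDEX.{u} := by
  intro F L _ _ _ _ _ p _ ζ m x σ hC v hv Q hQ hQv
  have hfin : Module.Finite F L := Module.finite_of_finrank_pos (by
    rw [hC.hL]
    exact (Fact.out : p.Prime).pos)
  have halg : Algebra.IsAlgebraic F (AlgebraicClosure L) :=
    Algebra.IsAlgebraic.trans F L (AlgebraicClosure L)
  have hcl : IsAlgClosure F (AlgebraicClosure L) := ⟨inferInstance, halg⟩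
  have hτ : ∃ τ : AlgebraicClosure L ≃ₐ[F] AlgebraicClosure L, Dec Q τ ∧
      τ (algebraMap L (AlgebraicClosure L) x) ≠ algebraMap L (AlgebraicClosure L) x := by
    by_contra hcon
    push Not at hcon
    refine hv (hLG F (AlgebraicClosure L) p v Q hQ hQv (algebraMap L (AlgebraicClosure L) x) m
      ?_ hcon)
    rw [← map_pow, hC.hx]
    exact (IsScalarTower.algebraMap_apply F L (AlgebraicClosure L) m).symm
  obtain ⟨τ, hτd, hτx⟩ := hτ
  obtain ⟨i, hi⟩ := hPW F L p ζ m x σ hC τ hτx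
  exact ⟨τ ^ i, dec_pow hτd i, hi⟩

end Pool.Agent.Work.MP_59f3ad_nt.PX
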