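import Pool.Agent.Work.MP_59f3ad_nt.PX.StmtsD

/-!
Block PX, item DI.
-/

set_option autoImplicit false

open NumberField IsDedekindDomain

namespace Pool.Agent.Work.MP_59f3ad_nt.PX

open Pool.Agent.Work.MP_59f3ad_nt.FE

universe u

theorem pr_DI : StDI.{u} := by
  intro K _ _ v N hN hinv Q ι hQ g h hgh y y' hy
  rw [hQ.mem, hQ.mem, hy, hgh, hinv]

end Pool.Agent.Work.MP_59f3ad_nt.PX
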