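import Pool.Agent.Work.MP_59f3ad_nt.PX.StmtsD
import Pool.Agent.Work.MP_59f3ad_nt.FE.I_DK
import Pool.Agent.Work.MP_59f3ad_nt.FE.I_DV

/-!
Item DK of the block PX: elements of the decomposition group act on the linear relations over the
completion.
-/

set_option autoImplicit false

open NumberField IsDedekindDomain

namespace Pool.Agent.Work.MP_59f3ad_nt.PX

open Pool.Agent.Work.MP_59f3ad_nt.FE

universe u

namespace IDK

variable {L : Type u} [Field L] [NumberField L] {v : HeightOneSpectrum (𝓞 L)}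
  {N : AlgebraicClosure (v.adicCompletion L) → ℝ}

lemma unit (hN : NN L v N) {Q : Ideal (𝓞 (AlgebraicClosure L))}
    {ι : AlgebraicClosure L →ₐ[L] AlgebraicClosure (v.adicCompletion L)} (hQ : QI L v N Q ι)
    {h : GK L} (hI : Dec Q h)
    (hDV : ∀ z : AlgebraicClosure L, N (ι z) ≤ 1 → ∃ a b : 𝓞 (AlgebraicClosure L), b ∉ Q ∧
      z * (b : AlgebraicClosure L) = (a : AlgebraicClosure L))
    (z : AlgebraicClosure L) (hz : N (ι z) ≤ 1) : N (ι (h z)) ≤ 1 := by
  obtain ⟨a, b, hb, e⟩ := hDV z hz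
  have hia : IsIntegral ℤ (h (a : AlgebraicClosure L)) :=
    map_isIntegral_int h (RingOfIntegers.isIntegral_coe a)
  have hib : IsIntegral ℤ (h (b : AlgebraicClosure L)) :=
    map_isIntegral_int h (RingOfIntegers.isIntegral_coe b)
  obtain ⟨a', ha'⟩ : ∃ a' : 𝓞 (AlgebraicClosure L), (a' : AlgebraicClosure L) = h a :=
    ⟨⟨_, hia⟩, rfl⟩
  obtain ⟨b', hb'⟩ : ∃ b' : 𝓞 (AlgebraicClosure L), (b' : AlgebraicClosure L) = h b :=
    ⟨⟨_, hib⟩, rfl⟩
  have h2 : b' ∉ Q := fun h3 => hb ((hI b b' hb').2 h3)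
  have h3 : N (ι (b' : AlgebraicClosure L)) = 1 :=
    le_antisymm (hQ.int b') (not_lt.1 fun h4 => h2 ((hQ.mem b').2 h4))
  have h4 : h z * (b' : AlgebraicClosure L) = (a' : AlgebraicClosure L) := by
    rw [hb', ha', ← map_mul, e]
  have h5 := congrArg (fun t => N (ι t)) h4
  simp only [map_mul, hN.mul, h3, mul_one] at h5
  rw [h5]
  exact hQ.int a'

end IDK

open FE.IDK in
theorem pr_DK : StDK.{u} := by
  intro L _ _ v N hN Q ι hQ h hI n a x hx
  have hDV : FE.StDV.{u} := FE.pr_DV
  by_contra hne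
  have hpos := hN.pos _ hne
  obtain ⟨c, hc0, hc⟩ := small hN hpos
  have hcpos : 0 < N (algebraMap L _ c) :=
    hN.pos _ (by simpa using hc0)
  set δ := N (algebraMap L (AlgebraicClosure (v.adicCompletion L)) c) with hδ
  set M := 1 + ∑ i, N (ι (x i)) + ∑ i, N (ι (h (x i))) with hM
  have hM1 : 0 ≤ ∑ i, N (ι (x i)) := Finset.sum_nonneg fun i _ => nn0 hN _
  have hM2 : 0 ≤ ∑ i, N (ι (h (x i))) := Finset.sum_nonneg fun i _ => nn0 hN _
  have hMpos : 0 < M := by linarith
  have hx1 : ∀ i, N (ι (x i)) ≤ M := fun i => by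
    have := Finset.single_le_sum (f := fun i => N (ι (x i))) (fun i _ => nn0 hN _)
      (Finset.mem_univ i)
    linarith
  have hx2 : ∀ i, N (ι (h (x i))) ≤ M := fun i => by
    have := Finset.single_le_sum (f := fun i => N (ι (h (x i)))) (fun i _ => nn0 hN _)
      (Finset.mem_univ i)
    linarith
  choose b hb using fun i => hN.den (a i) (δ / M) (div_pos hcpos hMpos)
  have key : ∀ i (t : AlgebraicClosure (v.adicCompletion L)), N t ≤ M →
      N ((algebraMap (v.adicCompletion L) _ (a i) - algebraMap L _ (b i)) * t) ≤ δ := by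
    intro i t ht
    rw [hN.mul]
    calc _ ≤ δ / M * M := mul_le_mul (hb i).le ht (nn0 hN _) (div_pos hcpos hMpos).le
      _ = δ := div_mul_cancel₀ _ hMpos.ne'
  set z : AlgebraicClosure L := ∑ i, algebraMap L _ (b i) * x i with hz
  have hz1 : N (ι z) ≤ δ := by
    have e : ι z = ∑ i, -((algebraMap (v.adicCompletion L) _ (a i) - algebraMap L _ (b i)) *
        ι (x i)) := by
      rw [hz, map_sum, Finset.sum_neg_distrib]
      simp only [sub_mul, Finset.sum_sub_distrib]
      rw [hx, zero_sub, neg_neg]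
      refine Finset.sum_congr rfl fun i _ => ?_
      rw [map_mul, AlgHom.commutes]
    rw [e]
    refine sum_le hN _ _ hcpos.le fun i _ => ?_
    rw [neg hN]
    exact key i _ (hx1 i)
  have hz2 : N (ι (h z)) ≤ δ := by
    have h1 : N (ι (z * algebraMap L _ c⁻¹)) ≤ 1 := by
      rw [map_mul, hN.mul, AlgHom.commutes]
      have h2 : N (algebraMap L (AlgebraicClosure (v.adicCompletion L)) c⁻¹) * δ = 1 := by
        rw [hδ, ← hN.mul, ← map_mul, inv_mul_cancel₀ hc0, map_one, one hN]
      have h3 := nn0 hN (algebraMap L (AlgebraicClosure (v.adicCompletion L)) c⁻¹)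
      calc _ ≤ δ * N (algebraMap L (AlgebraicClosure (v.adicCompletion L)) c⁻¹) :=
            mul_le_mul_of_nonneg_right hz1 h3
        _ = 1 := by rw [mul_comm, h2]
    have h4 := IDK.unit hN hQ hI (hDV L v N hN Q ι hQ) _ h1
    rw [map_mul, AlgEquiv.commutes, map_mul, AlgHom.commutes, hN.mul] at h4
    have h2 : N (algebraMap L (AlgebraicClosure (v.adicCompletion L)) c⁻¹) * δ = 1 := by
      rw [hδ, ← hN.mul, ← map_mul, inv_mul_cancel₀ hc0, map_one, one hN]
    calc N (ι (h z)) = N (ι (h z)) *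
          (N (algebraMap L (AlgebraicClosure (v.adicCompletion L)) c⁻¹) * δ) := by
          rw [h2, mul_one]
      _ = (N (ι (h z)) * N (algebraMap L (AlgebraicClosure (v.adicCompletion L)) c⁻¹)) * δ := by
          ring
      _ ≤ 1 * δ := mul_le_mul_of_nonneg_right h4 hcpos.le
      _ = δ := one_mul _
  have e2 : ∑ i, algebraMap (v.adicCompletion L) (AlgebraicClosure (v.adicCompletion L)) (a i) *
      ι (h (x i)) = ∑ i, ((algebraMap (v.adicCompletion L) _ (a i) - algebraMap L _ (b i)) *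
        ι (h (x i))) + ι (h z) := by
    rw [hz, map_sum, map_sum]
    simp only [sub_mul, Finset.sum_sub_distrib, map_mul, AlgEquiv.commutes, AlgHom.commutes]
    rw [sub_add_cancel]
  have h6 : N (∑ i, algebraMap (v.adicCompletion L) (AlgebraicClosure (v.adicCompletion L)) (a i) *
      ι (h (x i))) ≤ δ := by
    rw [e2]
    refine (hN.add _ _).trans (max_le ?_ hz2)
    exact sum_le hN _ _ hcpos.le fun i _ => key i _ (hx2 i)
  exact absurd h6 (not_le.2 hc)

end Pool.Agent.Work.MP_59f3ad_nt.PX
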