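import Pool.Agent.Work.MP_59f3ad_nt.PX.StmtsD
import Pool.Agent.Work.MP_59f3ad_nt.FE.I_DQ

/-!
Block PX, item DL: a cocycle which is a coboundary on the decomposition groups of all primes over `v`
is locally trivial at `v`.
-/

set_option autoImplicit false

open NumberField IsDedekindDomain

namespace Pool.Agent.Work.MP_59f3ad_nt.PX

open Pool.Agent.Work.MP_59f3ad_nt.FE

universe u

theorem pr_DL (hNI : StNI.{u}) (hDI : StDI.{u}) : StDL.{u} := by
  intro K _ _ p _ r v φ H ι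
  obtain ⟨N, hN, hinv⟩ := hNI K v
  obtain ⟨Q, hQ⟩ := pr_DQ K v N hN ι
  obtain ⟨c, hc⟩ := H Q hQ.pr hQ.co
  refine ⟨c, fun g h hg => ?_⟩
  rw [twist_eq]
  exact hc h (hDI K v N hN hinv Q ι hQ g h hg)

end Pool.Agent.Work.MP_59f3ad_nt.PX
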