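import Mathlib
import Pool.Agent.Work.MP_59f3ad_nt.PX.StmtsB
import Pool.Agent.Work.MP_59f3ad_nt.Q3.I_Dua

/-!
Block PX, item DUA: the large sieve by duality.
-/

set_option autoImplicit false

open NumberField IsDedekindDomain

namespace Pool.Agent.Work.MP_59f3ad_nt.PX

universe u

namespace IDUA

open Finset

theorem norm_chi_le (hEP : StEP) {F : Type u} [Field F] [NumberField F] (p : ℕ) [Fact p.Prime]
    (ind : 𝓞 F → 𝓞 F → ZMod p) (e : ZMod p) (π z : 𝓞 F) : ‖chi p ind e π z‖ ≤ 1 := by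
  unfold chi
  split_ifs
  · rw [norm_zero]; exact zero_le_one
  · rw [(hEP p).2.1]

theorem card_bx {F : Type u} [Field F] [NumberField F] {ι : Type} [Fintype ι]
    (b : Module.Basis ι ℤ (𝓞 F)) (B : ℕ) :
    ((bx b B).card : ℝ) ≤ (2 * (B : ℝ) + 1) ^ Fintype.card ι := by
  classical
  have h1 : (bx b B).card ≤ (2 * B + 1) ^ Fintype.card ι := by
    unfold bx
    refine card_image_le.trans (le_of_eq ?_)
    rw [Fintype.card_piFinset, prod_const, Int.card_Icc, card_univ]
    have : ((B : ℤ) + 1 - -(B : ℤ)).toNat = 2 * B + 1 := by omega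
    rw [this]
  calc ((bx b B).card : ℝ) ≤ (((2 * B + 1) ^ Fintype.card ι : ℕ) : ℝ) := by exact_mod_cast h1
    _ = _ := by push_cast; ring

end IDUA

open Finset in
/-- Item DUA. -/
theorem pr_DUA (hBOX : StBOX.{u}) (hEP : StEP) : StDUA.{u} := by
  classical
  intro F _ _ p _ ind hS ι _ b Y B P hP hA e he c
  refine Q3.IDua.dual P (bx b B) (fun π z => chi p ind e π z) c _ (by positivity) ?_
  intro π hπ
  obtain ⟨hπ0, hπ1, hπ2⟩ := hP π hπ
  have h2 : ∀ π1 ∈ P, ‖∑ z ∈ bx b B, chi p ind e π z * (starRingEnd ℂ) (chi p ind e π1 z)‖ ≤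
      (if π1 = π then (2 * (B : ℝ) + 1) ^ Fintype.card ι else 0) +
        (Fintype.card ι : ℝ) * (2 * (B : ℝ) + 1) ^ (Fintype.card ι - 1) * (Y : ℝ) ^ 2 := by
    intro π1 hπ1'
    obtain ⟨hπ3, hπ4, hπ5⟩ := hP π1 hπ1'
    by_cases h3 : π1 = π
    · rw [if_pos h3]
      have h4 : ‖∑ z ∈ bx b B, chi p ind e π z * (starRingEnd ℂ) (chi p ind e π1 z)‖ ≤
          (bx b B).card := by
        refine (norm_sum_le _ _).trans ?_
        have h5 : ∀ z ∈ bx b B,
            ‖chi p ind e π z * (starRingEnd ℂ) (chi p ind e π1 z)‖ ≤ 1 := by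
          intro z _
          rw [norm_mul, RCLike.norm_conj]
          exact mul_le_one₀ (IDUA.norm_chi_le hEP p ind e _ _) (by positivity)
            (IDUA.norm_chi_le hEP p ind e _ _)
        refine (sum_le_sum h5).trans (le_of_eq ?_)
        rw [sum_const, nsmul_eq_mul, mul_one]
      have h6 : (0 : ℝ) ≤ (Fintype.card ι : ℝ) * (2 * (B : ℝ) + 1) ^ (Fintype.card ι - 1) *
          (Y : ℝ) ^ 2 := by positivity
      linarith [IDUA.card_bx b B]
    · rw [if_neg h3, zero_add]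
      refine (hBOX F p ind hS ι b π π1 hπ0 hπ3 hπ1 hπ4 (fun h => h3 (hA π hπ π1 hπ1' h).symm)
        e he B).trans ?_
      have h7 : (nm π : ℝ) ≤ Y := by exact_mod_cast hπ2
      have h8 : (nm π1 : ℝ) ≤ Y := by exact_mod_cast hπ5
      have h9 : (nm π : ℝ) * nm π1 ≤ (Y : ℝ) ^ 2 := by
        rw [sq]
        exact mul_le_mul h7 h8 (by positivity) (by positivity)
      exact mul_le_mul_of_nonneg_left h9 (by positivity)
  refine (sum_le_sum h2).trans (le_of_eq ?_)
  rw [sum_add_distrib, sum_ite_eq' P π, if_pos hπ, sum_const, nsmul_eq_mul]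

end Pool.Agent.Work.MP_59f3ad_nt.PX
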