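import Pool.Agent.Work.MP_59f3ad_nt.PX.StmtsA
import Pool.Agent.Work.MP_59f3ad_nt.FE.I_IC

/-!
Block PX, item EXS: the extended cocycle is a Tate-Shafarevich cocycle over `F`.
-/

set_option autoImplicit false

open NumberField IsDedekindDomain

namespace Pool.Agent.Work.MP_59f3ad_nt.PX

open Pool.Agent.Work.MP_59f3ad_nt.FE

universe u

namespace IEXS

section

variable {k : Type u} [Field k] {Ω : Type u} [Field Ω] [Algebra k Ω]

theorem dec_iff (Q : Ideal (𝓞 Ω)) (g : Ω ≃ₐ[k] Ω) :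
    Dec Q g ↔ ∀ y : 𝓞 Ω, (y ∈ Q ↔ IIC.gO g y ∈ Q) := by
  constructor
  · intro h y
    exact h y (IIC.gO g y) (IIC.gO_coe g y)
  · intro h y y' hy
    have h1 : y' = IIC.gO g y := RingOfIntegers.ext (hy.trans (IIC.gO_coe g y).symm)
    rw [h1]
    exact h y

theorem dec_mul {Q : Ideal (𝓞 Ω)} {g h : Ω ≃ₐ[k] Ω} (hg : Dec Q g) (hh : Dec Q h) :
    Dec Q (g * h) := by
  rw [dec_iff] at *
  intro y
  rw [IIC.gO_mul, hh y, hg (IIC.gO h y)]

theorem dec_inv {Q : Ideal (𝓞 Ω)} {g : Ω ≃ₐ[k] Ω} (hg : Dec Q g) : Dec Q g⁻¹ := by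
  rw [dec_iff] at *
  intro y
  rw [hg (IIC.gO g⁻¹ y), IIC.gO_inv]

theorem inr_pow {Q : Ideal (𝓞 Ω)} {g : Ω ≃ₐ[k] Ω} (hg : Inr Q g) (n : ℕ) : Inr Q (g ^ n) := by
  rw [IIC.inr_iff] at *
  have : g ∈ IIC.I k Q := hg
  exact (IIC.I k Q).pow_mem this n

end

section

variable {F L : Type u} [Field F] [NumberField F] [Field L] [NumberField L] [Algebra F L]

/-- conjugates of the radical -/
theorem conj {p : ℕ} [Fact p.Prime] {ζ m : F} {x : L} {σ : L ≃ₐ[F] L} (hC : Cf F L p ζ m x σ)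
    (g : AlgebraicClosure L ≃ₐ[F] AlgebraicClosure L) :
    ∃ j : ℕ, g (algebraMap L (AlgebraicClosure L) x) =
      algebraMap F (AlgebraicClosure L) ζ ^ j * algebraMap L (AlgebraicClosure L) x := by
  set X := algebraMap L (AlgebraicClosure L) x with hX
  have hXp : X ^ p = algebraMap F (AlgebraicClosure L) m := by
    rw [hX, ← map_pow, hC.hx, ← IsScalarTower.algebraMap_apply]
  have hp0 : p ≠ 0 := (Fact.out : p.Prime).ne_zero
  have hX0 : X ≠ 0 := by
    intro h
    rw [h, zero_pow hp0] at hXp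
    have := (map_eq_zero (algebraMap F (AlgebraicClosure L))).mp hXp.symm
    exact hC.hm this
  have hg : (g X / X) ^ p = 1 := by
    rw [div_pow, ← map_pow, hXp, AlgEquiv.commutes, ← hXp, div_self (pow_ne_zero p hX0)]
  have hζ : IsPrimitiveRoot (algebraMap F (AlgebraicClosure L) ζ) p :=
    hC.hζ.map_of_injective (algebraMap F (AlgebraicClosure L)).injective
  haveI : NeZero p := ⟨hp0⟩
  obtain ⟨j, _, hj⟩ := hζ.eq_pow_of_pow_eq_one hg
  refine ⟨j, ?_⟩
  rw [hj, div_mul_cancel₀ _ hX0]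

theorem conj_pow {ζ : F} {j : ℕ} {X : AlgebraicClosure L}
    {g : AlgebraicClosure L ≃ₐ[F] AlgebraicClosure L}
    (hg : g X = algebraMap F (AlgebraicClosure L) ζ ^ j * X) (n : ℕ) :
    (g ^ n) X = algebraMap F (AlgebraicClosure L) ζ ^ (j * n) * X := by
  induction n with
  | zero => simp
  | succ n ih =>
    rw [pow_succ', AlgEquiv.mul_apply, ih, map_mul, map_pow, AlgEquiv.commutes, hg, mul_add,
      mul_one, pow_add, mul_assoc]

theorem tw_res (p : ℕ) [Fact p.Prime] (r : ℤ) (h : GK L) :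
    tw p r (h.restrictScalars F) = tw p r h := rfl

theorem inr_res {Q : Ideal (𝓞 (AlgebraicClosure L))} {h : GK L}
    {g : AlgebraicClosure L ≃ₐ[F] AlgebraicClosure L} (e : ∀ y, h y = g y) (hg : Inr Q g) :
    Inr Q h := by
  intro y y' hy
  exact hg y y' (hy.trans (e _))

theorem dec_res {Q : Ideal (𝓞 (AlgebraicClosure L))} {h : GK L}
    {g : AlgebraicClosure L ≃ₐ[F] AlgebraicClosure L} (e : ∀ y, h y = g y) (hg : Dec Q g) :
    Dec Q h := by
  intro y y' hy
  exact hg y y' (hy.trans (e _))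

theorem dec_res' {Q : Ideal (𝓞 (AlgebraicClosure L))} {h : GK L} (hg : Dec Q h) :
    Dec Q (h.restrictScalars F) := by
  intro y y' hy
  exact hg y y' hy

end

end IEXS

open IEXS in
theorem pr_EXS (hGX : StGX.{u}) (hMUF : StMUF.{u}) (hND : StND.{u}) : StEXS.{u} := by
  intro F L _ _ _ _ _ p _ ζ m x σ hC r hr φ hφ Ψ hcont hmul hres
  obtain ⟨_, hGX2, _⟩ := hGX F L p ζ m x σ hC
  have hp : p.Prime := Fact.out
  have h1 : Ψ 1 = 0 := by
    have := hmul 1 1
    rw [mul_one, tw_one, one_mul] at this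
    exact left_eq_add.mp this
  refine ⟨hcont, hmul, ?_, ?_⟩
  · intro Q hQ hpQ g hg
    obtain ⟨j, hj⟩ := conj hC g
    have hgp := conj_pow hj p
    have hfix : (g ^ p) (algebraMap L (AlgebraicClosure L) x) =
        algebraMap L (AlgebraicClosure L) x := by
      rw [hgp, mul_comm j p, pow_mul, ← map_pow, hC.hζ.pow_eq_one, map_one, one_pow, one_mul]
    obtain ⟨h, hh⟩ := hGX2 (g ^ p) hfix
    have e : h.restrictScalars F = g ^ p := AlgEquiv.ext hh
    have h2 : φ h = 0 := hφ.inr Q hQ hpQ h (inr_res hh (inr_pow hg p))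
    have h3 : Ψ (g ^ p) = 0 := by rw [← e, hres, h2]
    have ht : tw p r g = 1 := hMUF F (AlgebraicClosure L) p Q hQ hpQ g hg r
    have h4 : ∀ n : ℕ, Ψ (g ^ n) = n * Ψ g := by
      intro n
      induction n with
      | zero => simp [h1]
      | succ n ih =>
        rw [pow_succ', hmul, ht, ih]
        push_cast
        ring
    have h5 := h4 p
    rw [h3] at h5
    have h6 : (p : ℤ_[p]) ≠ 0 := by exact_mod_cast hp.ne_zero
    exact (mul_eq_zero.mp h5.symm).resolve_left h6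
  · intro Q hQ hpQ
    obtain ⟨c, hc⟩ := hφ.dec Q hQ hpQ
    refine ⟨c, fun g hg => ?_⟩
    have hζL : IsPrimitiveRoot (algebraMap F L ζ) p :=
      hC.hζ.map_of_injective (algebraMap F L).injective
    obtain ⟨h, hhD, hhne⟩ := hND L p hC.h2 (algebraMap F L ζ) hζL r hr Q hQ hpQ
    set G : AlgebraicClosure L ≃ₐ[F] AlgebraicClosure L := h.restrictScalars F with hG
    have hGfix : G (algebraMap L (AlgebraicClosure L) x) =
        algebraMap L (AlgebraicClosure L) x := h.commutes x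
    have hfix : (g⁻¹ * G * g) (algebraMap L (AlgebraicClosure L) x) =
        algebraMap L (AlgebraicClosure L) x := by
      obtain ⟨j, hj⟩ := conj hC g
      have e1 : (g⁻¹ * g) (algebraMap L (AlgebraicClosure L) x) =
        algebraMap L (AlgebraicClosure L) x := by rw [inv_mul_cancel]; rfl
      rw [AlgEquiv.mul_apply, AlgEquiv.mul_apply, hj, map_mul, map_pow, AlgEquiv.commutes,
        hGfix, ← hj, ← AlgEquiv.mul_apply, e1]
    obtain ⟨h', hh'⟩ := hGX2 (g⁻¹ * G * g) hfix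
    have e : h'.restrictScalars F = g⁻¹ * G * g := AlgEquiv.ext hh'
    have hD' : Dec Q h' := dec_res hh' (dec_mul (dec_mul (dec_inv hg) (dec_res' hhD)) hg)
    have htG : tw p r G = tw p r h := rfl
    have hgg : tw p r g⁻¹ * tw p r g = 1 := by rw [← tw_mul, inv_mul_cancel, tw_one]
    have htw' : tw p r h' = tw p r h := by
      have e2 : tw p r (h'.restrictScalars F) = tw p r h' := rfl
      rw [← e2, e, tw_mul, tw_mul, htG, mul_right_comm, hgg, one_mul]
    have e3 : G * g = g * (h'.restrictScalars F) := by rw [e]; group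
    have e4 := congrArg Ψ e3
    rw [hmul, hmul, hG, hres, hres, hc h hhD, hc h' hD', htw', ← hG, htG] at e4
    have e5 : (tw p r h - 1) * (Ψ g - (tw p r g - 1) * c) = 0 := by linear_combination e4
    have e6 := (mul_eq_zero.mp e5).resolve_left (sub_ne_zero.mpr hhne)
    exact sub_eq_zero.mp e6

end Pool.Agent.Work.MP_59f3ad_nt.PX
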