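import Mathlib
import Pool.Agent.Work.MP_59f3ad_nt.PX.StmtsB

/-!
Item FMO of block PX: the first moment. Model: `Q3/I_Fmo.lean`, `Q3/I_FmT.lean`.
-/

set_option autoImplicit false

open NumberField IsDedekindDomain

namespace Pool.Agent.Work.MP_59f3ad_nt.PX

universe u

namespace IFMO

section char

variable {p : ℕ} [Fact p.Prime]

theorem ep_zero : ep p 0 = 1 := by
  unfold ep
  simp

theorem ep_sum (hadd : ∀ a b : ZMod p, ep p (a + b) = ep p a * ep p b) {ι : Type}
    (s : Finset ι) (f : ι → ZMod p) : ep p (∑ i ∈ s, f i) = ∏ i ∈ s, ep p (f i) := by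
  classical
  induction s using Finset.induction_on with
  | empty => simp [ep_zero]
  | insert a s ha ih => rw [Finset.sum_insert ha, Finset.prod_insert ha, hadd, ih]

theorem orth (hs : ∀ a : ZMod p, a ≠ 0 → ∑ j : ZMod p, ep p (j * a) = 0) (v : ZMod p) :
    ∑ y : ZMod p, ep p (y * v) = if v = 0 then (p : ℂ) else 0 := by
  split_ifs with h
  · subst h
    simp only [mul_zero, ep_zero, Finset.sum_const, Finset.card_univ, ZMod.card, nsmul_eq_mul,
      mul_one]
  · exact hs v h

theorem orth_pi (hadd : ∀ a b : ZMod p, ep p (a + b) = ep p a * ep p b)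
    (hs : ∀ a : ZMod p, a ≠ 0 → ∑ j : ZMod p, ep p (j * a) = 0) {t : ℕ} (v : Fin t → ZMod p) :
    ∑ y : Fin t → ZMod p, ep p (∑ k, y k * v k) =
      if (∀ k, v k = 0) then (p : ℂ) ^ t else 0 := by
  have h1 : ∑ y : Fin t → ZMod p, ep p (∑ k, y k * v k) =
      ∑ y : Fin t → ZMod p, ∏ k, ep p (y k * v k) :=
    Finset.sum_congr rfl (fun y _ => ep_sum hadd _ _)
  have h2 : ∑ y : Fin t → ZMod p, ∏ k, ep p (y k * v k) =
      ∏ k : Fin t, ∑ y : ZMod p, ep p (y * v k) := by
    rw [Finset.prod_univ_sum]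
    simp
  rw [h1, h2, Finset.prod_congr rfl (fun k _ => orth hs (v k))]
  split_ifs with h
  · rw [Finset.prod_congr rfl (fun k _ => if_pos (h k))]
    simp
  · push Not at h
    obtain ⟨k, hk⟩ := h
    exact Finset.prod_eq_zero (Finset.mem_univ k) (if_neg hk)

end char

variable {E : Type u}

/-- averaging over one component -/
theorem avg {t : ℕ} (P : Fin t → Finset E) (i : Fin t) (g : (Fin t → E) → ℂ) :
    ∑ π ∈ Fintype.piFinset P, ∑ a ∈ P i, g (Function.update π i a) =
      ((P i).card : ℂ) * ∑ π ∈ Fintype.piFinset P, g π := by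
  classical
  rw [← Finset.sum_product']
  have h1 : ∑ x ∈ Fintype.piFinset P ×ˢ P i, g (Function.update x.1 i x.2) =
      ∑ x ∈ Fintype.piFinset P ×ˢ P i, g x.1 := by
    refine Finset.sum_bij' (fun x _ => (Function.update x.1 i x.2, x.1 i))
      (fun x _ => (Function.update x.1 i x.2, x.1 i)) ?_ ?_ ?_ ?_ ?_
    · rintro ⟨π, a⟩ hx
      rw [Finset.mem_product, Fintype.mem_piFinset] at hx ⊢
      refine ⟨fun j => ?_, hx.1 i⟩
      by_cases hj : j = i
      · subst hj; simpa using hx.2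
      · simpa [Function.update_of_ne hj] using hx.1 j
    · rintro ⟨π, a⟩ hx
      rw [Finset.mem_product, Fintype.mem_piFinset] at hx ⊢
      refine ⟨fun j => ?_, hx.1 i⟩
      by_cases hj : j = i
      · subst hj; simpa using hx.2
      · simpa [Function.update_of_ne hj] using hx.1 j
    · rintro ⟨π, a⟩ _
      simp
    · rintro ⟨π, a⟩ _
      simp
    · rintro ⟨π, a⟩ _
      rfl
  rw [h1, Finset.sum_product]
  simp only [Finset.sum_const, nsmul_eq_mul]
  rw [Finset.mul_sum]

variable {p : ℕ}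

/-- one term of the quadratic form -/
def T {t : ℕ} (ind : E → E → ZMod p) (U : Fin t → Fin t → ZMod p) (y : Fin t → ZMod p)
    (π : Fin t → E) (q : Fin t × Fin t) : ZMod p :=
  y q.1 * (U q.1 q.2 * ind (π q.1) (π q.2))

theorem T_congr {t : ℕ} (ind : E → E → ZMod p) (U : Fin t → Fin t → ZMod p)
    (y : Fin t → ZMod p) (π π' : Fin t → E) (q : Fin t × Fin t) (h1 : π q.1 = π' q.1)
    (h2 : π q.2 = π' q.2) : T ind U y π q = T ind U y π' q := by
  unfold T
  rw [h1, h2]

theorem sum_T {t : ℕ} (ind : E → E → ZMod p) (U : Fin t → Fin t → ZMod p)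
    (y : Fin t → ZMod p) (π : Fin t → E) :
    ∑ k, y k * (∑ i, U k i * ind (π k) (π i)) = ∑ q : Fin t × Fin t, T ind U y π q := by
  rw [Fintype.sum_prod_type]
  refine Finset.sum_congr rfl (fun k _ => ?_)
  rw [Finset.mul_sum]
  rfl

/-- decomposition of the quadratic form for two changed components -/
theorem decomp {t : ℕ} (ind : E → E → ZMod p) (U : Fin t → Fin t → ZMod p)
    (y : Fin t → ZMod p) (π : Fin t → E) (k0 i0 : Fin t) (hne : k0 ≠ i0) (hy : y i0 = 0) :
    ∃ A B : E → ZMod p, ∀ a b : E,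
      ∑ q : Fin t × Fin t, T ind U y (Function.update (Function.update π k0 a) i0 b) q =
        A a + B b + (y k0 * U k0 i0) * ind a b := by
  classical
  refine ⟨fun a => ∑ q ∈ Finset.univ.filter (fun q : Fin t × Fin t => q.1 ≠ i0 ∧ q.2 ≠ i0),
      T ind U y (Function.update π k0 a) q,
    fun b => ∑ q ∈ (Finset.univ.filter (fun q : Fin t × Fin t => ¬ (q.1 ≠ i0 ∧ q.2 ≠ i0))).filter
      (fun q => q.1 ≠ k0 ∧ q.2 ≠ k0), T ind U y (Function.update π i0 b) q, fun a b => ?_⟩
  set π' := Function.update (Function.update π k0 a) i0 b with hπ'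
  rw [← Finset.sum_filter_add_sum_filter_not Finset.univ
      (fun q : Fin t × Fin t => q.1 ≠ i0 ∧ q.2 ≠ i0),
    ← Finset.sum_filter_add_sum_filter_not
      (Finset.univ.filter (fun q : Fin t × Fin t => ¬ (q.1 ≠ i0 ∧ q.2 ≠ i0)))
      (fun q : Fin t × Fin t => q.1 ≠ k0 ∧ q.2 ≠ k0), ← add_assoc]
  have hk0 : π' k0 = a := by rw [hπ', Function.update_of_ne hne, Function.update_self]
  have hi0 : π' i0 = b := by rw [hπ', Function.update_self]
  congr 1
  · congr 1
    · refine Finset.sum_congr rfl (fun q hq => ?_)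
      rw [Finset.mem_filter] at hq
      apply T_congr
      · rw [hπ', Function.update_of_ne hq.2.1]
      · rw [hπ', Function.update_of_ne hq.2.2]
    · refine Finset.sum_congr rfl (fun q hq => ?_)
      rw [Finset.mem_filter] at hq
      have hj : ∀ j : Fin t, j ≠ k0 → π' j = Function.update π i0 b j := by
        intro j hj
        by_cases hjk : j = i0
        · rw [hjk, hi0, Function.update_self]
        · rw [hπ', Function.update_of_ne hjk, Function.update_of_ne hj, Function.update_of_ne hjk]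
      exact T_congr _ _ _ _ _ _ (hj _ hq.2.1) (hj _ hq.2.2)
  · have hset : (Finset.univ.filter (fun q : Fin t × Fin t => ¬ (q.1 ≠ i0 ∧ q.2 ≠ i0))).filter
        (fun q => ¬ (q.1 ≠ k0 ∧ q.2 ≠ k0)) = {(k0, i0), (i0, k0)} := by
      ext ⟨q, q'⟩
      simp only [Finset.mem_filter, Finset.mem_univ, true_and, Finset.mem_insert,
        Finset.mem_singleton, Prod.mk.injEq, not_and_or, not_not]
      constructor
      · rintro ⟨h1 | h1, h2 | h2⟩
        · exact absurd (h2.symm.trans h1) hne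
        · exact Or.inr ⟨h1, h2⟩
        · exact Or.inl ⟨h2, h1⟩
        · exact absurd (h2.symm.trans h1) hne
      · rintro (⟨h1, h2⟩ | ⟨h1, h2⟩)
        · exact ⟨Or.inr h2, Or.inl h1⟩
        · exact ⟨Or.inl h1, Or.inr h2⟩
    rw [hset, Finset.sum_pair (by
      intro h
      rw [Prod.mk.injEq] at h
      exact hne h.1)]
    simp only [T, hk0, hi0, hy]
    ring

/-- decomposition of a sum of functions of one component for two changed components -/
theorem decomp1 {t : ℕ} (g : Fin t → E → ZMod p) (π : Fin t → E) (i0 k0 : Fin t) :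
    ∃ A B : E → ZMod p, ∀ a b : E,
      ∑ k, g k (Function.update (Function.update π i0 a) k0 b k) = A a + B b := by
  classical
  refine ⟨fun a => ∑ k ∈ Finset.univ.erase k0, g k (Function.update π i0 a k),
    fun b => g k0 b, fun a b => ?_⟩
  rw [← Finset.add_sum_erase Finset.univ _ (Finset.mem_univ k0), Function.update_self, add_comm]
  congr 1
  refine Finset.sum_congr rfl fun k hk => ?_
  rw [Function.update_of_ne (Finset.ne_of_mem_erase hk)]

/-- a pair which is separated -/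
theorem pair {t : ℕ} (h y : Fin t → ZMod p) (hh : ∃ i k, h i ≠ h k) (j0 k1 : Fin t)
    (hj : y j0 = 0) (hk : y k1 ≠ 0) : ∃ k0 i0 : Fin t, y k0 ≠ 0 ∧ y i0 = 0 ∧ h i0 ≠ h k0 := by
  by_contra hcon
  push Not at hcon
  have hall : ∀ l, h l = h k1 := by
    intro l
    by_cases hl : y l = 0
    · exact hcon k1 l hk hl
    · exact (hcon l j0 hl hj).symm.trans (hcon k1 j0 hk hj)
  obtain ⟨i, k, hik⟩ := hh
  exact hik ((hall i).trans (hall k).symm)

/-- the bound for `y ≠ 0` -/
theorem bound [Fact p.Prime] (hadd : ∀ a b : ZMod p, ep p (a + b) = ep p a * ep p b)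
    (hnorm : ∀ a : ZMod p, ‖ep p a‖ = 1) {t : ℕ} (ind : E → E → ZMod p) (c h : Fin t → ZMod p)
    (hc : ∀ i, c i ≠ 0) (δ : ℝ) (P : Fin t → Finset E) (y : Fin t → ZMod p)
    (hh : ∃ i k, h i ≠ h k) (j0 k1 : Fin t) (hj : y j0 = 0) (hk : y k1 ≠ 0)
    (g : Fin t → E → ZMod p)
    (hB : ∀ i k : Fin t, ∀ e : ZMod p, e ≠ 0 → ∀ α β : E → ℂ, (∀ z, ‖α z‖ ≤ 1) →
      (∀ z, ‖β z‖ ≤ 1) →
      ‖∑ π ∈ P i, ∑ π' ∈ P k, α π * β π' * ep p (e * ind π π')‖ ≤ δ * ((P i).card * (P k).card))
    (hP : ∀ i, (P i).card ≠ 0) :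
    ‖∑ π ∈ Fintype.piFinset P, ep p (∑ q : Fin t × Fin t,
      T ind (fun k i => c k * c i * (h i - h k)) y π q + ∑ k, g k (π k))‖ ≤
      δ * ((Fintype.piFinset P).card : ℝ) := by
  classical
  obtain ⟨k0, i0, hk0, hi0, hne⟩ := pair h y hh j0 k1 hj hk
  have hki : k0 ≠ i0 := fun e => hne (by rw [e])
  set U : Fin t → Fin t → ZMod p := fun k i => c k * c i * (h i - h k) with hU
  set e : ZMod p := y k0 * U k0 i0 with he
  have hene : e ≠ 0 := by
    rw [he]
    exact mul_ne_zero hk0 (mul_ne_zero (mul_ne_zero (hc k0) (hc i0)) (sub_ne_zero.mpr hne))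
  set G : (Fin t → E) → ℂ := fun π => ep p (∑ q : Fin t × Fin t, T ind U y π q + ∑ k, g k (π k))
    with hG
  have h1 : ((P k0).card : ℂ) * (((P i0).card : ℂ) * ∑ π ∈ Fintype.piFinset P, G π) =
      ∑ π ∈ Fintype.piFinset P, ∑ a ∈ P k0, ∑ b ∈ P i0,
        G (Function.update (Function.update π k0 a) i0 b) := by
    rw [← avg P i0 G, ← avg P k0 (fun π => ∑ b ∈ P i0, G (Function.update π i0 b))]
  have h2 : ‖∑ π ∈ Fintype.piFinset P, ∑ a ∈ P k0, ∑ b ∈ P i0,
      G (Function.update (Function.update π k0 a) i0 b)‖ ≤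
      ((Fintype.piFinset P).card : ℝ) * (δ * ((P k0).card * (P i0).card)) := by
    refine (norm_sum_le _ _).trans ?_
    rw [← nsmul_eq_mul]
    refine Finset.sum_le_card_nsmul _ _ _ (fun π _ => ?_)
    obtain ⟨A, B, hAB⟩ := decomp ind U y π k0 i0 hki hi0
    obtain ⟨A', B', hAB'⟩ := decomp1 g π k0 i0
    have h3 : ∑ a ∈ P k0, ∑ b ∈ P i0, G (Function.update (Function.update π k0 a) i0 b) =
        ∑ a ∈ P k0, ∑ b ∈ P i0, ep p (A a + A' a) * ep p (B b + B' b) * ep p (e * ind a b) := by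
      refine Finset.sum_congr rfl (fun a _ => Finset.sum_congr rfl (fun b _ => ?_))
      simp only [hG]
      rw [hAB a b, hAB' a b, ← hadd, ← hadd]
      congr 1
      ring
    rw [h3]
    exact hB k0 i0 e hene (fun a => ep p (A a + A' a)) (fun b => ep p (B b + B' b))
      (fun z => (hnorm _).le) (fun z => (hnorm _).le)
  rw [← h1, norm_mul, norm_mul, Complex.norm_natCast, Complex.norm_natCast] at h2
  have p1 : (0 : ℝ) < (P k0).card := by exact_mod_cast Nat.pos_of_ne_zero (hP k0)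
  have p2 : (0 : ℝ) < (P i0).card := by exact_mod_cast Nat.pos_of_ne_zero (hP i0)
  have p3 : (0 : ℝ) < (P k0).card * (P i0).card := mul_pos p1 p2
  have h4 : ((P k0).card * (P i0).card : ℝ) * ‖∑ π ∈ Fintype.piFinset P, G π‖ ≤
      ((P k0).card * (P i0).card : ℝ) * (δ * ((Fintype.piFinset P).card : ℝ)) := by
    linarith
  exact le_of_mul_le_mul_left h4 p3

theorem card_const [Fact p.Prime] {t : ℕ} (j0 : Fin t) :
    (Finset.univ.filter (fun y : Fin t → ZMod p => ∀ k, k ≠ j0 → y k = 0)).card ≤ p := by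
  classical
  have h1 : (Finset.univ.filter (fun y : Fin t → ZMod p => ∀ k, k ≠ j0 → y k = 0)).card ≤
      (Finset.univ : Finset (ZMod p)).card := by
    refine Finset.card_le_card_of_injOn (fun y => y j0)
      (fun y _ => Finset.mem_coe.mpr (Finset.mem_univ _)) ?_
    intro y hy y' hy' h
    rw [Finset.mem_coe, Finset.mem_filter] at hy hy'
    funext k
    by_cases hk : k = j0
    · rw [hk]
      exact h
    · rw [hy.2 k hk, hy'.2 k hk]
  rwa [Finset.card_univ, ZMod.card] at h1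

/-- the count, in abstract form -/
theorem main [Fact p.Prime] (hadd : ∀ a b : ZMod p, ep p (a + b) = ep p a * ep p b)
    (hnorm : ∀ a : ZMod p, ‖ep p a‖ = 1)
    (hs : ∀ a : ZMod p, a ≠ 0 → ∑ j : ZMod p, ep p (j * a) = 0) {t : ℕ}
    (ind : E → E → ZMod p) (c e : Fin t → ZMod p)
    (hc : ∀ i, c i ≠ 0) (hne : ∃ i k, c k * e i ≠ c i * e k) (δ : ℝ) (hδ : 0 < δ)
    (P : Fin t → Finset E) (f : Fin t → E → ZMod p)
    (hB : ∀ i k : Fin t, ∀ e : ZMod p, e ≠ 0 → ∀ α β : E → ℂ, (∀ z, ‖α z‖ ≤ 1) →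
      (∀ z, ‖β z‖ ≤ 1) →
      ‖∑ π ∈ P i, ∑ π' ∈ P k, α π * β π' * ep p (e * ind π π')‖ ≤ δ * ((P i).card * (P k).card))
    (hP : ∀ i, (P i).card ≠ 0) (S : Finset (Fin t → E)) (hS1 : S ⊆ Fintype.piFinset P)
    (hS2 : ∀ π ∈ S, ∀ k, ∑ i ∈ Finset.univ.erase k, (c k * e i - c i * e k) *
      ind (π k) (π i) = f k (π k)) :
    (S.card : ℝ) ≤ ((p : ℝ) / (p : ℝ) ^ t + δ) * ∏ i, ((P i).card : ℝ) := by
  classical
  set h : Fin t → ZMod p := fun i => e i / c i with hh_def
  set U : Fin t → Fin t → ZMod p := fun k i => c k * c i * (h i - h k) with hU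
  have hUe : ∀ k i, c k * e i - c i * e k = U k i := by
    intro k i
    simp only [hU, hh_def]
    have h1 := hc k
    have h2 := hc i
    field_simp
  have hh : ∃ i k, h i ≠ h k := by
    obtain ⟨i, k, hik⟩ := hne
    refine ⟨i, k, fun he => hik ?_⟩
    have h1 := hUe k i
    simp only [hU, he, sub_self, mul_zero] at h1
    exact sub_eq_zero.mp h1
  obtain ⟨j0, _, _⟩ := id hh
  set F := Fintype.piFinset P with hF
  have hFcard : (F.card : ℝ) = ∏ i, ((P i).card : ℝ) := by
    rw [hF, Fintype.card_piFinset]; push_cast; rfl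
  rw [← hFcard]
  set V : (Fin t → E) → Fin t → ZMod p := fun π k =>
    if k = j0 then 0 else (∑ i, U k i * ind (π k) (π i)) - f k (π k) with hV
  set S' := F.filter (fun π => ∀ k, V π k = 0) with hS'
  have hSS : S ⊆ S' := by
    intro π hπ
    rw [hS', Finset.mem_filter]
    refine ⟨hS1 hπ, fun k => ?_⟩
    simp only [hV]
    split_ifs with hk
    · rfl
    · rw [sub_eq_zero, ← hS2 π hπ k, ← Finset.add_sum_erase Finset.univ _ (Finset.mem_univ k)]
      have h1 : U k k * ind (π k) (π k) = 0 := by simp [hU]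
      rw [h1, zero_add]
      exact Finset.sum_congr rfl fun i _ => by rw [hUe]
  have hcount : ((p : ℂ) ^ t) * (S'.card : ℂ) =
      ∑ y : Fin t → ZMod p, ∑ π ∈ F, ep p (∑ k, y k * V π k) := by
    rw [Finset.sum_comm]
    have h2 : ∀ π ∈ F, ∑ y : Fin t → ZMod p, ep p (∑ k, y k * V π k) =
        if (∀ k, V π k = 0) then (p : ℂ) ^ t else 0 := fun π _ => orth_pi hadd hs _
    rw [Finset.sum_congr rfl h2, ← Finset.sum_filter, Finset.sum_const, nsmul_eq_mul, mul_comm]
  have hy : ∀ y : Fin t → ZMod p, ‖∑ π ∈ F, ep p (∑ k, y k * V π k)‖ ≤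
      (if (∀ k, k ≠ j0 → y k = 0) then (F.card : ℝ) else 0) + δ * F.card := by
    intro y
    split_ifs with hyc
    · have h2 : ‖∑ π ∈ F, ep p (∑ k, y k * V π k)‖ ≤ F.card := by
        refine (norm_sum_le _ _).trans ?_
        rw [Finset.sum_congr rfl (fun π _ => hnorm _), Finset.sum_const, nsmul_eq_mul, mul_one]
      have h3 : 0 ≤ δ * (F.card : ℝ) := by positivity
      linarith
    · rw [zero_add]
      push Not at hyc
      obtain ⟨k1, hk1, hyk1⟩ := hyc
      set y' := Function.update y j0 0 with hy'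
      have e1 : ∀ π : Fin t → E, ∑ k, y k * V π k =
          ∑ q : Fin t × Fin t, T ind U y' π q + ∑ k, (-(y' k * f k (π k))) := by
        intro π
        rw [← sum_T, ← Finset.sum_add_distrib]
        refine Finset.sum_congr rfl (fun k _ => ?_)
        simp only [hV]
        by_cases hk : k = j0
        · rw [if_pos hk, hk, hy', Function.update_self]
          ring
        · rw [if_neg hk, hy', Function.update_of_ne hk]
          ring
      rw [Finset.sum_congr rfl (fun π _ => by rw [e1 π])]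
      exact bound hadd hnorm ind c h hc δ P y' hh j0 k1 (by rw [hy', Function.update_self])
        (by rw [hy', Function.update_of_ne hk1]; exact hyk1) (fun k z => -(y' k * f k z)) hB hP
  have hfin : (p : ℝ) ^ t * (S'.card : ℝ) ≤ p * F.card + p ^ t * (δ * F.card) := by
    have h2 : ‖((p : ℂ) ^ t) * (S'.card : ℂ)‖ = (p : ℝ) ^ t * (S'.card : ℝ) := by
      rw [norm_mul, norm_pow, Complex.norm_natCast, Complex.norm_natCast]
    rw [← h2, hcount]
    refine (norm_sum_le _ _).trans ((Finset.sum_le_sum (fun y _ => hy y)).trans ?_)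
    rw [Finset.sum_add_distrib, Finset.sum_const, ← Finset.sum_filter, Finset.sum_const,
      nsmul_eq_mul, nsmul_eq_mul]
    have h3 : ((Finset.univ : Finset (Fin t → ZMod p)).card : ℝ) = (p : ℝ) ^ t := by
      rw [Finset.card_univ, Fintype.card_fun, ZMod.card, Fintype.card_fin]; push_cast; rfl
    rw [h3]
    have h4 : ((Finset.univ.filter
        (fun y : Fin t → ZMod p => ∀ k, k ≠ j0 → y k = 0)).card : ℝ) ≤ p := by
      exact_mod_cast card_const j0
    have h5 : (0 : ℝ) ≤ F.card := Nat.cast_nonneg _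
    nlinarith
  have hp : (0 : ℝ) < p := by exact_mod_cast (Fact.out : p.Prime).pos
  have hpt : (0 : ℝ) < (p : ℝ) ^ t := by positivity
  have h6 : (p : ℝ) ^ t * (((p : ℝ) / (p : ℝ) ^ t + δ) * F.card) =
      p * F.card + p ^ t * (δ * F.card) := by
    field_simp
  refine le_of_mul_le_mul_left ?_ hpt
  rw [h6]
  refine le_trans ?_ hfin
  have h7 : (S.card : ℝ) ≤ S'.card := by exact_mod_cast Finset.card_le_card hSS
  exact mul_le_mul_of_nonneg_left h7 hpt.le

end IFMO

/-- FMO -/
theorem pr_FMO (hBLT : StBLT.{u}) (hEP : StEP) : StFMO.{u} := by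
  classical
  intro F _ _ p _ ind hind hn t c e hc hne δ hδ
  obtain ⟨X0, hX0⟩ := hBLT F p ind hind hn δ hδ
  obtain ⟨hadd, hnorm, _, _, hs⟩ := hEP p
  refine ⟨max X0 1, fun X hX P hP hcard f => ?_⟩
  have hX0' : X0 ≤ X := le_trans (le_max_left _ _) hX
  have hX1 : 1 ≤ X := le_trans (le_max_right _ _) hX
  have hpos : ∀ i, (P i).card ≠ 0 := by
    intro i h0
    have h2 := hcard i
    rw [h0] at h2
    have h3 : (0 : ℝ) < (X : ℝ) ^ ((Module.finrank ℚ F : ℝ) - 1 / 4) := by
      apply Real.rpow_pos_of_pos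
      exact_mod_cast hX1
    simp only [Nat.cast_zero] at h2
    linarith
  refine IFMO.main hadd hnorm hs ind c e hc hne δ hδ P f ?_ hpos _ (Finset.filter_subset _ _) ?_
  · intro i k e' he' α β hα hβ
    exact hX0 X hX0' (P i) (P k) (hP i) (hP k) (hcard i) (hcard k) e' he' α β hα hβ
  · intro π hπ
    exact (Finset.mem_filter.mp hπ).2

end Pool.Agent.Work.MP_59f3ad_nt.PX
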