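import Pool.Agent.Work.MP_59f3ad_nt.PX.StmtsA

/-!
Block PX, item GX: the field `L = F(x)` and the automorphisms which fix or move `x`.
-/

set_option autoImplicit false

open NumberField IsDedekindDomain

namespace Pool.Agent.Work.MP_59f3ad_nt.PX

open Pool.Agent.Work.MP_59f3ad_nt.FE

universe u

namespace IGX

theorem adj {F L : Type u} [Field F] [NumberField F] [Field L] [NumberField L]
    [Algebra F L] {p : ℕ} [Fact p.Prime] {ζ m : F} {x : L} {σ : L ≃ₐ[F] L}
    (h : Cf F L p ζ m x σ) : Algebra.adjoin F {x} = ⊤ := by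
  have hp : p.Prime := Fact.out
  have hx0 : x ≠ 0 := by
    intro h0
    have h1 := h.hx
    rw [h0, zero_pow hp.ne_zero] at h1
    exact h.hm ((map_eq_zero (algebraMap F L)).1 h1.symm)
  have : FiniteDimensional F L := Module.finite_of_finrank_pos (by rw [h.hL]; exact hp.pos)
  have hpr : (Module.finrank F L).Prime := by rw [h.hL]; exact hp
  have : IsSimpleOrder (IntermediateField F L) := IntermediateField.isSimpleOrder_of_finrank_prime F L hpr
  have hxi : IsIntegral F x := IsIntegral.of_finite F x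
  rw [← IntermediateField.adjoin_simple_toSubalgebra_of_isAlgebraic hxi.isAlgebraic]
  rcases eq_bot_or_eq_top (IntermediateField.adjoin F {x}) with h1 | h1
  · exfalso
    rw [IntermediateField.adjoin_simple_eq_bot_iff, IntermediateField.mem_bot] at h1
    obtain ⟨z, hz⟩ := h1
    have h2 := h.hσ
    rw [← hz, AlgEquiv.commutes, hz] at h2
    have h3 : algebraMap F L ζ = 1 := mul_right_cancel₀ hx0 (by rw [one_mul]; exact h2.symm)
    have h4 : ζ = 1 := (algebraMap F L).injective (by rw [h3, map_one])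
    exact h.hζ.ne_one hp.one_lt h4
  · rw [h1, IntermediateField.top_toSubalgebra]

theorem ext {F L Ω : Type u} [Field F] [NumberField F] [Field L] [NumberField L]
    [Algebra F L] [Field Ω] [Algebra F Ω] {p : ℕ} [Fact p.Prime] {ζ m : F} {x : L} {σ : L ≃ₐ[F] L}
    (h : Cf F L p ζ m x σ) (f g : L →ₐ[F] Ω) (hfg : f x = g x) : f = g :=
  AlgHom.ext_of_adjoin_eq_top (adj h) (by
    intro y hy
    rw [Set.mem_singleton_iff.1 hy]
    exact hfg)

theorem pw {F L : Type u} [Field F] [NumberField F] [Field L] [NumberField L]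
    [Algebra F L] {p : ℕ} [Fact p.Prime] {ζ m : F} {x : L} {σ : L ≃ₐ[F] L}
    (h : Cf F L p ζ m x σ) (k : ℕ) : (σ ^ k) x = algebraMap F L (ζ ^ k) * x := by
  induction k with
  | zero => rw [pow_zero, pow_zero, map_one, one_mul]; rfl
  | succ k ih =>
    rw [pow_succ', AlgEquiv.mul_apply, ih, map_mul, AlgEquiv.commutes, h.hσ, pow_succ, map_mul, mul_assoc]

end IGX

open IGX in
theorem pr_GX : StGX.{u} := by
  intro F L _ _ _ _ _ p _ ζ m x σ h
  refine ⟨?_, ?_, ?_⟩
  · have h1 : ((σ ^ p : L ≃ₐ[F] L) : L →ₐ[F] L) = ((1 : L ≃ₐ[F] L) : L →ₐ[F] L) := by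
      refine ext h _ _ ?_
      show (σ ^ p) x = x
      rw [pw h p, h.hζ.pow_eq_one, map_one, one_mul]
    ext y
    exact DFunLike.congr_fun h1 y
  · intro g hg
    have h1 : (g : AlgebraicClosure L →ₐ[F] AlgebraicClosure L).comp
        (IsScalarTower.toAlgHom F L (AlgebraicClosure L)) =
        IsScalarTower.toAlgHom F L (AlgebraicClosure L) := ext h _ _ hg
    exact ⟨AlgEquiv.ofRingEquiv (f := (g : AlgebraicClosure L ≃+* AlgebraicClosure L))
      (fun y => DFunLike.congr_fun h1 y), fun y => rfl⟩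
  · intro s hs
    have h1 : (s : AlgebraicClosure L →ₐ[F] AlgebraicClosure L).comp
        (IsScalarTower.toAlgHom F L (AlgebraicClosure L)) =
        (IsScalarTower.toAlgHom F L (AlgebraicClosure L)).comp (σ : L →ₐ[F] L) := ext h _ _ hs
    exact fun y => DFunLike.congr_fun h1 y

end Pool.Agent.Work.MP_59f3ad_nt.PX
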