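import Mathlib
import Pool.Agent.Work.MP_59f3ad_nt.PX.StmtsA

/-!
Block PX, item H90: Hilbert 90 for the cyclic extension `L/F`.
-/

set_option autoImplicit false

open NumberField IsDedekindDomain

namespace Pool.Agent.Work.MP_59f3ad_nt.PX

open Pool.Agent.Work.MP_59f3ad_nt.FE

universe u

namespace IH90

/-- the powers of `σ` at `x` -/
theorem pow_x {F L : Type u} [Field F] [NumberField F] [Field L] [NumberField L] [Algebra F L]
    {p : ℕ} {ζ m : F} {x : L} {σ : L ≃ₐ[F] L} (hC : Cf F L p ζ m x σ) (j : ℕ) :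
    (σ ^ j) x = algebraMap F L ζ ^ j * x := by
  induction j with
  | zero => simp
  | succ j ih =>
    rw [pow_succ', AlgEquiv.mul_apply, ih, map_mul, map_pow, σ.commutes, hC.hσ]
    ring

/-- a value of the Lagrange resolvent is not zero -/
theorem exists_ne {F L : Type u} [Field F] [NumberField F] [Field L] [NumberField L] [Algebra F L]
    {p : ℕ} [Fact p.Prime] {ζ m : F} {x : L} {σ : L ≃ₐ[F] L} (hC : Cf F L p ζ m x σ)
    (a : ℕ → L) (ha : a 0 ≠ 0) : ∃ z : L, ∑ j ∈ Finset.range p, a j * (σ ^ j) z ≠ 0 := by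
  have hp0 : 0 < p := (Fact.out : p.Prime).pos
  have hx0 : x ≠ 0 := by
    intro h0
    have h1 := hC.hx
    rw [h0, zero_pow hp0.ne'] at h1
    exact hC.hm ((algebraMap F L).injective (by rw [← h1, map_zero]))
  let f : Fin p → (L →* L) := fun j => ((σ ^ (j : ℕ) : L ≃ₐ[F] L) : L →* L)
  have hfa : ∀ (j : Fin p) (z : L), f j z = (σ ^ (j : ℕ)) z := fun j z => rfl
  have hf : Function.Injective f := by
    intro i j hij
    have h1 : f i x = f j x := by rw [hij]
    rw [hfa, hfa, pow_x hC, pow_x hC] at h1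
    have h2 := mul_right_cancel₀ hx0 h1
    rw [← map_pow, ← map_pow] at h2
    have h3 := (algebraMap F L).injective h2
    exact Fin.ext (hC.hζ.pow_inj i.2 j.2 h3)
  have hli := (linearIndependent_monoidHom L L).comp f hf
  by_contra hcon
  push Not at hcon
  have h4 := Fintype.linearIndependent_iff.1 hli (fun j => a (j : ℕ)) (by
    funext z
    have h5 := hcon z
    rw [← Fin.sum_univ_eq_sum_range (fun j => a j * (σ ^ j) z) p] at h5
    rw [Finset.sum_apply]
    exact h5) ⟨0, hp0⟩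
  exact ha h4

end IH90

open IH90

theorem pr_H90 (hGX : StGX.{u}) : StH90.{u} := by
  intro F L _ _ _ _ _ p _ ζ m x σ hC c hc
  have hσp : σ ^ p = 1 := (hGX F L p ζ m x σ hC).1
  obtain ⟨a, ha⟩ : ∃ a : ℕ → L, a = fun j => ∏ i ∈ Finset.range j, (σ ^ i) c := ⟨_, rfl⟩
  have ha0 : a 0 = 1 := by rw [ha]; simp
  have hap : a p = 1 := by rw [ha]; exact hc
  have has : ∀ j, c * σ (a j) = a (j + 1) := by
    intro j
    rw [ha]
    show c * σ (∏ i ∈ Finset.range j, (σ ^ i) c) = ∏ i ∈ Finset.range (j + 1), (σ ^ i) c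
    rw [Finset.prod_range_succ', map_prod, pow_zero, AlgEquiv.one_apply, mul_comm]
    congr 1
    refine Finset.prod_congr rfl fun i _ => ?_
    rw [pow_succ', AlgEquiv.mul_apply]
  obtain ⟨z, hz⟩ := exists_ne hC a (by rw [ha0]; exact one_ne_zero)
  obtain ⟨e, he⟩ : ∃ e : L, e = ∑ j ∈ Finset.range p, a j * (σ ^ j) z := ⟨_, rfl⟩
  rw [← he] at hz
  have hce : c * σ e = e := by
    have h1 : c * σ e = ∑ j ∈ Finset.range p, a (j + 1) * (σ ^ (j + 1)) z := by
      rw [he, map_sum, Finset.mul_sum]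
      refine Finset.sum_congr rfl fun j _ => ?_
      rw [map_mul, ← mul_assoc, has, pow_succ', AlgEquiv.mul_apply]
    have h2 := Finset.sum_range_succ (fun j => a j * (σ ^ j) z) p
    have h3 := Finset.sum_range_succ' (fun j => a j * (σ ^ j) z) p
    rw [h3] at h2
    simp only [ha0, hap, hσp, pow_zero] at h2
    rw [← he, ← h1] at h2
    exact add_right_cancel h2
  refine ⟨e⁻¹, inv_ne_zero hz, ?_⟩
  have hc0 : c ≠ 0 := by
    intro h0
    rw [h0, zero_mul] at hce
    exact hz hce.symm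
  have hσe : σ e ≠ 0 := by
    intro h0
    rw [h0, mul_zero] at hce
    exact hz hce.symm
  rw [map_inv₀]
  rw [inv_eq_iff_eq_inv, mul_inv, inv_inv]
  rw [eq_comm, inv_mul_eq_iff_eq_mul₀ hc0]
  exact hce.symm

end Pool.Agent.Work.MP_59f3ad_nt.PX
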