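import Pool.Agent.Work.MP_59f3ad_nt.PX.StmtsB

/-!
Block PX, item HHR: one place above `p` and class number prime to `p` give the hypotheses of `StCNT`.
-/

set_option autoImplicit false

open NumberField IsDedekindDomain

namespace Pool.Agent.Work.MP_59f3ad_nt.PX

universe u

namespace IHHR

theorem vd_pow (K : Type u) [Field K] [NumberField K] (p : ℕ) (q : HeightOneSpectrum (𝓞 K))
    (a : K) (i : ℕ) (h : Vd K p q a) : Vd K p q (a ^ i) := by
  obtain ⟨y, hy⟩ := h
  exact ⟨y ^ i, by rw [map_pow, map_pow, hy, ← pow_mul, ← pow_mul, mul_comm p i]⟩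

end IHHR

open IHHR in
theorem pr_HHR (hVFK : StVFK.{u}) (hLPM : StLPM.{u}) : StHHR.{u} := by
  intro K _ _ p _ hp ζ hζ _ hcl t m0 x c hm0 hx hyp
  have hpp' : p.Prime := Fact.out
  have hM : Mx m0 x c ≠ 0 :=
    mul_ne_zero hm0 (Finset.prod_ne_zero_iff.2 fun i _ => pow_ne_zero _ (hx i))
  have hMK : (Mx m0 x c : K) ≠ 0 := by
    intro h
    exact hM (RingOfIntegers.coe_eq_zero_iff.1 h)
  refine ⟨fun v hv h => ?_, fun d hd => ?_⟩
  · refine hyp 1 one_ne_zero (fun q _ => ⟨1, by simp⟩) v hv ?_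
    rw [one_mul]
    exact h
  · refine hVFK K p hp ζ hζ hcl d hd.ne hd.val (fun v hv => ?_)
    obtain ⟨hmul, hpow, hpp, hcan⟩ := hLPM.1 K p v
    obtain ⟨k, hk⟩ := hd.loc v hv
    have hk' : Lp K p v ((d : K) * (Mx m0 x c : K) ^ k) := by
      have he : ((d * (∏ i, x i ^ ((0 : Fin t → ZMod p) i).val) * Mx m0 x c ^ k : 𝓞 K) : K) =
          (d : K) * (Mx m0 x c : K) ^ k := by
        simp
      rw [he] at hk
      exact hk
    by_cases hdiv : p ∣ k
    · obtain ⟨s, rfl⟩ := hdiv
      refine hcan _ _ (pow_ne_zero _ hMK) hk' ?_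
      rw [mul_comm p s, pow_mul]
      exact hpp _
    · exfalso
      obtain ⟨i, hi⟩ := Nat.exists_mul_mod_eq_one_of_coprime
        ((Nat.Prime.coprime_iff_not_dvd hpp').2 hdiv).symm hpp'.one_lt
      have hki : k * i = 1 + p * (k * i / p) := by
        have := Nat.mod_add_div (k * i) p
        omega
      refine hyp (d ^ i) (pow_ne_zero _ hd.ne) (fun q hq => ?_) v hv ?_
      · have h1 := vd_pow K p q _ i (hd.val q hq)
        have e1 : ((d ^ i : 𝓞 K) : K) = (d : K) ^ i := by simp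
        rw [e1]
        exact h1
      · have h1 := hpow _ i hk'
        have e1 : ((d : K) * (Mx m0 x c : K) ^ k) ^ i =
            ((d ^ i * Mx m0 x c : 𝓞 K) : K) * ((Mx m0 x c : K) ^ (k * i / p)) ^ p := by
          rw [mul_pow, ← pow_mul, hki, pow_add, pow_one, mul_comm p, pow_mul]
          have e2 : ((d ^ i * Mx m0 x c : 𝓞 K) : K) = (d : K) ^ i * (Mx m0 x c : K) := by simp
          rw [e2]
          have e3 : (1 + k * i / p * p) / p = k * i / p := by
            rw [mul_comm (k * i / p) p, ← hki]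
          rw [e3]
          ring
        rw [e1] at h1
        exact hcan _ _ (pow_ne_zero _ (pow_ne_zero _ hMK)) h1 (hpp _)

end Pool.Agent.Work.MP_59f3ad_nt.PX
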