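import Mathlib
import Pool.Agent.Work.MP_59f3ad_nt.PX.StmtsD
import Pool.Agent.Work.MP_59f3ad_nt.FE.I_LI

/-!
Block PX, item I1: if the inertia group of a prime above `q` fixes a `p`-th root of `a` then the
valuation of `a` at `q` is divisible by `p`.
-/

set_option autoImplicit false

open NumberField IsDedekindDomain Polynomial
open scoped Pointwise

namespace Pool.Agent.Work.MP_59f3ad_nt.PX

open Pool.Agent.Work.MP_59f3ad_nt.FE

universe u

namespace II1

/-- the roots of `X^p - a` are the `ζ^i A` -/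
theorem roots {K Ω : Type u} [Field K] [Field Ω] [Algebra K Ω] (p : ℕ) (hp : 0 < p) (ζ : K)
    (hζ : IsPrimitiveRoot ζ p) (A : Ω) (a : K) (ha : a ≠ 0) (hA : A ^ p = algebraMap K Ω a)
    (x : Ω) (hx : x ∈ (X ^ p - C a : K[X]).rootSet Ω) : ∃ i : ℕ, x = algebraMap K Ω (ζ ^ i) * A := by
  have h1 : aeval x (X ^ p - C a : K[X]) = 0 := Polynomial.aeval_eq_zero_of_mem_rootSet hx
  have h2 : x ^ p = algebraMap K Ω a := by
    simpa [sub_eq_zero] using h1
  have hA0 : A ≠ 0 := by
    rintro rfl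
    rw [zero_pow hp.ne'] at hA
    exact ha ((map_eq_zero (algebraMap K Ω)).1 hA.symm)
  have h3 : (x / A) ^ p = 1 := by
    rw [div_pow, h2, hA, div_self]
    rw [← hA]
    exact pow_ne_zero _ hA0
  have hζ' : IsPrimitiveRoot (algebraMap K Ω ζ) p := hζ.map_of_injective (algebraMap K Ω).injective
  have : NeZero p := ⟨hp.ne'⟩
  obtain ⟨i, -, hi⟩ := hζ'.eq_pow_of_pow_eq_one h3
  refine ⟨i, ?_⟩
  rw [map_pow, hi, div_mul_cancel₀ _ hA0]

/-- an automorphism which fixes `A` fixes the splitting field -/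
theorem fix {K Ω : Type u} [Field K] [Field Ω] [Algebra K Ω] (p : ℕ) (hp : 0 < p) (ζ : K)
    (hζ : IsPrimitiveRoot ζ p) (A : Ω) (a : K) (ha : a ≠ 0) (hA : A ^ p = algebraMap K Ω a)
    (τ : Ω ≃ₐ[K] Ω) (hτ : τ A = A) (x : Ω)
    (hx : x ∈ IntermediateField.adjoin K ((X ^ p - C a : K[X]).rootSet Ω)) : τ x = x := by
  have h1 : IntermediateField.adjoin K ((X ^ p - C a : K[X]).rootSet Ω) ≤
      IntermediateField.fixedField (Subgroup.zpowers τ) := by
    rw [IntermediateField.adjoin_le_iff]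
    intro y hy
    obtain ⟨i, rfl⟩ := roots p hp ζ hζ A a ha hA y hy
    have h2 : τ ∈ MulAction.stabilizer (Ω ≃ₐ[K] Ω) (algebraMap K Ω (ζ ^ i) * A) := by
      rw [MulAction.mem_stabilizer_iff]
      show τ (algebraMap K Ω (ζ ^ i) * A) = _
      rw [map_mul, AlgEquiv.commutes, hτ]
    have h3 : Subgroup.zpowers τ ≤
        MulAction.stabilizer (Ω ≃ₐ[K] Ω) (algebraMap K Ω (ζ ^ i) * A) :=
      Subgroup.zpowers_le.2 h2
    intro g
    exact h3 g.2
  exact h1 hx ⟨τ, Subgroup.mem_zpowers τ⟩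

end II1

theorem pr_I1 : StI1.{u} := by
  intro K Ω _ _ _ _ _ p hp ζ hζ q Q hQ hQq A a ha hA H
  have hp0 : 0 < p := hp.out.pos
  have hgal := ILI.gal K Ω
  have hac : IsAlgClosed Ω := IsAlgClosure.isAlgClosed K
  let f : K[X] := X ^ p - C a
  let M : IntermediateField K Ω := IntermediateField.adjoin K (f.rootSet Ω)
  have hsplit : f.IsSplittingField K M :=
    IntermediateField.adjoin_rootSet_isSplittingField (IsAlgClosed.splits _)
  have hfin : FiniteDimensional K M := Polynomial.IsSplittingField.finiteDimensional M f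
  have hnor : Normal K M := Normal.of_isSplittingField f
  have hgalM : IsGalois K M := { }
  have hnM : NumberField M := NumberField.of_module_finite K M
  have hAM : A ∈ M := by
    apply IntermediateField.subset_adjoin
    rw [Polynomial.mem_rootSet]
    refine ⟨X_pow_sub_C_ne_zero hp0 a, ?_⟩
    change aeval A (X ^ p - C a : K[X]) = 0
    rw [map_sub, map_pow, aeval_X, aeval_C, hA, sub_self]
  let A' : M := ⟨A, hAM⟩
  have hA' : A' ^ p = algebraMap K M a := by
    apply Subtype.ext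
    exact hA
  let P : Ideal (𝓞 M) := Q.comap (algebraMap (𝓞 M) (𝓞 Ω))
  have hP : P.IsPrime := Ideal.comap_isPrime _ Q
  have hPcomap : P.comap (algebraMap (𝓞 K) (𝓞 M)) = q.asIdeal := by
    rw [← hQq]
    ext x
    rw [Ideal.mem_comap, Ideal.mem_comap, Ideal.mem_comap]
    have h1 : algebraMap (𝓞 M) (𝓞 Ω) (algebraMap (𝓞 K) (𝓞 M) x) = algebraMap (𝓞 K) (𝓞 Ω) x :=
      RingOfIntegers.ext rfl
    rw [h1]
  have hPq : P.LiesOver q.asIdeal := ⟨hPcomap.symm⟩
  have hqp : q.asIdeal.IsPrime := q.isPrime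
  have hP0 : P ≠ ⊥ := Ideal.ne_bot_of_liesOver_of_ne_bot q.ne_bot P
  have hcard : Nat.card (P.inertia Gal(M/K)) = 1 := by
    have htriv : ∀ σ ∈ P.inertia Gal(M/K), σ = 1 := by
      intro σ hσ
      obtain ⟨τ, hτ1, hτ2⟩ := pr_LI K Ω M Q hQ σ (by
        intro y z z' hz hz'
        have hy : IsIntegral ℤ y := by
          have h2 : IsIntegral ℤ (algebraMap M Ω y) := by
            have h3 : algebraMap M Ω y = (z : Ω) := hz.symm
            rw [h3]
            exact z.isIntegral_coe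
          exact (isIntegral_algebraMap_iff (algebraMap M Ω).injective).1 h2
        let yO : 𝓞 M := ⟨y, hy⟩
        have h5 : σ • yO - yO ∈ P := hσ yO
        have h6 : algebraMap (𝓞 M) (𝓞 Ω) (σ • yO - yO) = z' - z := by
          rw [map_sub]
          congr 1
          · apply RingOfIntegers.ext
            rw [hz']
            rfl
          · apply RingOfIntegers.ext
            rw [hz]
            rfl
        rw [← h6]
        exact h5)
      have h7 : τ A = A := H τ hτ1
      ext y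
      have h8 := II1.fix p hp0 ζ hζ A a ha hA τ h7 (y : Ω) y.2
      rw [hτ2 y] at h8
      rw [h8]
      rfl
    refine Nat.card_eq_one_iff_unique.mpr ⟨⟨fun s t => ?_⟩, ⟨1⟩⟩
    apply Subtype.ext
    rw [htriv s.1 s.2, htriv t.1 t.2]
  have he : P.ramificationIdx (𝓞 K) = 1 := by
    rw [← Ideal.ramificationIdxIn_eq_ramificationIdx q.asIdeal P Gal(M/K),
      ← Ideal.card_inertia_eq_ramificationIdxIn (G := Gal(M/K)) q.asIdeal P]
    exact hcard
  let w : HeightOneSpectrum (𝓞 M) := ⟨P, hP, hP0⟩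
  have hwq : w.asIdeal.LiesOver q.asIdeal := hPq
  have he' : q.asIdeal.ramificationIdx' w.asIdeal = 1 := by
    rw [Ideal.ramificationIdx'_eq_ramificationIdx q.asIdeal P q.ne_bot]
    exact he
  have hv := HeightOneSpectrum.valuation_liesOver (K := K) M q w a
  rw [he', pow_one, ← hA', map_pow] at hv
  obtain ⟨y, hy⟩ := HeightOneSpectrum.valuation_surjective K q (w.valuation M A')
  refine ⟨y, ?_⟩
  rw [hy]
  exact hv

end Pool.Agent.Work.MP_59f3ad_nt.PX
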