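import Mathlib
import Pool.Agent.Work.MP_59f3ad_nt.PX.StmtsD

/-!
# Block PX, item I2: inertia and radicals whose valuation is divisible by `p`
-/

set_option autoImplicit false

open NumberField IsDedekindDomain

namespace Pool.Agent.Work.MP_59f3ad_nt.PX

open Pool.Agent.Work.MP_59f3ad_nt.FE

universe u

namespace II2

theorem coe_alg (K Ω : Type u) [Field K] [Field Ω] [Algebra K Ω] (d : 𝓞 K) :
    ((algebraMap (𝓞 K) (𝓞 Ω) d : 𝓞 Ω) : Ω) = algebraMap K Ω (d : K) := rfl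

theorem c_mul {K : Type u} [Field K] (x y : 𝓞 K) : ((x * y : 𝓞 K) : K) = (x : K) * (y : K) :=
  map_mul (algebraMap (𝓞 K) K) x y

theorem c_pow {K : Type u} [Field K] (x : 𝓞 K) (n : ℕ) : ((x ^ n : 𝓞 K) : K) = (x : K) ^ n :=
  map_pow (algebraMap (𝓞 K) K) x n

/-- an element of order dividing `p` which is `1` modulo a prime not containing `p` is `1` -/
theorem eq_one {R : Type u} [CommRing R] [IsDomain R] (q : Ideal R) (p : ℕ) (x : R) (hx : x ^ p = 1)
    (hq : (p : R) ∉ q) (h : x - 1 ∈ q) : x = 1 := by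
  by_contra hne
  have h1 : (∑ j ∈ Finset.range p, x ^ j) * (x - 1) = 0 := by
    rw [geom_sum_mul, hx, sub_self]
  have h2 : ∑ j ∈ Finset.range p, x ^ j = 0 :=
    (mul_eq_zero.1 h1).resolve_right (sub_ne_zero.2 hne)
  apply hq
  rw [← Ideal.Quotient.eq_zero_iff_mem]
  have h3 : Ideal.Quotient.mk q x = 1 := by
    have h4 := Ideal.Quotient.eq_zero_iff_mem.2 h
    rw [map_sub, map_one] at h4
    exact sub_eq_zero.1 h4
  have h5 : Ideal.Quotient.mk q (∑ j ∈ Finset.range p, x ^ j) = (p : R ⧸ q) := by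
    rw [map_sum]
    simp only [map_pow, h3, one_pow, Finset.sum_const, Finset.card_range, nsmul_eq_mul, mul_one]
  rw [h2, map_zero] at h5
  rw [map_natCast, ← h5]

end II2

open II2 in
/-- I2. -/
theorem pr_I2 : StI2.{u} := by
  intro K Ω _ _ _ _ _ p hp ζ hζ q hpq Q hQp hQ A a ha hA hV h hInr
  have hp0 : p ≠ 0 := hp.out.ne_zero
  have hinj : Function.Injective (algebraMap K Ω) := (algebraMap K Ω).injective
  obtain ⟨y, hy⟩ := hV
  have hy0 : y ≠ 0 := by
    rintro rfl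
    rw [map_zero, zero_pow hp0] at hy
    exact ha ((map_eq_zero _).1 hy)
  have hvp := q.isPrime
  obtain ⟨b, hbdef⟩ : ∃ b : K, b = a / y ^ p := ⟨_, rfl⟩
  have hb : q.valuation K b = 1 := by
    rw [hbdef, map_div₀, map_pow, hy]
    have : q.valuation K y ≠ 0 := (map_ne_zero _).2 hy0
    exact div_self (pow_ne_zero p this)
  have hb0 : b ≠ 0 := by
    rw [hbdef]
    exact div_ne_zero ha (pow_ne_zero p hy0)
  obtain ⟨B, hBdef⟩ : ∃ B : Ω, B = A / algebraMap K Ω y := ⟨_, rfl⟩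
  have hyΩ : algebraMap K Ω y ≠ 0 := (map_ne_zero _).2 hy0
  have hAB : A = B * algebraMap K Ω y := by
    rw [hBdef]
    field_simp
  have hBp : B ^ p = algebraMap K Ω b := by
    rw [hBdef, hbdef, div_pow, hA, map_div₀, map_pow]
  have hB0 : B ≠ 0 := by
    rintro rfl
    rw [zero_pow hp0] at hBp
    exact hb0 ((map_eq_zero _).1 hBp.symm)
  obtain ⟨n, ⟨d, hd⟩, hnd⟩ := q.exists_primeCompl_mul_eq_of_integer (K := K) b hb.le
  have hd' : d ∉ q.asIdeal := hd
  have hn' : n ∉ q.asIdeal := by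
    rw [← q.valuation_eq_one_iff_notMem (K := K), ← hnd, map_mul, hb, one_mul,
      q.valuation_eq_one_iff_notMem]
    exact hd'
  have hnd' : b * (d : K) = (n : K) := hnd
  -- membership in `Q` of elements of `𝓞 K`
  have hco : ∀ z : 𝓞 K, algebraMap (𝓞 K) (𝓞 Ω) z ∈ Q ↔ z ∈ q.asIdeal := by
    intro z
    rw [← hQ]
    rfl
  -- `U = d B`
  have hpp : p = (p - 1) + 1 := (Nat.succ_pred hp0).symm
  have hu1 : (algebraMap K Ω (d : K) * B) ^ p = algebraMap K Ω ((d ^ (p - 1) * n : 𝓞 K) : K) := by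
    rw [mul_pow, hBp, ← map_pow, ← map_mul]
    congr 1
    rw [c_mul, c_pow, ← hnd']
    have e : (d : K) ^ p = (d : K) ^ (p - 1) * (d : K) := by
      rw [← pow_succ, ← hpp]
    rw [e]
    ring
  have hint : IsIntegral ℤ (algebraMap K Ω (d : K) * B) := by
    refine IsIntegral.of_pow (n := p) hp.out.pos ?_
    rw [hu1]
    exact map_isIntegral_int (algebraMap K Ω) (d ^ (p - 1) * n : 𝓞 K).isIntegral_coe
  obtain ⟨U, hUc⟩ : ∃ U : 𝓞 Ω, (U : Ω) = algebraMap K Ω (d : K) * B := ⟨⟨_, hint⟩, rfl⟩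
  have hUQ : U ∉ Q := by
    intro h'
    have h1 : U ^ p = algebraMap (𝓞 K) (𝓞 Ω) (d ^ (p - 1) * n) := by
      apply RingOfIntegers.ext
      rw [c_pow, hUc, hu1]
      rfl
    have h2 : algebraMap (𝓞 K) (𝓞 Ω) (d ^ (p - 1) * n) ∈ Q := by
      rw [← h1]
      exact Q.pow_mem_of_mem h' p hp.out.pos
    rw [hco] at h2
    rcases hvp.mem_or_mem h2 with h4 | h4
    · exact hd' (hvp.mem_of_pow_mem _ h4)
    · exact hn' h4
  -- `h B = ζ^i B`
  have hζΩ : IsPrimitiveRoot (algebraMap K Ω ζ) p := hζ.map_of_injective hinj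
  have hroot : (h B / B) ^ p = 1 := by
    rw [div_pow, ← map_pow, hBp, h.commutes, ← hBp]
    exact div_self (pow_ne_zero p hB0)
  obtain ⟨i, _, hi⟩ := hζΩ.eq_pow_of_pow_eq_one hroot
  have hhB : h B = algebraMap K Ω (ζ ^ i) * B := by
    rw [map_pow, hi]
    field_simp
  -- `ζ` is integral
  have hζi : IsIntegral ℤ ζ := by
    refine IsIntegral.of_pow (n := p) hp.out.pos ?_
    rw [hζ.pow_eq_one]
    exact isIntegral_one
  obtain ⟨W, hWc⟩ : ∃ W : 𝓞 K, (W : K) = ζ := ⟨⟨ζ, hζi⟩, rfl⟩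
  obtain ⟨T, hT⟩ : ∃ T : 𝓞 Ω, (T : Ω) = h (U : Ω) :=
    ⟨⟨h (U : Ω), map_isIntegral_int (h : Ω →+* Ω) U.isIntegral_coe⟩, rfl⟩
  have hTU : T - U ∈ Q := hInr U T hT
  have key : T = algebraMap (𝓞 K) (𝓞 Ω) (W ^ i) * U := by
    apply RingOfIntegers.ext
    rw [c_mul, hT, hUc, map_mul, h.commutes, hhB, coe_alg, c_pow, hWc]
    ring
  have h5 : algebraMap (𝓞 K) (𝓞 Ω) (W ^ i - 1) * U ∈ Q := by
    have : algebraMap (𝓞 K) (𝓞 Ω) (W ^ i - 1) * U = T - U := by
      rw [key, map_sub, map_one]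
      ring
    rw [this]
    exact hTU
  have h7 : W ^ i - 1 ∈ q.asIdeal := by
    rw [← hco]
    exact (hQp.mem_or_mem h5).resolve_right hUQ
  have hWp : (W ^ i) ^ p = 1 := by
    apply RingOfIntegers.ext
    rw [c_pow, c_pow, hWc, ← pow_mul, mul_comm, pow_mul, hζ.pow_eq_one, one_pow]
    rfl
  have h8 : W ^ i = 1 := eq_one q.asIdeal p (W ^ i) hWp hpq h7
  have h9 : ζ ^ i = 1 := by
    have := congrArg (fun z : 𝓞 K => (z : K)) h8
    simp only [c_pow, hWc] at this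
    rw [this]
    rfl
  rw [hAB, map_mul, h.commutes, hhB, h9, map_one, one_mul]

end Pool.Agent.Work.MP_59f3ad_nt.PX
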