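import Mathlib
import Pool.Agent.Work.MP_59f3ad_nt.PX.StmtsD

/-!
# Item INF: local triviality at the infinite places is automatic
-/

set_option autoImplicit false

open NumberField IsDedekindDomain

namespace Pool.Agent.Work.MP_59f3ad_nt.PX

open Pool.Agent.Work.MP_59f3ad_nt.FE

universe u

namespace IINF

theorem alg {k : Type} {k' : Type u} [Field k] [Field k'] (e : k ≃+* k') [IsAlgClosed k] :
    IsAlgClosed k' := by
  apply IsAlgClosed.of_exists_root
  intro p hmp hp
  have hpe : Polynomial.degree (p.map e.symm.toRingHom) ≠ 0 := by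
    rw [Polynomial.degree_map]
    exact ne_of_gt (Polynomial.degree_pos_of_irreducible hp)
  rcases IsAlgClosed.exists_root (k := k) (p.map e.symm.toRingHom) hpe with ⟨x, hx⟩
  refine ⟨e x, ?_⟩
  rw [Polynomial.IsRoot] at hx
  apply e.symm.injective
  rw [map_zero, ← hx]
  clear hx hpe hp hmp
  induction p using Polynomial.induction_on <;> simp_all

theorem cplx {K : Type u} [Field K] [NumberField K] {p : ℕ} (hp : p.Prime) (hp2 : p ≠ 2) {ζ : K}
    (hζ : IsPrimitiveRoot ζ p) (v : InfinitePlace K) : v.IsComplex := by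
  rw [← InfinitePlace.not_isReal_iff_isComplex]
  intro hr
  have h1 : (InfinitePlace.embedding_of_isReal hr ζ) ^ p = 1 ^ p := by
    rw [← map_pow, hζ.pow_eq_one, map_one, one_pow]
  have hodd : Odd p := hp.odd_of_ne_two hp2
  have h2 : InfinitePlace.embedding_of_isReal hr ζ = 1 := hodd.strictMono_pow.injective h1
  have h3 : ζ = 1 := by
    apply (InfinitePlace.embedding_of_isReal hr).injective
    rw [h2, map_one]
  exact hζ.ne_one hp.one_lt h3

theorem triv {K : Type u} [Field K] [IsAlgClosed K] (g : GK K) (x : AlgebraicClosure K) :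
    g x = x := by
  obtain ⟨y, rfl⟩ := (IsAlgClosed.algebraMap_bijective_of_isIntegral
    (k := K) (K := AlgebraicClosure K)).2 x
  exact g.commutes y

end IINF

open IINF in
theorem pr_INF : StINF.{u} := by
  intro K _ _ p hp hp2 ζ hζ r φ hφ v ι
  refine ⟨0, fun g h hgh => ?_⟩
  have : IsAlgClosed v.Completion :=
    alg (InfinitePlace.Completion.ringEquivComplexOfIsComplex (cplx hp.out hp2 hζ v)).symm
  have h1 : h = 1 := by
    ext x
    have h2 : ι (h x) = ι x := (hgh x).trans (triv g _)
    exact ι.injective h2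
  rw [h1, hφ, mul_zero]

end Pool.Agent.Work.MP_59f3ad_nt.PX
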