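import Mathlib
import Pool.Agent.Work.MP_59f3ad_nt.PX.StmtsA
import Pool.Agent.Work.MP_59f3ad_nt.Bridge

/-!
Block PX, item INH: failure of the conjecture for `L` produces the data of `Bad`.
-/

set_option autoImplicit false

open NumberField IsDedekindDomain

namespace Pool.Agent.Work.MP_59f3ad_nt.PX

open Pool.Agent.Work.MP_59f3ad_nt.FE

universe u

namespace IINH

/-- lying over -/
theorem exists_over (K Ω : Type u) [Field K] [NumberField K] [Field Ω] [Algebra K Ω]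
    (v : HeightOneSpectrum (𝓞 K)) : ∃ Q : Ideal (𝓞 Ω),
    Q.IsPrime ∧ Q.comap (algebraMap (𝓞 K) (𝓞 Ω)) = v.asIdeal := by
  have hi : Algebra.IsIntegral (𝓞 K) (𝓞 Ω) := by
    have : Algebra.IsIntegral ℤ (𝓞 Ω) := ⟨fun b => RingOfIntegers.isIntegral b⟩
    exact Algebra.IsIntegral.tower_top ℤ
  have := v.isPrime
  obtain ⟨Q, -, h1, h2⟩ := Ideal.exists_ideal_over_prime_of_isIntegral v.asIdeal
    (⊥ : Ideal (𝓞 Ω)) (by
      intro x hx
      rw [Ideal.mem_comap, Ideal.mem_bot] at hx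
      have h3 : (algebraMap K Ω) (x : K) = 0 :=
        congrArg (fun z : 𝓞 Ω => (z : Ω)) hx
      rw [map_eq_zero] at h3
      have h4 : x = 0 := RingOfIntegers.ext h3
      rw [h4]
      exact Ideal.zero_mem _)
  exact ⟨Q, h1, h2⟩

/-- the prime number `p` lies in `Q` if and only if it lies in the prime below -/
theorem mem_iff (K Ω : Type u) [Field K] [NumberField K] [Field Ω] [Algebra K Ω]
    (v : HeightOneSpectrum (𝓞 K)) (Q : Ideal (𝓞 Ω))
    (h : Q.comap (algebraMap (𝓞 K) (𝓞 Ω)) = v.asIdeal) (p : ℕ) :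
    (p : 𝓞 Ω) ∈ Q ↔ (p : 𝓞 K) ∈ v.asIdeal := by
  rw [← h, Ideal.mem_comap, map_natCast]

/-- powers of an element of the inertia group -/
theorem inr_pow {k Ω : Type u} [Field k] [Field Ω] [Algebra k Ω] (Q : Ideal (𝓞 Ω))
    (s : Ω ≃ₐ[k] Ω) (hs : Inr Q s) (n : ℕ) : Inr Q (s ^ n) := by
  induction n with
  | zero =>
    intro y y' hy
    have : y' = y := RingOfIntegers.ext hy
    rw [this, sub_self]
    exact Q.zero_mem
  | succ n ih =>
    intro y y' hy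
    have hint : IsIntegral ℤ (s (y : Ω)) := (RingOfIntegers.isIntegral_coe y).map s
    let z : 𝓞 Ω := ⟨s (y : Ω), hint⟩
    have h1 : z - y ∈ Q := hs y z rfl
    have h2 : y' - z ∈ Q := by
      refine ih z y' ?_
      rw [hy, pow_succ]
      rfl
    have h3 : y' - y = (y' - z) + (z - y) := by ring
    rw [h3]
    exact Q.add_mem h2 h1

section coc

variable {L : Type u} [Field L] {p : ℕ} [Fact p.Prime] {r : ℤ}
  {φ : GK L → ℤ_[p]}

theorem one (hm : ∀ g h, φ (g * h) = φ g + tw p r g * φ h) : φ 1 = 0 := by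
  have h := hm 1 1
  rw [mul_one, tw_one, one_mul] at h
  exact left_eq_add.mp h

theorem conj (hm : ∀ g h, φ (g * h) = φ g + tw p r g * φ h) (k : GK L) (hk : φ k = 0)
    (ht : tw p r k = 1) (g : GK L) : φ (k⁻¹ * g * k) = φ g := by
  have h1 : tw p r k⁻¹ = 1 := by
    have h := tw_mul p r k⁻¹ k
    rw [inv_mul_cancel, tw_one, ht, mul_one] at h
    exact h.symm
  have h2 : φ k⁻¹ = 0 := by
    have h := hm k⁻¹ k
    rw [inv_mul_cancel, one hm, hk, mul_zero, add_zero] at h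
    exact h.symm
  rw [hm, hk, mul_zero, add_zero, hm, h2, h1, one_mul, zero_add]

end coc

end IINH

open IINH in
theorem pr_INH (hSHS : StSHS.{u}) (hSHF : StSHF.{u}) (hBET : StBET.{u}) (hND : StND.{u})
    (hMUF : StMUF.{u}) (hSEX : StSEX.{u}) (hKK : StKK.{u}) (hTS : StTS.{u}) (hSQM : StSQM.{u})
    (hCHN : StCHN.{u}) (hNRR : StNRR.{u}) (hEXT : StEXT.{u}) (hEXS : StEXS.{u}) :
    StINH.{u} := by
  intro F L _ _ _ _ _ p _ ζ m x σ hcf hLp q hq hVd r hr hShaF S hS hShaL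
  by_contra hno
  apply hShaL
  rw [Sha1_eq_bot_iff]
  intro φ hφS
  have hp0 : (p : ℤ_[p]) ≠ 0 := by
    exact_mod_cast (Fact.out : p.Prime).ne_zero
  have hζL : IsPrimitiveRoot (algebraMap F L ζ) p :=
    hcf.hζ.map_of_injective (algebraMap F L).injective
  -- the prime `Q0` and the elements `s`, `k`
  obtain ⟨Q0, hQ0, hQ0c⟩ := exists_over F (AlgebraicClosure L) q
  have hpQ0 : (p : 𝓞 (AlgebraicClosure L)) ∉ Q0 := by
    rw [mem_iff F (AlgebraicClosure L) q Q0 hQ0c p]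
    exact hq
  obtain ⟨s, hsI, hs⟩ := hSEX F L p ζ m x σ hcf q hVd Q0 hQ0 hQ0c
  obtain ⟨k, hk, hkc⟩ := hKK F L p ζ m x σ hcf s hs
  have hkI : Inr Q0 k := by
    intro y y' hy
    refine inr_pow Q0 s hsI p y y' ?_
    rw [hy, hk]
  have hts : tw p r s = 1 := hMUF F (AlgebraicClosure L) p Q0 hQ0 hpQ0 s hsI r
  have htk : tw p r k = 1 := hMUF L (AlgebraicClosure L) p Q0 hQ0 hpQ0 k hkI r
  obtain ⟨⟨A, hA, hAsat⟩, ⟨A', hA'⟩, hSS⟩ := hSQM L p r
  obtain ⟨m', β, hβ1, hβ2, hβ3⟩ := hBET L p hcf.h2 _ hζL r hr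
  obtain ⟨htw, htsSH, htsSQ, htsQ⟩ := hTS F L p r σ s hs
  have hper : ∀ φ : GK L → ℤ_[p], SQ L (AlgebraicClosure L) p r φ →
      ∀ g, φ ((cs hs)^[p] g) = φ g := by
    intro φ hφ g
    rw [hkc g]
    exact conj hφ.mul k (hφ.inr Q0 hQ0 hpQ0 k hkI) htk g
  have hch : Chain (GK L) p (cs hs) β A := by
    refine ⟨hβ2, ?_, (hA β).mpr hβ3, ?_, ?_, hAsat, ?_⟩
    · intro g
      have h1 : (p : ℤ_[p]) ^ m' * β (cs hs g) = (p : ℤ_[p]) ^ m' * β g := by
        rw [hβ1, hβ1, htw]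
      exact mul_left_cancel₀ (pow_ne_zero _ hp0) h1
    · intro θ hθ
      exact (hA _).mpr (htsSQ θ ((hA θ).mp hθ))
    · intro θ hθ g
      exact hper θ ((hA θ).mp hθ) g
    · intro θ hθ h2
      by_contra hcon
      apply hno
      refine hNRR F L p ζ m x σ hcf hLp s hs k hk Q0 hQ0 hpQ0 hkI r m' β hβ1 hβ2 hβ3 θ
        ((hA θ).mp hθ) ?_ h2
      intro c
      by_contra hc
      apply hcon
      refine ⟨c, fun g => ?_⟩
      by_contra hg
      exact hc ⟨g, hg⟩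
  have hφ : SH L (AlgebraicClosure L) p r φ := hSHS L p r S hS φ hφS
  have hφQ : SQ L (AlgebraicClosure L) p r φ := hSS φ hφ
  -- the sum over the conjugates
  have hit : ∀ i : ℕ, SH L (AlgebraicClosure L) p r (fun h => φ ((cs hs)^[i] h)) := by
    intro i
    induction i with
    | zero => exact hφ
    | succ i ih => exact htsSH _ ih
  set ψ : GK L → ℤ_[p] := fun h => ∑ i ∈ Finset.range p, φ ((cs hs)^[i] h) with hψdef
  have hψ : SH L (AlgebraicClosure L) p r ψ := by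
    rw [← hA']
    have h1 : (∑ i ∈ Finset.range p, fun h : GK L => φ ((cs hs)^[i] h)) ∈ A' :=
      Submodule.sum_mem _ fun i _ => (hA' _).mpr (hit i)
    have h2 : ψ = ∑ i ∈ Finset.range p, fun h : GK L => φ ((cs hs)^[i] h) := by
      funext h
      rw [Finset.sum_apply]
    rw [h2]
    exact h1
  have hψc : ∀ h, ψ (cs hs h) = ψ h := by
    intro h
    have h1 := Finset.sum_range_succ' (fun i => φ ((cs hs)^[i] h)) p
    have h2 := Finset.sum_range_succ (fun i => φ ((cs hs)^[i] h)) p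
    have h3 : φ ((cs hs)^[p] h) = φ h := hper φ hφQ h
    rw [h2, h3] at h1
    exact (add_right_cancel h1).symm
  have hψk : ψ k = 0 := hψ.inr Q0 hQ0 hpQ0 k hkI
  obtain ⟨Ψ, hΨc, hΨm, hΨr⟩ := hEXT F L p ζ m x σ hcf s hs k hk r hts ψ hψ.cont hψ.mul hψc hψk
  have hΨ : SH F (AlgebraicClosure L) p r Ψ :=
    hEXS F L p ζ m x σ hcf r hr ψ hψ Ψ hΨc hΨm hΨr
  obtain ⟨c, hc⟩ := hSHF F L p hcf.h2 ζ hcf.hζ r hShaF Ψ hΨ
  have hψβ : ∀ h, ψ h = (c * (p : ℤ_[p]) ^ m') * β h := by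
    intro h
    have h1 : tw p r (h.restrictScalars F) = tw p r h := rfl
    rw [← hΨr h, hc, h1, mul_assoc, hβ1 h, mul_comm]
  obtain ⟨c', hc'⟩ := hCHN (GK L) p hcf.h2 (cs hs) β A hch φ ((hA φ).mpr hφQ) ⟨_, hψβ⟩
  -- a prime above `p`
  obtain ⟨v, hv⟩ := exists_prime_above L p
  obtain ⟨Q, hQ, hQc⟩ := exists_over L (AlgebraicClosure L) v
  have hpQ : (p : 𝓞 (AlgebraicClosure L)) ∈ Q := by
    rw [mem_iff L (AlgebraicClosure L) v Q hQc p]
    exact hv
  obtain ⟨c1, hc1⟩ := hφ.dec Q hQ hpQ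
  obtain ⟨h, hdec, hne⟩ := hND L p hcf.h2 _ hζL r hr Q hQ hpQ
  have hβh : β h ≠ 0 := by
    intro h0
    have h1 := hβ1 h
    rw [h0, mul_zero] at h1
    exact hne (sub_eq_zero.mp h1.symm)
  have hcc : c' = (p : ℤ_[p]) ^ m' * c1 := by
    have h1 := hc1 h hdec
    rw [hc' h, ← hβ1 h] at h1
    refine mul_right_cancel₀ hβh ?_
    rw [h1]
    ring
  refine ⟨c1, fun g => ?_⟩
  rw [hc' g, hcc, twist_eq, ← hβ1 g]
  ring

end Pool.Agent.Work.MP_59f3ad_nt.PX
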