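import Mathlib
import Pool.Agent.Work.MP_59f3ad_nt.PX.StmtsD
import Pool.Agent.Work.MP_59f3ad_nt.Bd.B01

/-!
Block PX, item KUM: Kummer theory modulo `p`.
-/

set_option autoImplicit false

open NumberField IsDedekindDomain

namespace Pool.Agent.Work.MP_59f3ad_nt.PX

open Pool.Agent.Work.MP_59f3ad_nt.FE

universe u

namespace IKUM

variable (L : Type u) [Field L] (p : ℕ) [Fact p.Prime]

/-- a continuous function which is divisible by `p` at `1` is divisible by `p` on an open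
subgroup -/
theorem exists_field (F : GK L → ℤ_[p]) (hcont : Continuous F) (h1 : (p : ℤ_[p]) ∣ F 1) :
    ∃ E : IntermediateField L (AlgebraicClosure L), FiniteDimensional L E ∧
      ∀ g ∈ E.fixingSubgroup, (p : ℤ_[p]) ∣ F g := by
  have h2 : {a : ℤ_[p] | (p : ℤ_[p]) ∣ a} ∈ nhds (F 1) := by
    refine Metric.mem_nhds_iff.mpr ⟨(p : ℝ) ^ (-(1 : ℕ) : ℤ), ?_, ?_⟩
    · have : (0 : ℝ) < p := by exact_mod_cast (Fact.out : p.Prime).pos
      positivity
    · intro a ha
      rw [Metric.mem_ball, dist_eq_norm] at ha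
      have h3 : (p : ℤ_[p]) ^ 1 ∣ a - F 1 :=
        (PadicInt.norm_le_pow_iff_mem_span_pow _ 1).mp ha.le |> Ideal.mem_span_singleton.mp
      rw [pow_one] at h3
      have h4 := dvd_add h3 h1
      rwa [sub_add_cancel] at h4
  have h3 : F ⁻¹' {a : ℤ_[p] | (p : ℤ_[p]) ∣ a} ∈ nhds (1 : GK L) :=
    hcont.continuousAt.preimage_mem_nhds h2
  rw [krullTopology_mem_nhds_one_iff] at h3
  obtain ⟨E, hE, hsub⟩ := h3
  exact ⟨E, hE, fun g hg => hsub hg⟩

variable {p}

theorem toZMod_eq_zero {a : ℤ_[p]} (h : (p : ℤ_[p]) ∣ a) : PadicInt.toZMod a = 0 := by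
  obtain ⟨b, rfl⟩ := h
  rw [map_mul, map_natCast, ZMod.natCast_self, zero_mul]

/-- `ζ^(a+b) = ζ^a ζ^b` for exponents modulo `p` -/
theorem pow_val_add {F : Type u} [Field F] {ζ : F} (hζ : ζ ^ p = 1) (a b : ZMod p) :
    ζ ^ (a + b).val = ζ ^ a.val * ζ ^ b.val := by
  rw [ZMod.val_add, ← pow_add, ← pow_mod_orderOf, ← pow_mod_orderOf ζ (a.val + b.val),
    Nat.mod_mod_of_dvd _ (orderOf_dvd_of_pow_eq_one hζ)]

end IKUM

open IKUM in
theorem pr_KUM : StKUM.{u} := by
  intro K _ _ p _ ζ hζ f hcont hmul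
  have hp : p.Prime := Fact.out
  have hζ1 : ζ ^ p = 1 := hζ.pow_eq_one
  have hζ0 : ζ ≠ 0 := hζ.ne_zero hp.ne_zero
  have hf1 : (p : ℤ_[p]) ∣ f 1 := by
    have h1 := hmul 1 1
    rw [mul_one] at h1
    have h2 : f 1 - (f 1 + f 1) = -f 1 := by ring
    rwa [h2, dvd_neg] at h1
  have hadd : ∀ g h, PadicInt.toZMod (f (g * h)) = PadicInt.toZMod (f g) + PadicInt.toZMod (f h) := by
    intro g h
    have h1 := toZMod_eq_zero (hmul g h)
    rw [map_sub, map_add, sub_eq_zero] at h1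
    exact h1
  obtain ⟨E, hE, hEf⟩ := exists_field K p f hcont hf1
  exact hilbert90_cont K
    (fun g => algebraMap K (AlgebraicClosure K) (ζ ^ (PadicInt.toZMod (f g)).val))
    (fun g => by
      rw [Ne, map_eq_zero]
      exact pow_ne_zero _ hζ0)
    (fun g h => by
      rw [hadd, pow_val_add hζ1, map_mul, AlgEquiv.commutes]) E
    (fun g hg => by
      rw [toZMod_eq_zero (hEf g hg), ZMod.val_zero, pow_zero, map_one])

end Pool.Agent.Work.MP_59f3ad_nt.PX
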