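import Pool.Agent.Work.MP_59f3ad_nt.PX.StmtsD
import Pool.Agent.Work.MP_59f3ad_nt.FE.I_DN
import Pool.Agent.Work.MP_59f3ad_nt.FE.I_DQ
import Pool.Agent.Work.MP_59f3ad_nt.FE.I_DT
import Pool.Agent.Work.MP_59f3ad_nt.FE.I_DX

/-!
Block PX, item LD: locally trivial cocycles are coboundaries on the decomposition groups.
-/

set_option autoImplicit false

open NumberField IsDedekindDomain

namespace Pool.Agent.Work.MP_59f3ad_nt.PX

open Pool.Agent.Work.MP_59f3ad_nt.FE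

universe u

theorem pr_LD (hDK : StDK.{u}) : StLD.{u} := by
  intro K _ _ p _ r v φ hφ Q hQ hv
  obtain ⟨N, hN⟩ := FE.pr_DN K v
  obtain ⟨ι, hι⟩ := FE.pr_DT FE.pr_DQ K v N hN Q hQ hv
  obtain ⟨c, hc⟩ := hφ ι
  refine ⟨c, fun h hh => ?_⟩
  obtain ⟨g, hg⟩ := FE.pr_DX K (v.adicCompletion K) ι h (hDK K v N hN Q ι hι h hh)
  rw [← twist_eq]
  exact hc g h hg

end Pool.Agent.Work.MP_59f3ad_nt.PX
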