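import Mathlib
import Pool.Agent.Work.MP_59f3ad_nt.PX.StmtsB

/-!
Block PX, item LFT: splitting off given prime elements.

Simpler than the proof in the docstring: a multiple by a `p`-th power of `a` is in `𝓞 F`; split off
the prime elements there one after the other (finite multiplicities).
-/

set_option autoImplicit false

open NumberField IsDedekindDomain

namespace Pool.Agent.Work.MP_59f3ad_nt.PX

universe u

namespace ILFT

theorem fac {R ι : Type*} [CommRing R] [IsDomain R] [WfDvdMonoid R] [DecidableEq ι] (π : ι → R)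
    (hπ : ∀ i, Prime (π i)) (b : R) (hb : b ≠ 0) (s : Finset ι) :
    ∃ (m : ι → ℕ) (D : R), b = D * ∏ i ∈ s, π i ^ m i ∧ ∀ k ∈ s, ¬ π k ∣ D := by
  induction s using Finset.induction_on with
  | empty => exact ⟨fun _ => 0, b, by simp, by simp⟩
  | insert j s hj ih =>
    obtain ⟨m, D, h1, h2⟩ := ih
    have hD : D ≠ 0 := by
      rintro rfl
      rw [zero_mul] at h1
      exact hb h1
    have hfin : FiniteMultiplicity (π j) D := FiniteMultiplicity.of_not_isUnit (hπ j).not_isUnit hD
    obtain ⟨D', h3, h4⟩ := hfin.exists_eq_pow_mul_and_not_dvd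
    refine ⟨Function.update m j (multiplicity (π j) D), D', ?_, ?_⟩
    · rw [Finset.prod_insert hj, Function.update_self]
      have : ∏ i ∈ s, π i ^ Function.update m j (multiplicity (π j) D) i =
          ∏ i ∈ s, π i ^ m i := by
        refine Finset.prod_congr rfl fun i hi => ?_
        rw [Function.update_of_ne (by rintro rfl; exact hj hi)]
      rw [this]
      calc b = D * ∏ i ∈ s, π i ^ m i := h1
        _ = (π j ^ multiplicity (π j) D * D') * ∏ i ∈ s, π i ^ m i := by rw [← h3]
        _ = _ := by ring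
    · intro k hk
      rcases Finset.mem_insert.1 hk with rfl | hk
      · exact h4
      · intro h5
        apply h2 k hk
        rw [h3]
        exact h5.mul_left _

end ILFT

theorem pr_LFT : StLFT.{u} := by
  intro F _ _ p t hp π hπ _ a ha
  classical
  obtain ⟨n, d, hd, hnd⟩ := IsFractionRing.div_surjective (A := 𝓞 F) a
  have hd0 : d ≠ 0 := nonZeroDivisors.ne_zero hd
  have hdF : algebraMap (𝓞 F) F d ≠ 0 := by
    rw [Ne, FaithfulSMul.algebraMap_eq_zero_iff]
    exact hd0
  have hn0 : n ≠ 0 := by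
    rintro rfl
    rw [map_zero, zero_div] at hnd
    exact ha hnd.symm
  obtain ⟨m, D, h1, h2⟩ := ILFT.fac π hπ (n * d ^ (p - 1)) (mul_ne_zero hn0 (pow_ne_zero _ hd0))
    Finset.univ
  set f : Fin t → ℕ := fun i => m i / p with hf
  set e : Fin t → ℕ := fun i => m i % p with he
  set P : F := ∏ i, algebraMap (𝓞 F) F (π i) ^ f i with hP
  have hπF : ∀ i, algebraMap (𝓞 F) F (π i) ≠ 0 := by
    intro i
    rw [Ne, FaithfulSMul.algebraMap_eq_zero_iff]
    exact (hπ i).ne_zero
  have hP0 : P ≠ 0 := Finset.prod_ne_zero_iff.2 fun i _ => pow_ne_zero _ (hπF i)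
  refine ⟨e, algebraMap (𝓞 F) F d / P, D, fun i => Nat.mod_lt _ hp, div_ne_zero hdF hP0,
    fun k => h2 k (Finset.mem_univ k), ?_⟩
  have e1 : algebraMap (𝓞 F) F n * algebraMap (𝓞 F) F d ^ (p - 1) =
      algebraMap (𝓞 F) F D * ((∏ i, algebraMap (𝓞 F) F (π i) ^ e i) * P ^ p) := by
    have := congrArg (algebraMap (𝓞 F) F) h1
    rw [map_mul, map_pow, map_mul, map_prod] at this
    rw [this, hP, ← Finset.prod_pow, ← Finset.prod_mul_distrib]
    congr 1
    refine Finset.prod_congr rfl fun i _ => ?_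
    rw [map_pow, ← pow_mul, ← pow_add]
    congr 1
    simp only [hf, he]
    rw [mul_comm]
    exact (Nat.mod_add_div (m i) p).symm
  have e2 : ((D * ∏ i, π i ^ e i : 𝓞 F) : F) =
      algebraMap (𝓞 F) F D * ∏ i, algebraMap (𝓞 F) F (π i) ^ e i := by
    change algebraMap (𝓞 F) F (D * ∏ i, π i ^ e i) = _
    rw [map_mul, map_prod]
    simp only [map_pow]
  rw [e2]
  obtain ⟨k, rfl⟩ : ∃ k, p = k + 1 := ⟨p - 1, by omega⟩
  rw [Nat.add_sub_cancel] at e1
  rw [← hnd, div_pow, pow_succ (algebraMap (𝓞 F) F d) k]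
  have hPk : P ^ (k + 1) ≠ 0 := pow_ne_zero _ hP0
  field_simp
  rw [mul_comm (algebraMap (𝓞 F) F n)] at *
  linear_combination e1

end Pool.Agent.Work.MP_59f3ad_nt.PX
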