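import Pool.Agent.Work.MP_59f3ad_nt.PX.StmtsD

/-!
Block PX, item LG: transport of LP to an arbitrary algebraic closure.
-/

set_option autoImplicit false

open NumberField IsDedekindDomain

namespace Pool.Agent.Work.MP_59f3ad_nt.PX

open Pool.Agent.Work.MP_59f3ad_nt.FE

universe u

theorem pr_LG (hLP : StLP.{u}) : StLG.{u} := by
  intro K Ω _ _ _ _ _ p v Q hQ hQv A a hA hfix
  haveI : IsAlgClosed Ω := IsAlgClosure.isAlgClosed K
  let e : AlgebraicClosure K ≃ₐ[K] Ω := IsAlgClosure.equiv K (AlgebraicClosure K) Ω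
  let eO : 𝓞 (AlgebraicClosure K) ≃+* 𝓞 Ω :=
    RingOfIntegers.mapRingEquiv (e : AlgebraicClosure K ≃+* Ω)
  have heO : ∀ y : 𝓞 (AlgebraicClosure K), ((eO y : 𝓞 Ω) : Ω) = e (y : AlgebraicClosure K) :=
    fun y => RingOfIntegers.mapRingEquiv_apply (e : AlgebraicClosure K ≃+* Ω) y
  refine hLP K p v (Q.comap (eO : 𝓞 (AlgebraicClosure K) →+* 𝓞 Ω)) (hQ.comap _) ?_ (e.symm A) a
    ?_ ?_
  · rw [Ideal.comap_comap]
    have h1 : (eO : 𝓞 (AlgebraicClosure K) →+* 𝓞 Ω).comp
        (algebraMap (𝓞 K) (𝓞 (AlgebraicClosure K))) = algebraMap (𝓞 K) (𝓞 Ω) := by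
      ext y
      change ((eO (algebraMap (𝓞 K) (𝓞 (AlgebraicClosure K)) y) : 𝓞 Ω) : Ω) =
        algebraMap K Ω (y : K)
      rw [heO]
      exact e.commutes _
    rw [h1, hQv]
  · rw [← map_pow, hA, AlgEquiv.commutes]
  · intro h hh
    have h1 : Dec Q ((e.symm.trans h).trans e) := by
      intro y y' hy
      have h2 := hh (eO.symm y) (eO.symm y') (by
        have e1 : ((eO.symm y : 𝓞 (AlgebraicClosure K)) : AlgebraicClosure K) = e.symm (y : Ω) := by
          rw [AlgEquiv.eq_symm_apply, ← heO, RingEquiv.apply_symm_apply]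
        have e2 : ((eO.symm y' : 𝓞 (AlgebraicClosure K)) : AlgebraicClosure K) =
            e.symm (y' : Ω) := by
          rw [AlgEquiv.eq_symm_apply, ← heO, RingEquiv.apply_symm_apply]
        rw [e1, e2, hy]
        simp only [AlgEquiv.trans_apply, AlgEquiv.symm_apply_apply])
      rw [Ideal.mem_comap, Ideal.mem_comap] at h2
      simpa using h2
    have h2 := hfix _ h1
    simp only [AlgEquiv.trans_apply] at h2
    rw [← AlgEquiv.eq_symm_apply] at h2
    exact h2

end Pool.Agent.Work.MP_59f3ad_nt.PX
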