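import Pool.Agent.Work.MP_59f3ad_nt.PX.StmtsD
import Pool.Agent.Work.MP_59f3ad_nt.Bd.B01
import Pool.Agent.Work.MP_59f3ad_nt.FE.I_DT
import Pool.Agent.Work.MP_59f3ad_nt.FE.I_DQ

/-!
Block PX, item LP: a `p`-th root fixed by the decomposition group lies in the completion.
-/

set_option autoImplicit false

open NumberField IsDedekindDomain

namespace Pool.Agent.Work.MP_59f3ad_nt.PX

open Pool.Agent.Work.MP_59f3ad_nt.FE

universe u

theorem pr_LP (hNI : StNI.{u}) (hDI : StDI.{u}) : StLP.{u} := by
  intro K _ _ p v Q hQ hv A a hA hfix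
  have _ : CharZero (v.adicCompletion K) :=
    charZero_of_injective_algebraMap (algebraMap K (v.adicCompletion K)).injective
  obtain ⟨N, hN, hinv⟩ := hNI K v
  obtain ⟨ι, hι⟩ := (pr_DT pr_DQ) K v N hN Q hQ hv
  have hmem : ι A ∈ Set.range
      (algebraMap (v.adicCompletion K) (AlgebraicClosure (v.adicCompletion K))) := by
    rw [InfiniteGalois.mem_range_algebraMap_iff_fixed]
    intro g
    obtain ⟨h, hh⟩ := exists_restrict K (v.adicCompletion K) ι g
    have hD : Dec Q h := hDI K v N hN hinv Q ι hι g h hh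
    rw [← hh A, hfix h hD]
  obtain ⟨y, hy⟩ := hmem
  refine ⟨y, ?_⟩
  apply (algebraMap (v.adicCompletion K) (AlgebraicClosure (v.adicCompletion K))).injective
  rw [map_pow, hy, ← map_pow, hA, AlgHom.commutes,
    IsScalarTower.algebraMap_apply K (v.adicCompletion K)
      (AlgebraicClosure (v.adicCompletion K)) a]

end Pool.Agent.Work.MP_59f3ad_nt.PX
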