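import Pool.Agent.Work.MP_59f3ad_nt.PX.StmtsD

/-!
Block PX, item MUF: the inertia elements of the primes not above `p` have cyclotomic character one.
-/

set_option autoImplicit false

open NumberField IsDedekindDomain

namespace Pool.Agent.Work.MP_59f3ad_nt.PX

open Pool.Agent.Work.MP_59f3ad_nt.FE

universe u

namespace IMUF

theorem pow_sub_one_mem {R : Type*} [CommRing R] (Q : Ideal R) (x : R) (hx : x - 1 ∈ Q) (j : ℕ) :
    x ^ j - 1 ∈ Q := by
  rw [← mul_geom_sum]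
  exact Q.mul_mem_right _ hx

theorem eq_one {R : Type*} [CommRing R] [IsDomain R] (p : ℕ) (Q : Ideal R) (hp : (p : R) ∉ Q) :
    ∀ (n : ℕ) (x : R), x ^ p ^ n = 1 → x - 1 ∈ Q → x = 1 := by
  intro n
  induction n with
  | zero =>
    intro x hx _
    rwa [pow_zero, pow_one] at hx
  | succ n ih =>
    intro x hx hQ
    have h1 : x ^ p = 1 := by
      refine ih (x ^ p) ?_ (pow_sub_one_mem Q x hQ p)
      rw [← pow_mul, ← pow_succ']
      exact hx
    have h2 : (x - 1) * ∑ i ∈ Finset.range p, x ^ i = 0 := by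
      rw [mul_geom_sum, h1, sub_self]
    rcases mul_eq_zero.1 h2 with h | h
    · exact sub_eq_zero.1 h
    · exfalso
      apply hp
      have e : (p : R) = -∑ i ∈ Finset.range p, (x ^ i - 1) := by
        rw [Finset.sum_sub_distrib, h, Finset.sum_const, Finset.card_range]
        simp
      rw [e]
      exact Q.neg_mem (Q.sum_mem fun i _ => pow_sub_one_mem Q x hQ i)

theorem fix {k Ω : Type u} [Field k] [Field Ω] [Algebra k Ω] (p : ℕ) [hpp : Fact p.Prime]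
    {Q : Ideal (𝓞 Ω)} (hp : (p : 𝓞 Ω) ∉ Q) (τ : Ω ≃ₐ[k] Ω)
    (h : Inr Q τ) (n : ℕ) (ζ : Ω) (hζ : ζ ^ p ^ n = 1) : τ ζ = ζ := by
  have hpos : 0 < p ^ n := pow_pos hpp.out.pos n
  have hζ' : (τ ζ) ^ p ^ n = 1 := by rw [← map_pow, hζ, map_one]
  have hi : ∀ y : Ω, y ^ p ^ n = 1 → IsIntegral ℤ y := fun y hy =>
    IsIntegral.of_pow hpos (by rw [hy]; exact isIntegral_one)
  set z : 𝓞 Ω := ⟨ζ, hi ζ hζ⟩ with hz
  set z' : 𝓞 Ω := ⟨τ ζ, hi _ hζ'⟩ with hz'
  have ez : z ^ p ^ n = 1 := by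
    apply RingOfIntegers.ext
    change algebraMap (𝓞 Ω) Ω (z ^ p ^ n) = algebraMap (𝓞 Ω) Ω 1
    rw [map_pow, map_one]
    exact hζ
  have ez' : z' ^ p ^ n = 1 := by
    apply RingOfIntegers.ext
    change algebraMap (𝓞 Ω) Ω (z' ^ p ^ n) = algebraMap (𝓞 Ω) Ω 1
    rw [map_pow, map_one]
    exact hζ'
  have hQ : z' - z ∈ Q := h z z' rfl
  have e1 : z * z ^ (p ^ n - 1) = 1 := by
    rw [← pow_succ', Nat.sub_add_cancel hpos, ez]
  have h5 := eq_one p Q hp n (z' * z ^ (p ^ n - 1)) (by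
    rw [mul_pow, ez', one_mul, ← pow_mul, mul_comm, pow_mul, ez, one_pow]) (by
    have e : z' * z ^ (p ^ n - 1) - 1 = z ^ (p ^ n - 1) * (z' - z) := by
      linear_combination e1
    rw [e]
    exact Q.mul_mem_left _ hQ)
  have h6 : z' = z := by
    calc z' = z' * (z * z ^ (p ^ n - 1)) := by rw [e1, mul_one]
      _ = z' * z ^ (p ^ n - 1) * z := by ring
      _ = z := by rw [h5, one_mul]
  have h7 := congrArg (fun y : 𝓞 Ω => (y : Ω)) h6
  exact h7

theorem enough (Ω : Type u) [Field Ω] [CharZero Ω] [IsAlgClosed Ω] (p : ℕ) [hp : Fact p.Prime]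
    (i : ℕ) : HasEnoughRootsOfUnity Ω (p ^ i) := by
  have : NeZero (p ^ i) := ⟨pow_ne_zero _ hp.out.ne_zero⟩
  have : NeZero ((p ^ i : ℕ) : Ω) := ⟨by exact_mod_cast pow_ne_zero i hp.out.ne_zero⟩
  infer_instance

end IMUF

/-- Item MUF. -/
theorem pr_MUF : StMUF.{u} := by
  intro k Ω _ _ _ _ _ p hpp Q _ hp h hh r
  have hfix := IMUF.fix p hp h hh
  have : ∀ i, HasEnoughRootsOfUnity Ω (p ^ i) := IMUF.enough Ω p
  have hone : cyclotomicCharacter Ω p (h : Ω ≃+* Ω) = 1 := by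
    apply Units.ext
    rw [Units.val_one]
    apply PadicInt.ext_of_toZModPow.mp
    intro n
    rw [map_one]
    have : NeZero (p ^ n) := ⟨pow_ne_zero _ hpp.out.ne_zero⟩
    obtain ⟨ζ, hζ⟩ := HasEnoughRootsOfUnity.exists_primitiveRoot Ω (p ^ n)
    have h1 : (h : Ω ≃+* Ω) ζ =
        ζ ^ (PadicInt.toZModPow n ((cyclotomicCharacter Ω p (h : Ω ≃+* Ω) : ℤ_[p]ˣ) :
          ℤ_[p])).val :=
      cyclotomicCharacter.spec p (h : Ω ≃+* Ω) ζ hζ.pow_eq_one
    have h0 : (h : Ω ≃+* Ω) ζ = ζ := hfix n ζ hζ.pow_eq_one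
    rw [h0] at h1
    rcases Nat.eq_zero_or_pos n with rfl | hn
    · have : Subsingleton (ZMod (p ^ 0)) := by
        rw [pow_zero]
        infer_instance
      exact Subsingleton.elim _ _
    · have h1n : 1 < p ^ n := one_lt_pow₀ hpp.out.one_lt hn.ne'
      apply ZMod.val_injective
      rw [ZMod.val_one'' h1n.ne']
      refine hζ.pow_inj (ZMod.val_lt _) h1n ?_
      rw [← h1, pow_one]
  rw [tw, hone, one_zpow, Units.val_one]

end Pool.Agent.Work.MP_59f3ad_nt.PX
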