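import Mathlib
import Pool.Agent.Work.MP_59f3ad_nt.PX.StmtsD
import Pool.Agent.Work.MP_59f3ad_nt.Bd.B01
import Pool.Agent.Work.MP_59f3ad_nt.Bdx.B01
import Pool.Agent.Work.MP_59f3ad_nt.FE.I_DT
import Pool.Agent.Work.MP_59f3ad_nt.FE.I_DQ

/-!
Block PX, item ND: the twists are not trivial on the decomposition groups above `p`.
-/

set_option autoImplicit false

open NumberField IsDedekindDomain

namespace Pool.Agent.Work.MP_59f3ad_nt.PX

open Pool.Agent.Work.MP_59f3ad_nt.FE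

universe u

namespace IND

theorem dvd_cyc (L : Type u) [Field L] [NumberField L] (p : ℕ) [Fact p.Prime] (n : ℕ)
    (hn : 0 < n) (h : GK L) (hfix : ∀ ζ : AlgebraicClosure L, ζ ^ p ^ n = 1 → h ζ = ζ) :
    (p : ℤ_[p]) ^ n ∣ (cyc L p h : ℤ_[p]) - 1 := by
  have h1 : PadicInt.toZModPow (p := p) n ((cyc L p h : ℤ_[p]ˣ) : ℤ_[p]) = 1 := by
    change PadicInt.toZModPow (p := p) n ((cyclotomicCharacter (AlgebraicClosure L) p
      (MulSemiringAction.toRingAut (GK L) (AlgebraicClosure L) h) : ℤ_[p]ˣ) : ℤ_[p]) = 1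
    rw [cyclotomicCharacter.toZModPow, eq_comm]
    apply modularCyclotomicCharacter.unique
    intro t ht
    rw [ZMod.val_one'' (one_lt_pow₀ (Fact.out : p.Prime).one_lt hn.ne').ne', pow_one]
    refine hfix _ ?_
    rw [mem_rootsOfUnity] at ht
    have := congrArg (fun y : (AlgebraicClosure L)ˣ => (y : AlgebraicClosure L)) ht
    simpa using this
  have h2 : (cyc L p h : ℤ_[p]) - 1 ∈ RingHom.ker (PadicInt.toZModPow (p := p) n) := by
    rw [RingHom.mem_ker, map_sub, h1, map_one, sub_self]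
  rwa [PadicInt.ker_toZModPow, Ideal.mem_span_singleton] at h2

/-- no torsion -/
theorem pow_ne (p : ℕ) [Fact p.Prime] (hp2 : p ≠ 2) {b : ℤ_[p]} (h3 : (p : ℤ_[p]) ∣ b - 1)
    (hne : b ≠ 1) {s : ℕ} (hs : s ≠ 0) : b ^ s ≠ 1 := by
  have hfin : FiniteMultiplicity (p : ℤ_[p]) (b - 1) :=
    FiniteMultiplicity.of_not_isUnit (PadicInt.prime_p (p := p)).not_isUnit (sub_ne_zero.2 hne)
  have h1 : (p : ℤ_[p]) ^ multiplicity (p : ℤ_[p]) (b - 1) ∣ b - 1 := pow_multiplicity_dvd _ _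
  have h2 : ¬ (p : ℤ_[p]) ^ (multiplicity (p : ℤ_[p]) (b - 1) + 1) ∣ b - 1 :=
    hfin.not_pow_dvd_of_multiplicity_lt (Nat.lt_succ_self _)
  have h4 : 1 ≤ multiplicity (p : ℤ_[p]) (b - 1) := by
    by_contra hc
    have h5 : multiplicity (p : ℤ_[p]) (b - 1) = 0 := by omega
    rw [h5, zero_add, pow_one] at h2
    exact h2 h3
  exact Tw.pr_Tf p hp2 _ h4 b h1 h2 s hs

/-- the `p`-th roots of unity are fixed -/
theorem fix_root (K : Type u) [Field K] (p : ℕ) [Fact p.Prime] (ζ : K) (hζ : IsPrimitiveRoot ζ p)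
    (h : GK K) (z : AlgebraicClosure K) (hz : z ^ p ^ 1 = 1) : h z = z := by
  rw [pow_one] at hz
  have h1 : IsPrimitiveRoot (algebraMap K (AlgebraicClosure K) ζ) p :=
    hζ.map_of_injective (algebraMap K (AlgebraicClosure K)).injective
  have : NeZero p := ⟨(Fact.out : p.Prime).ne_zero⟩
  obtain ⟨i, -, hi⟩ := h1.eq_pow_of_pow_eq_one hz
  rw [← hi, map_pow, h.commutes]

theorem tw_ne (K : Type u) [Field K] [NumberField K] (p : ℕ) [Fact p.Prime] (hp2 : p ≠ 2)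
    (ζ : K) (hζ : IsPrimitiveRoot ζ p) (r : ℤ) (hr : r ≠ 0) (h : GK K) (hne : cyc K p h ≠ 1) :
    twist K p r h ≠ 1 := by
  intro hc
  have h1 : cyc K p h ^ r = 1 := Units.ext hc
  have h2 : cyc K p h ^ r.natAbs = 1 := by
    rcases Int.natAbs_eq r with h3 | h3
    · rw [h3, zpow_natCast] at h1
      exact h1
    · rw [h3, zpow_neg, inv_eq_one, zpow_natCast] at h1
      exact h1
  have h4 : (p : ℤ_[p]) ∣ ((cyc K p h : ℤ_[p]ˣ) : ℤ_[p]) - 1 := by
    have h5 := dvd_cyc K p 1 one_pos h (fix_root K p ζ hζ h)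
    rwa [pow_one] at h5
  refine pow_ne p hp2 h4 (fun h5 => hne (Units.ext h5)) (s := r.natAbs) (by omega) ?_
  have h6 := congrArg Units.val h2
  rwa [Units.val_pow_eq_pow_val, Units.val_one] at h6

end IND

open IND in
theorem pr_ND (hNI : StNI.{u}) (hDI : StDI.{u}) : StND.{u} := by
  intro K _ _ p _ hp2 ζ hζ r hr Q hQ hpQ
  have hpK : (p : 𝓞 K) ∈ Q.comap (algebraMap (𝓞 K) (𝓞 (AlgebraicClosure K))) := by
    rw [Ideal.mem_comap, map_natCast]
    exact hpQ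
  have hpr : (Q.comap (algebraMap (𝓞 K) (𝓞 (AlgebraicClosure K)))).IsPrime :=
    Ideal.IsPrime.comap _
  have hne : Q.comap (algebraMap (𝓞 K) (𝓞 (AlgebraicClosure K))) ≠ ⊥ := by
    intro h0
    rw [h0, Ideal.mem_bot] at hpK
    exact (Nat.cast_ne_zero (R := 𝓞 K)).2 (Fact.out : p.Prime).ne_zero hpK
  let v : HeightOneSpectrum (𝓞 K) := ⟨_, hpr, hne⟩
  obtain ⟨N, hN, hinv⟩ := hNI K v
  obtain ⟨ι, hι⟩ := pr_DT pr_DQ K v N hN Q hQ rfl
  obtain ⟨g, h, hgh, hc⟩ := exists_cyc_ne_one K p v hpK ι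
  exact ⟨h, hDI K v N hN hinv Q ι hι g h hgh, tw_ne K p hp2 ζ hζ r hr h hc⟩

end Pool.Agent.Work.MP_59f3ad_nt.PX
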