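import Pool.Agent.Work.MP_59f3ad_nt.PX.StmtsD
import Pool.Agent.Work.MP_59f3ad_nt.FE.I_DN

/-!
Item NI of the block PX: the norm on the algebraic closure of the completion of a number field at a
finite place, invariant under the absolute Galois group.
-/

set_option autoImplicit false

open NumberField IsDedekindDomain

namespace Pool.Agent.Work.MP_59f3ad_nt.PX

open Pool.Agent.Work.MP_59f3ad_nt.FE

universe u

theorem pr_NI : StNI.{u} := by
  intro L _ _ v
  obtain ⟨x, hx0, hx1⟩ : ∃ x : v.adicCompletion L, x ≠ 0 ∧ ‖x‖ < 1 := by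
    obtain ⟨a, ha, ha0⟩ := Submodule.exists_mem_ne_zero_of_ne_bot v.ne_bot
    refine ⟨algebraMap L _ (a : L), ?_, ?_⟩
    · simpa using ha0
    · rw [IDN.lt_iff]
      exact (HeightOneSpectrum.valuation_lt_one_iff_mem v a).mpr ha
  let nnf : NontriviallyNormedField (v.adicCompletion L) :=
    { (inferInstance : NormedField (v.adicCompletion L)) with
      non_trivial := ⟨x⁻¹, by
        rw [norm_inv]
        exact (one_lt_inv₀ (norm_pos_iff.mpr hx0)).mpr hx1⟩ }
  have hmul : ∀ x y, spectralNorm (v.adicCompletion L) (AlgebraicClosure (v.adicCompletion L))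
      (x * y) = spectralNorm (v.adicCompletion L) (AlgebraicClosure (v.adicCompletion L)) x *
        spectralNorm (v.adicCompletion L) (AlgebraicClosure (v.adicCompletion L)) y := by
    intro x y
    exact spectralAlgNorm_mul (K := v.adicCompletion L) x y
  have hext : ∀ a : v.adicCompletion L, spectralNorm (v.adicCompletion L)
      (AlgebraicClosure (v.adicCompletion L)) (algebraMap _ _ a) = ‖a‖ := fun a =>
    spectralNorm_extends a
  refine ⟨spectralNorm (v.adicCompletion L) (AlgebraicClosure (v.adicCompletion L)),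
    ⟨spectralNorm_zero, fun x hx => spectralNorm_zero_lt hx
      (Algebra.IsAlgebraic.isAlgebraic x), hmul, fun x y => isNonarchimedean_spectralNorm x y,
      ?_, ?_, ?_⟩, ?_⟩
  · intro a
    rw [IsScalarTower.algebraMap_apply L (v.adicCompletion L), hext]
    exact IDN.le_iff L v a
  · intro a
    rw [IsScalarTower.algebraMap_apply L (v.adicCompletion L), hext]
    exact IDN.lt_iff L v a
  · intro a ε hε
    obtain ⟨b, hb⟩ := (v.denseRange_algebraMap L).exists_dist_lt a hε
    refine ⟨b, ?_⟩
    rw [IsScalarTower.algebraMap_apply L (v.adicCompletion L), ← map_sub, hext, ← dist_eq_norm]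
    exact hb
  · intro g x
    exact (spectralNorm_eq_of_equiv g x).symm

end Pool.Agent.Work.MP_59f3ad_nt.PX
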