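import Mathlib
import Pool.Agent.Work.MP_59f3ad_nt.PX.StmtsB

/-!
Block PX, item NMB: the norm of an integer all of whose conjugates are at most `X`.
-/

set_option autoImplicit false

open NumberField IsDedekindDomain

namespace Pool.Agent.Work.MP_59f3ad_nt.PX

open Pool.Agent.Work.MP_59f3ad_nt.FE

universe u

/-- NMB -/
theorem pr_NMB : StNMB.{u} := by
  intro F _ _ X z hz
  have h1 : ((nm z : ℕ) : ℝ) = ∏ s : F →ₐ[ℚ] ℂ, ‖s (z : F)‖ := by
    have h2 : algebraMap ℚ ℂ (Algebra.norm ℚ (z : F)) = ∏ s : F →ₐ[ℚ] ℂ, s (z : F) :=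
      Algebra.norm_eq_prod_embeddings ℚ ℂ (z : F)
    have h3 := congrArg (fun w : ℂ => ‖w‖) h2
    simp only [norm_prod] at h3
    rw [← h3, nm, Ideal.absNorm_span_singleton, ← Algebra.coe_norm_int]
    rw [Nat.cast_natAbs]
    simp
  have h4 : ((nm z : ℕ) : ℝ) ≤ ((X ^ Module.finrank ℚ F : ℕ) : ℝ) := by
    rw [h1, Nat.cast_pow, ← AlgHom.card ℚ F ℂ, ← Finset.card_univ, ← Finset.prod_const]
    exact Finset.prod_le_prod (fun s _ => norm_nonneg _) (fun s _ => hz s)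
  exact_mod_cast h4

end Pool.Agent.Work.MP_59f3ad_nt.PX
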