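import Pool.Agent.Work.MP_59f3ad_nt.PX.StmtsA

/-!
Block PX, item NRR: the failure of the conjecture for `L` produces a bad element.
-/

set_option autoImplicit false

open NumberField IsDedekindDomain

namespace Pool.Agent.Work.MP_59f3ad_nt.PX

open Pool.Agent.Work.MP_59f3ad_nt.FE

universe u

set_option linter.unusedSectionVars false

namespace INRR

variable {F : Type u} (L : Type u) [Field F] [NumberField F] [Field L] [NumberField L] [Algebra F L]
variable {p : ℕ} [Fact p.Prime]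

/-- the root of unity `ζ^j` -/
noncomputable def e (ζ : F) (j : ZMod p) : AlgebraicClosure L :=
  algebraMap F (AlgebraicClosure L) (ζ ^ j.val)

variable {ζ : F}

theorem e_zero : e L ζ (0 : ZMod p) = 1 := by
  simp [e]

theorem e_add (hζ : IsPrimitiveRoot ζ p) (i j : ZMod p) :
    e L ζ (i + j) = e L ζ i * e L ζ j := by
  unfold e
  rw [← map_mul, ← pow_add, ZMod.val_add, ← pow_mod_orderOf ζ (i.val + j.val), ← hζ.eq_orderOf]

theorem e_ne (hζ : IsPrimitiveRoot ζ p) (j : ZMod p) : e L ζ j ≠ 0 := by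
  unfold e
  have h : ζ ≠ 0 := hζ.ne_zero (Fact.out (p := p.Prime)).ne_zero
  rw [Ne, map_eq_zero_iff _ (algebraMap F (AlgebraicClosure L)).injective]
  exact pow_ne_zero _ h

theorem e_eq_one (hζ : IsPrimitiveRoot ζ p) (j : ZMod p) (h : e L ζ j = 1) : j = 0 := by
  unfold e at h
  rw [← map_one (algebraMap F (AlgebraicClosure L))] at h
  have h1 : ζ ^ j.val = 1 := (algebraMap F (AlgebraicClosure L)).injective h
  have h2 := hζ.dvd_of_pow_eq_one _ h1
  have h3 : j.val < p := ZMod.val_lt j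
  have h4 : j.val = 0 := Nat.eq_zero_of_dvd_of_lt h2 h3
  exact (ZMod.val_eq_zero j).1 h4

theorem e_sub (hζ : IsPrimitiveRoot ζ p) (i j : ZMod p) :
    e L ζ (i - j) = e L ζ i / e L ζ j := by
  rw [eq_div_iff (e_ne L hζ j), ← e_add L hζ, sub_add_cancel]

theorem e_nsmul (hζ : IsPrimitiveRoot ζ p) (n : ℕ) (j : ZMod p) :
    e L ζ ((n : ZMod p) * j) = e L ζ j ^ n := by
  induction n with
  | zero => simp [e_zero]
  | succ n ih => rw [Nat.cast_succ, add_mul, one_mul, e_add L hζ, ih, pow_succ]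

theorem alg_eq (z : F) : algebraMap F (AlgebraicClosure L) z =
    algebraMap L (AlgebraicClosure L) (algebraMap F L z) :=
  IsScalarTower.algebraMap_apply F L (AlgebraicClosure L) z

variable {L}

theorem e_fix (g : GK L) (j : ZMod p) : g (e L ζ j) = e L ζ j := by
  unfold e
  rw [alg_eq]
  exact g.commutes _

theorem e_fixF (g : AlgebraicClosure L ≃ₐ[F] AlgebraicClosure L) (j : ZMod p) :
    g (e L ζ j) = e L ζ j := by
  unfold e
  exact g.commutes _

/-- `u` is an eigenvector of all `h` with the eigenvalue `ζ^(f h)` -/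
def Ku (ζ : F) (f : GK L → ZMod p) (v : AlgebraicClosure L) : Prop := ∀ h, h v = e L ζ (f h) * v

theorem Ku.div (hζ : IsPrimitiveRoot ζ p) {f g : GK L → ZMod p} {v w : AlgebraicClosure L}
    (hf : Ku ζ f v) (hg : Ku ζ g w) : Ku ζ (fun h => f h - g h) (v / w) := by
  intro h
  rw [map_div₀, hf h, hg h, e_sub L hζ, mul_div_mul_comm]

theorem Ku.pow (hζ : IsPrimitiveRoot ζ p) {f : GK L → ZMod p} {v : AlgebraicClosure L}
    (hf : Ku ζ f v) (n : ℕ) : Ku ζ (fun h => (n : ZMod p) * f h) (v ^ n) := by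
  intro h
  rw [map_pow, hf h, e_nsmul L hζ, mul_pow]

theorem Ku.fix {v : AlgebraicClosure L} {f : GK L → ZMod p} (hf : Ku ζ f v) {h : GK L}
    (h0 : f h = 0) : h v = v := by
  rw [hf h, h0, e_zero, one_mul]

theorem Ku.s {σ : L ≃ₐ[F] L} {s : AlgebraicClosure L ≃ₐ[F] AlgebraicClosure L} (hs : Ex σ s)
    {f : GK L → ZMod p} {v : AlgebraicClosure L} (hf : Ku ζ f v) :
    Ku ζ (fun h => f (cs hs h)) (s v) := by
  intro h
  have h1 : h (s v) = s (cs hs h v) := by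
    rw [cs_apply, AlgEquiv.apply_symm_apply]
  rw [h1, hf (cs hs h), map_mul, e_fixF]

theorem pow_ex {σ : L ≃ₐ[F] L} {s : AlgebraicClosure L ≃ₐ[F] AlgebraicClosure L} (hs : Ex σ s)
    (i : ℕ) (y : L) : (s ^ i) (algebraMap L (AlgebraicClosure L) y) =
      algebraMap L (AlgebraicClosure L) ((σ ^ i) y) := by
  induction i generalizing y with
  | zero => rfl
  | succ i ih => rw [pow_succ, pow_succ, AlgEquiv.mul_apply, AlgEquiv.mul_apply, hs y, ih]

theorem pow_fix {s : AlgebraicClosure L ≃ₐ[F] AlgebraicClosure L} {A : AlgebraicClosure L}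
    (h : s A = A) (i : ℕ) : (s ^ i) A = A := by
  induction i with
  | zero => rfl
  | succ i ih => rw [pow_succ, AlgEquiv.mul_apply, h, ih]

theorem tele {s : AlgebraicClosure L ≃ₐ[F] AlgebraicClosure L} {v : AlgebraicClosure L}
    (hv : v ≠ 0) (n : ℕ) : ∏ i ∈ Finset.range n, (s ^ i) (s v / v) = (s ^ n) v / v := by
  induction n with
  | zero =>
    rw [Finset.prod_range_zero, pow_zero, AlgEquiv.one_apply, div_self hv]
  | succ n ih =>
    have h1 : (s ^ n) v ≠ 0 := by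
      rw [Ne, map_eq_zero_iff _ (s ^ n).injective]
      exact hv
    rw [Finset.prod_range_succ, ih, map_div₀, pow_succ, AlgEquiv.mul_apply]
    field_simp

/-- assembly of the conclusion -/
theorem mkBad (hζ : IsPrimitiveRoot ζ p) {σ : L ≃ₐ[F] L}
    {s : AlgebraicClosure L ≃ₐ[F] AlgebraicClosure L} (hs : Ex σ s) {A bb : AlgebraicClosure L}
    {a : F} {d : L} (ha : a ≠ 0) (hA : A ^ p = algebraMap F (AlgebraicClosure L) a)
    (hsA : s A = A) (hb : bb = A * algebraMap L (AlgebraicClosure L) d)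
    (hprod : ∏ i ∈ Finset.range p, (s ^ i) bb = 1) {f : GK L → ZMod p} (hf : Ku ζ f A)
    (hin : ∀ Q : Ideal (𝓞 (AlgebraicClosure L)), Q.IsPrime → (p : 𝓞 (AlgebraicClosure L)) ∉ Q →
      ∀ h : GK L, Inr Q h → f h = 0)
    (hde : ∀ Q : Ideal (𝓞 (AlgebraicClosure L)), Q.IsPrime → (p : 𝓞 (AlgebraicClosure L)) ∈ Q →
      ∀ h : GK L, Dec Q h → f h = 0)
    (hne : ∃ g, f g ≠ 0) : Bad p σ A a d⁻¹ := by
  have hA0 : A ≠ 0 := by
    rintro rfl
    rw [zero_pow (Fact.out (p := p.Prime)).ne_zero, eq_comm,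
      map_eq_zero_iff _ (algebraMap F (AlgebraicClosure L)).injective] at hA
    exact ha hA
  refine ⟨ha, hA, ?_, fun Q h1 h2 h h3 => hf.fix (hin Q h1 h2 h h3),
    fun Q h1 h2 h h3 => hf.fix (hde Q h1 h2 h h3), ?_⟩
  · have h1 : ∏ i ∈ Finset.range p, (s ^ i) bb =
        algebraMap L (AlgebraicClosure L) (algebraMap F L a * ∏ i ∈ Finset.range p, (σ ^ i) d) := by
      rw [map_mul, ← alg_eq, ← hA, map_prod, ← Finset.card_range p, ← Finset.prod_const,
        Finset.card_range, ← Finset.prod_mul_distrib]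
      refine Finset.prod_congr rfl fun i _ => ?_
      rw [hb, map_mul, pow_fix hsA, pow_ex hs]
    rw [hprod, ← map_one (algebraMap L (AlgebraicClosure L))] at h1
    have h2 := (algebraMap L (AlgebraicClosure L)).injective h1
    have h3 : ∏ i ∈ Finset.range p, (σ ^ i) d⁻¹ = (∏ i ∈ Finset.range p, (σ ^ i) d)⁻¹ := by
      rw [← Finset.prod_inv_distrib]
      exact Finset.prod_congr rfl fun i _ => map_inv₀ _ _
    rw [h3]
    exact inv_eq_of_mul_eq_one_left h2.symm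
  · obtain ⟨g, hg⟩ := hne
    refine ⟨g, fun hcon => hg ?_⟩
    rw [hf g] at hcon
    exact e_eq_one L hζ _ (mul_right_cancel₀ hA0 (by rw [hcon, one_mul]))

theorem toZMod_zero {z : ℤ_[p]} : PadicInt.toZMod z = 0 ↔ (p : ℤ_[p]) ∣ z := by
  rw [← RingHom.mem_ker, PadicInt.ker_toZMod, PadicInt.maximalIdeal_eq_span_p,
    Ideal.mem_span_singleton]

/-- Kummer theory for the class `f` -/
theorem kum (hKUM : StKUM.{u}) (hTW1 : StTW1.{u}) (hζ : IsPrimitiveRoot ζ p) {r : ℤ}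
    {f : GK L → ℤ_[p]} (hf : SQ L (AlgebraicClosure L) p r f) (tb : GK L → ZMod p)
    (htb : ∀ h, tb h = PadicInt.toZMod (f h)) :
    ∃ w : AlgebraicClosure L, w ≠ 0 ∧ Ku ζ tb w := by
  have hζL : IsPrimitiveRoot (algebraMap F L ζ) p := hζ.map_of_injective (algebraMap F L).injective
  obtain ⟨w, h1, h2⟩ := hKUM L p (algebraMap F L ζ) hζL f hf.cont (fun g h => by
    rw [hf.mul g h]
    obtain ⟨t, ht⟩ := hTW1 L (AlgebraicClosure L) p (algebraMap F L ζ) hζL r g
    refine ⟨t * f h, ?_⟩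
    have : f g + tw p r g * f h - (f g + f h) = (tw p r g - 1) * f h := by ring
    rw [this, ht, mul_assoc])
  refine ⟨w, h1, fun h => ?_⟩
  rw [h2 h, htb]
  have h3 : algebraMap L (AlgebraicClosure L) (algebraMap F L ζ ^ (PadicInt.toZMod (f h)).val) =
      e L ζ (PadicInt.toZMod (f h)) := by
    unfold e
    rw [← map_pow (algebraMap F L), ← alg_eq]
  rw [h3]

end INRR

theorem pr_NRR (hKUM : StKUM.{u}) (hFX : StFX.{u}) (hLCT : StLCT.{u}) (hTS : StTS.{u})
    (hTW1 : StTW1.{u}) : StNRR.{u} := by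
  intro F L _ _ _ _ _ p _ ζ m x σ hC hloc s hs k hk Q0 hQ0 hpQ0 hInr r m' β hβ hβu hβS θ hθS
    hno hex
  have hζ := hC.hζ
  obtain ⟨c0, hc0⟩ := hex
  obtain ⟨hTtw, -, hTSQ, hTQ⟩ := hTS F L p r σ s hs
  -- reductions modulo `p`
  obtain ⟨tb, htb⟩ : ∃ tb : GK L → ZMod p, ∀ h, tb h = PadicInt.toZMod (θ h) :=
    ⟨_, fun _ => rfl⟩
  obtain ⟨be, hbe⟩ : ∃ be : GK L → ZMod p, ∀ h, be h = PadicInt.toZMod (β h) :=
    ⟨_, fun _ => rfl⟩
  obtain ⟨c1, hc1⟩ : ∃ c1 : ZMod p, c1 = PadicInt.toZMod c0 := ⟨_, rfl⟩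
  -- `k`
  have hθk : θ k = 0 := hθS.inr Q0 hQ0 hpQ0 k hInr
  have hβk : β k = 0 := hβS.inr Q0 hQ0 hpQ0 k hInr
  have htk : tb k = 0 := by rw [htb, hθk, map_zero]
  have hcsk : cs hs k = k := by
    ext y
    rw [cs_apply, hk, hk, AlgEquiv.symm_apply_eq]
    rw [← AlgEquiv.mul_apply, ← AlgEquiv.mul_apply, ← pow_succ, ← pow_succ']
  -- the invariance of `β`
  have hβc : ∀ h, β (cs hs h) = β h := by
    intro h
    have h1 : (p : ℤ_[p]) ^ m' * β (cs hs h) = (p : ℤ_[p]) ^ m' * β h := by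
      rw [hβ, hβ, hTtw]
    exact mul_left_cancel₀ (pow_ne_zero _ (by exact_mod_cast (Fact.out (p := p.Prime)).ne_zero)) h1
  -- the local condition
  have hloc' : ∀ Q : Ideal (𝓞 (AlgebraicClosure L)), Q.IsPrime →
      (p : 𝓞 (AlgebraicClosure L)) ∈ Q → ∀ h : GK L, Dec Q h → tb (cs hs h) - tb h = 0 := by
    intro Q h1 h2 h h3
    have h4 := hLCT F L p ζ m x σ hC hloc s hs r θ hθS Q h1 h2 h h3
    rw [htb, htb, ← map_sub]
    exact INRR.toZMod_zero.2 h4
  have hbar : ∀ h, (tb (cs hs (cs hs h)) - tb (cs hs h)) - (tb (cs hs h) - tb h) =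
      c1 * be h := by
    intro h
    have h1 := INRR.toZMod_zero.2 (hc0 h)
    rw [map_sub, map_add, map_sub, map_mul, map_mul, ← htb, ← htb, ← htb, ← hbe, ← hc1] at h1
    have h2 : (PadicInt.toZMod (2 : ℤ_[p]) : ZMod p) = 2 := map_ofNat _ 2
    rw [h2] at h1
    linear_combination h1
  -- Kummer theory
  obtain ⟨w, hw0, hw⟩ := INRR.kum hKUM hTW1 hζ hθS tb htb
  have hsw : s w ≠ 0 := by
    rw [Ne, map_eq_zero_iff _ s.injective]
    exact hw0
  obtain ⟨b, hbdef⟩ : ∃ b, b = s w / w := ⟨_, rfl⟩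
  have hb0 : b ≠ 0 := by
    rw [hbdef]
    exact div_ne_zero hsw hw0
  obtain ⟨f1, hf1⟩ : ∃ f1 : GK L → ZMod p, ∀ h, f1 h = tb (cs hs h) - tb h := ⟨_, fun _ => rfl⟩
  have hKb : INRR.Ku ζ f1 b := by
    intro h
    rw [hbdef, hf1]
    exact INRR.Ku.div (f := fun h => tb (cs hs h)) (g := tb) hζ (INRR.Ku.s hs hw) hw h
  have hsb : s b ≠ 0 := by
    rw [Ne, map_eq_zero_iff _ s.injective]
    exact hb0
  obtain ⟨c, hcdef⟩ : ∃ c, c = s b / b := ⟨_, rfl⟩
  obtain ⟨f2, hf2⟩ : ∃ f2 : GK L → ZMod p, ∀ h, f2 h = f1 (cs hs h) - f1 h := ⟨_, fun _ => rfl⟩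
  have hKc' : INRR.Ku ζ f2 c := by
    intro h
    rw [hcdef, hf2]
    exact INRR.Ku.div (f := fun h => f1 (cs hs h)) (g := f1) hζ (INRR.Ku.s hs hKb) hKb h
  have hf2' : ∀ h, f2 h = c1 * be h := by
    intro h
    rw [hf2, hf1, hf1, hbar]
  have hprodb : ∏ i ∈ Finset.range p, (s ^ i) b = 1 := by
    rw [hbdef, INRR.tele hw0, ← hk, hw.fix htk, div_self hw0]
  have hprodc : ∏ i ∈ Finset.range p, (s ^ i) c = 1 := by
    rw [hcdef, INRR.tele hb0, ← hk, hKb.fix (by rw [hf1, hcsk, sub_self]), div_self hb0]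
  by_cases hp0 : (p : ℤ_[p]) ∣ c0
  · -- case A
    obtain ⟨t, ht⟩ : ∃ t : GK L → ℤ_[p], ∀ h, t h = θ (cs hs h) - θ h := ⟨_, fun _ => rfl⟩
    have htf : ∀ h, PadicInt.toZMod (t h) = f1 h := by
      intro h
      rw [ht, map_sub, ← htb, ← htb, hf1]
    obtain ⟨d, a, hd, ha, hsA, hA⟩ := hFX F L p ζ m x σ hC s hs k hk t (fun h => by
        have h1 := hc0 h
        have h2 : t (cs hs h) - t h =
            (θ (cs hs (cs hs h)) - 2 * θ (cs hs h) + θ h - c0 * β h) + c0 * β h := by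
          rw [ht, ht]
          ring
        rw [h2]
        exact dvd_add h1 (hp0.mul_right _))
      (by
        rw [ht, hcsk, sub_self]
        exact dvd_zero _) b hb0 (fun h => by
        rw [hKb h, ← htf h]
        rfl)
    have hd' : algebraMap L (AlgebraicClosure L) d ≠ 0 := by
      rw [Ne, map_eq_zero_iff _ (algebraMap L (AlgebraicClosure L)).injective]
      exact hd
    obtain ⟨A, hAdef⟩ : ∃ A, A = b / algebraMap L (AlgebraicClosure L) d := ⟨_, rfl⟩
    rw [← hAdef] at hsA hA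
    have hbA : b = A * algebraMap L (AlgebraicClosure L) d := by
      rw [hAdef, div_mul_cancel₀ _ hd']
    have hKA : INRR.Ku ζ f1 A := by
      intro h
      rw [hAdef, map_div₀, hKb h, h.commutes, mul_div_assoc]
    refine ⟨A, a, d⁻¹, INRR.mkBad hζ hs ha hA hsA hbA hprodb hKA ?_ ?_ ?_⟩
    · intro Q h1 h2 h h3
      rw [← htf, ht, hθS.inr Q h1 h2 h h3, (hTSQ θ hθS).inr Q h1 h2 h h3, sub_self, map_zero]
    · intro Q h1 h2 h h3
      rw [hf1]
      exact hloc' Q h1 h2 h h3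
    · obtain ⟨g, hg⟩ := hno 0
      refine ⟨g, fun hcon => hg ?_⟩
      rw [zero_mul, sub_zero]
      rw [← htf, ht] at hcon
      exact INRR.toZMod_zero.1 hcon
  · -- case B
    obtain ⟨v, hv0, hv⟩ := INRR.kum hKUM hTW1 hζ hβS be hbe
    obtain ⟨d, a', hd, ha', hsE, hE⟩ := hFX F L p ζ m x σ hC s hs k hk β (fun h => by
        rw [hβc h, sub_self]
        exact dvd_zero _) (by rw [hβk]; exact dvd_zero _) v hv0 (fun h => by
        rw [hv h, hbe h]
        rfl)
    have hd' : algebraMap L (AlgebraicClosure L) d ≠ 0 := by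
      rw [Ne, map_eq_zero_iff _ (algebraMap L (AlgebraicClosure L)).injective]
      exact hd
    obtain ⟨E, hEdef⟩ : ∃ E, E = v / algebraMap L (AlgebraicClosure L) d := ⟨_, rfl⟩
    rw [← hEdef] at hsE hE
    have hE0 : E ≠ 0 := by
      rw [hEdef]
      exact div_ne_zero hv0 hd'
    have hKE : INRR.Ku ζ be E := by
      intro h
      rw [hEdef, map_div₀, hv h, h.commutes, mul_div_assoc]
    obtain ⟨n0, hn0⟩ : ∃ n0 : ℕ, (n0 : ZMod p) = c1 := ⟨c1.val, ZMod.natCast_zmod_val _⟩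
    obtain ⟨A, hAdef⟩ : ∃ A, A = E ^ n0 := ⟨_, rfl⟩
    have hKA : INRR.Ku ζ f2 A := by
      intro h
      rw [hAdef, hf2', ← hn0]
      exact INRR.Ku.pow hζ hKE n0 h
    have hA0 : A ≠ 0 := by
      rw [hAdef]
      exact pow_ne_zero _ hE0
    -- the quotient is in `L`
    have hl : ∀ h : GK L, h (c / A) = c / A := by
      intro h
      rw [map_div₀, hKc' h, hKA h]
      exact mul_div_mul_left _ _ (INRR.e_ne L hζ _)
    obtain ⟨l, hlL⟩ := (InfiniteGalois.mem_range_algebraMap_iff_fixed (k := L)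
      (K := AlgebraicClosure L) (c / A)).2 hl
    have hcA : c = A * algebraMap L (AlgebraicClosure L) l := by
      rw [hlL, mul_div_cancel₀ _ hA0]
    have hA : A ^ p = algebraMap F (AlgebraicClosure L) (a' ^ n0) := by
      rw [hAdef, ← pow_mul, mul_comm, pow_mul, hE, map_pow]
    have hsA : s A = A := by
      rw [hAdef, map_pow, hsE]
    refine ⟨A, a' ^ n0, l⁻¹, INRR.mkBad hζ hs (pow_ne_zero _ ha') hA hsA hcA hprodc hKA ?_ ?_ ?_⟩
    · intro Q h1 h2 h h3
      rw [hf2', hbe, hβS.inr Q h1 h2 h h3, map_zero, mul_zero]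
    · intro Q h1 h2 h h3
      obtain ⟨Q', g1, g2, -, g4⟩ := hTQ Q h1
      rw [hf2, hf1, hf1, hloc' Q h1 h2 h h3, hloc' Q' g1 (g2.2 h2) (cs hs h) (g4 h h3), sub_self]
    · obtain ⟨g, hg⟩ := hβu
      refine ⟨g, ?_⟩
      rw [hf2', hc1, hbe]
      exact mul_ne_zero (fun h => hp0 (INRR.toZMod_zero.1 h)) fun h => hg (INRR.toZMod_zero.1 h)

end Pool.Agent.Work.MP_59f3ad_nt.PX
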