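import Pool.Agent.Work.MP_59f3ad_nt.PX.StmtsA

/-!
Item NX of block PX: the norm of `x` is `m`.
-/

set_option autoImplicit false

open NumberField IsDedekindDomain

namespace Pool.Agent.Work.MP_59f3ad_nt.PX

open Pool.Agent.Work.MP_59f3ad_nt.FE

universe u

namespace INX

theorem pow_apply {F L : Type u} [Field F] [Field L] [Algebra F L] (ζ : F) (x : L)
    (σ : L ≃ₐ[F] L) (h : σ x = algebraMap F L ζ * x) (i : ℕ) :
    (σ ^ i) x = algebraMap F L (ζ ^ i) * x := by
  induction i with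
  | zero => simp
  | succ i ih =>
    rw [pow_succ', AlgEquiv.mul_apply, ih, map_mul, AlgEquiv.commutes, h, ← mul_assoc,
      ← map_mul, ← pow_succ]

theorem dvd_sum (p : ℕ) (hp : p.Prime) (h2 : p ≠ 2) : p ∣ ∑ i ∈ Finset.range p, i := by
  rw [Finset.sum_range_id]
  have hodd : Odd p := hp.odd_of_ne_two h2
  obtain ⟨c, hc⟩ := hodd
  have h3 : p - 1 = c * 2 := by omega
  rw [h3, ← mul_assoc, Nat.mul_div_cancel _ (by norm_num)]
  exact Dvd.intro _ rfl

end INX

/-- NX -/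
theorem pr_NX : StNX.{u} := by
  intro F L _ _ _ _ _ p hp ζ m x σ hC
  have h1 : ∀ i ∈ Finset.range p, (σ ^ i) x = algebraMap F L (ζ ^ i) * x :=
    fun i _ => INX.pow_apply ζ x σ hC.hσ i
  rw [Finset.prod_congr rfl h1, Finset.prod_mul_distrib, Finset.prod_const, Finset.card_range,
    hC.hx, ← map_prod, Finset.prod_pow_eq_pow_sum]
  obtain ⟨c, hc⟩ := INX.dvd_sum p hp.out hC.h2
  rw [hc, pow_mul, hC.hζ.pow_eq_one, one_pow, map_one, one_mul]

end Pool.Agent.Work.MP_59f3ad_nt.PX
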