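import Pool.Agent.Work.MP_59f3ad_nt.PX.StmtsB

set_option autoImplicit false

/-! Item PBX of block PX: incomplete sums of periodic functions -/

open NumberField IsDedekindDomain

namespace Pool.Agent.Work.MP_59f3ad_nt.PX

namespace IPBX

/-- number of integers of a residue class in an interval of length `q s` -/
lemma card_class (q : ℕ) (hq : 0 < q) (a : ℤ) (s : ℕ) (r : ℤ) (h0 : 0 ≤ r) (h1 : r < q) :
    ((Finset.Ico a (a + (q : ℤ) * s)).filter (fun x => x % (q : ℤ) = r)).card = s := by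
  have hqz : (0 : ℤ) < (q : ℤ) := by exact_mod_cast hq
  have hr : r % (q : ℤ) = r := Int.emod_eq_of_lt h0 h1
  have e : (Finset.Ico a (a + (q : ℤ) * s)).filter (fun x => x % (q : ℤ) = r) =
      (Finset.Ico a (a + (q : ℤ) * s)).filter (fun x => x ≡ r [ZMOD (q : ℤ)]) := by
    apply Finset.filter_congr
    intro x _
    unfold Int.ModEq
    rw [hr]
  have h := Int.Ico_filter_modEq_card a (a + (q : ℤ) * s) hqz r
  rw [← e] at h
  have hc : ⌈(((a + (q : ℤ) * s : ℤ) : ℚ) - (r : ℚ)) / ((q : ℤ) : ℚ)⌉ =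
      ⌈((a : ℚ) - (r : ℚ)) / ((q : ℤ) : ℚ)⌉ + (s : ℤ) := by
    have hq0 : ((q : ℤ) : ℚ) ≠ 0 := by exact_mod_cast hqz.ne'
    have : (((a + (q : ℤ) * s : ℤ) : ℚ) - (r : ℚ)) / ((q : ℤ) : ℚ) =
        ((a : ℚ) - (r : ℚ)) / ((q : ℤ) : ℚ) + ((s : ℤ) : ℚ) := by
      field_simp
      push_cast
      ring
    rw [this, Int.ceil_add_intCast]
  push_cast at h hc
  rw [hc] at h
  have : ((((Finset.Ico a (a + (q : ℤ) * s)).filter (fun x => x % (q : ℤ) = r)).card : ℕ) : ℤ) =
      (s : ℤ) := by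
    rw [h]
    have : ⌈((a : ℚ) - (r : ℚ)) / (q : ℚ)⌉ + (s : ℤ) - ⌈((a : ℚ) - (r : ℚ)) / (q : ℚ)⌉ = (s : ℤ) := by
      ring
    rw [this]
    exact max_eq_left (Int.natCast_nonneg s)
  exact_mod_cast this

open Classical in
/-- the sum over a box whose sides are multiples of `q` vanishes -/
lemma sum_box {ι : Type} [Fintype ι] (q : ℕ) (f : (ι → ℤ) → ℂ) (hq : 0 < q)
    (hper : ∀ a a' : ι → ℤ, f (fun i => a i + (q : ℤ) * a' i) = f a)
    (hsum : ∑ a ∈ Fintype.piFinset (fun _ : ι => Finset.Ico (0 : ℤ) (q : ℤ)), f a = 0)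
    (a₀ : ℤ) (s : ℕ) :
    ∑ a ∈ Fintype.piFinset (fun _ : ι => Finset.Ico a₀ (a₀ + (q : ℤ) * s)), f a = 0 := by
  have hqz : (0 : ℤ) < (q : ℤ) := by exact_mod_cast hq
  set A := Fintype.piFinset (fun _ : ι => Finset.Ico a₀ (a₀ + (q : ℤ) * s)) with hA
  set R := Fintype.piFinset (fun _ : ι => Finset.Ico (0 : ℤ) (q : ℤ)) with hR
  let g : (ι → ℤ) → (ι → ℤ) := fun a i => a i % (q : ℤ)
  have hmaps : ∀ a ∈ A, g a ∈ R := by
    intro a _
    rw [hR, Fintype.mem_piFinset]
    intro i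
    rw [Finset.mem_Ico]
    exact ⟨Int.emod_nonneg _ hqz.ne', Int.emod_lt_of_pos _ hqz⟩
  have hfg : ∀ a, f a = f (g a) := by
    intro a
    have := hper (g a) (fun i => a i / (q : ℤ))
    rw [← this]
    congr 1
    funext i
    exact (Int.emod_add_mul_ediv (a i) (q : ℤ)).symm
  rw [← Finset.sum_fiberwise_of_maps_to hmaps]
  have hfib : ∀ r ∈ R, ∑ a ∈ A.filter (fun a => g a = r), f a =
      ((s ^ Fintype.card ι : ℕ) : ℂ) * f r := by
    intro r hr
    have h1 : ∑ a ∈ A.filter (fun a => g a = r), f a = ∑ _a ∈ A.filter (fun a => g a = r), f r := by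
      refine Finset.sum_congr rfl (fun a ha => ?_)
      rw [hfg a, (Finset.mem_filter.mp ha).2]
    rw [h1, Finset.sum_const, nsmul_eq_mul]
    congr 2
    have h2 : A.filter (fun a => g a = r) = Fintype.piFinset (fun i : ι =>
        (Finset.Ico a₀ (a₀ + (q : ℤ) * s)).filter (fun x => x % (q : ℤ) = r i)) := by
      ext a
      rw [Finset.mem_filter, hA, Fintype.mem_piFinset, Fintype.mem_piFinset]
      constructor
      · rintro ⟨h, h'⟩ i
        rw [Finset.mem_filter]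
        exact ⟨h i, congrFun h' i⟩
      · intro h
        refine ⟨fun i => (Finset.mem_filter.mp (h i)).1, ?_⟩
        funext i
        exact (Finset.mem_filter.mp (h i)).2
    rw [h2, Fintype.card_piFinset]
    rw [hR, Fintype.mem_piFinset] at hr
    have h3 : ∀ i, ((Finset.Ico a₀ (a₀ + (q : ℤ) * s)).filter
        (fun x => x % (q : ℤ) = r i)).card = s := by
      intro i
      have := Finset.mem_Ico.mp (hr i)
      exact card_class q hq a₀ s (r i) this.1 this.2
    rw [Finset.prod_congr rfl (fun i _ => h3 i), Finset.prod_const, Finset.card_univ]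
  rw [Finset.sum_congr rfl hfib, ← Finset.mul_sum, hsum, mul_zero]

lemma pow_diff (S T : ℝ) (h0 : 0 ≤ T) (h1 : T ≤ S) (n : ℕ) :
    S ^ n - T ^ n ≤ n * (S - T) * S ^ (n - 1) := by
  have hS : 0 ≤ S := h0.trans h1
  induction n with
  | zero => simp
  | succ n ih =>
    have e : n + 1 - 1 = n := rfl
    rw [e]
    have hT : T ^ n ≤ S ^ n := pow_le_pow_left₀ h0 h1 n
    have h2 : S * (S ^ n - T ^ n) ≤ n * (S - T) * S ^ n := by
      rcases Nat.eq_zero_or_pos n with hn | hn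
      · subst hn; simp
      · have h3 : S * (S ^ n - T ^ n) ≤ S * (n * (S - T) * S ^ (n - 1)) :=
          mul_le_mul_of_nonneg_left ih hS
        have h4 : S * S ^ (n - 1) = S ^ n := by
          rw [← pow_succ']
          congr 1
          omega
        calc S * (S ^ n - T ^ n) ≤ S * (n * (S - T) * S ^ (n - 1)) := h3
          _ = n * (S - T) * (S * S ^ (n - 1)) := by ring
          _ = _ := by rw [h4]
    have h5 : (S - T) * T ^ n ≤ (S - T) * S ^ n :=
      mul_le_mul_of_nonneg_left hT (by linarith)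
    calc S ^ (n + 1) - T ^ (n + 1) = S * (S ^ n - T ^ n) + (S - T) * T ^ n := by ring
      _ ≤ n * (S - T) * S ^ n + (S - T) * S ^ n := add_le_add h2 h5
      _ = ((n + 1 : ℕ) : ℝ) * (S - T) * S ^ n := by push_cast; ring

end IPBX

open IPBX in
/-- item PBX -/
theorem pr_PBX : StPBX := by
  classical
  intro ι _ q B f hq hf hper hsum
  set s : ℕ := (2 * B + 1) / q with hs
  have hle : q * s ≤ 2 * B + 1 := Nat.mul_div_le _ _
  have hlt : 2 * B + 1 < q * s + q := by
    have := Nat.lt_mul_div_succ (2 * B + 1) hq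
    rw [Nat.mul_add, mul_one] at this
    exact this
  set A := Fintype.piFinset (fun _ : ι => Finset.Ico (-(B : ℤ)) (-(B : ℤ) + (q : ℤ) * s)) with hA
  set X := Fintype.piFinset (fun _ : ι => Finset.Icc (-(B : ℤ)) B) with hX
  have hAX : A ⊆ X := by
    intro a ha
    rw [hA, Fintype.mem_piFinset] at ha
    rw [hX, Fintype.mem_piFinset]
    intro i
    have := Finset.mem_Ico.mp (ha i)
    rw [Finset.mem_Icc]
    refine ⟨this.1, ?_⟩
    have h2 : (q : ℤ) * s ≤ 2 * B + 1 := by exact_mod_cast hle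
    omega
  have h0 : ∑ a ∈ A, f a = 0 := sum_box q f hq hper hsum (-(B : ℤ)) s
  have h1 : ∑ a ∈ X, f a = ∑ a ∈ X \ A, f a := by
    rw [← Finset.sum_sdiff hAX, h0, add_zero]
  have hcA : A.card = (q * s) ^ Fintype.card ι := by
    rw [hA, Fintype.card_piFinset, Finset.prod_const, Finset.card_univ, Int.card_Ico]
    congr 1
    have : -(B : ℤ) + (q : ℤ) * s - -(B : ℤ) = ((q * s : ℕ) : ℤ) := by push_cast; ring
    rw [this, Int.toNat_natCast]
  have hcX : X.card = (2 * B + 1) ^ Fintype.card ι := by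
    rw [hX, Fintype.card_piFinset, Finset.prod_const, Finset.card_univ, Int.card_Icc]
    congr 1
    omega
  have h2 : ‖∑ a ∈ X \ A, f a‖ ≤ ((X \ A).card : ℝ) := by
    refine (norm_sum_le _ _).trans ?_
    refine (Finset.sum_le_sum (fun a _ => hf a)).trans ?_
    rw [Finset.sum_const, nsmul_eq_mul, mul_one]
  have h3 : ((X \ A).card : ℝ) =
      (2 * (B : ℝ) + 1) ^ Fintype.card ι - ((q : ℝ) * s) ^ Fintype.card ι := by
    rw [Finset.card_sdiff_of_subset hAX, Nat.cast_sub (Finset.card_le_card hAX), hcX, hcA]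
    push_cast
    ring
  have hleR : (q : ℝ) * s ≤ 2 * (B : ℝ) + 1 := by exact_mod_cast hle
  have hltR : 2 * (B : ℝ) + 1 < (q : ℝ) * s + q := by exact_mod_cast hlt
  have h4 := pow_diff (2 * (B : ℝ) + 1) ((q : ℝ) * s) (by positivity) hleR (Fintype.card ι)
  rw [h1]
  refine h2.trans ?_
  rw [h3]
  refine h4.trans ?_
  have h5 : (2 * (B : ℝ) + 1) - (q : ℝ) * s ≤ q := by linarith
  have h6 : (0 : ℝ) ≤ (2 * (B : ℝ) + 1) ^ (Fintype.card ι - 1) := by positivity
  calc (Fintype.card ι : ℝ) * (2 * (B : ℝ) + 1 - (q : ℝ) * s) *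
        (2 * (B : ℝ) + 1) ^ (Fintype.card ι - 1)
      ≤ (Fintype.card ι : ℝ) * q * (2 * (B : ℝ) + 1) ^ (Fintype.card ι - 1) :=
        mul_le_mul_of_nonneg_right (mul_le_mul_of_nonneg_left h5 (Nat.cast_nonneg _)) h6
    _ = _ := by ring

end Pool.Agent.Work.MP_59f3ad_nt.PX
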