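import Mathlib
import Pool.Agent.Work.MP_59f3ad_nt.PX.StmtsA

/-!
# MP_59f3ad_nt, block PX, item RAM (helper60): the totally ramified primes

After `Q3/I_Ram.lean` (the case `p = 3`).
-/

set_option autoImplicit false

open NumberField IsDedekindDomain

namespace Pool.Agent.Work.MP_59f3ad_nt.PX

open Pool.Agent.Work.MP_59f3ad_nt.FE

universe u

namespace IRAM

theorem exists_above {F L : Type u} [Field F] [NumberField F] [Field L] [NumberField L]
    [Algebra F L] (q : HeightOneSpectrum (𝓞 F)) :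
    ∃ v : HeightOneSpectrum (𝓞 L), v.asIdeal.LiesOver q.asIdeal := by
  obtain ⟨Q, hQ, hQ2⟩ := Ideal.exists_maximal_ideal_liesOver_of_isIntegral q.asIdeal (S := 𝓞 L)
  have hne : Q ≠ ⊥ := by
    rintro rfl
    have := hQ2.over
    rw [Ideal.under_def, Ideal.comap_bot_of_injective] at this
    · exact q.ne_bot this
    · exact FaithfulSMul.algebraMap_injective (𝓞 F) (𝓞 L)
  exact ⟨⟨Q, hQ.isPrime, hne⟩, hQ2⟩

/-- The fundamental identity when `p` divides one ramification index. -/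
theorem e_p {F L : Type u} [Field F] [NumberField F] [Field L] [NumberField L]
    [Algebra F L] (p : ℕ) (hp : p.Prime) (hL : Module.finrank F L = p) (q : HeightOneSpectrum (𝓞 F))
    (v : HeightOneSpectrum (𝓞 L)) (hv : v.asIdeal.LiesOver q.asIdeal)
    (he : p ∣ q.asIdeal.ramificationIdx' v.asIdeal) :
    q.asIdeal.ramificationIdx' v.asIdeal = p ∧ q.asIdeal.inertiaDeg' v.asIdeal = 1 ∧
    ∀ v' : HeightOneSpectrum (𝓞 L), v'.asIdeal.LiesOver q.asIdeal → v' = v := by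
  have hsum := Ideal.sum_ramification_inertia (𝓞 L) F L (p := q.asIdeal) q.ne_bot
  rw [hL] at hsum
  have hmem : v.asIdeal ∈ IsDedekindDomain.primesOverFinset q.asIdeal (𝓞 L) :=
    (IsDedekindDomain.mem_primesOverFinset_iff q.ne_bot _).2 ⟨v.isPrime, hv⟩
  have hpos1 : q.asIdeal.ramificationIdx' v.asIdeal ≠ 0 :=
    Ideal.IsDedekindDomain.ramificationIdx'_ne_zero_of_liesOver _ q.ne_bot
  have hpos2 : 0 < q.asIdeal.inertiaDeg' v.asIdeal := Ideal.inertiaDeg'_pos _ _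
  have hge : p ≤ q.asIdeal.ramificationIdx' v.asIdeal :=
    Nat.le_of_dvd (Nat.pos_of_ne_zero hpos1) he
  rw [← Finset.add_sum_erase _ _ hmem] at hsum
  have h1 : p * 1 ≤ q.asIdeal.ramificationIdx' v.asIdeal * q.asIdeal.inertiaDeg' v.asIdeal :=
    Nat.mul_le_mul hge hpos2
  have h2 : q.asIdeal.ramificationIdx' v.asIdeal * q.asIdeal.inertiaDeg' v.asIdeal = p := by
    omega
  have h3 : q.asIdeal.ramificationIdx' v.asIdeal = p := by
    nlinarith
  refine ⟨h3, ?_, ?_⟩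
  · rw [h3] at h2
    exact Nat.eq_of_mul_eq_mul_left hp.pos (by rw [h2, mul_one])
  · intro v' hv'
    by_contra hne
    have hmem' : v'.asIdeal ∈
        (IsDedekindDomain.primesOverFinset q.asIdeal (𝓞 L)).erase v.asIdeal := by
      refine Finset.mem_erase.2 ⟨fun h => hne (HeightOneSpectrum.ext h), ?_⟩
      exact (IsDedekindDomain.mem_primesOverFinset_iff q.ne_bot _).2 ⟨v'.isPrime, hv'⟩
    have hz : ∑ P ∈ (IsDedekindDomain.primesOverFinset q.asIdeal (𝓞 L)).erase v.asIdeal,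
        q.asIdeal.ramificationIdx' P * q.asIdeal.inertiaDeg' P = 0 := by omega
    have := Finset.sum_eq_zero_iff.1 hz _ hmem'
    have hpos1' : q.asIdeal.ramificationIdx' v'.asIdeal ≠ 0 :=
      Ideal.IsDedekindDomain.ramificationIdx'_ne_zero_of_liesOver _ q.ne_bot
    have hpos2' : q.asIdeal.inertiaDeg' v'.asIdeal ≠ 0 := Ideal.inertiaDeg'_ne_zero _ _
    rcases Nat.mul_eq_zero.1 this with h | h
    · exact hpos1' h
    · exact hpos2' h

/-- The value of `π ^ c * N` at `q = (π)`. -/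
theorem val_m {F : Type u} [Field F] [NumberField F] (π N : 𝓞 F) (c : ℕ) (hπ : Prime π)
    (hN : ¬ π ∣ N) (q : HeightOneSpectrum (𝓞 F)) (hq : q.asIdeal = Ideal.span {π}) :
    q.valuation F ((π ^ c * N : 𝓞 F) : F) = WithZero.exp (-(c : ℤ)) := by
  have h2 : q.intValuation N = 1 := by
    rw [HeightOneSpectrum.intValuation_eq_one_iff, hq, Ideal.mem_span_singleton]
    exact hN
  have h3 : q.intValuation π = WithZero.exp (-1 : ℤ) :=
    HeightOneSpectrum.intValuation_singleton q hπ.ne_zero hq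
  rw [HeightOneSpectrum.valuation_of_algebraMap, map_mul, map_pow, h2, h3, mul_one,
    ← WithZero.exp_nsmul]
  simp

/-- `p` divides the ramification index. -/
theorem p_dvd {F L : Type u} [Field F] [NumberField F] [Field L] [NumberField L]
    [Algebra F L] (p : ℕ) (hp : p.Prime) (q : HeightOneSpectrum (𝓞 F))
    (v : HeightOneSpectrum (𝓞 L))
    (hv : v.asIdeal.LiesOver q.asIdeal) (a : F) (x : L) (c : ℕ) (hc : 1 ≤ c) (hcp : c < p)
    (hx : x ^ p = algebraMap F L a) (ha : q.valuation F a = WithZero.exp (-(c : ℤ))) :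
    p ∣ q.asIdeal.ramificationIdx' v.asIdeal := by
  have h1 := HeightOneSpectrum.valuation_liesOver L q v a
  rw [← hx, map_pow, ha] at h1
  have h2 : v.valuation L x ≠ 0 := by
    intro h0
    rw [h0, zero_pow hp.ne_zero] at h1
    rw [← WithZero.exp_nsmul] at h1
    simp at h1
  obtain ⟨k, hk⟩ : ∃ k : ℤ, v.valuation L x = WithZero.exp k :=
    ⟨WithZero.log (v.valuation L x), (WithZero.exp_log h2).symm⟩
  rw [hk, ← WithZero.exp_nsmul, ← WithZero.exp_nsmul, WithZero.exp_inj] at h1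
  simp only [nsmul_eq_mul] at h1
  have h3 : (p : ℤ) ∣ (q.asIdeal.ramificationIdx' v.asIdeal : ℤ) * c := ⟨-k, by
    linarith⟩
  have h4 : p ∣ q.asIdeal.ramificationIdx' v.asIdeal * c := by exact_mod_cast h3
  rcases hp.dvd_mul.1 h4 with h | h
  · exact h
  · exact absurd (Nat.le_of_dvd hc h) (by omega)

theorem res_of {F L : Type u} [Field F] [NumberField F] [Field L] [NumberField L]
    [Algebra F L] (q : HeightOneSpectrum (𝓞 F)) (v : HeightOneSpectrum (𝓞 L))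
    (hv : v.asIdeal.LiesOver q.asIdeal) (h : q.asIdeal.inertiaDeg' v.asIdeal = 1) (y : 𝓞 L) :
    ∃ z : 𝓞 F, y - algebraMap (𝓞 F) (𝓞 L) z ∈ v.asIdeal := by
  rw [Ideal.inertiaDeg'_algebraMap] at h
  let _ : Field (𝓞 F ⧸ q.asIdeal) := Ideal.Quotient.field _
  have : Nontrivial (𝓞 L ⧸ v.asIdeal) := Ideal.Quotient.nontrivial_iff.2 v.isPrime.ne_top
  have h1 := (finrank_eq_one_iff_of_nonzero' (K := 𝓞 F ⧸ q.asIdeal) (1 : 𝓞 L ⧸ v.asIdeal)
    one_ne_zero).1 h (Ideal.Quotient.mk _ y)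
  obtain ⟨c, hc⟩ := h1
  obtain ⟨z, rfl⟩ := Ideal.Quotient.mk_surjective c
  refine ⟨z, ?_⟩
  rw [← Ideal.Quotient.eq, ← hc, Algebra.smul_def, mul_one]
  rfl

theorem inert_of {F L : Type u} [Field F] [NumberField F] [Field L] [NumberField L]
    [Algebra F L] (σ : L ≃ₐ[F] L) (q : HeightOneSpectrum (𝓞 F)) (v : HeightOneSpectrum (𝓞 L))
    (hv : v.asIdeal.LiesOver q.asIdeal)
    (huniq : ∀ v' : HeightOneSpectrum (𝓞 L), v'.asIdeal.LiesOver q.asIdeal → v' = v)
    (hres : ∀ y : 𝓞 L, ∃ z : 𝓞 F, y - algebraMap (𝓞 F) (𝓞 L) z ∈ v.asIdeal) :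
    Q3.Inert (σ : L ≃+* L) v := by
  set τ : 𝓞 L ≃+* 𝓞 L := RingOfIntegers.mapRingEquiv (σ : L ≃+* L) with hτ
  have hτc : ∀ y : 𝓞 L, ((τ y : 𝓞 L) : L) = σ (y : L) := fun y => rfl
  have hτF : ∀ z : 𝓞 F, τ (algebraMap (𝓞 F) (𝓞 L) z) = algebraMap (𝓞 F) (𝓞 L) z := by
    intro z
    apply RingOfIntegers.ext
    rw [hτc]
    have : ((algebraMap (𝓞 F) (𝓞 L) z : 𝓞 L) : L) = algebraMap F L (z : F) := rfl
    rw [this, σ.commutes]
  have hprime : (v.asIdeal.comap (τ : 𝓞 L →+* 𝓞 L)).IsPrime := Ideal.comap_isPrime _ _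
  have hne : v.asIdeal.comap (τ : 𝓞 L →+* 𝓞 L) ≠ ⊥ := by
    obtain ⟨y, hy, hy0⟩ := Submodule.exists_mem_ne_zero_of_ne_bot v.ne_bot
    intro h
    have h1 : τ.symm y ∈ v.asIdeal.comap (τ : 𝓞 L →+* 𝓞 L) := by
      rw [Ideal.mem_comap]
      simpa using hy
    rw [h, Ideal.mem_bot] at h1
    exact hy0 (by simpa using h1)
  have hlo : (v.asIdeal.comap (τ : 𝓞 L →+* 𝓞 L)).LiesOver q.asIdeal := by
    constructor
    rw [Ideal.under_def, Ideal.comap_comap]
    have : (τ : 𝓞 L →+* 𝓞 L).comp (algebraMap (𝓞 F) (𝓞 L)) = algebraMap (𝓞 F) (𝓞 L) := by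
      ext z
      exact congrArg _ (hτF z)
    rw [this]
    exact hv.over
  have heq := huniq ⟨_, hprime, hne⟩ hlo
  have hmem : ∀ y ∈ v.asIdeal, τ y ∈ v.asIdeal := by
    intro y hy
    have : v.asIdeal = v.asIdeal.comap (τ : 𝓞 L →+* 𝓞 L) := by
      conv_lhs => rw [← heq]
    rw [this] at hy
    exact hy
  intro y y' hy
  have hy' : y' = τ y := by
    apply RingOfIntegers.ext
    rw [hτc]
    exact hy
  obtain ⟨z, hz⟩ := hres y
  have h1 := hmem _ hz
  rw [map_sub, hτF] at h1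
  have h2 : y' - y = (τ y - algebraMap (𝓞 F) (𝓞 L) z) - (y - algebraMap (𝓞 F) (𝓞 L) z) := by
    rw [hy']; ring
  rw [h2]
  exact Ideal.sub_mem _ h1 hz

end IRAM

theorem pr_RAM : StRAM.{u} := by
  intro F L _ _ _ _ _ p hpp ζ m x σ cfg π N c hπ _ hc hcp hN hm
  have hp : p.Prime := hpp.out
  set q : HeightOneSpectrum (𝓞 F) := ⟨Ideal.span {π},
    (Ideal.span_singleton_prime hπ.ne_zero).2 hπ, by
      rw [Ne, Ideal.span_singleton_eq_bot]
      exact hπ.ne_zero⟩ with hq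
  have hqs : q.asIdeal = Ideal.span {π} := rfl
  obtain ⟨v, hv⟩ := IRAM.exists_above (L := L) q
  have hval := IRAM.val_m π N c hπ hN q hqs
  rw [← hm] at hval
  have h3e := IRAM.p_dvd p hp q v hv m x c hc hcp cfg.hx hval
  obtain ⟨he, hf, hu⟩ := IRAM.e_p p hp cfg.hL q v hv h3e
  have hres := IRAM.res_of q v hv hf
  have hram : ∀ a : F, v.valuation L (algebraMap F L a) = q.valuation F a ^ p := by
    intro a
    rw [← HeightOneSpectrum.valuation_liesOver L q v a, he]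
  refine ⟨q, v, ⟨hqs, IRAM.inert_of σ q v hv hu hres, hres, hram, ?_⟩⟩
  have h5 : v.valuation L (x : L) ^ p = WithZero.exp (-(c : ℤ)) ^ p := by
    rw [← map_pow, cfg.hx, hram, hval]
  exact (pow_left_inj₀ zero_le zero_le hp.ne_zero).1 h5

end Pool.Agent.Work.MP_59f3ad_nt.PX
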