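import Pool.Agent.Work.MP_59f3ad_nt.PX.StmtsB

/-!
Block PX, item RL1: from the deterministic theorem to a relation.
-/

set_option autoImplicit false

open NumberField IsDedekindDomain

namespace Pool.Agent.Work.MP_59f3ad_nt.PX

universe u

namespace IRL1

/-- a place containing a prime element `π` is the place of `π` -/
theorem mem_iff {F : Type u} [Field F] [NumberField F] {π : 𝓞 F} (hπ : Prime π)
    (q : HeightOneSpectrum (𝓞 F)) (hq : π ∈ q.asIdeal) (D : 𝓞 F) (hD : D ∈ q.asIdeal) : π ∣ D := by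
  have h1 : (Ideal.span {π}).IsPrime := (Ideal.span_singleton_prime hπ.ne_zero).2 hπ
  have h2 : Ideal.span {π} ≠ ⊥ := by
    rw [Ne, Ideal.span_singleton_eq_bot]
    exact hπ.ne_zero
  have h3 : (Ideal.span {π}).IsMaximal := h1.isMaximal h2
  have h4 : Ideal.span {π} = q.asIdeal :=
    h3.eq_of_le q.isPrime.ne_top ((Ideal.span_singleton_le_iff_mem _).2 hq)
  rw [← Ideal.mem_span_singleton, h4]
  exact hD

theorem cm {F : Type u} [Field F] [NumberField F] (a b : 𝓞 F) :
    ((a * b : 𝓞 F) : F) = (a : F) * (b : F) := map_mul (algebraMap (𝓞 F) F) a b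

theorem cp {F : Type u} [Field F] [NumberField F] (a : 𝓞 F) (k : ℕ) :
    ((a ^ k : 𝓞 F) : F) = (a : F) ^ k := map_pow (algebraMap (𝓞 F) F) a k

theorem val_one {F : Type u} [Field F] [NumberField F] (q : HeightOneSpectrum (𝓞 F)) (D : 𝓞 F)
    (hD : D ∉ q.asIdeal) : q.valuation F (D : F) = 1 :=
  q.valuation_eq_one_iff_notMem.2 hD

end IRL1

open IRL1 in
theorem pr_RL1 (hLFT : StLFT.{u}) (hLPM : StLPM.{u}) : StRL1.{u} := by
  intro F _ _ p _ t m0 x c π hC a hD l j
  have hp1 : 1 ≤ p := (Fact.out : p.Prime).one_lt.le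
  have hm : Mx m0 π c ≠ 0 := by
    unfold Mx
    exact mul_ne_zero hC.m0n (Finset.prod_ne_zero_iff.2 fun i _ => pow_ne_zero _ (hC.pr i).ne_zero)
  have hmF : (Mx m0 π c : F) ≠ 0 := by
    intro h
    exact hm (RingOfIntegers.ext (by rw [h]; rfl))
  have hA : a ^ l * (Mx m0 π c : F) ^ j ≠ 0 := mul_ne_zero (pow_ne_zero _ hD.ne) (pow_ne_zero _ hmF)
  obtain ⟨e, g, D, he, hg, hcop, heq⟩ := hLFT F p t hp1 π hC.pr hC.na _ hA
  have hval : ∀ i, ((e i : ZMod p)).val = e i := fun i => ZMod.val_cast_of_lt (he i)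
  refine ⟨fun i => (e i : ZMod p), D, g, ⟨hg, hcop, ?_, ?_⟩⟩
  · rw [heq]
    simp only [hval]
  · refine ⟨?_, ?_, ?_⟩
    · rintro rfl
      exact hcop ⟨0, hC.ht⟩ (dvd_zero _)
    · intro q hq
      by_cases hπ : ∃ i, π i ∈ q.asIdeal
      · obtain ⟨i, hi⟩ := hπ
        refine ⟨1, ?_⟩
        rw [map_one, one_pow]
        exact val_one q D fun h => hcop i (mem_iff (hC.pr i) q hi D h)
      · push Not at hπ
        obtain ⟨ya, hya⟩ := hD.val q hq hπ
        obtain ⟨y0, hy0⟩ := hC.m0v q hq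
        refine ⟨ya ^ l * y0 ^ j * g, ?_⟩
        have h1 : ∀ (f : Fin t → ℕ), q.valuation F ((∏ i, π i ^ f i : 𝓞 F) : F) = 1 := by
          intro f
          refine val_one q _ ?_
          intro h
          obtain ⟨i, _, hi⟩ := (q.isPrime.prod_mem_iff).1 h
          exact hπ i (q.isPrime.mem_of_pow_mem _ hi)
        have h2 : q.valuation F (Mx m0 π c : F) = q.valuation F (m0 : F) := by
          unfold Mx
          rw [cm, map_mul, h1, mul_one]
        have h3 := congrArg (q.valuation F) heq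
        rw [map_mul, map_mul, map_pow, map_pow, map_pow, h2, hya, hy0, cm, map_mul, h1,
          mul_one] at h3
        rw [← h3, map_mul, map_mul, map_pow, map_pow, mul_pow, mul_pow, ← pow_mul, ← pow_mul,
          ← pow_mul, ← pow_mul, mul_comm p l, mul_comm p j]
    · intro v hv
      obtain ⟨k, hk⟩ := hD.loc v hv
      obtain ⟨⟨h1, h2, h3, -⟩, -⟩ := And.intro (hLPM.1 F p v) trivial
      refine ⟨k * l + (p - 1) * j, ?_⟩
      have h4 := (hLPM.2 F p t m0 x c π hC v hv D e (k * l + (p - 1) * j)).1 ?_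
      · simp only [hval]
        exact h4
      · have h5 := h1 _ _ (h2 _ l hk) (h3 ((Mx m0 π c : F) ^ j * g))
        have h6 : ((D * (∏ i, π i ^ e i) * Mx m0 π c ^ (k * l + (p - 1) * j) : 𝓞 F) : F) =
            (a * (Mx m0 π c : F) ^ k) ^ l * ((Mx m0 π c : F) ^ j * g) ^ p := by
          rw [cm, ← heq, cp]
          obtain ⟨s, rfl⟩ : ∃ s, p = s + 1 := ⟨p - 1, by omega⟩
          rw [Nat.add_sub_cancel]
          ring
        rw [h6]
        exact h5

end Pool.Agent.Work.MP_59f3ad_nt.PX
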