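import Mathlib
import Pool.Agent.Work.MP_59f3ad_nt.PX.StmtsB

/-!
Item RL2 of block PX (helper61): the relation.
-/

set_option autoImplicit false

open NumberField IsDedekindDomain

namespace Pool.Agent.Work.MP_59f3ad_nt.PX

universe u

namespace IRL2

section

variable {F : Type u} [Field F] [NumberField F] {p : ℕ} {ind : 𝓞 F → 𝓞 F → ZMod p}

theorem ind_one (h : Sym F p ind) {π : 𝓞 F} (hπ : Prime π) (hnp : ¬ π ∣ (p : 𝓞 F)) :
    ind π 1 = 0 := by
  have h1 : ¬ π ∣ (1 : 𝓞 F) := fun h => hπ.not_isUnit (isUnit_of_dvd_one h)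
  have h2 := h.mul π hπ hnp 1 1 h1 h1
  rw [mul_one] at h2
  simpa using h2

theorem ind_pow (h : Sym F p ind) {π : 𝓞 F} (hπ : Prime π) (hnp : ¬ π ∣ (p : 𝓞 F)) {z : 𝓞 F}
    (hz : ¬ π ∣ z) (n : ℕ) : ind π (z ^ n) = n * ind π z := by
  induction n with
  | zero => simp [ind_one h hπ hnp]
  | succ n ih =>
    rw [pow_succ, h.mul π hπ hnp _ _ (fun h => hz (hπ.dvd_of_dvd_pow h)) hz, ih]
    push_cast
    ring

theorem ind_prod (h : Sym F p ind) {π : 𝓞 F} (hπ : Prime π) (hnp : ¬ π ∣ (p : 𝓞 F)) {ι : Type}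
    (s : Finset ι) (f : ι → 𝓞 F) (hf : ∀ i ∈ s, ¬ π ∣ f i) :
    ind π (∏ i ∈ s, f i) = ∑ i ∈ s, ind π (f i) := by
  classical
  induction s using Finset.induction_on with
  | empty => simp [ind_one h hπ hnp]
  | insert a s ha ih =>
    rw [Finset.prod_insert ha, Finset.sum_insert ha,
      h.mul π hπ hnp _ _ (hf a (Finset.mem_insert_self a s)), ih]
    · intro i hi
      exact hf i (Finset.mem_insert_of_mem hi)
    · intro hd
      obtain ⟨i, hi, hdi⟩ := hπ.exists_mem_finset_dvd hd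
      exact hf i (Finset.mem_insert_of_mem hi) hdi

end

end IRL2

/-- RL2: the relation. -/
theorem pr_RL2 (hWW : StWW.{u}) : StRL2.{u} := by
  intro F _ _ p hp ind hS t m0 x c π hC a hD l j e D g hR d hd hcop k
  classical
  have hπ := hC.pr k
  have hnp := hC.np k
  -- the prime elements are pairwise not associated
  have hki : ∀ i ∈ Finset.univ.erase k, ¬ π k ∣ π i := by
    intro i hi hdvd
    have := hC.na k i (hπ.associated_of_dvd (hC.pr i) hdvd)
    exact (Finset.ne_of_mem_erase hi) this.symm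
  have hp1 : ((p - 1 : ℕ) : ZMod p) = -1 := by
    rw [Nat.cast_sub hp.out.one_le]
    simp
  -- `ind D = ind d`
  obtain ⟨g', hg'⟩ := hWW F p t m0 x c π hC e D d hR.wit hd
  have hkD : ¬ π k ∣ D := hR.cop k
  have hkd : ¬ π k ∣ d := hcop k
  have hkd' : ¬ π k ∣ d ^ (p - 1) := fun h => hkd (hπ.dvd_of_dvd_pow h)
  have hkg : ¬ π k ∣ g' := by
    intro h
    have h1 : π k ∣ D * d ^ (p - 1) := by
      rw [← hg']
      exact dvd_pow h hp.out.ne_zero
    rcases hπ.dvd_or_dvd h1 with h2 | h2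
    · exact hkD h2
    · exact hkd' h2
  have hDd : ind (π k) D = ind (π k) d := by
    have h1 : ind (π k) (g' ^ p) = ind (π k) (D * d ^ (p - 1)) := by rw [hg']
    rw [IRL2.ind_pow hS hπ hnp hkg, hS.mul _ hπ hnp _ _ hkD hkd',
      IRL2.ind_pow hS hπ hnp hkd, hp1] at h1
    simp only [CharP.cast_eq_zero, zero_mul] at h1
    linear_combination -h1
  -- the tame symbol
  obtain ⟨y, hy⟩ := hD.tam l j g D (fun i => (e i).val) hR.gn hR.cop hR.eq k
  have hA : ∀ n : Fin t → ℕ, ∀ i ∈ Finset.univ.erase k, ¬ π k ∣ π i ^ n i :=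
    fun n i hi h => hki i hi (hπ.dvd_of_dvd_pow h)
  have hAp : ∀ n : Fin t → ℕ, ¬ π k ∣ ∏ i ∈ Finset.univ.erase k, π i ^ n i := by
    intro n h
    obtain ⟨i, hi, hdi⟩ := hπ.exists_mem_finset_dvd h
    exact hA n i hi hdi
  have hm0 : ¬ π k ∣ m0 := hC.nm0 k
  have hmul : ∀ z : 𝓞 F, ¬ π k ∣ z → ∀ n : Fin t → ℕ,
      ¬ π k ∣ z * ∏ i ∈ Finset.univ.erase k, π i ^ n i := by
    intro z hz n h
    rcases hπ.dvd_or_dvd h with h | h
    · exact hz h
    · exact hAp n h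
  have hind : ∀ z : 𝓞 F, ¬ π k ∣ z → ∀ n : Fin t → ℕ,
      ind (π k) (z * ∏ i ∈ Finset.univ.erase k, π i ^ n i) =
        ind (π k) z + ∑ i ∈ Finset.univ.erase k, (n i : ZMod p) * ind (π k) (π i) := by
    intro z hz n
    rw [hS.mul _ hπ hnp _ _ hz (hAp n), IRL2.ind_prod hS hπ hnp _ _ (hA n)]
    congr 1
    exact Finset.sum_congr rfl fun i hi => IRL2.ind_pow hS hπ hnp (hki i hi) _
  have hX1 := hmul D hkD (fun i => (e i).val)
  have hX2 := hmul m0 hm0 c
  have h0 : ind (π k) ((D * ∏ i ∈ Finset.univ.erase k, π i ^ (e i).val) ^ c k *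
      (m0 * ∏ i ∈ Finset.univ.erase k, π i ^ c i) ^ ((p - 1) * (e k).val)) = 0 := by
    refine (hS.pow _ hπ hnp _ ?_).2 ⟨y, hy⟩
    intro h
    rcases hπ.dvd_or_dvd h with h | h
    · exact hX1 (hπ.dvd_of_dvd_pow h)
    · exact hX2 (hπ.dvd_of_dvd_pow h)
  rw [hS.mul _ hπ hnp _ _ (fun h => hX1 (hπ.dvd_of_dvd_pow h))
      (fun h => hX2 (hπ.dvd_of_dvd_pow h)), IRL2.ind_pow hS hπ hnp hX1,
    IRL2.ind_pow hS hπ hnp hX2, hind D hkD (fun i => (e i).val), hind m0 hm0 c, hDd] at h0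
  push_cast at h0
  simp only [ZMod.natCast_zmod_val] at h0
  have hsum : ∑ i ∈ Finset.univ.erase k, ((c k : ZMod p) * e i - (c i : ZMod p) * e k) *
      ind (π k) (π i) =
      (c k : ZMod p) * ∑ i ∈ Finset.univ.erase k, e i * ind (π k) (π i) -
        e k * ∑ i ∈ Finset.univ.erase k, (c i : ZMod p) * ind (π k) (π i) := by
    rw [Finset.mul_sum, Finset.mul_sum, ← Finset.sum_sub_distrib]
    exact Finset.sum_congr rfl fun i _ => by ring
  rw [hsum]
  rw [hp1] at h0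
  linear_combination h0

end Pool.Agent.Work.MP_59f3ad_nt.PX
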