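import Mathlib
import Pool.Agent.Work.MP_59f3ad_nt.PX.StmtsB

/-!
Item RL3 of block PX: the exponent vector of a relation is not proportional to `c`.
-/

set_option autoImplicit false

open NumberField IsDedekindDomain

namespace Pool.Agent.Work.MP_59f3ad_nt.PX

universe u

namespace IRL3

theorem prodId {R : Type u} [CommRing R] {t p : ℕ} (π : Fin t → R) (ev c f : Fin t → ℕ) (s : ℕ)
    (m0 D : R) (h : ∀ i, ev i + c i * s = p * f i) :
    D * (∏ i, π i ^ ev i) * (m0 * ∏ i, π i ^ c i) ^ s =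
      D * m0 ^ s * (∏ i, π i ^ f i) ^ p := by
  have h1 : (∏ i, π i ^ ev i) * (∏ i, π i ^ c i) ^ s = (∏ i, π i ^ f i) ^ p := by
    rw [← Finset.prod_pow, ← Finset.prod_mul_distrib, ← Finset.prod_pow]
    refine Finset.prod_congr rfl fun i _ => ?_
    rw [← pow_mul, ← pow_add, h i, mul_comm p, pow_mul]
  rw [mul_pow, ← h1]
  ring

theorem exps {p : ℕ} [Fact p.Prime] {t : ℕ} (ht : 1 ≤ t) (c : Fin t → ℕ)
    (hc : ∀ i, 1 ≤ c i ∧ c i < p) (e : Fin t → ZMod p)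
    (h : ∀ i k, (c k : ZMod p) * e i = (c i : ZMod p) * e k) :
    ∃ (s : ℕ) (f : Fin t → ℕ), ∀ i, (e i).val + c i * s = p * f i := by
  have hc0 : (c ⟨0, ht⟩ : ZMod p) ≠ 0 := by
    rw [Ne, ZMod.natCast_eq_zero_iff]
    exact Nat.not_dvd_of_pos_of_lt (hc _).1 (hc _).2
  have hlam : ∀ i, e i = e ⟨0, ht⟩ / (c ⟨0, ht⟩ : ZMod p) * c i := by
    intro i
    have h1 := h i ⟨0, ht⟩
    rw [div_mul_eq_mul_div, eq_div_iff hc0, mul_comm (e i), h1, mul_comm]
  generalize e ⟨0, ht⟩ / (c ⟨0, ht⟩ : ZMod p) = lam at hlam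
  have hd : ∀ i, p ∣ (e i).val + c i * (-lam).val := by
    intro i
    rw [← ZMod.natCast_eq_zero_iff]
    push_cast
    rw [ZMod.natCast_zmod_val, ZMod.natCast_zmod_val, hlam i]
    ring
  choose f hf using hd
  exact ⟨(-lam).val, f, hf⟩

theorem inv {p : ℕ} (hp : p.Prime) {l : ℕ} (hl : ¬ p ∣ l) : ∃ l' s : ℕ, l * l' = 1 + p * s := by
  have h1 : Nat.Coprime l p := ((Nat.Prime.coprime_iff_not_dvd hp).2 hl).symm
  obtain ⟨m, _, hm⟩ := Nat.exists_mul_mod_eq_one_of_coprime h1 hp.one_lt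
  refine ⟨m, l * m / p, ?_⟩
  have h2 := Nat.mod_add_div (l * m) p
  rw [hm] at h2
  exact h2.symm

theorem fin {F : Type u} [Field F] {a m w : F} (ha : a ≠ 0) (hm : m ≠ 0) {p l l' s n : ℕ}
    (hp : 1 ≤ p) (h : a ^ l * m ^ n = w ^ p) (hl : l * l' = 1 + p * s) :
    ∃ (J : ℕ) (G : F), a = m ^ J * G ^ p := by
  refine ⟨(p - 1) * (n * l'), w ^ l' / (a ^ s * m ^ (n * l')), ?_⟩
  have h1 : a * (a ^ s) ^ p * m ^ (n * l') = (w ^ l') ^ p := by
    have h2 := congrArg (fun z => z ^ l') h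
    simp only [mul_pow] at h2
    rw [← pow_mul, hl, ← pow_mul m, ← pow_mul, mul_comm p l', pow_mul w] at h2
    rw [← h2, pow_add, pow_one, mul_comm p s, pow_mul a]
  obtain ⟨q, rfl⟩ : ∃ q, p = q + 1 := ⟨p - 1, by omega⟩
  rw [div_pow, Nat.add_sub_cancel, mul_div_assoc', eq_div_iff
    (pow_ne_zero _ (mul_ne_zero (pow_ne_zero _ ha) (pow_ne_zero _ hm))), ← h1]
  generalize n * l' = J
  rw [mul_pow, mul_comm q J, pow_mul m J q, pow_succ (m ^ J)]
  ring

theorem vd {F : Type u} [Field F] [NumberField F] {p : ℕ} {v : HeightOneSpectrum (𝓞 F)} {a b : F}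
    (ha : Vd F p v a) (hb : Vd F p v b) (s : ℕ) : Vd F p v (a * b ^ s) := by
  obtain ⟨y, hy⟩ := ha
  obtain ⟨z, hz⟩ := hb
  refine ⟨y * z ^ s, ?_⟩
  rw [map_mul, map_pow, hy, hz, map_mul, map_pow, mul_pow, ← pow_mul, ← pow_mul, mul_comm p s]

end IRL3

/-- RL3 -/
theorem pr_RL3 (hLPM : StLPM.{u}) : StRL3.{u} := by
  intro F _ _ p _ t m0 x c π hC a hD l j e D g hR hl
  by_contra hcon
  push Not at hcon
  obtain ⟨hL, hL4⟩ := hLPM
  have hp : p.Prime := Fact.out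
  obtain ⟨s, f, hf⟩ := IRL3.exps hC.ht c hC.hc e hcon
  have hm0 : algebraMap (𝓞 F) F (Mx m0 π c) ≠ 0 := by
    rw [Ne, FaithfulSMul.algebraMap_eq_zero_iff]
    exact mul_ne_zero hC.m0n (Finset.prod_ne_zero_iff.2 fun i _ => pow_ne_zero _ (hC.pr i).ne_zero)
  have hP0 : algebraMap (𝓞 F) F (∏ i, π i ^ f i) ≠ 0 := by
    rw [Ne, FaithfulSMul.algebraMap_eq_zero_iff]
    exact Finset.prod_ne_zero_iff.2 fun i _ => pow_ne_zero _ (hC.pr i).ne_zero
  have heq : a ^ l * algebraMap (𝓞 F) F (Mx m0 π c) ^ j * g ^ p =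
      algebraMap (𝓞 F) F (D * ∏ i, π i ^ (e i).val) := hR.eq
  have hid : D * (∏ i, π i ^ (e i).val) * Mx m0 π c ^ s =
      D * m0 ^ s * (∏ i, π i ^ f i) ^ p := IRL3.prodId π _ c f s m0 D hf
  have hid2 : algebraMap (𝓞 F) F (D * m0 ^ s) * algebraMap (𝓞 F) F (∏ i, π i ^ f i) ^ p =
      a ^ l * algebraMap (𝓞 F) F (Mx m0 π c) ^ (j + s) * g ^ p := by
    rw [← map_pow, ← map_mul, ← hid, map_mul, ← heq, map_pow, pow_add]
    ring
  -- `D * m0 ^ s` is a witness for the vector `0`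
  have hW : Wt p m0 x c 0 (D * m0 ^ s) := by
    refine ⟨mul_ne_zero hR.wit.ne (pow_ne_zero _ hC.m0n), ?_, ?_⟩
    · intro q hq
      have h1 := IRL3.vd (hR.wit.val q hq) (hC.m0v q hq) s
      have h2 : ((D * m0 ^ s : 𝓞 F) : F) = (D : F) * (m0 : F) ^ s := by
        change algebraMap (𝓞 F) F (D * m0 ^ s) = _
        rw [map_mul, map_pow]
      rw [h2]
      exact h1
    · intro v hv
      obtain ⟨k, hk⟩ := hD.loc v hv
      obtain ⟨L1, L2, L3, L5⟩ := hL F p v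
      refine ⟨k * l + (p - 1) * (j + s), ?_⟩
      have h1 := L1 _ _ (L2 _ l hk)
        (L3 (algebraMap (𝓞 F) F (Mx m0 π c) ^ (j + s) * g))
      have h2 : (a * algebraMap (𝓞 F) F (Mx m0 π c) ^ k) ^ l *
          (algebraMap (𝓞 F) F (Mx m0 π c) ^ (j + s) * g) ^ p =
          (algebraMap (𝓞 F) F (D * m0 ^ s) *
            algebraMap (𝓞 F) F (Mx m0 π c) ^ (k * l + (p - 1) * (j + s))) *
            algebraMap (𝓞 F) F (∏ i, π i ^ f i) ^ p := by
        obtain ⟨q, hq⟩ : ∃ q, p = q + 1 := ⟨p - 1, by have := hp.pos; omega⟩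
        have h3 : (algebraMap (𝓞 F) F (D * m0 ^ s) *
            algebraMap (𝓞 F) F (Mx m0 π c) ^ (k * l + (p - 1) * (j + s))) *
            algebraMap (𝓞 F) F (∏ i, π i ^ f i) ^ p =
            (algebraMap (𝓞 F) F (D * m0 ^ s) * algebraMap (𝓞 F) F (∏ i, π i ^ f i) ^ p) *
            algebraMap (𝓞 F) F (Mx m0 π c) ^ (k * l + (p - 1) * (j + s)) := by ring
        rw [h3, hid2]
        generalize algebraMap (𝓞 F) F (Mx m0 π c) = m
        have h4 : (m ^ (j + s)) ^ p = m ^ (j + s) * m ^ ((p - 1) * (j + s)) := by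
          rw [← pow_mul, ← pow_add]
          congr 1
          rw [hq, Nat.add_sub_cancel]
          ring
        rw [mul_pow, mul_pow, h4, pow_add m (k * l), pow_mul]
        ring
      have h5 : Lp F p v ((a * algebraMap (𝓞 F) F (Mx m0 π c) ^ k) ^ l *
          (algebraMap (𝓞 F) F (Mx m0 π c) ^ (j + s) * g) ^ p) := h1
      rw [h2] at h5
      have h6 := L5 _ _ (pow_ne_zero p hP0) h5 (L3 _)
      have h7 := (hL4 F p t m0 x c π hC v hv (D * m0 ^ s) (fun _ => 0)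
        (k * l + (p - 1) * (j + s))).1 (by
          have h8 : ((D * m0 ^ s * (∏ i, π i ^ (fun _ : Fin t => 0) i) *
              Mx m0 π c ^ (k * l + (p - 1) * (j + s)) : 𝓞 F) : F) =
              algebraMap (𝓞 F) F (D * m0 ^ s) *
              algebraMap (𝓞 F) F (Mx m0 π c) ^ (k * l + (p - 1) * (j + s)) := by
            change algebraMap (𝓞 F) F _ = _
            simp only [pow_zero, Finset.prod_const_one, mul_one]
            rw [map_mul _ (D * m0 ^ s), map_pow _ (Mx m0 π c)]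
          rw [h8]
          exact h6)
      simpa using h7
  obtain ⟨g', hg'⟩ := hC.hH _ hW
  have hg : g ≠ 0 := hR.gn
  have hw : a ^ l * algebraMap (𝓞 F) F (Mx m0 π c) ^ (j + s) =
      (algebraMap (𝓞 F) F g' * algebraMap (𝓞 F) F (∏ i, π i ^ f i) / g) ^ p := by
    rw [div_pow, eq_div_iff (pow_ne_zero _ hg), ← hid2, ← hg', map_pow, mul_pow]
  obtain ⟨l', s', hl'⟩ := IRL3.inv hp hl
  obtain ⟨J, G, hJ⟩ := IRL3.fin hD.ne hm0 hp.one_le hw hl'
  exact hD.non J G hJ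

end Pool.Agent.Work.MP_59f3ad_nt.PX
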