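import Mathlib
import Pool.Agent.Work.MP_59f3ad_nt.PX.StmtsB
import Pool.Agent.Work.MP_59f3ad_nt.Bridge

/-!
Block PX, item RL4: different `(l, j)` have different exponent vectors.
-/

set_option autoImplicit false

open NumberField IsDedekindDomain

namespace Pool.Agent.Work.MP_59f3ad_nt.PX

universe u

namespace IRL4

/-- if `a^N1 M^N2` is a `p`-th power and `p ∤ N1` then `a` is a power of `M` times a `p`-th power -/
theorem root {F : Type u} [Field F] {p : ℕ} (hp : p.Prime) {a M h : F} (ha : a ≠ 0) (hM : M ≠ 0)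
    {N1 N2 : ℕ} (hN : ¬ p ∣ N1) (he : a ^ N1 * M ^ N2 = h ^ p) :
    ∃ (j : ℕ) (g : F), a = M ^ j * g ^ p := by
  obtain ⟨i, s, his⟩ : ∃ i s : ℕ, N1 * i = 1 + p * s := by
    have hcop : Nat.Coprime N1 p := ((Nat.Prime.coprime_iff_not_dvd hp).mpr hN).symm
    obtain ⟨i, hi⟩ := Nat.exists_mul_mod_eq_one_of_coprime hcop hp.one_lt
    refine ⟨i, N1 * i / p, ?_⟩
    have h1 := Nat.div_add_mod (N1 * i) p
    rw [hi.2] at h1
    omega
  refine ⟨(p - 1) * (N2 * i), h ^ i / (a ^ s * M ^ (N2 * i)), ?_⟩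
  have h1 : a ^ (N1 * i) * M ^ (N2 * i) = (h ^ i) ^ p := by
    rw [pow_mul, pow_mul, ← mul_pow, he, ← pow_mul, ← pow_mul, mul_comm p i]
  rw [his, pow_add, pow_one, mul_comm p s, pow_mul a s p] at h1
  rw [div_pow, ← h1, mul_pow]
  have h2 : M ^ ((p - 1) * (N2 * i)) * M ^ (N2 * i) = (M ^ (N2 * i)) ^ p := by
    rw [← pow_add, ← pow_mul]
    congr 1
    have h3 : (p - 1) * (N2 * i) + N2 * i = (p - 1 + 1) * (N2 * i) := by ring
    rw [h3, Nat.sub_add_cancel hp.one_le, mul_comm]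
  have h4 : (a ^ s) ^ p ≠ 0 := pow_ne_zero _ (pow_ne_zero _ ha)
  have h5 : (M ^ (N2 * i)) ^ p ≠ 0 := pow_ne_zero _ (pow_ne_zero _ hM)
  rw [← mul_div_assoc, eq_div_iff (mul_ne_zero h4 h5)]
  linear_combination (-a * (a ^ s) ^ p) * h2

/-- two congruent numbers between `0` and `p - 1` are equal -/
theorem eq_of_dvd {p l l' : ℕ} (hp : 1 ≤ p) (hl : l < p) (hl' : l' < p)
    (h : p ∣ l + (p - 1) * l') : l = l' := by
  have h1 : (p : ℤ) ∣ (l : ℤ) - l' := by
    have h2 : (p : ℤ) ∣ ((l + (p - 1) * l' : ℕ) : ℤ) := by exact_mod_cast h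
    have h3 : (l : ℤ) - l' = ((l + (p - 1) * l' : ℕ) : ℤ) - p * l' := by
      push_cast [Nat.cast_sub hp]
      ring
    rw [h3]
    exact dvd_sub h2 (dvd_mul_right _ _)
  have h4 : ((l : ℤ) - l') = 0 := by
    apply Int.eq_zero_of_abs_lt_dvd h1
    rw [abs_lt]
    omega
  omega

end IRL4

open IRL4 in
theorem pr_RL4 (hWW : StWW.{u}) (hLPM : StLPM.{u}) : StRL4.{u} := by
  intro F _ _ p _ t m0 x c π hC a hDt l j l' j' e D D' g g' hl1 hlp hl1' hlp' hjp hjp' hR hR'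
  have hp : p.Prime := Fact.out
  obtain ⟨g0, hg0⟩ := hWW F p t m0 x c π hC e D D' hR.wit hR'.wit
  have hπ0 : ∀ i, π i ≠ 0 := fun i => (hC.pr i).ne_zero
  have hMO : Mx m0 π c ≠ 0 := by
    unfold Mx
    exact mul_ne_zero hC.m0n (Finset.prod_ne_zero_iff.mpr fun i _ => pow_ne_zero _ (hπ0 i))
  have hM : (Mx m0 π c : F) ≠ 0 := by
    intro h0
    exact hMO (RingOfIntegers.ext h0)
  set M : F := (Mx m0 π c : F) with hMd
  set E : 𝓞 F := ∏ i, π i ^ (e i).val with hE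
  have h1 : a ^ l * M ^ j * g ^ p = (D : F) * (E : F) := by
    have := hR.eq
    rw [← hE] at this
    rw [this]
    push_cast
    rfl
  have h2 : a ^ l' * M ^ j' * g' ^ p = (D' : F) * (E : F) := by
    have := hR'.eq
    rw [← hE] at this
    rw [this]
    push_cast
    rfl
  have h3 : (g0 : F) ^ p = (D : F) * (D' : F) ^ (p - 1) := by
    have := congrArg (fun z : 𝓞 F => (z : F)) hg0
    simpa using this
  have ha := hDt.ne
  have hg := hR.gn
  have hg' := hR'.gn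
  -- the exponents
  have hkey : ∃ h : F, a ^ (l + (p - 1) * l') * M ^ (j + (p - 1) * j') = h ^ p := by
    refine ⟨(g0 : F) * (E : F) / (g * g' ^ (p - 1)), ?_⟩
    have h4 : (a ^ l * M ^ j * g ^ p) * (a ^ l' * M ^ j' * g' ^ p) ^ (p - 1) =
        ((g0 : F) * (E : F)) ^ p := by
      rw [h1, h2, mul_pow (g0 : F), h3, mul_pow]
      have h5 : (E : F) ^ p = (E : F) * (E : F) ^ (p - 1) := by
        rw [← pow_succ', Nat.sub_add_cancel hp.one_le]
      rw [h5]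
      ring
    have h6 : (g * g' ^ (p - 1)) ^ p ≠ 0 :=
      pow_ne_zero _ (mul_ne_zero hg (pow_ne_zero _ hg'))
    rw [div_pow, eq_div_iff h6, ← h4, pow_add, pow_add, mul_comm (p - 1) l', mul_comm (p - 1) j',
      pow_mul, pow_mul, mul_pow, mul_pow, mul_pow, ← pow_mul g', ← pow_mul g', mul_comm p (p - 1)]
    ring
  obtain ⟨h, hh⟩ := hkey
  have hll : l = l' := by
    by_contra hne
    obtain ⟨j'', g'', hjg⟩ := root hp ha hM (fun hd => hne (eq_of_dvd hp.one_le hlp hlp' hd)) hh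
    exact hDt.non j'' g'' hjg
  refine ⟨hll, ?_⟩
  by_contra hne
  subst hll
  have hN : ¬ p ∣ j + (p - 1) * j' := fun hd => hne (eq_of_dvd hp.one_le hjp hjp' hd)
  have hMp : M ^ (j + (p - 1) * j') * (1 : F) ^ 0 = (h / a ^ l) ^ p := by
    rw [pow_zero, mul_one, div_pow, eq_div_iff (pow_ne_zero _ (pow_ne_zero _ ha)), ← hh, mul_comm]
    congr 1
    rw [← pow_mul]
    congr 1
    have h3 : l + (p - 1) * l = (p - 1 + 1) * l := by ring
    rw [h3, Nat.sub_add_cancel hp.one_le, mul_comm]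
  obtain ⟨j2, g2, hg2⟩ := root hp hM one_ne_zero hN hMp
  rw [one_pow, one_mul] at hg2
  obtain ⟨v, hv⟩ := exists_prime_above F p
  have hvS : v ∈ Sp F p := hv
  have hL1 : Lp F p v M := by
    rw [hg2]
    exact (hLPM.1 F p v).2.2.1 g2
  have hiff := hLPM.2 F p t m0 x c π hC v hvS 1 (fun _ => 0) 1
  apply hC.nsp v hvS
  have e1 : (1 * (∏ i, π i ^ 0) * Mx m0 π c ^ 1 : 𝓞 F) = Mx m0 π c := by simp
  have e2 : (1 * (∏ i, x i ^ 0) * Mx m0 x c ^ 1 : 𝓞 F) = Mx m0 x c := by simp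
  rw [e1, e2] at hiff
  exact hiff.mp hL1

end Pool.Agent.Work.MP_59f3ad_nt.PX
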