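import Mathlib
import Pool.Agent.Work.MP_59f3ad_nt.PX.StmtsB

/-!
Block PX, item RLS: a bad tuple satisfies `(p - 1) p` relations.
-/

set_option autoImplicit false

open NumberField IsDedekindDomain

namespace Pool.Agent.Work.MP_59f3ad_nt.PX

universe u

/-- Item RLS. -/
theorem pr_RLS (hDET : StDET.{u}) (hRL1 : StRL1.{u}) (hRL2 : StRL2.{u}) (hRL3 : StRL3.{u})
    (hRL4 : StRL4.{u}) (hLPM : StLPM.{u}) : StRLS.{u} := by
  intro F _ _ p hp hp2 ζ hζ ind hind t m0 x c π hC d hd hbad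
  simp only [Good, not_forall] at hbad
  obtain ⟨L, iL, nL, aL, y, hfr, hy, r, hr, hSF, S, hS, hne⟩ := hbad
  have h0 : ∀ v ∈ Sp F p, ¬ Lp F p v (Mx m0 π c : F) := by
    intro v hv h
    have h1 := hLPM.2 F p t m0 x c π hC v hv 1 (fun _ => 0) 1
    simp only [pow_zero, Finset.prod_const_one, mul_one, one_mul, pow_one] at h1
    exact hC.nsp v hv (h1.1 h)
  obtain ⟨a, ha0, hloc, hval, hnon, htam⟩ := hDET F p hp2 ζ hζ t m0 π c hC.ht hC.m0n hC.m0v hC.pr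
    hC.np hC.na hC.nm0 hC.hc h0 L y hfr hy r hr hSF S hS hne
  have hDt : Dt p m0 c π a := ⟨ha0, hloc, hval, hnon, htam⟩
  choose e D g hRl using hRL1 F p t m0 x c π hC a hDt
  have hndvd : ∀ l : ℕ, 1 ≤ l → l < p → ¬ p ∣ l := by
    intro l h1 h2 h3
    exact absurd (Nat.le_of_dvd h1 h3) (not_le.2 h2)
  refine ⟨(Finset.Ico 1 p ×ˢ Finset.range p).image (fun z : ℕ × ℕ => e z.1 z.2), ?_, ?_⟩
  · rw [Finset.card_image_of_injOn, Finset.card_product, Nat.card_Ico, Finset.card_range]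
    rintro ⟨l, j⟩ h1 ⟨l', j'⟩ h2 h3
    simp only [Finset.coe_product, Set.mem_prod, Finset.mem_coe, Finset.mem_Ico,
      Finset.mem_range] at h1 h2 h3
    have h4 := hRl l' j'
    rw [← h3] at h4
    obtain ⟨h5, h6⟩ := hRL4 F p t m0 x c π hC a hDt l j l' j' (e l j) (D l j) (D l' j') (g l j)
      (g l' j') h1.1.1 h1.1.2 h2.1.1 h2.1.2 h1.2 h2.2 (hRl l j) h4
    rw [h5, h6]
  · intro e' he'
    obtain ⟨⟨l, j⟩, hlj, rfl⟩ := Finset.mem_image.1 he'
    simp only [Finset.mem_product, Finset.mem_Ico, Finset.mem_range] at hlj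
    have hEE : e l j ∈ EE p m0 x c :=
      ⟨hRL3 F p t m0 x c π hC a hDt l j (e l j) (D l j) (g l j) (hRl l j)
        (hndvd l hlj.1.1 hlj.1.2), D l j, (hRl l j).wit⟩
    exact ⟨hEE, fun k => hRL2 F p ind hind t m0 x c π hC a hDt l j (e l j) (D l j) (g l j)
      (hRl l j) (d (e l j)) (hd _ hEE).1 (hd _ hEE).2 k⟩

end Pool.Agent.Work.MP_59f3ad_nt.PX
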