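import Mathlib
import Pool.Agent.Work.MP_59f3ad_nt.PX.StmtsD

/-!
Item SHF of block PX: Tate-Shafarevich cocycles of the Galois group of an algebraic closure of `L`
over the subfield `F` are coboundaries if the Tate-Shafarevich group of `F` is trivial.
-/

set_option autoImplicit false

open NumberField IsDedekindDomain

namespace Pool.Agent.Work.MP_59f3ad_nt.PX

open Pool.Agent.Work.MP_59f3ad_nt.FE

universe u

namespace ISHF

theorem conj {k Ω Ω' : Type u} [Field k] [Field Ω] [Field Ω'] [Algebra k Ω] [Algebra k Ω']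
    (e : Ω ≃ₐ[k] Ω') (g : Ω ≃ₐ[k] Ω) :
    (e.trans ((e.symm.trans g).trans e)).trans e.symm = g := by
  ext x
  simp

theorem isAlg (F L : Type u) [Field F] [NumberField F] [Field L] [NumberField L] [Algebra F L] :
    IsAlgClosure F (AlgebraicClosure L) := by
  haveI : Algebra.IsAlgebraic F L := Algebra.IsAlgebraic.tower_top (K := ℚ) F
  haveI : Algebra.IsAlgebraic F (AlgebraicClosure L) := Algebra.IsAlgebraic.trans F L _
  exact ⟨inferInstance, inferInstance⟩

end ISHF

/-- SHF -/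
theorem pr_SHF (hSHZ : StSHZ.{u}) (hTRN : StTRN.{u}) : StSHF.{u} := by
  intro F L _ _ _ _ _ p _ h2 ζ hζ r hSha Ψ hΨ
  haveI := ISHF.isAlg F L
  let e : AlgebraicClosure L ≃ₐ[F] AlgebraicClosure F := IsAlgClosure.equiv F _ _
  obtain ⟨h1, h3⟩ := hTRN F (AlgebraicClosure L) (AlgebraicClosure F) p r e Ψ hΨ
  have h4 := hSHZ F p h2 ζ hζ r _ h1
  obtain ⟨c, hc⟩ := (Sha1_eq_bot_iff F p r (Sp F p)).1 hSha _ h4
  refine ⟨c, fun g => ?_⟩
  have h6 := hc ((e.symm.trans g).trans e)
  have h7 := h3 ((e.symm.trans g).trans e)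
  rw [twist_eq, ← h7] at h6
  simp only [ISHF.conj] at h6
  exact h6

end Pool.Agent.Work.MP_59f3ad_nt.PX
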