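import Mathlib
import Pool.Agent.Work.MP_59f3ad_nt.PX.StmtsD
import Pool.Agent.Work.MP_59f3ad_nt.Q3.I_Fix
import Pool.Agent.Work.MP_59f3ad_nt.Q3.I_Mon

/-!
Block PX, item SHS: classes of the Tate-Shafarevich group satisfy `SH`.
-/

set_option autoImplicit false

open NumberField IsDedekindDomain

namespace Pool.Agent.Work.MP_59f3ad_nt.PX

open Pool.Agent.Work.MP_59f3ad_nt.FE

universe u

namespace ISHS

/-- an automorphism which fixes all algebraic integers is the identity -/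
theorem eq_one {K : Type u} [Field K] [NumberField K] (h : GK K)
    (hh : Inr (⊥ : Ideal (𝓞 (AlgebraicClosure K))) h) : h = 1 := by
  have hfix : ∀ y : AlgebraicClosure K, IsIntegral ℤ y → h y = y := by
    intro y hy
    have hint : IsIntegral ℤ (h y) := map_isIntegral_int h hy
    have h1 := hh ⟨y, hy⟩ ⟨h y, hint⟩ rfl
    rw [Ideal.mem_bot, sub_eq_zero] at h1
    exact congrArg (fun z : 𝓞 (AlgebraicClosure K) => (z : AlgebraicClosure K)) h1
  ext x
  have ha : Algebra.IsAlgebraic ℚ (AlgebraicClosure K) :=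
    Algebra.IsAlgebraic.trans ℚ K (AlgebraicClosure K)
  have hx : IsAlgebraic ℤ x :=
    (IsFractionRing.isAlgebraic_iff ℤ ℚ (AlgebraicClosure K)).2 (Algebra.IsAlgebraic.isAlgebraic x)
  obtain ⟨m, hm, hy⟩ := hx.exists_integral_multiple
  have h1 := hfix _ hy
  rw [zsmul_eq_mul, map_mul, map_intCast] at h1
  have hm0 : ((m : ℤ) : AlgebraicClosure K) ≠ 0 := Int.cast_ne_zero.2 hm
  exact mul_left_cancel₀ hm0 h1

end ISHS

theorem pr_SHS (hLD : StLD.{u}) : StSHS.{u} := by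
  intro K _ _ p _ r S hS φ hφ
  have hφ' : φ ∈ ShaZ K p r (Sp K p) := Q3.pr_Mon K p r S hS hφ
  obtain ⟨⟨hZ, hvan⟩, hloc, -⟩ := hφ'
  have h1 : φ 1 = 0 := by
    have h1 := hZ.2 1 1
    rw [mul_one, twist_one, one_mul] at h1
    exact left_eq_add.mp h1
  refine ⟨hZ.1, fun g h => hZ.2 g h, ?_, ?_⟩
  · intro Q hQ hpQ h hh
    by_cases hQ0 : Q = ⊥
    · subst hQ0
      rw [ISHS.eq_one h hh]
      exact h1
    · obtain ⟨x, hxQ, hx0⟩ := Submodule.exists_mem_ne_zero_of_ne_bot hQ0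
      have hint : IsIntegral (𝓞 K) x := (NumberField.RingOfIntegers.isIntegral x).tower_top
      have hne : Q.comap (algebraMap (𝓞 K) (𝓞 (AlgebraicClosure K))) ≠ ⊥ :=
        Ideal.comap_ne_bot_of_integral_mem hx0 hxQ hint
      have hpr : (Q.comap (algebraMap (𝓞 K) (𝓞 (AlgebraicClosure K)))).IsPrime :=
        Ideal.comap_isPrime _ Q
      let v : HeightOneSpectrum (𝓞 K) := ⟨_, hpr, hne⟩
      have hv : v ∉ Sp K p := by
        intro hv
        apply hpQ
        have h2 : (p : 𝓞 K) ∈ Q.comap (algebraMap (𝓞 K) (𝓞 (AlgebraicClosure K))) := hv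
        rw [Ideal.mem_comap, map_natCast] at h2
        exact h2
      refine hvan h (Q3.pr_Fix K (Sp K p) v hv h Q ?_)
      refine ⟨?_, hQ, rfl, ?_⟩
      · intro y
        exact h.commutes y
      · intro y y' hy
        exact hh y y' hy
  · intro Q hQ hpQ
    have hp0 : (p : 𝓞 K) ≠ 0 := Nat.cast_ne_zero.2 (Fact.out : p.Prime).ne_zero
    have hpv : (p : 𝓞 K) ∈ Q.comap (algebraMap (𝓞 K) (𝓞 (AlgebraicClosure K))) := by
      rw [Ideal.mem_comap, map_natCast]
      exact hpQ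
    have hne : Q.comap (algebraMap (𝓞 K) (𝓞 (AlgebraicClosure K))) ≠ ⊥ := by
      intro h
      rw [h, Ideal.mem_bot] at hpv
      exact hp0 hpv
    have hpr : (Q.comap (algebraMap (𝓞 K) (𝓞 (AlgebraicClosure K)))).IsPrime :=
      Ideal.comap_isPrime _ Q
    let v : HeightOneSpectrum (𝓞 K) := ⟨_, hpr, hne⟩
    exact hLD K p r v φ (hloc v hpv) Q hQ rfl

end Pool.Agent.Work.MP_59f3ad_nt.PX
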