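import Pool.Agent.Work.MP_59f3ad_nt.PX.StmtsD

/-!
# MP_59f3ad_nt, block PX, item SHZ (helper60): Tate-Shafarevich cocycles are locally trivial
-/

set_option autoImplicit false

open NumberField IsDedekindDomain

namespace Pool.Agent.Work.MP_59f3ad_nt.PX

open Pool.Agent.Work.MP_59f3ad_nt.FE

universe u

theorem pr_SHZ (hDL : StDL.{u}) (hZS : StZS.{u}) (hINF : StINF.{u}) : StSHZ.{u} := by
  intro K _ _ p _ hp ζ hζ r φ h
  have hZ1 : φ ∈ Z1 K p r := ⟨h.cont, fun g k => h.mul g k⟩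
  refine ⟨hZS K p r φ hZ1 h.inr, fun v hv => ?_, fun v => ?_⟩
  · refine hDL K p r v φ fun Q hQ hQv => ?_
    apply h.dec Q hQ
    have h1 : (p : 𝓞 K) ∈ v.asIdeal := hv
    rw [← hQv, Ideal.mem_comap, map_natCast] at h1
    exact h1
  · refine hINF K p hp ζ hζ r φ ?_ v
    have h1 := h.mul 1 1
    rw [mul_one, tw_one, one_mul] at h1
    exact left_eq_add.mp h1

end Pool.Agent.Work.MP_59f3ad_nt.PX
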