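import Mathlib
import Pool.Agent.Work.MP_59f3ad_nt.PX.StmtsA
import Pool.Agent.Work.MP_59f3ad_nt.Q3.I_Tam

/-!
Block PX, item TAM: the tame symbol at a totally ramified prime.
-/

set_option autoImplicit false

open NumberField IsDedekindDomain WithZero

namespace Pool.Agent.Work.MP_59f3ad_nt.PX

open Pool.Agent.Work.MP_59f3ad_nt.FE

universe u

namespace ITAM

/-- a power of `σ` preserves the value -/
theorem val_pow {F L : Type u} [Field F] [Field L] [NumberField L] [Algebra F L]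
    {σ : L ≃ₐ[F] L} {v : HeightOneSpectrum (𝓞 L)} (h : Q3.Inert (σ : L ≃+* L) v) (i : ℕ) (l : L) :
    v.valuation L ((σ ^ i) l) = v.valuation L l := by
  induction i generalizing l with
  | zero => rfl
  | succ i ih =>
    rw [pow_succ, AlgEquiv.mul_apply, ih]
    exact Q3.ITam.val_inv h l

theorem mem_v {F L : Type u} [Field F] [NumberField F] [Field L] [NumberField L] [Algebra F L]
    {p : ℕ} (hp : p ≠ 0) {q : HeightOneSpectrum (𝓞 F)} {v : HeightOneSpectrum (𝓞 L)}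
    (ram : ∀ a : F, v.valuation L (algebraMap F L a) = q.valuation F a ^ p) (z : 𝓞 F) :
    algebraMap (𝓞 F) (𝓞 L) z ∈ v.asIdeal ↔ z ∈ q.asIdeal := by
  rw [← v.valuation_lt_one_iff_mem (K := L), ← q.valuation_lt_one_iff_mem (K := F)]
  change v.valuation L (algebraMap F L (z : F)) < 1 ↔ q.valuation F (z : F) < 1
  rw [ram]
  constructor
  · intro h
    by_contra hh
    rw [not_lt] at hh
    exact absurd h (not_lt.2 (one_le_pow₀ hh))
  · intro h
    exact pow_lt_one₀ (zero_le) h hp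

end ITAM

theorem pr_TAM (hNX : StNX.{u}) : StTAM.{u} := by
  intro F L _ _ _ _ _ p hp ζ m x σ hC π N N'' c e q v hπ hc hcp hN hN2 hM R δ hno
  have hp0 : p ≠ 0 := hp.out.ne_zero
  have hnx := hNX F L p ζ m x σ hC
  have hin := R.inr
  have memq : ∀ z : 𝓞 F, z ∈ q.asIdeal ↔ π ∣ z := by
    intro z
    rw [R.qs, Ideal.mem_span_singleton]
  have hπ0 : π ≠ 0 := hπ.ne_zero
  have q1 : ∀ z : 𝓞 F, ¬ π ∣ z → q.valuation F (z : F) = 1 := by
    intro z hz
    exact (q.valuation_eq_one_iff_notMem (K := F)).2 (fun h => hz ((memq z).1 h))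
  have qπ : q.valuation F (π : F) = exp (-1 : ℤ) := by
    have := q.intValuation_singleton hπ0 R.qs
    rw [← q.valuation_of_algebraMap (K := F)] at this
    exact this
  have nz1 : ∀ z : 𝓞 F, ¬ π ∣ z → (z : F) ≠ 0 := by
    intro z hz h
    have := q1 z hz
    rw [h, map_zero] at this
    exact zero_ne_one this
  have nzπ : (π : F) ≠ 0 := by
    intro h
    rw [h, map_zero] at qπ
    exact exp_ne_zero qπ.symm
  obtain ⟨P, hP⟩ : ∃ P : F, P = (π : F) := ⟨_, rfl⟩
  obtain ⟨Nf, hNf⟩ : ∃ Nf : F, Nf = (N : F) := ⟨_, rfl⟩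
  obtain ⟨G, hG⟩ : ∃ G : F, G = (N'' : F) := ⟨_, rfl⟩
  have nP : P ≠ 0 := by rw [hP]; exact nzπ
  have nN : Nf ≠ 0 := by rw [hNf]; exact nz1 N hN
  have nG : G ≠ 0 := by rw [hG]; exact nz1 N'' hN2
  have em : m = P ^ c * Nf := by
    rw [hM, hP, hNf]
    rfl
  have ea : ((π ^ e * N'' : 𝓞 F) : F) = P ^ e * G := by
    rw [hP, hG]
    rfl
  rw [ea] at hno
  rw [em] at hnx
  -- the value of `δ`
  have hδ : δ ≠ 0 := by
    intro h
    have h1 : ∏ i ∈ Finset.range p, (σ ^ i) δ = 0 :=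
      Finset.prod_eq_zero (Finset.mem_range.2 hp.out.pos) (by rw [h, map_zero])
    rw [h1] at hno
    have h2 := (map_eq_zero (algebraMap F L)).1 hno.symm
    exact mul_ne_zero (pow_ne_zero _ nP) nG h2
  obtain ⟨n, hn⟩ := Q3.ITam.exists_exp v hδ
  have hval : n = -(e : ℤ) := by
    have h5 := congrArg (v.valuation L) hno
    rw [map_prod, Finset.prod_congr rfl (fun i _ => ITAM.val_pow hin i δ), Finset.prod_const,
      Finset.card_range, R.ram, map_mul, map_pow, hP, hG, qπ, q1 N'' hN2, hn, mul_one,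
      ← exp_nsmul, ← exp_nsmul, ← exp_nsmul] at h5
    have h6 := exp_injective h5
    simp only [nsmul_eq_mul] at h6
    have h7 : (p : ℤ) ≠ 0 := by exact_mod_cast hp0
    apply mul_left_cancel₀ h7
    rw [h6]
    ring
  obtain ⟨ε, hε⟩ : ∃ ε : L, ε = δ ^ c / x ^ e := ⟨_, rfl⟩
  have vε : v.valuation L ε = 1 := by
    rw [hε, map_div₀, map_pow, map_pow, hn, R.vx, ← exp_nsmul, ← exp_nsmul, ← exp_sub, hval,
      ← exp_zero]
    congr 1
    simp only [nsmul_eq_mul]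
    ring
  obtain ⟨n1, d1, hn1, hd1, hnd1⟩ := Q3.ITam.unit_rep v vε
  -- the norm of `ε`
  have nε : ∏ i ∈ Finset.range p, (σ ^ i) ε = algebraMap F L (G ^ c / Nf ^ e) := by
    rw [hε]
    simp only [map_div₀, map_pow]
    rw [Finset.prod_div_distrib, Finset.prod_pow, Finset.prod_pow, hno, hnx, ← map_pow, ← map_pow,
      ← map_div₀, ← map_pow, ← map_pow, ← map_div₀]
    congr 1
    rw [mul_pow, mul_pow, ← pow_mul, ← pow_mul, mul_comm c e]
    have h1 : P ^ (e * c) ≠ 0 := pow_ne_zero _ nP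
    rw [mul_div_mul_left _ _ h1]
  -- integral form of the norm equation
  obtain ⟨τ, hτ⟩ : ∃ τ : ℕ → 𝓞 L ≃+* 𝓞 L,
    τ = fun i => RingOfIntegers.mapRingEquiv ((σ ^ i : L ≃ₐ[F] L) : L ≃+* L) := ⟨_, rfl⟩
  have cτ : ∀ (i : ℕ) (y : 𝓞 L), ((τ i y : 𝓞 L) : L) = (σ ^ i) (y : L) := by
    intro i y
    rw [hτ]
    rfl
  have hprod : ∏ i ∈ Finset.range p, (σ ^ i) (n1 : L) =
      (∏ i ∈ Finset.range p, (σ ^ i) ε) * ∏ i ∈ Finset.range p, (σ ^ i) (d1 : L) := by
    rw [← Finset.prod_mul_distrib]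
    refine Finset.prod_congr rfl (fun i _ => ?_)
    rw [← map_mul, hnd1]
  have hLo : algebraMap (𝓞 F) (𝓞 L) (N ^ e) * ∏ i ∈ Finset.range p, τ i n1 =
      algebraMap (𝓞 F) (𝓞 L) (N'' ^ c) * ∏ i ∈ Finset.range p, τ i d1 := by
    apply RingOfIntegers.ext
    have a1 : ((algebraMap (𝓞 F) (𝓞 L) (N ^ e) : 𝓞 L) : L) = algebraMap F L (Nf ^ e) := by
      rw [hNf]
      rfl
    have a2 : ((algebraMap (𝓞 F) (𝓞 L) (N'' ^ c) : 𝓞 L) : L) = algebraMap F L (G ^ c) := by
      rw [hG]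
      rfl
    have a3 : ∀ y : 𝓞 L, ((∏ i ∈ Finset.range p, τ i y : 𝓞 L) : L) =
        ∏ i ∈ Finset.range p, (σ ^ i) (y : L) := by
      intro y
      change algebraMap (𝓞 L) L (∏ i ∈ Finset.range p, τ i y) = _
      rw [map_prod]
      exact Finset.prod_congr rfl (fun i _ => cτ i y)
    have a4 : ∀ y z : 𝓞 L, ((y * z : 𝓞 L) : L) = (y : L) * (z : L) := fun y z => rfl
    rw [a4, a4, a1, a2, a3, a3, hprod, nε, ← mul_assoc, ← map_mul]
    congr 2
    rw [mul_div_cancel₀]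
    exact pow_ne_zero _ nN
  obtain ⟨zd, hzd⟩ := R.res d1
  obtain ⟨zn, hzn⟩ := R.res n1
  -- `σ^i` acts trivially modulo `v`
  have φτ : ∀ (i : ℕ) (y : 𝓞 L), Ideal.Quotient.mk v.asIdeal (τ i y) =
      Ideal.Quotient.mk v.asIdeal y := by
    intro i
    induction i with
    | zero =>
      intro y
      congr 1
      apply RingOfIntegers.ext
      rw [cτ]
      rfl
    | succ i ih =>
      intro y
      have h1 : τ (i + 1) y = RingOfIntegers.mapRingEquiv (σ : L ≃+* L) (τ i y) := by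
        apply RingOfIntegers.ext
        rw [cτ, pow_succ']
        change (σ * σ ^ i) (y : L) = σ ((τ i y : 𝓞 L) : L)
        rw [cτ]
        rfl
      rw [h1, ← ih y, Ideal.Quotient.eq]
      exact hin (τ i y) _ rfl
  have φd : Ideal.Quotient.mk v.asIdeal d1 =
      Ideal.Quotient.mk v.asIdeal (algebraMap (𝓞 F) (𝓞 L) zd) := by
    rw [Ideal.Quotient.eq]; exact hzd
  have φn : Ideal.Quotient.mk v.asIdeal n1 =
      Ideal.Quotient.mk v.asIdeal (algebraMap (𝓞 F) (𝓞 L) zn) := by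
    rw [Ideal.Quotient.eq]; exact hzn
  have hφ := congrArg (Ideal.Quotient.mk v.asIdeal) hLo
  rw [map_mul, map_mul, map_prod, map_prod, Finset.prod_congr rfl (fun i _ => φτ i n1),
    Finset.prod_congr rfl (fun i _ => φτ i d1), Finset.prod_const, Finset.prod_const,
    Finset.card_range, φd, φn, ← map_pow, ← map_pow, ← map_pow, ← map_pow, ← map_mul, ← map_mul,
    ← map_mul, ← map_mul, Ideal.Quotient.eq, ← map_sub, ITAM.mem_v hp0 R.ram, memq] at hφ
  have hzd' : zd ∉ q.asIdeal := by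
    intro h'
    rw [← ITAM.mem_v hp0 R.ram] at h'
    exact hd1 (by simpa using v.asIdeal.add_mem hzd h')
  have hmax : q.asIdeal.IsMaximal := q.isMaximal
  obtain ⟨w, i0, hi0, hw⟩ := hmax.exists_inv hzd'
  rw [memq] at hi0
  obtain ⟨t, rfl⟩ := hi0
  refine ⟨N ^ e * zn * w, ?_⟩
  have hexp : p * e = (p - 1) * e + e := by
    have : p = (p - 1) + 1 := (Nat.succ_pred_eq_of_pos hp.out.pos).symm
    conv_lhs => rw [this]
    ring
  rw [← Ideal.mem_span_singleton, ← Ideal.Quotient.eq]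
  have e1 : Ideal.Quotient.mk (Ideal.span {π}) (N ^ e * zn ^ p) =
      Ideal.Quotient.mk (Ideal.span {π}) (N'' ^ c * zd ^ p) := by
    rw [Ideal.Quotient.eq, Ideal.mem_span_singleton]
    exact hφ
  have e2 : Ideal.Quotient.mk (Ideal.span {π}) (w * zd) = 1 := by
    rw [← map_one (Ideal.Quotient.mk (Ideal.span {π})), Ideal.Quotient.eq,
      Ideal.mem_span_singleton, ← hw]
    exact ⟨-t, by ring⟩
  have e3 : (N ^ e * zn * w) ^ p = N ^ ((p - 1) * e) * w ^ p * (N ^ e * zn ^ p) := by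
    have : (N ^ e) ^ p = N ^ ((p - 1) * e) * N ^ e := by
      rw [← pow_mul, ← pow_add, mul_comm e p, hexp]
    rw [mul_pow, mul_pow, this]
    ring
  rw [e3, map_mul, e1, ← map_mul]
  have e4 : N ^ ((p - 1) * e) * w ^ p * (N'' ^ c * zd ^ p) =
      N'' ^ c * N ^ ((p - 1) * e) * (w * zd) ^ p := by
    rw [mul_pow]
    ring
  rw [e4, map_mul, map_pow _ (w * zd), e2, one_pow, mul_one]

end Pool.Agent.Work.MP_59f3ad_nt.PX
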