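import Mathlib
import Pool.Agent.Work.MP_59f3ad_nt.PX.StmtsA

/-!
Block PX, item TR1: an element `a` of `F` as in `Bad` becomes, after multiplication by a power of
`m`, a `p`-th power in the completion of `F` at every place above `p`.
-/

set_option autoImplicit false

open NumberField IsDedekindDomain

namespace Pool.Agent.Work.MP_59f3ad_nt.PX

open Pool.Agent.Work.MP_59f3ad_nt.FE

universe u

namespace ITR1

section dec

variable {k : Type u} [Field k] {Ω : Type u} [Field Ω] [Algebra k Ω]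

/-- the action of an automorphism on the ring of integers -/
noncomputable def gO (g : Ω ≃ₐ[k] Ω) : 𝓞 Ω ≃+* 𝓞 Ω := RingOfIntegers.mapRingEquiv g.toRingEquiv

theorem gO_coe (g : Ω ≃ₐ[k] Ω) (y : 𝓞 Ω) : ((gO g y : 𝓞 Ω) : Ω) = g (y : Ω) := rfl

theorem dec_one (Q : Ideal (𝓞 Ω)) : Dec Q (1 : Ω ≃ₐ[k] Ω) := by
  intro y y' hy
  have h1 : y' = y := RingOfIntegers.ext hy
  rw [h1]

theorem dec_mul {Q : Ideal (𝓞 Ω)} {g h : Ω ≃ₐ[k] Ω} (hg : Dec Q g) (hh : Dec Q h) :
    Dec Q (g * h) := by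
  intro y y' hy
  exact (hh y (gO h y) (gO_coe h y)).trans (hg (gO h y) y' hy)

theorem dec_inv {Q : Ideal (𝓞 Ω)} {g : Ω ≃ₐ[k] Ω} (hg : Dec Q g) : Dec Q g⁻¹ := by
  intro y y' hy
  refine (hg y' y ?_).symm
  rw [hy]
  exact (g.apply_symm_apply (y : Ω)).symm

theorem dec_pow {Q : Ideal (𝓞 Ω)} {g : Ω ≃ₐ[k] Ω} (hg : Dec Q g) (n : ℕ) : Dec Q (g ^ n) := by
  induction n with
  | zero => rw [pow_zero]; exact dec_one Q
  | succ n ih => rw [pow_succ]; exact dec_mul ih hg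

end dec

theorem exists_over (F L : Type u) [Field F] [NumberField F] [Field L] [NumberField L]
    [Algebra F L] (v : HeightOneSpectrum (𝓞 F)) : ∃ Q : Ideal (𝓞 (AlgebraicClosure L)),
    Q.IsPrime ∧ Q.comap (algebraMap (𝓞 F) (𝓞 (AlgebraicClosure L))) = v.asIdeal := by
  have hi : Algebra.IsIntegral (𝓞 F) (𝓞 (AlgebraicClosure L)) := by
    have : Algebra.IsIntegral ℤ (𝓞 (AlgebraicClosure L)) := ⟨fun b => RingOfIntegers.isIntegral b⟩
    exact Algebra.IsIntegral.tower_top ℤ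
  have := v.isPrime
  obtain ⟨Q, -, h1, h2⟩ := Ideal.exists_ideal_over_prime_of_isIntegral v.asIdeal
    (⊥ : Ideal (𝓞 (AlgebraicClosure L))) (by
      intro x hx
      rw [Ideal.mem_comap, Ideal.mem_bot] at hx
      have h3 : (algebraMap F (AlgebraicClosure L)) (x : F) = 0 :=
        congrArg (fun z : 𝓞 (AlgebraicClosure L) => (z : AlgebraicClosure L)) hx
      rw [map_eq_zero] at h3
      have h4 : x = 0 := RingOfIntegers.ext h3
      rw [h4]
      exact Ideal.zero_mem _)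
  exact ⟨Q, h1, h2⟩

theorem isAlg (F L : Type u) [Field F] [NumberField F] [Field L] [NumberField L] [Algebra F L] :
    IsAlgClosure F (AlgebraicClosure L) := by
  have : Algebra.IsAlgebraic F L := Algebra.IsAlgebraic.tower_top (K := ℚ) F
  have : Algebra.IsAlgebraic F (AlgebraicClosure L) := Algebra.IsAlgebraic.trans F L _
  exact ⟨inferInstance, inferInstance⟩

/-- an automorphism over `F` multiplies a root of `X ^ p - a` by a power of `ζ`. -/
theorem pow_root {F Ω : Type u} [Field F] [Field Ω] [Algebra F Ω] (p : ℕ) (hp : p ≠ 0) (ζ : F)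
    (hζ : IsPrimitiveRoot ζ p) (B : Ω) (b : F) (hb : b ≠ 0) (hB : B ^ p = algebraMap F Ω b)
    (g : Ω ≃ₐ[F] Ω) : ∃ j : ℕ, j < p ∧ g B = algebraMap F Ω ζ ^ j * B := by
  have hB0 : B ≠ 0 := by
    intro h
    rw [h, zero_pow hp] at hB
    exact hb ((map_eq_zero (algebraMap F Ω)).1 hB.symm)
  have hz : IsPrimitiveRoot (algebraMap F Ω ζ) p :=
    hζ.map_of_injective (algebraMap F Ω).injective
  have : NeZero p := ⟨hp⟩
  have h1 : (g B / B) ^ p = 1 := by
    rw [div_pow, ← map_pow, hB, AlgEquiv.commutes, div_self]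
    rw [← hB]
    exact pow_ne_zero _ hB0
  obtain ⟨j, hj, hj2⟩ := hz.eq_pow_of_pow_eq_one h1
  refine ⟨j, hj, ?_⟩
  rw [hj2, div_mul_cancel₀ _ hB0]

/-- powers of an automorphism with `g B = ζ B`. -/
theorem pow_apply {F Ω : Type u} [Field F] [Field Ω] [Algebra F Ω] (ζ : F) (B : Ω)
    (g : Ω ≃ₐ[F] Ω) (hg : g B = algebraMap F Ω ζ * B) (i : ℕ) :
    (g ^ i) B = algebraMap F Ω ζ ^ i * B := by
  induction i with
  | zero => simp
  | succ i ih =>
    rw [pow_succ, AlgEquiv.mul_apply, hg, map_mul, AlgEquiv.commutes, ih]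
    ring

theorem pow_fix {F Ω : Type u} [Field F] [Field Ω] [Algebra F Ω] (B : Ω)
    (g : Ω ≃ₐ[F] Ω) (hg : g B = B) (i : ℕ) : (g ^ i) B = B := by
  induction i with
  | zero => simp
  | succ i ih => rw [pow_succ, AlgEquiv.mul_apply, hg, ih]

end ITR1

open ITR1 in
/-- TR1 -/
theorem pr_TR1 (hDEX : StDEX.{u}) (hLG : StLG.{u}) (hGX : StGX.{u}) : StTR1.{u} := by
  intro F L _ _ _ _ _ p hp ζ m x σ hC v hv hm A a δ hB
  have hp0 : p ≠ 0 := hp.out.ne_zero
  have hcl := isAlg F L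
  obtain ⟨Q, hQ, hQv⟩ := exists_over F L v
  have hpQ : (p : 𝓞 (AlgebraicClosure L)) ∈ Q := by
    have h1 : (p : 𝓞 F) ∈ v.asIdeal := hv
    rw [← hQv, Ideal.mem_comap, map_natCast] at h1
    exact h1
  obtain ⟨s, hsD, hsE⟩ := hDEX F L p ζ m x σ hC v hm Q hQ hQv
  obtain ⟨-, hG, -⟩ := hGX F L p ζ m x σ hC
  set X : AlgebraicClosure L := algebraMap L (AlgebraicClosure L) x with hX
  have hXm : X ^ p = algebraMap F (AlgebraicClosure L) m := by
    rw [hX, ← map_pow, hC.hx, ← IsScalarTower.algebraMap_apply]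
  have hsX : s X = algebraMap F (AlgebraicClosure L) ζ * X := by
    rw [hX, hsE x, hC.hσ, map_mul, ← IsScalarTower.algebraMap_apply]
  obtain ⟨j, hj, hjA⟩ := pow_root p hp0 ζ hC.hζ A a hB.ha hB.hA s
  have hζp : algebraMap F (AlgebraicClosure L) ζ ^ p = 1 := by
    rw [← map_pow, hC.hζ.pow_eq_one, map_one]
  refine ⟨p - j, ?_⟩
  have hsA : s (A * X ^ (p - j)) = A * X ^ (p - j) := by
    rw [map_mul, map_pow, hjA, hsX, mul_pow]
    have h1 : algebraMap F (AlgebraicClosure L) ζ ^ j *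
        algebraMap F (AlgebraicClosure L) ζ ^ (p - j) = 1 := by
      rw [← pow_add, Nat.add_sub_cancel' hj.le, hζp]
    calc _ = (algebraMap F (AlgebraicClosure L) ζ ^ j *
        algebraMap F (AlgebraicClosure L) ζ ^ (p - j)) * (A * X ^ (p - j)) := by ring
      _ = _ := by rw [h1, one_mul]
  refine hLG F (AlgebraicClosure L) p v Q hQ hQv (A * X ^ (p - j)) (a * m ^ (p - j)) ?_ ?_
  · rw [mul_pow, hB.hA, map_mul, map_pow, ← hXm, ← pow_mul, ← pow_mul, mul_comm p (p - j)]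
  · intro g hg
    obtain ⟨i, -, hgX⟩ := pow_root p hp0 ζ hC.hζ X m hC.hm hXm g
    have hsi : (s ^ i) X = algebraMap F (AlgebraicClosure L) ζ ^ i * X := pow_apply ζ X s hsX i
    have hg' : ((s ^ i)⁻¹ * g) X = X := by
      rw [AlgEquiv.mul_apply, hgX, ← hsi]
      exact (s ^ i).symm_apply_apply X
    obtain ⟨h, hh⟩ := hG ((s ^ i)⁻¹ * g) hg'
    have hD' : Dec Q ((s ^ i)⁻¹ * g) := dec_mul (dec_inv (dec_pow hsD i)) hg
    have hDh : Dec Q h := by
      intro y y' hy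
      exact hD' y y' (by rw [hy, hh])
    have hhA : h A = A := hB.dec Q hQ hpQ h hDh
    have h1 : ((s ^ i)⁻¹ * g) (A * X ^ (p - j)) = A * X ^ (p - j) := by
      rw [map_mul, map_pow, hg', ← hh A, hhA]
    have h2 : g = (s ^ i) * ((s ^ i)⁻¹ * g) := by group
    rw [h2, AlgEquiv.mul_apply, h1]
    exact pow_fix _ s hsA i

end Pool.Agent.Work.MP_59f3ad_nt.PX
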