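import Mathlib
import Pool.Agent.Work.MP_59f3ad_nt.PX.StmtsA

/-!
Item TR2 of block PX: the radical `a` has valuations divisible by `p` at the places not above `p` where
the valuation of `m` is divisible by `p`.
-/

set_option autoImplicit false

open NumberField IsDedekindDomain

namespace Pool.Agent.Work.MP_59f3ad_nt.PX

open Pool.Agent.Work.MP_59f3ad_nt.FE

universe u

namespace ITR2

theorem isAlg (F L : Type u) [Field F] [NumberField F] [Field L] [NumberField L] [Algebra F L] :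
    IsAlgClosure F (AlgebraicClosure L) := by
  have : Algebra.IsAlgebraic F L := Algebra.IsAlgebraic.tower_top (K := ℚ) F
  have : Algebra.IsAlgebraic F (AlgebraicClosure L) := Algebra.IsAlgebraic.trans F L _
  exact ⟨inferInstance, inferInstance⟩

/-- lying over -/
theorem exists_over (F Ω : Type u) [Field F] [NumberField F] [Field Ω] [Algebra F Ω]
    (v : HeightOneSpectrum (𝓞 F)) : ∃ Q : Ideal (𝓞 Ω),
    Q.IsPrime ∧ Q.comap (algebraMap (𝓞 F) (𝓞 Ω)) = v.asIdeal := by
  have hi : Algebra.IsIntegral (𝓞 F) (𝓞 Ω) := by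
    have : Algebra.IsIntegral ℤ (𝓞 Ω) := ⟨fun b => RingOfIntegers.isIntegral b⟩
    exact Algebra.IsIntegral.tower_top ℤ
  have := v.isPrime
  obtain ⟨Q, -, h1, h2⟩ := Ideal.exists_ideal_over_prime_of_isIntegral v.asIdeal
    (⊥ : Ideal (𝓞 Ω)) (by
      intro x hx
      rw [Ideal.mem_comap, Ideal.mem_bot] at hx
      have h3 : (algebraMap F Ω) (x : F) = 0 :=
        congrArg (fun z : 𝓞 Ω => (z : Ω)) hx
      rw [map_eq_zero] at h3
      have h4 : x = 0 := RingOfIntegers.ext h3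
      rw [h4]
      exact Ideal.zero_mem _)
  exact ⟨Q, h1, h2⟩

end ITR2

/-- TR2 -/
theorem pr_TR2 (hI1 : StI1.{u}) (hI2 : StI2.{u}) (hGX : StGX.{u}) : StTR2.{u} := by
  intro F L _ _ _ _ _ p _ ζ m x σ C q hq hV A a δ B
  have := ITR2.isAlg F L
  obtain ⟨Q, hQ, hco⟩ := ITR2.exists_over F (AlgebraicClosure L) q
  have hpq : (p : 𝓞 F) ∉ q.asIdeal := hq
  have hpQ : (p : 𝓞 (AlgebraicClosure L)) ∉ Q := by
    intro h
    apply hpq
    rw [← hco, Ideal.mem_comap, map_natCast]
    exact h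
  refine hI1 F (AlgebraicClosure L) p ζ C.hζ q Q hQ hco A a B.ha B.hA fun g hg => ?_
  have hx : g (algebraMap L (AlgebraicClosure L) x) = algebraMap L (AlgebraicClosure L) x :=
    hI2 F (AlgebraicClosure L) p ζ C.hζ q hpq Q hQ hco (algebraMap L (AlgebraicClosure L) x) m C.hm
      (by rw [← map_pow, C.hx, ← IsScalarTower.algebraMap_apply]) hV g hg
  obtain ⟨-, h1, -⟩ := hGX F L p ζ m x σ C
  obtain ⟨h, hh⟩ := h1 g hx
  have hInr : Inr Q h := by
    intro y y' e
    exact hg y y' (by rw [e, hh])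
  rw [← hh A]
  exact B.inr Q hQ hpQ h hInr

end Pool.Agent.Work.MP_59f3ad_nt.PX
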