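import Mathlib
import Pool.Agent.Work.MP_59f3ad_nt.PX.StmtsD

/-!
Block PX, item TRN: transport between two algebraic closures.
-/

set_option autoImplicit false

open NumberField IsDedekindDomain
open scoped Topology

namespace Pool.Agent.Work.MP_59f3ad_nt.PX

open Pool.Agent.Work.MP_59f3ad_nt.FE

universe u

namespace ITRN

variable {k Ω Ω' : Type u} [Field k] [Field Ω] [Field Ω'] [Algebra k Ω] [Algebra k Ω']

/-- The conjugation by `e`. -/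
def cj (e : Ω ≃ₐ[k] Ω') (g : Ω' ≃ₐ[k] Ω') : Ω ≃ₐ[k] Ω := (e.trans g).trans e.symm

theorem cj_apply (e : Ω ≃ₐ[k] Ω') (g : Ω' ≃ₐ[k] Ω') (x : Ω) : cj e g x = e.symm (g (e x)) := rfl

theorem e_cj_apply (e : Ω ≃ₐ[k] Ω') (g : Ω' ≃ₐ[k] Ω') (x : Ω) : e (cj e g x) = g (e x) := by
  rw [cj_apply, AlgEquiv.apply_symm_apply]

theorem cj_mul (e : Ω ≃ₐ[k] Ω') (g h : Ω' ≃ₐ[k] Ω') : cj e (g * h) = cj e g * cj e h := by
  apply AlgEquiv.ext
  intro x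
  rw [AlgEquiv.mul_apply]
  apply e.injective
  rw [e_cj_apply, e_cj_apply, e_cj_apply]
  rfl

/-- The conjugation as a homomorphism. -/
def cjHom (e : Ω ≃ₐ[k] Ω') : (Ω' ≃ₐ[k] Ω') →* (Ω ≃ₐ[k] Ω) where
  toFun := cj e
  map_one' := by
    apply AlgEquiv.ext
    intro x
    apply e.injective
    rw [e_cj_apply]
    rfl
  map_mul' := cj_mul e

theorem cj_continuous (e : Ω ≃ₐ[k] Ω') : Continuous (cj e) := by
  have h : Continuous (cjHom e) := by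
    refine continuous_of_continuousAt_one (cjHom e) ?_
    rw [ContinuousAt, map_one]
    intro s hs
    rw [krullTopology_mem_nhds_one_iff] at hs
    obtain ⟨E, hE, hEs⟩ := hs
    rw [Filter.mem_map, krullTopology_mem_nhds_one_iff]
    refine ⟨E.map (e : Ω →ₐ[k] Ω'), ?_, ?_⟩
    · exact Module.Finite.equiv (E.equivMap (e : Ω →ₐ[k] Ω')).toLinearEquiv
    · intro g hg
      apply hEs
      have hg' : g ∈ (E.map (e : Ω →ₐ[k] Ω')).fixingSubgroup := hg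
      show cj e g ∈ E.fixingSubgroup
      rw [IntermediateField.mem_fixingSubgroup_iff] at hg' ⊢
      intro x hx
      apply e.injective
      rw [e_cj_apply]
      exact hg' (e x) ⟨x, hx, rfl⟩
  exact h

theorem tw_cj [CharZero Ω] [CharZero Ω'] [IsAlgClosed Ω] [IsAlgClosed Ω']
    (p : ℕ) [Fact p.Prime] (r : ℤ) (e : Ω ≃ₐ[k] Ω') (g : Ω' ≃ₐ[k] Ω') :
    tw p r (cj e g) = tw p r g := by
  have hp : p ≠ 0 := (Fact.out : p.Prime).ne_zero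
  have h1 : NeZero (p : Ω) := ⟨Nat.cast_ne_zero.2 hp⟩
  have h2 : NeZero (p : Ω') := ⟨Nat.cast_ne_zero.2 hp⟩
  have h3 : ∀ i, HasEnoughRootsOfUnity Ω (p ^ i) := fun i => inferInstance
  have h4 : ∀ i, HasEnoughRootsOfUnity Ω' (p ^ i) := fun i => inferInstance
  have hc : cyclotomicCharacter Ω p ((cj e g : Ω ≃ₐ[k] Ω) : Ω ≃+* Ω) =
      cyclotomicCharacter Ω' p (g : Ω' ≃+* Ω') := by
    apply Units.ext
    refine PadicInt.ext_of_toZModPow.mp fun n => ?_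
    rw [cyclotomicCharacter.toZModPow]
    symm
    refine modularCyclotomicCharacter.unique Ω _ _ fun t ht => ?_
    have ht' : (t : Ω) ^ p ^ n = 1 := by
      have := (mem_rootsOfUnity _ _).1 ht
      have h5 := congrArg Units.val this
      simpa using h5
    show cj e g (t : Ω) = _
    apply e.injective
    rw [e_cj_apply, map_pow]
    exact cyclotomicCharacter.spec p (g : Ω' ≃+* Ω') (e (t : Ω)) (by rw [← map_pow, ht', map_one])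
  unfold tw
  rw [hc]

/-- The prime below. -/
noncomputable def Q0 (e : Ω ≃ₐ[k] Ω') (Q : Ideal (𝓞 Ω')) : Ideal (𝓞 Ω) :=
  Q.comap (RingOfIntegers.mapRingEquiv (e : Ω ≃+* Ω')).toRingHom

theorem mem_Q0 (e : Ω ≃ₐ[k] Ω') (Q : Ideal (𝓞 Ω')) (y : 𝓞 Ω) :
    y ∈ Q0 e Q ↔ RingOfIntegers.mapRingEquiv (e : Ω ≃+* Ω') y ∈ Q := Iff.rfl

theorem Q0_prime (e : Ω ≃ₐ[k] Ω') (Q : Ideal (𝓞 Ω')) (hQ : Q.IsPrime) : (Q0 e Q).IsPrime :=
  hQ.comap _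

theorem p_mem_Q0 (e : Ω ≃ₐ[k] Ω') (Q : Ideal (𝓞 Ω')) (p : ℕ) :
    (p : 𝓞 Ω) ∈ Q0 e Q ↔ (p : 𝓞 Ω') ∈ Q := by
  rw [mem_Q0, map_natCast]

theorem coe_map (e : Ω ≃ₐ[k] Ω') (g : Ω' ≃ₐ[k] Ω') (y y' : 𝓞 Ω) (h : (y' : Ω) = cj e g (y : Ω)) :
    ((RingOfIntegers.mapRingEquiv (e : Ω ≃+* Ω') y' : 𝓞 Ω') : Ω') =
      g ((RingOfIntegers.mapRingEquiv (e : Ω ≃+* Ω') y : 𝓞 Ω') : Ω') := by
  show e (y' : Ω) = g (e (y : Ω))
  rw [h, e_cj_apply]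

theorem inr_cj (e : Ω ≃ₐ[k] Ω') (Q : Ideal (𝓞 Ω')) (g : Ω' ≃ₐ[k] Ω') (h : Inr Q g) :
    Inr (Q0 e Q) (cj e g) := by
  intro y y' hy
  rw [mem_Q0, map_sub]
  exact h _ _ (coe_map e g y y' hy)

theorem dec_cj (e : Ω ≃ₐ[k] Ω') (Q : Ideal (𝓞 Ω')) (g : Ω' ≃ₐ[k] Ω') (h : Dec Q g) :
    Dec (Q0 e Q) (cj e g) := by
  intro y y' hy
  rw [mem_Q0, mem_Q0]
  exact h _ _ (coe_map e g y y' hy)

end ITRN

open ITRN in
theorem pr_TRN : StTRN.{u} := by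
  intro k Ω Ω' _ _ _ _ _ _ _ _ _ p _ r e φ hφ
  have htw : ∀ g : Ω' ≃ₐ[k] Ω', tw p r (cj e g) = tw p r g := fun g => tw_cj p r e g
  refine ⟨?_, htw⟩
  constructor
  · exact hφ.cont.comp (cj_continuous e)
  · intro g h
    show φ (cj e (g * h)) = φ (cj e g) + tw p r g * φ (cj e h)
    rw [cj_mul, hφ.mul, htw]
  · intro Q hQ hp h hh
    exact hφ.inr (Q0 e Q) (Q0_prime e Q hQ) (fun h1 => hp ((p_mem_Q0 e Q p).1 h1)) (cj e h)
      (inr_cj e Q h hh)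
  · intro Q hQ hp
    obtain ⟨c, hc⟩ := hφ.dec (Q0 e Q) (Q0_prime e Q hQ) ((p_mem_Q0 e Q p).2 hp)
    refine ⟨c, fun h hh => ?_⟩
    have h1 := hc (cj e h) (dec_cj e Q h hh)
    rw [htw] at h1
    exact h1

end Pool.Agent.Work.MP_59f3ad_nt.PX
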