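import Mathlib
import Pool.Agent.Work.MP_59f3ad_nt.PX.StmtsA

/-!
Block PX, item TS: conjugation by an extension of `σ` acts on the Tate-Shafarevich cocycles.
Model: `Q3/I_Tst.lean`.
-/

set_option autoImplicit false

open NumberField IsDedekindDomain Topology

namespace Pool.Agent.Work.MP_59f3ad_nt.PX

open Pool.Agent.Work.MP_59f3ad_nt.FE

universe u

namespace ITS

section

variable {F L : Type u} [Field F] [Field L] [Algebra F L] {σ : L ≃ₐ[F] L}
  {s : AlgebraicClosure L ≃ₐ[F] AlgebraicClosure L}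

theorem cs_mul (hs : Ex σ s) (g h : GK L) : cs hs (g * h) = cs hs g * cs hs h := by
  ext y
  rw [cs_apply, AlgEquiv.mul_apply, AlgEquiv.mul_apply, cs_apply, cs_apply,
    AlgEquiv.apply_symm_apply]

theorem cs_one (hs : Ex σ s) : cs hs (1 : GK L) = 1 := by
  ext y
  rw [cs_apply, AlgEquiv.one_apply, AlgEquiv.one_apply, AlgEquiv.symm_apply_apply]

/-- the conjugation as a homomorphism -/
noncomputable def csH (hs : Ex σ s) : GK L →* GK L where
  toFun := cs hs
  map_one' := cs_one hs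
  map_mul' := cs_mul hs

theorem tw_cs (p : ℕ) [Fact p.Prime] (r : ℤ) (hs : Ex σ s) (h : GK L) :
    tw p r (cs hs h) = tw p r h := by
  unfold tw
  have h1 : ((cs hs h : GK L) : AlgebraicClosure L ≃+* AlgebraicClosure L) =
      (s : AlgebraicClosure L ≃+* AlgebraicClosure L)⁻¹ *
        (h : AlgebraicClosure L ≃+* AlgebraicClosure L) *
        (s : AlgebraicClosure L ≃+* AlgebraicClosure L) := by
    ext y
    rfl
  rw [h1]
  have h2 : ∀ (f : (AlgebraicClosure L ≃+* AlgebraicClosure L) →* ℤ_[p]ˣ)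
      (a b : AlgebraicClosure L ≃+* AlgebraicClosure L), f (a⁻¹ * b * a) = f b := by
    intro f a b
    rw [map_mul, map_mul, map_inv]
    rw [mul_comm, mul_inv_cancel_left]
  rw [h2]

theorem cs_cont (hs : Ex σ s) : Continuous (cs hs : GK L → GK L) := by
  have : Continuous (csH hs) := by
    apply continuous_of_continuousAt_one
    unfold ContinuousAt
    rw [map_one]
    intro U hU
    rw [krullTopology_mem_nhds_one_iff] at hU
    obtain ⟨E, hE, hEU⟩ := hU
    rw [Filter.mem_map, krullTopology_mem_nhds_one_iff]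
    let b := Module.finBasis L E
    refine ⟨IntermediateField.adjoin L (Set.range fun i => s (b i : AlgebraicClosure L)), ?_, ?_⟩
    · apply IntermediateField.finiteDimensional_adjoin
      intro x _
      exact (AlgebraicClosure.isAlgebraic L).isAlgebraic x |>.isIntegral
    · intro h hh
      apply hEU
      have hh' := (IntermediateField.mem_fixingSubgroup_iff _ _).1 hh
      change cs hs h ∈ E.fixingSubgroup
      rw [IntermediateField.mem_fixingSubgroup_iff]
      have h1 : ∀ i, cs hs h (b i : AlgebraicClosure L) = b i := by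
        intro i
        rw [cs_apply, hh' _ (IntermediateField.subset_adjoin L _ ⟨i, rfl⟩),
          AlgEquiv.symm_apply_apply]
      intro x hx
      obtain ⟨c, h3⟩ : ∃ c : Fin (Module.finrank L E) → L,
          x = ∑ i, c i • (b i : AlgebraicClosure L) := by
        refine ⟨b.repr ⟨x, hx⟩, ?_⟩
        have h4 := map_sum E.val (fun i => b.repr ⟨x, hx⟩ i • b i) Finset.univ
        rw [b.sum_repr] at h4
        exact h4.trans (Finset.sum_congr rfl fun i _ => map_smul E.val _ _)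
      rw [h3, map_sum]
      refine Finset.sum_congr rfl fun i _ => ?_
      rw [map_smul, h1]
  exact this

/-- the prime `{y : s y ∈ Q}` -/
theorem prime (p : ℕ) (hs : Ex σ s) (Q : Ideal (𝓞 (AlgebraicClosure L))) (hQ : Q.IsPrime) :
    ∃ Q' : Ideal (𝓞 (AlgebraicClosure L)),
    Q'.IsPrime ∧ ((p : 𝓞 (AlgebraicClosure L)) ∈ Q' ↔ (p : 𝓞 (AlgebraicClosure L)) ∈ Q) ∧
    (∀ h : GK L, Inr Q h → Inr Q' (cs hs h)) ∧ ∀ h : GK L, Dec Q h → Dec Q' (cs hs h) := by
  let e : 𝓞 (AlgebraicClosure L) ≃+* 𝓞 (AlgebraicClosure L) :=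
    RingOfIntegers.mapRingEquiv (s : AlgebraicClosure L ≃+* AlgebraicClosure L)
  have he : ∀ y : 𝓞 (AlgebraicClosure L), ((e y : 𝓞 (AlgebraicClosure L)) : AlgebraicClosure L) =
      s (y : AlgebraicClosure L) := fun y => rfl
  have hc : ∀ (h : GK L) (y y' : 𝓞 (AlgebraicClosure L)),
      (y' : AlgebraicClosure L) = cs hs h (y : AlgebraicClosure L) →
      ((e y' : 𝓞 (AlgebraicClosure L)) : AlgebraicClosure L) =
        h ((e y : 𝓞 (AlgebraicClosure L)) : AlgebraicClosure L) := by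
    intro h y y' hy
    rw [he, he, hy, cs_apply, AlgEquiv.apply_symm_apply]
  refine ⟨Q.comap e, Ideal.comap_isPrime e Q, ?_, ?_, ?_⟩
  · rw [Ideal.mem_comap, map_natCast]
  · intro h hh y y' hy
    rw [Ideal.mem_comap, map_sub]
    exact hh (e y) (e y') (hc h y y' hy)
  · intro h hh y y' hy
    rw [Ideal.mem_comap, Ideal.mem_comap]
    exact hh (e y) (e y') (hc h y y' hy)

end

end ITS

theorem pr_TS : StTS.{u} := by
  intro F L _ _ _ _ _ p _ r σ s hs
  refine ⟨fun h => ITS.tw_cs p r hs h, ?_, ?_, fun Q hQ => ITS.prime p hs Q hQ⟩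
  · intro φ hφ
    refine ⟨hφ.cont.comp (ITS.cs_cont hs), ?_, ?_, ?_⟩
    · intro g h
      change φ (cs hs (g * h)) = φ (cs hs g) + tw p r g * φ (cs hs h)
      rw [ITS.cs_mul, hφ.mul, ITS.tw_cs]
    · intro Q hQ hp h hh
      obtain ⟨Q', h1, h2, h3, -⟩ := ITS.prime p hs Q hQ
      exact hφ.inr Q' h1 (fun h4 => hp (h2.1 h4)) _ (h3 h hh)
    · intro Q hQ hp
      obtain ⟨Q', h1, h2, -, h3⟩ := ITS.prime p hs Q hQ
      obtain ⟨c, hc⟩ := hφ.dec Q' h1 (h2.2 hp)
      refine ⟨c, fun h hh => ?_⟩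
      change φ (cs hs h) = _
      rw [hc _ (h3 h hh), ITS.tw_cs]
  · intro φ hφ
    refine ⟨hφ.cont.comp (ITS.cs_cont hs), ?_, ?_, ?_⟩
    · intro g h
      change φ (cs hs (g * h)) = φ (cs hs g) + tw p r g * φ (cs hs h)
      rw [ITS.cs_mul, hφ.mul, ITS.tw_cs]
    · intro Q hQ hp h hh
      obtain ⟨Q', h1, h2, h3, -⟩ := ITS.prime p hs Q hQ
      exact hφ.inr Q' h1 (fun h4 => hp (h2.1 h4)) _ (h3 h hh)
    · intro Q hQ hp
      obtain ⟨Q', h1, h2, -, h3⟩ := ITS.prime p hs Q hQ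
      obtain ⟨n, c, hc⟩ := hφ.dec Q' h1 (h2.2 hp)
      refine ⟨n, c, fun h hh => ?_⟩
      change _ * φ (cs hs h) = _
      rw [hc _ (h3 h hh), ITS.tw_cs]

end Pool.Agent.Work.MP_59f3ad_nt.PX
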