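import Mathlib
import Pool.Agent.Work.MP_59f3ad_nt.PX.StmtsD

/-!
Block PX, item TW1: the cyclotomic character of a field with a primitive `p`-th root of unity.
-/

set_option autoImplicit false

open NumberField IsDedekindDomain

namespace Pool.Agent.Work.MP_59f3ad_nt.PX

open Pool.Agent.Work.MP_59f3ad_nt.FE

universe u

namespace ITW1

/-- the cyclotomic character is `1` modulo `p` -/
theorem cyc_mod (k Ω : Type u) [Field k] [Field Ω] [Algebra k Ω] [CharZero Ω] [IsAlgClosed Ω]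
    (p : ℕ) [hp : Fact p.Prime] (ζ : k) (hζ : IsPrimitiveRoot ζ p) (h : Ω ≃ₐ[k] Ω) :
    PadicInt.toZModPow (p := p) 1
      ((cyclotomicCharacter Ω p (h : Ω ≃+* Ω) : ℤ_[p]ˣ) : ℤ_[p]) = 1 := by
  set t : Ω := algebraMap k Ω ζ with ht
  have htp : IsPrimitiveRoot t p := hζ.map_of_injective (algebraMap k Ω).injective
  have hs := cyclotomicCharacter.spec (L := Ω) p (n := 1) (h : Ω ≃+* Ω) t
    (by rw [pow_one]; exact htp.pow_eq_one)
  have h1 : (h : Ω ≃+* Ω) t = t := h.commutes ζ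
  rw [h1] at hs
  set m : ZMod (p ^ 1) := PadicInt.toZModPow (p := p) 1
    ((cyclotomicCharacter Ω p (h : Ω ≃+* Ω) : ℤ_[p]ˣ) : ℤ_[p]) with hm
  have hlt : m.val < p := by
    have := ZMod.val_lt m
    simpa using this
  have h3 : m.val = 1 :=
    (htp.pow_inj hp.out.one_lt hlt (by rw [pow_one]; exact hs)).symm
  have h4 : ((m.val : ℕ) : ZMod (p ^ 1)) = m := ZMod.natCast_zmod_val m
  rw [← h4, h3, Nat.cast_one]

end ITW1

/-- Item TW1. -/
theorem pr_TW1 : StTW1.{u} := by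
  intro k Ω _ _ _ _ _ p _ ζ hζ r h
  set f := PadicInt.toZModPow (p := p) 1 with hf
  have h1 : Units.map (f : ℤ_[p] →* ZMod (p ^ 1)) (cyclotomicCharacter Ω p (h : Ω ≃+* Ω)) = 1 := by
    apply Units.ext
    exact ITW1.cyc_mod k Ω p ζ hζ h
  have h2 : Units.map (f : ℤ_[p] →* ZMod (p ^ 1))
      (cyclotomicCharacter Ω p (h : Ω ≃+* Ω) ^ r) = 1 := by
    rw [map_zpow, h1, one_zpow]
  have h3 : f (tw p r h) = 1 := congrArg Units.val h2
  have h4 : tw p r h - 1 ∈ RingHom.ker f := by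
    rw [RingHom.mem_ker, map_sub, h3, map_one, sub_self]
  rwa [hf, PadicInt.ker_toZModPow, Ideal.mem_span_singleton, pow_one] at h4

end Pool.Agent.Work.MP_59f3ad_nt.PX
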