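import Pool.Agent.Work.MP_59f3ad_nt.PX.StmtsB

/-!
Block PX, item UFD: unique factorisation of products of prime elements.
-/

set_option autoImplicit false

open NumberField IsDedekindDomain

namespace Pool.Agent.Work.MP_59f3ad_nt.PX

universe u

namespace IUFD

theorem perm_of_map {n : ℕ} {α : Type u} (v v' : Fin n → α)
    (h : Finset.univ.val.map v = Finset.univ.val.map v') :
    ∃ ρ : Equiv.Perm (Fin n), ∀ i, v' i = v (ρ i) := by
  classical
  have hc : ∀ c : α, Fintype.card {i // v' i = c} = Fintype.card {i // v i = c} := by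
    intro c
    have h1 := congrArg (Multiset.count c) h
    rw [Multiset.count_map, Multiset.count_map] at h1
    rw [Fintype.card_subtype, Fintype.card_subtype]
    simp only [Finset.card, Finset.filter_val]
    simp only [eq_comm (a := c)] at h1
    exact h1.symm
  refine ⟨Equiv.ofFiberEquiv (f := v') (g := v) fun c => Fintype.equivOfCardEq (hc c), fun i => ?_⟩
  exact (Equiv.ofFiberEquiv_map _ i).symm

end IUFD

theorem pr_UFD : StUFD.{u} := by
  intro F _ _ P hP hA n v v' hv hv' hprod
  refine IUFD.perm_of_map v v' ?_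
  have h2 : Multiset.Rel Associated (Finset.univ.val.map v) (Finset.univ.val.map v') := by
    refine prime_factors_unique ?_ ?_ ?_
    · intro x hx
      obtain ⟨i, -, rfl⟩ := Multiset.mem_map.1 hx
      exact hP _ (hv i)
    · intro x hx
      obtain ⟨i, -, rfl⟩ := Multiset.mem_map.1 hx
      exact hP _ (hv' i)
    · change Associated (∏ i, v i) (∏ i, v' i)
      rw [hprod]
  have h3 : Multiset.Rel Eq (Finset.univ.val.map v) (Finset.univ.val.map v') := by
    refine h2.mono fun a ha b hb hab => ?_
    obtain ⟨i, -, rfl⟩ := Multiset.mem_map.1 ha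
    obtain ⟨j, -, rfl⟩ := Multiset.mem_map.1 hb
    exact hA _ (hv i) _ (hv' j) hab
  exact Multiset.rel_eq.1 h3

end Pool.Agent.Work.MP_59f3ad_nt.PX
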