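import Mathlib
import Pool.Agent.Work.MP_59f3ad_nt.PX.StmtsD
import Pool.Agent.Work.MP_59f3ad_nt.Q3.I_Mon

/-!
Block PX, item UM: an open normal subgroup which contains the inertia groups of the primes not
above `p` contains the Galois group over the maximal extension unramified outside `p`.
-/

set_option autoImplicit false

open NumberField IsDedekindDomain
open scoped Pointwise

namespace Pool.Agent.Work.MP_59f3ad_nt.PX

open Pool.Agent.Work.MP_59f3ad_nt.FE
open Pool.Agent.Work.MP_59f3ad_nt.Q3

universe u

theorem pr_UM : StUM.{u} := by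
  intro L _ _ p _ U hUn hop hin g hg
  have hUc : IsClosed (U : Set (GK L)) := Subgroup.isClosed_of_isOpen _ hop
  let K : IntermediateField L (AlgebraicClosure L) := IntermediateField.fixedField U
  have hgalL : IsGalois L (AlgebraicClosure L) := ⟨⟩
  have hKU : K.fixingSubgroup = U := InfiniteGalois.fixingSubgroup_fixedField ⟨U, hUc⟩
  have hfin : FiniteDimensional L K := by
    rw [← InfiniteGalois.isOpen_iff_finite, hKU]
    exact hop
  have hgal : IsGalois L K := by
    rw [← InfiniteGalois.normal_iff_isGalois, hKU]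
    exact hUn
  have hnf : NumberField K := NumberField.of_module_finite L K
  have hK : K ≤ maxUnram L (Sp L p) := by
    refine le_iSup (fun F : {F : IntermediateField L (AlgebraicClosure L) //
      FiniteDimensional L F ∧ UnramOutside L (Sp L p) F} => F.1) ⟨K, hfin, ?_⟩
    intro q hq
    obtain ⟨P, hP, hl⟩ := Ideal.exists_maximal_ideal_liesOver_of_isIntegral (S := 𝓞 K) q.asIdeal
    have hP' : P.IsPrime := hP.isPrime
    refine IMon.unram L K q P fun σ hσ => ?_
    obtain ⟨g', Q, hQ, hgσ⟩ := IMon.lift_inertia L K q P σ hσ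
    have hpQ : (p : 𝓞 (AlgebraicClosure L)) ∉ Q := by
      intro h4
      apply hq
      show (p : 𝓞 L) ∈ q.asIdeal
      rw [← hQ.co, Ideal.mem_comap, map_natCast]
      exact h4
    have h3 : g' ∈ U := hin Q hQ.pr hpQ g' hQ.inr
    rw [← hKU] at h3
    ext y
    rw [AlgEquiv.one_apply, ← hgσ]
    exact h3 y
  have h1 : g ∈ K.fixingSubgroup := IntermediateField.fixingSubgroup_antitone hK hg
  rw [hKU] at h1
  exact h1

end Pool.Agent.Work.MP_59f3ad_nt.PX
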