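import Pool.Agent.Work.MP_59f3ad_nt.PX.StmtsB
import Pool.Agent.Work.MP_59f3ad_nt.FE.I_UX
import Pool.Agent.Work.MP_59f3ad_nt.UCF.All

/-!
Block PX, item UNR: homomorphisms modulo `p` which are trivial on all inertia groups.
-/

set_option autoImplicit false

open NumberField IsDedekindDomain

namespace Pool.Agent.Work.MP_59f3ad_nt.PX

universe u

namespace IUNR

theorem dvd_iff (p : ℕ) [Fact p.Prime] (x : ℤ_[p]) :
    (p : ℤ_[p]) ∣ x ↔ PadicInt.toZMod x = 0 := by
  rw [← RingHom.mem_ker, PadicInt.ker_toZMod, PadicInt.maximalIdeal_eq_span_p,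
    Ideal.mem_span_singleton]

/-- the homomorphism to `ℤ/p` -/
noncomputable def hom {G : Type u} [Group G] (p : ℕ) [Fact p.Prime] (f : G → ℤ_[p])
    (hf : ∀ g h, (p : ℤ_[p]) ∣ f (g * h) - (f g + f h)) : G →* Multiplicative (ZMod p) :=
  MonoidHom.mk' (fun g => Multiplicative.ofAdd (PadicInt.toZMod (f g))) (by
    intro g h
    have h1 := (dvd_iff p _).1 (hf g h)
    rw [map_sub, map_add, sub_eq_zero] at h1
    rw [h1]
    rfl)

theorem mem_ker {G : Type u} [Group G] (p : ℕ) [Fact p.Prime] (f : G → ℤ_[p])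
    (hf : ∀ g h, (p : ℤ_[p]) ∣ f (g * h) - (f g + f h)) (g : G) :
    g ∈ (hom p f hf).ker ↔ (p : ℤ_[p]) ∣ f g := by
  rw [MonoidHom.mem_ker, dvd_iff]
  exact Iff.rfl

theorem index_dvd {G : Type u} [Group G] (p : ℕ) [Fact p.Prime] (f : G → ℤ_[p])
    (hf : ∀ g h, (p : ℤ_[p]) ∣ f (g * h) - (f g + f h)) : (hom p f hf).ker.index ∣ p := by
  rw [Subgroup.index_ker]
  have h1 := Subgroup.card_subgroup_dvd_card (hom p f hf).range
  have h2 : Nat.card (Multiplicative (ZMod p)) = p := Nat.card_zmod p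
  rwa [h2] at h1

end IUNR

open IUNR in
/-- item UNR -/
theorem pr_UNR : StUNR.{u} := by
  intro K _ _ p _ hp hcl f hcont hf h3 h4
  have hpp : p.Prime := Fact.out
  have hopen : IsOpen ((hom p f hf).ker : Set (GK K)) := by
    have h5 : ((hom p f hf).ker : Set (GK K)) = f ⁻¹' {x | ‖x‖ < 1} := by
      ext g
      rw [SetLike.mem_coe, mem_ker]
      exact (PadicInt.norm_lt_one_iff_dvd (f g)).symm
    rw [h5]
    exact (isOpen_lt continuous_norm continuous_const).preimage hcont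
  have hcomm : ∀ g h : GK K, g * h * g⁻¹ * h⁻¹ ∈ (hom p f hf).ker := by
    intro g h
    rw [MonoidHom.mem_ker, map_mul, map_mul, map_mul, map_inv, map_inv]
    rw [mul_comm (hom p f hf g) (hom p f hf h)]
    simp
  have hin : ∀ Q : Ideal (𝓞 (AlgebraicClosure K)), Q.IsPrime → Q ≠ ⊥ → ∀ h : GK K, FE.Inr Q h →
      h ∈ (hom p f hf).ker := by
    intro Q hQ _ h hh
    rw [mem_ker]
    by_cases hpQ : (p : 𝓞 (AlgebraicClosure K)) ∈ Q
    · exact h4 Q hQ hpQ h hh
    · exact h3 Q hQ hpQ h hh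
  obtain ⟨M, hM1, hM2, hM3, hM4, hM5, hM6⟩ :=
    FE.pr_UX K (AlgebraicClosure K) (hom p f hf).ker hopen hcomm hin
  have hd : Module.finrank K M ∣ p := by
    rw [hM4]
    exact index_dvd p f hf
  have hodd : Odd (Module.finrank K M) := (hpp.odd_of_ne_two hp).of_dvd_nat hd
  haveI : NumberField M := NumberField.of_module_finite K M
  have hdvd := (UCF.ucf K M hM5 hodd hM6).2
  have h1 : Module.finrank K M = 1 := by
    rcases (Nat.dvd_prime hpp).1 hd with h | h
    · exact h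
    · rw [h] at hdvd
      exact absurd hdvd hcl
  have htop : (hom p f hf).ker = ⊤ := by
    rw [← Subgroup.index_eq_one, ← hM4, h1]
  intro g
  rw [← mem_ker p f hf, htop]
  exact Subgroup.mem_top g

end Pool.Agent.Work.MP_59f3ad_nt.PX
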