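import Pool.Agent.Work.MP_59f3ad_nt.PX.StmtsB

/-! Item WW of block PX: two witnesses for the same vector differ by a `p`-th power. -/

set_option autoImplicit false

open NumberField IsDedekindDomain

namespace Pool.Agent.Work.MP_59f3ad_nt.PX

universe u

theorem pr_WW (hLPM : StLPM.{u}) : StWW.{u} := by
  intro F _ _ p _ t m0 x c π hC e d d' hd hd'
  have hp : p.Prime := Fact.out
  have hp1 : p - 1 + 1 = p := Nat.succ_pred_eq_of_pos hp.pos
  apply hC.hH
  refine ⟨mul_ne_zero hd.ne (pow_ne_zero _ hd'.ne), ?_, ?_⟩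
  · intro q hq
    obtain ⟨y, hy⟩ := hd.val q hq
    obtain ⟨y', hy'⟩ := hd'.val q hq
    refine ⟨y * y' ^ (p - 1), ?_⟩
    have e1 : ((d * d' ^ (p - 1) : 𝓞 F) : F) = (d : F) * (d' : F) ^ (p - 1) := by
      push_cast
      rfl
    rw [e1, map_mul, map_pow, hy, hy', map_mul, map_pow, mul_pow, ← pow_mul, ← pow_mul,
      mul_comm p (p - 1)]
  · intro v hv
    obtain ⟨k, hk⟩ := hd.loc v hv
    obtain ⟨k', hk'⟩ := hd'.loc v hv
    obtain ⟨h1, h2, h3, h4⟩ := hLPM.1 F p v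
    have hE0 : (∏ i, x i ^ (e i).val) ≠ 0 :=
      Finset.prod_ne_zero_iff.mpr (fun i _ => pow_ne_zero _ (hC.xn i))
    have hZ : (∏ i, x i ^ ((0 : Fin t → ZMod p) i).val) = 1 := by simp
    refine ⟨k + (p - 1) * k', ?_⟩
    rw [hZ]
    generalize (∏ i, x i ^ (e i).val) = E at hk hk' hE0
    generalize Mx m0 x c = M at hk hk' ⊢
    have h5 := h1 _ _ hk (h2 _ (p - 1) hk')
    have h6 : ((d * E * M ^ k : 𝓞 F) : F) * ((d' * E * M ^ k' : 𝓞 F) : F) ^ (p - 1) =
        ((d * d' ^ (p - 1) * 1 * M ^ (k + (p - 1) * k') : 𝓞 F) : F) * (E : F) ^ p := by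
      have h7 : (d * E * M ^ k) * (d' * E * M ^ k') ^ (p - 1) =
          (d * d' ^ (p - 1) * 1 * M ^ (k + (p - 1) * k')) * E ^ p := by
        have e2 : E ^ p = E ^ (p - 1) * E := by
          rw [← pow_succ, hp1]
        rw [e2, mul_pow, mul_pow, pow_add, ← pow_mul, mul_comm k' (p - 1)]
        ring
      have h8 := congrArg (fun z : 𝓞 F => (z : F)) h7
      simp only [map_mul, map_pow] at h8 ⊢
      exact h8
    rw [h6] at h5
    refine h4 _ ((E : F) ^ p) (pow_ne_zero _ ?_) h5 (h3 _)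
    intro h9
    exact hE0 (RingOfIntegers.coe_eq_zero_iff.mp h9)

end Pool.Agent.Work.MP_59f3ad_nt.PX
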