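import Mathlib
import Pool.Agent.Work.MP_59f3ad_nt.PX.StmtsD
import Pool.Agent.Work.MP_59f3ad_nt.Q3.I_Mon
import Pool.Agent.Work.MP_59f3ad_nt.FE.I_MU

/-!
Block PX, item ZS: a cocycle which vanishes on the inertia groups of the primes not above `p` is
unramified outside `p`.
-/

set_option autoImplicit false

open NumberField IsDedekindDomain

namespace Pool.Agent.Work.MP_59f3ad_nt.PX

open Pool.Agent.Work.MP_59f3ad_nt.FE

universe u

/-- Item ZS. -/
theorem pr_ZS (hUM : StUM.{u}) : StZS.{u} := by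
  intro K _ _ p _ r φ hφ hin
  refine ⟨hφ, fun g hg => ?_⟩
  have key : ∀ n : ℕ, (p : ℤ_[p]) ^ n ∣ φ g := by
    intro n
    have hnor : (Q3.IMon.U K p r φ hφ n).Normal := Q3.IMon.U_normal K p r φ hφ n
    have h := hUM K p (Q3.IMon.U K p r φ hφ n) (Q3.IMon.U_open K p r φ hφ n) (by
      intro Q hQ hpQ h hh
      refine ⟨?_, ?_⟩
      · rw [pr_MU K p Q hQ hpQ h hh]
        simp
      · rw [hin Q hQ hpQ h hh]
        exact dvd_zero _) hg
    exact h.2
  by_contra hne
  obtain ⟨n, hn⟩ := FiniteMultiplicity.of_prime_left PadicInt.prime_p hne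
  exact hn (key (n + 1))

end Pool.Agent.Work.MP_59f3ad_nt.PX
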