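import Mathlib
import Pool.Agent.Work.MP_59f3ad_nt.PX.StmtsB

/-!
Block PX, part C: the general form (no hypothesis on the class group of `F`): the finite group of pairs
`(e, d mod p-th powers)` replaces the group of the vectors `e`. The structure `Cty` is `Ctx` with a weaker last
hypothesis `hH`; the landed proofs of `LPM`, `RL1` (which do not use `hH`) apply word for word with `Cty` in
place of `Ctx`.
-/

set_option autoImplicit false

open NumberField IsDedekindDomain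

namespace Pool.Agent.Work.MP_59f3ad_nt.PX

universe u

/-- `d` and `d'` differ by a `p`-th power of `F*`. -/
def Eqv {F : Type u} [Field F] [NumberField F] (p : ℕ) (d d' : 𝓞 F) : Prop :=
  ∃ g g' : 𝓞 F, g ≠ 0 ∧ g' ≠ 0 ∧ g ^ p * d = g' ^ p * d'

/-- The standing hypotheses, general form: a witness `d` for the vector `0` prime to all `π_k` is a `p`-th power,
or it is not a `p`-th power modulo some `π_i`. -/
structure Cty {F : Type u} [Field F] [NumberField F] (p : ℕ) {t : ℕ} (m0 : 𝓞 F)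
    (x : Fin t → 𝓞 F) (c : Fin t → ℕ) (π : Fin t → 𝓞 F) : Prop where
  ht : 1 ≤ t
  m0n : m0 ≠ 0
  m0v : ∀ q : HeightOneSpectrum (𝓞 F), q ∉ Sp F p → Vd F p q (m0 : F)
  xn : ∀ i, x i ≠ 0
  hc : ∀ i, 1 ≤ c i ∧ c i < p
  nsp : ∀ v ∈ Sp F p, ¬ Lp F p v (Mx m0 x c : F)
  hH : ∀ d : 𝓞 F, Wt p m0 x c 0 d → (∀ k, ¬ π k ∣ d) →
    (∃ g : 𝓞 F, g ^ p = d) ∨ ∃ i, ¬ ∃ y : 𝓞 F, π i ∣ y ^ p - d
  pr : ∀ i, Prime (π i)
  np : ∀ i, ¬ π i ∣ (p : 𝓞 F)
  na : ∀ i k, Associated (π i) (π k) → i = k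
  nm0 : ∀ i, ¬ π i ∣ m0
  lc : ∀ i, ∀ v ∈ Sp F p, ∃ y : v.adicCompletion F,
    algebraMap F (v.adicCompletion F) (π i : F) =
      algebraMap F (v.adicCompletion F) (x i : F) * y ^ p

/-- LPM2 (EASY, the second part of StLPM with `Cty` in place of `Ctx`; copy of `I_LPM.lean`). -/
def StLPM2 : Prop := ∀ (F : Type u) [Field F] [NumberField F] (p : ℕ) [Fact p.Prime] (t : ℕ)
    (m0 : 𝓞 F) (x : Fin t → 𝓞 F) (c : Fin t → ℕ) (π : Fin t → 𝓞 F), Cty p m0 x c π →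
    ∀ v ∈ Sp F p, ∀ (D : 𝓞 F) (e : Fin t → ℕ) (k : ℕ),
    Lp F p v ((D * (∏ i, π i ^ e i) * Mx m0 π c ^ k : 𝓞 F) : F) ↔
      Lp F p v ((D * (∏ i, x i ^ e i) * Mx m0 x c ^ k : 𝓞 F) : F)

/-- RX1 (EASY, StRL1 with `Cty` in place of `Ctx`; copy of `I_RL1.lean`; from StLFT, StLPM, StLPM2). -/
def StRX1 : Prop := ∀ (F : Type u) [Field F] [NumberField F] (p : ℕ) [Fact p.Prime] (t : ℕ)
  (m0 : 𝓞 F) (x : Fin t → 𝓞 F) (c : Fin t → ℕ) (π : Fin t → 𝓞 F), Cty p m0 x c π →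
  ∀ a : F, Dt p m0 c π a → ∀ l j : ℕ, ∃ (e : Fin t → ZMod p) (D : 𝓞 F) (g : F),
    Rl p m0 x c π a l j e D g

/-- RX2 (MEDIUM; compare `I_RL2.lean`). The relation, for `d` with `Eqv p D d`: `g1^p D = g2^p d`. Fix `k`; the
multiplicities of `π k` in `g1` and `g2` are equal (`π k` divides neither `D` nor `d`): `g1 = π_k^n g1'`,
`g2 = π_k^n g2'` with `π_k ∤ g1', g2'` (finite multiplicity: `𝓞 F` is a noetherian domain,
`WfDvdMonoid.max_power_factor`), and `g1'^p D = g2'^p d`, so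
`ind D = ind d` (`Sym.mul`, `p = 0` in `ℤ/p`). Then as in RL2. -/
def StRX2 : Prop := ∀ (F : Type u) [Field F] [NumberField F] (p : ℕ) [Fact p.Prime]
  (ind : 𝓞 F → 𝓞 F → ZMod p), Sym F p ind → ∀ (t : ℕ)
  (m0 : 𝓞 F) (x : Fin t → 𝓞 F) (c : Fin t → ℕ) (π : Fin t → 𝓞 F), Cty p m0 x c π →
  ∀ a : F, Dt p m0 c π a → ∀ (l j : ℕ) (e : Fin t → ZMod p) (D : 𝓞 F) (g : F),
  Rl p m0 x c π a l j e D g → ∀ d : 𝓞 F, Eqv p D d → (∀ k, ¬ π k ∣ d) →
  ∀ k, ∑ i ∈ Finset.univ.erase k, ((c k : ZMod p) * e i - (c i : ZMod p) * e k) *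
    ind (π k) (π i) = -((c k : ZMod p) * ind (π k) d - e k * ind (π k) m0)

/-- RX3 (MEDIUM, from StLPM first part, StLPM2; compare `I_RL3.lean`). As in RL3 up to the witness
`d' = D m0^(λ')` for the vector `0`: `d' (∏ π_i^(f_i))^p = a^l m^(j + λ') g^p`. `π_k ∤ d'` for all `k`. By `hH` either
`d'` is a `p`-th power, and the end of RL3 applies; or there is `i` such that `d'` is not a `p`-th power modulo
`π_i`. In the second case `Dt.tam` for `l`, `j + λ'`, the element `g / ∏ π_i^(f_i)`, the cofactor `d'` and the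
exponents `0` gives at `π_i`: `π_i ∣ y^p - d'^(c_i)`. Let `c_i s = 1 + p w` (`p ∤ c_i`): `d'^(1 + p w)` is a `p`-th power
modulo `π_i`, and `d'^(p w)` is one, a unit modulo `π_i`, so `d'` is a `p`-th power modulo `π_i`: contradiction. (Or with
the index: assume `∃ ind, Sym F p ind` as a hypothesis `hSym`.) -/
def StRX3 : Prop := ∀ (F : Type u) [Field F] [NumberField F] (p : ℕ) [Fact p.Prime]
  (ind : 𝓞 F → 𝓞 F → ZMod p), Sym F p ind → ∀ (t : ℕ)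
  (m0 : 𝓞 F) (x : Fin t → 𝓞 F) (c : Fin t → ℕ) (π : Fin t → 𝓞 F), Cty p m0 x c π →
  ∀ a : F, Dt p m0 c π a → ∀ (l j : ℕ) (e : Fin t → ZMod p) (D : 𝓞 F) (g : F),
  Rl p m0 x c π a l j e D g → ¬ p ∣ l →
  ∃ i k, (c k : ZMod p) * e i ≠ (c i : ZMod p) * e k

/-- RX4 (EASY-MEDIUM, from StLPM, StLPM2; compare `I_RL4.lean`). Different `(l, j)` have different pairs `(e, D)` modulo
`p`-th powers. `g1^p D = g2^p D'`. With `E = ∏ π_i^(e_i)`: `D E = a^l m^j g^p`, `D' E = a^(l') m^(j') g'^p`, so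
`g1^p a^l m^j g^p = g2^p a^(l') m^(j') g'^p`; multiply by `(a^(l') m^(j'))^(p-1)`:
`a^(l + (p-1) l') m^(j + (p-1) j')` is a `p`-th power in `F`. The rest as in RL4. -/
def StRX4 : Prop := ∀ (F : Type u) [Field F] [NumberField F] (p : ℕ) [Fact p.Prime] (t : ℕ)
  (m0 : 𝓞 F) (x : Fin t → 𝓞 F) (c : Fin t → ℕ) (π : Fin t → 𝓞 F), Cty p m0 x c π →
  ∀ a : F, Dt p m0 c π a → ∀ (l j l' j' : ℕ) (e : Fin t → ZMod p) (D D' : 𝓞 F) (g g' : F),
  1 ≤ l → l < p → 1 ≤ l' → l' < p → j < p → j' < p →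
  Rl p m0 x c π a l j e D g → Rl p m0 x c π a l' j' e D' g' → Eqv p D D' → l = l' ∧ j = j'

/-- RXS (MEDIUM, from StDET, StRX1, StRX2, StRX3, StRX4, StLPM2; compare `I_RLS.lean`). `R` is a finite set of
representatives `(e, d)`. As in RLS; for every `(l, j)` take `e`, `D`, `g` from RX1, `e` is not proportional to `c` (RX3), and
choose `d` with `(e, d) ∈ R`, `Eqv p D d`. The pairs `(e, d)` for different `(l, j)` are different: otherwise
`Eqv p D D'` (`Eqv` is symmetric and transitive) and RX4. RX2 gives the relation. -/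
def StRXS : Prop := ∀ (F : Type u) [Field F] [NumberField F] (p : ℕ) [Fact p.Prime], p ≠ 2 →
  ∀ ζ : F, IsPrimitiveRoot ζ p → ∀ ind : 𝓞 F → 𝓞 F → ZMod p, Sym F p ind → ∀ (t : ℕ)
  (m0 : 𝓞 F) (x : Fin t → 𝓞 F) (c : Fin t → ℕ) (π : Fin t → 𝓞 F), Cty p m0 x c π →
  ∀ R : Finset ((Fin t → ZMod p) × 𝓞 F), (∀ a ∈ R, ∀ k, ¬ π k ∣ a.2) →
  (∀ (e : Fin t → ZMod p) (D : 𝓞 F), (∃ i k, (c k : ZMod p) * e i ≠ (c i : ZMod p) * e k) →
    Wt p m0 x c e D → ∃ d, (e, d) ∈ R ∧ Eqv p D d) →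
  ¬ Good p m0 c π →
  ∃ T : Finset ((Fin t → ZMod p) × 𝓞 F), T.card = (p - 1) * p ∧ ∀ a ∈ T, a ∈ R ∧
    (∃ i k, (c k : ZMod p) * a.1 i ≠ (c i : ZMod p) * a.1 k) ∧
    ∀ k, ∑ i ∈ Finset.univ.erase k, ((c k : ZMod p) * a.1 i - (c i : ZMod p) * a.1 k) *
      ind (π k) (π i) = -((c k : ZMod p) * ind (π k) a.2 - a.1 k * ind (π k) m0)

open Classical in
/-- CNX (MEDIUM, assembly, from StIND, StDEG, StRXS, StFMO, StEXC; compare `I_CNT.lean`). As CNT with `R` in place of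
`EE`. `H` = the elements `(e, d)` of `R` with `e` not proportional to `c`. `D0 = m0 ∏_((e,d) ∈ R) d ≠ 0`. Tuples `π` in
`∏ P i`, not exceptional (EXC): `Cty p m0 x c π` holds (`hH` by the last hypothesis and `π_i ∤ d`), RXS gives
`(p-1) p` elements of `H` with the relation, FMO bounds the number of `π` for every `(e, d) ∈ H`. -/
def StCNX : Prop := ∀ (F : Type u) [Field F] [NumberField F] (p : ℕ) [Fact p.Prime], p ≠ 2 →
  ∀ ζ : F, IsPrimitiveRoot ζ p → ∀ (t : ℕ) (m0 : 𝓞 F) (x : Fin t → 𝓞 F) (c : Fin t → ℕ), 1 ≤ t →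
  m0 ≠ 0 → (∀ q : HeightOneSpectrum (𝓞 F), q ∉ Sp F p → Vd F p q (m0 : F)) → (∀ i, x i ≠ 0) →
  (∀ i, 1 ≤ c i ∧ c i < p) → (∀ v ∈ Sp F p, ¬ Lp F p v (Mx m0 x c : F)) →
  ∀ R : Finset ((Fin t → ZMod p) × 𝓞 F), (∀ a ∈ R, a.2 ≠ 0) →
  (∀ (e : Fin t → ZMod p) (D : 𝓞 F), (∃ i k, (c k : ZMod p) * e i ≠ (c i : ZMod p) * e k) →
    Wt p m0 x c e D → ∃ d, (e, d) ∈ R ∧ Eqv p D d) → ∀ ε : ℝ, 0 < ε →
  ∃ X0 : ℕ, ∀ X : ℕ, X0 ≤ X → ∀ P : Fin t → Finset (𝓞 F), (∀ i, Adm F p X (P i)) →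
  (∀ i, (X : ℝ) ^ ((Module.finrank ℚ F : ℝ) - 1 / 4) ≤ (P i).card) →
  (∀ i, ∀ z ∈ P i, ∀ v ∈ Sp F p, ∃ y : v.adicCompletion F,
    algebraMap F (v.adicCompletion F) (z : F) =
      algebraMap F (v.adicCompletion F) (x i : F) * y ^ p) →
  (∀ d : 𝓞 F, Wt p m0 x c 0 d → (∃ g : 𝓞 F, g ^ p = d) ∨
    ∃ i, ∀ z ∈ P i, ¬ z ∣ d → ¬ ∃ y : 𝓞 F, z ∣ y ^ p - d) →
  (((Fintype.piFinset P).filter (fun π => ¬ Good p m0 c π)).card : ℝ) ≤
    ((R.card : ℝ) / (((p : ℝ) - 1) * (p : ℝ) ^ t) + ε) * ∏ i, ((P i).card : ℝ)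

/-- FSL (MEDIUM). Finiteness of the group of the `d` modulo `p`-th powers whose valuations outside `p` are divisible
by `p`. Write `(d) = I^p ∏_(v ∈ Sp) v^(n_v)`, `0 ≤ n_v < p` (finitely many `v` above `p`). For given `(n_v)` fix one such
`d0` (if there is one): `(d) J^p = (d0) J'^p` for nonzero ideals `J, J'` of `𝓞 F`. For given `(n_v)` and given class of
`J / J'` in the finite class group fix one `d1` in place of `d0` (the class for `d` relative to `d0`); then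
`(d) K^p = (d1) K'^p` with `K`, `K'` in the same class, `K (g') = K' (g)`: so `d g^p = u d1 g'^p` (after changing
names) with a unit `u`; `𝓞 F` units modulo `p`-th powers form a finite group (Dirichlet: finitely generated,
`NumberField.Units` / `Group.FG` abelian), take representatives `u_i`: `ρ = u_i d1`. -/
def StFSL : Prop := ∀ (F : Type u) [Field F] [NumberField F] (p : ℕ) [Fact p.Prime],
  ∃ R : Finset (𝓞 F), (∀ ρ ∈ R, ρ ≠ 0) ∧ ∀ d : 𝓞 F, d ≠ 0 →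
    (∀ q : HeightOneSpectrum (𝓞 F), q ∉ Sp F p → Vd F p q (d : F)) → ∃ ρ ∈ R, Eqv p d ρ

end Pool.Agent.Work.MP_59f3ad_nt.PX
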