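import Mathlib
import Pool.Agent.Work.MP_59f3ad_nt.PX.StmtsC
import Pool.Agent.Work.MP_59f3ad_nt.PX.I_BAS
import Pool.Agent.Work.MP_59f3ad_nt.PX.I_BET
import Pool.Agent.Work.MP_59f3ad_nt.PX.I_BIL
import Pool.Agent.Work.MP_59f3ad_nt.PX.I_BLT
import Pool.Agent.Work.MP_59f3ad_nt.PX.I_BOX
import Pool.Agent.Work.MP_59f3ad_nt.PX.I_CFG
import Pool.Agent.Work.MP_59f3ad_nt.PX.I_CH0
import Pool.Agent.Work.MP_59f3ad_nt.PX.I_CH1
import Pool.Agent.Work.MP_59f3ad_nt.PX.I_CHN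
import Pool.Agent.Work.MP_59f3ad_nt.PX.I_CNT
import Pool.Agent.Work.MP_59f3ad_nt.PX.I_CRD
import Pool.Agent.Work.MP_59f3ad_nt.PX.I_DEG
import Pool.Agent.Work.MP_59f3ad_nt.PX.I_DET
import Pool.Agent.Work.MP_59f3ad_nt.PX.I_DEX
import Pool.Agent.Work.MP_59f3ad_nt.PX.I_DI
import Pool.Agent.Work.MP_59f3ad_nt.PX.I_DK
import Pool.Agent.Work.MP_59f3ad_nt.PX.I_DL
import Pool.Agent.Work.MP_59f3ad_nt.PX.I_DUA
import Pool.Agent.Work.MP_59f3ad_nt.PX.I_EP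
import Pool.Agent.Work.MP_59f3ad_nt.PX.I_EXS
import Pool.Agent.Work.MP_59f3ad_nt.PX.I_EXT
import Pool.Agent.Work.MP_59f3ad_nt.PX.I_FMO
import Pool.Agent.Work.MP_59f3ad_nt.PX.I_FX
import Pool.Agent.Work.MP_59f3ad_nt.PX.I_GX
import Pool.Agent.Work.MP_59f3ad_nt.PX.I_H90
import Pool.Agent.Work.MP_59f3ad_nt.PX.I_HHR
import Pool.Agent.Work.MP_59f3ad_nt.PX.I_I1
import Pool.Agent.Work.MP_59f3ad_nt.PX.I_I2
import Pool.Agent.Work.MP_59f3ad_nt.PX.I_IND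
import Pool.Agent.Work.MP_59f3ad_nt.PX.I_INF
import Pool.Agent.Work.MP_59f3ad_nt.PX.I_INH
import Pool.Agent.Work.MP_59f3ad_nt.PX.I_KK
import Pool.Agent.Work.MP_59f3ad_nt.PX.I_KUM
import Pool.Agent.Work.MP_59f3ad_nt.PX.I_LCT
import Pool.Agent.Work.MP_59f3ad_nt.PX.I_LD
import Pool.Agent.Work.MP_59f3ad_nt.PX.I_LFT
import Pool.Agent.Work.MP_59f3ad_nt.PX.I_LG
import Pool.Agent.Work.MP_59f3ad_nt.PX.I_LP
import Pool.Agent.Work.MP_59f3ad_nt.PX.I_LPM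
import Pool.Agent.Work.MP_59f3ad_nt.PX.I_MUF
import Pool.Agent.Work.MP_59f3ad_nt.PX.I_ND
import Pool.Agent.Work.MP_59f3ad_nt.PX.I_NI
import Pool.Agent.Work.MP_59f3ad_nt.PX.I_NMB
import Pool.Agent.Work.MP_59f3ad_nt.PX.I_NRR
import Pool.Agent.Work.MP_59f3ad_nt.PX.I_NX
import Pool.Agent.Work.MP_59f3ad_nt.PX.I_PBX
import Pool.Agent.Work.MP_59f3ad_nt.PX.I_PW
import Pool.Agent.Work.MP_59f3ad_nt.PX.I_RAM
import Pool.Agent.Work.MP_59f3ad_nt.PX.I_REP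
import Pool.Agent.Work.MP_59f3ad_nt.PX.I_RL1
import Pool.Agent.Work.MP_59f3ad_nt.PX.I_RL2
import Pool.Agent.Work.MP_59f3ad_nt.PX.I_RL3
import Pool.Agent.Work.MP_59f3ad_nt.PX.I_RL4
import Pool.Agent.Work.MP_59f3ad_nt.PX.I_RLS
import Pool.Agent.Work.MP_59f3ad_nt.PX.I_SEX
import Pool.Agent.Work.MP_59f3ad_nt.PX.I_SHF
import Pool.Agent.Work.MP_59f3ad_nt.PX.I_SHS
import Pool.Agent.Work.MP_59f3ad_nt.PX.I_SHZ
import Pool.Agent.Work.MP_59f3ad_nt.PX.I_SQM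
import Pool.Agent.Work.MP_59f3ad_nt.PX.I_TAM
import Pool.Agent.Work.MP_59f3ad_nt.PX.I_TR1
import Pool.Agent.Work.MP_59f3ad_nt.PX.I_TR2
import Pool.Agent.Work.MP_59f3ad_nt.PX.I_TRN
import Pool.Agent.Work.MP_59f3ad_nt.PX.I_TS
import Pool.Agent.Work.MP_59f3ad_nt.PX.I_TW1
import Pool.Agent.Work.MP_59f3ad_nt.PX.I_UFD
import Pool.Agent.Work.MP_59f3ad_nt.PX.I_UM
import Pool.Agent.Work.MP_59f3ad_nt.PX.I_UNR
import Pool.Agent.Work.MP_59f3ad_nt.PX.I_VFK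
import Pool.Agent.Work.MP_59f3ad_nt.PX.I_WW
import Pool.Agent.Work.MP_59f3ad_nt.PX.I_ZS

/-!
Block PX: all items of parts D and A together.
-/

set_option autoImplicit false

namespace Pool.Agent.Work.MP_59f3ad_nt.PX

universe u

theorem all_ND : StND.{u} := pr_ND pr_NI pr_DI
theorem all_LP : StLP.{u} := pr_LP pr_NI pr_DI
theorem all_LG : StLG.{u} := pr_LG all_LP
theorem all_SHS : StSHS.{u} := pr_SHS (pr_LD pr_DK)
theorem all_ZS : StZS.{u} := pr_ZS pr_UM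
theorem all_SHZ : StSHZ.{u} := pr_SHZ (pr_DL pr_NI pr_DI) all_ZS pr_INF
theorem all_SHF : StSHF.{u} := pr_SHF all_SHZ pr_TRN
theorem all_BET : StBET.{u} := pr_BET all_ND pr_MUF
theorem all_PW : StPW.{u} := pr_PW pr_GX
theorem all_SEX : StSEX.{u} := pr_SEX pr_I1 all_PW
theorem all_DEX : StDEX.{u} := pr_DEX all_LG all_PW
theorem all_KK : StKK.{u} := pr_KK pr_GX
theorem all_CHN : StCHN.{u} := pr_CHN pr_CH0 (pr_CH1 pr_CH0)
theorem all_LCT : StLCT.{u} := pr_LCT all_DEX pr_TW1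
theorem all_FX : StFX.{u} := pr_FX (pr_H90 pr_GX)
theorem all_NRR : StNRR.{u} := pr_NRR pr_KUM all_FX all_LCT pr_TS pr_TW1
theorem all_EXT : StEXT.{u} := pr_EXT pr_GX
theorem all_EXS : StEXS.{u} := pr_EXS pr_GX pr_MUF all_ND
theorem all_INH : StINH.{u} := pr_INH all_SHS all_SHF all_BET all_ND pr_MUF all_SEX all_KK pr_TS
  pr_SQM all_CHN all_NRR all_EXT all_EXS
theorem all_TR1 : StTR1.{u} := pr_TR1 all_DEX all_LG pr_GX
theorem all_TR2 : StTR2.{u} := pr_TR2 pr_I1 pr_I2 pr_GX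
theorem all_TAM : StTAM.{u} := pr_TAM pr_NX
theorem all_DET : StDET.{u} := pr_DET pr_CFG all_INH all_TR1 all_TR2 pr_RAM all_TAM pr_NX

theorem all_REP : StREP.{u} := pr_REP pr_UFD
theorem all_WW : StWW.{u} := pr_WW pr_LPM
theorem all_VFK : StVFK.{u} := pr_VFK pr_UNR pr_I2
theorem all_HHR : StHHR.{u} := pr_HHR all_VFK pr_LPM

end Pool.Agent.Work.MP_59f3ad_nt.PX
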