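import Mathlib
import Pool.Agent.Work.MP_59f3ad_nt.PX.StmtsB
import Pool.Agent.Work.MP_59f3ad_nt.Bridge
import Pool.Agent.Work.MP_59f3ad_nt.Bdx.B04
import Pool.Agent.Work.MP_59f3ad_nt.Q3.I_Tau

/-!
Block PX, item DIV: a Tate-Shafarevich cocycle all of whose values are divisible by `p` is `p` times a
Tate-Shafarevich cocycle plus a coboundary, if there is only one place above `p`.
-/

set_option autoImplicit false

open NumberField IsDedekindDomain
open scoped Pointwise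

namespace Pool.Agent.Work.MP_59f3ad_nt.PX

open Pool.Agent.Work.MP_59f3ad_nt.FE

universe u

namespace IDIV

theorem continuous_div {X : Type*} [TopologicalSpace X] (p : ℕ) [hp : Fact p.Prime]
    (ψ : X → ℤ_[p]) (h : Continuous fun x => (p : ℤ_[p]) * ψ x) : Continuous ψ := by
  have h3 : (p : ℤ_[p]) ≠ 0 := Nat.cast_ne_zero.2 hp.out.ne_zero
  have hinj : Function.Injective fun a : ℤ_[p] => (p : ℤ_[p]) * a := by
    intro a b hab
    exact mul_left_cancel₀ h3 hab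
  have hemb : Topology.IsClosedEmbedding fun a : ℤ_[p] => (p : ℤ_[p]) * a :=
    (continuous_const.mul continuous_id).isClosedEmbedding hinj
  exact hemb.isInducing.continuous_iff.2 h

/-- the place below a prime which contains `p` -/
theorem below (K : Type u) [Field K] [NumberField K] (p : ℕ) [hp : Fact p.Prime]
    (Q : Ideal (𝓞 (AlgebraicClosure K))) (hQ : Q.IsPrime)
    (hpQ : (p : 𝓞 (AlgebraicClosure K)) ∈ Q) :
    ∃ v ∈ Sp K p, Q.comap (algebraMap (𝓞 K) (𝓞 (AlgebraicClosure K))) = v.asIdeal := by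
  have hmem : (p : 𝓞 K) ∈ Q.comap (algebraMap (𝓞 K) (𝓞 (AlgebraicClosure K))) := by
    rw [Ideal.mem_comap, map_natCast]
    exact hpQ
  have hne : Q.comap (algebraMap (𝓞 K) (𝓞 (AlgebraicClosure K))) ≠ ⊥ := by
    intro h
    rw [h, Ideal.mem_bot] at hmem
    exact hp.out.ne_zero (by exact_mod_cast hmem)
  have hpr : (Q.comap (algebraMap (𝓞 K) (𝓞 (AlgebraicClosure K)))).IsPrime :=
    Ideal.comap_isPrime _ _
  exact ⟨⟨_, hpr, hne⟩, hmem, rfl⟩

/-- conjugate primes -/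
theorem conj (K : Type u) [Field K] [NumberField K]
    (Q Q0 : Ideal (𝓞 (AlgebraicClosure K))) (hQ : Q.IsPrime) (hQ0 : Q0.IsPrime)
    (hco : Q.comap (algebraMap (𝓞 K) (𝓞 (AlgebraicClosure K))) =
      Q0.comap (algebraMap (𝓞 K) (𝓞 (AlgebraicClosure K)))) :
    ∃ a : GK K, ∀ y : 𝓞 (AlgebraicClosure K), y ∈ Q ↔ a • y ∈ Q0 := by
  have := Q3.ITau.inv K
  have := Q3.ITau.comm K
  let _ : TopologicalSpace (𝓞 (AlgebraicClosure K)) := ⊥
  have : DiscreteTopology (𝓞 (AlgebraicClosure K)) := ⟨rfl⟩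
  have := Q3.ITau.cont K
  obtain ⟨a, ha⟩ := Algebra.IsInvariant.exists_smul_of_under_eq_of_profinite (A := 𝓞 K)
    (G := GK K) Q Q0 hco
  refine ⟨a, fun y => ?_⟩
  rw [ha, Ideal.mem_pointwise_smul_iff_inv_smul_mem, inv_smul_smul]

/-- conjugate decomposition groups -/
theorem dec_conj (K : Type u) [Field K] [NumberField K]
    (Q Q0 : Ideal (𝓞 (AlgebraicClosure K))) (a : GK K)
    (ha : ∀ y : 𝓞 (AlgebraicClosure K), y ∈ Q ↔ a • y ∈ Q0) (h : GK K) (hh : Dec Q h) :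
    Dec Q0 (a * h * a⁻¹) := by
  intro y y' hy
  have h1 : y ∈ Q0 ↔ a⁻¹ • y ∈ Q := by
    rw [ha, smul_inv_smul]
  have h2 : y' ∈ Q0 ↔ a⁻¹ • y' ∈ Q := by
    rw [ha, smul_inv_smul]
  rw [h1, h2]
  refine hh _ _ ?_
  have e1 : ((a⁻¹ • y' : 𝓞 (AlgebraicClosure K)) : AlgebraicClosure K) =
      a⁻¹ (y' : AlgebraicClosure K) := rfl
  have e2 : ((a⁻¹ • y : 𝓞 (AlgebraicClosure K)) : AlgebraicClosure K) =
      a⁻¹ (y : AlgebraicClosure K) := rfl
  rw [e1, e2, hy]
  show (a⁻¹ * (a * h * a⁻¹)) (y : AlgebraicClosure K) = (h * a⁻¹) (y : AlgebraicClosure K)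
  congr 1
  group

end IDIV

open IDIV in
/-- Item DIV. -/
theorem pr_DIV (hTW1 : StTW1.{u}) (hMUF : StMUF.{u}) : StDIV.{u} := by
  intro K _ _ p hp _ ζ hζ huniq r φ hφ hD
  classical
  have h3 : (p : ℤ_[p]) ≠ 0 := Nat.cast_ne_zero.2 hp.out.ne_zero
  have : CharZero (AlgebraicClosure K) := algebraRat.charZero _
  obtain ⟨v, hv⟩ := exists_prime_above K p
  obtain ⟨Q0, hQ0, hco0⟩ := Q3.ITau.exists_over K v
  have hpQ0 : (p : 𝓞 (AlgebraicClosure K)) ∈ Q0 := by
    have h1 : (p : 𝓞 K) ∈ Q0.comap (algebraMap (𝓞 K) (𝓞 (AlgebraicClosure K))) := by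
      rw [hco0]
      exact hv
    rwa [Ideal.mem_comap, map_natCast] at h1
  obtain ⟨y, hy⟩ := hφ.dec Q0 hQ0 hpQ0
  have hex : ∀ g : GK K, ∃ b : ℤ_[p], φ g - (tw p r g - 1) * y = p * b := by
    intro g
    obtain ⟨a, ha⟩ := hD g
    obtain ⟨b, hb⟩ := hTW1 K (AlgebraicClosure K) p ζ hζ r g
    exact ⟨a - b * y, by rw [ha, hb]; ring⟩
  choose ψ hψ using hex
  have hcont : Continuous ψ := by
    refine continuous_div p ψ ?_
    have e : (fun g => (p : ℤ_[p]) * ψ g) = fun g => φ g - (tw p r g - 1) * y := by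
      funext g
      exact (hψ g).symm
    rw [e]
    exact hφ.cont.sub (((Tw.FunX.continuous_zpow_cyc K p r).sub continuous_const).mul
      continuous_const)
  have hcoc : ∀ g h, ψ (g * h) = ψ g + tw p r g * ψ h := by
    intro g h
    refine mul_left_cancel₀ h3 ?_
    have e1 := hψ (g * h)
    have e2 := hψ g
    have e3 := hψ h
    have e4 := hφ.mul g h
    rw [tw_mul] at e1
    linear_combination -e1 + e2 + (tw p r g) * e3 + e4
  have hone : ψ 1 = 0 := by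
    have h := hcoc 1 1
    rw [mul_one, tw_one, one_mul] at h
    exact left_eq_add.1 h
  have hdec0 : ∀ h : GK K, Dec Q0 h → ψ h = 0 := by
    intro h hh
    have e1 := hψ h
    rw [hy h hh, sub_self] at e1
    exact (mul_eq_zero.1 e1.symm).resolve_left h3
  refine ⟨ψ, ⟨hcont, hcoc, ?_, ?_⟩, y, fun g => ?_⟩
  · intro Q hQ hpQ h hh
    have e1 := hψ h
    rw [hφ.inr Q hQ hpQ h hh, hMUF K (AlgebraicClosure K) p Q hQ hpQ h hh r, sub_self,
      zero_mul, sub_zero] at e1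
    exact (mul_eq_zero.1 e1.symm).resolve_left h3
  · intro Q hQ hpQ
    obtain ⟨v', hv', hco'⟩ := below K p Q hQ hpQ
    obtain rfl : v' = v := huniq v' hv' v hv
    obtain ⟨a, ha⟩ := conj K Q Q0 hQ hQ0 (hco'.trans hco0.symm)
    refine ⟨tw p r a⁻¹ * ψ a, fun h hh => ?_⟩
    have hconj : ψ (a * h * a⁻¹) = 0 := hdec0 _ (dec_conj K Q Q0 a ha h hh)
    have hinv : ψ a + tw p r a * ψ a⁻¹ = 0 := by
      rw [← hcoc, mul_inv_cancel, hone]
    have htw : tw p r a⁻¹ * tw p r a = 1 := by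
      rw [← tw_mul, inv_mul_cancel, tw_one]
    rw [hcoc, hcoc, tw_mul] at hconj
    linear_combination (-(ψ h)) * htw + (tw p r a⁻¹) * hconj
      - (tw p r a⁻¹ * tw p r h) * hinv
  · have e := hψ g
    linear_combination e

end Pool.Agent.Work.MP_59f3ad_nt.PX
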