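import Pool.Agent.Work.MP_59f3ad_nt.PX.StmtsB

/-!
Block PX, item EXC: exceptional tuples are rare.
-/

set_option autoImplicit false

open NumberField IsDedekindDomain

namespace Pool.Agent.Work.MP_59f3ad_nt.PX

universe u

namespace IEXC

open Classical in
/-- A condition on the component `i` which, given the other components, has at most `N` solutions. -/
theorem count {α : Type u} {t : ℕ} (P : Fin t → Finset α) (i : Fin t) (a0 : α) (N : ℕ)
    (S : Finset (Fin t → α)) (hS : S ⊆ Fintype.piFinset P)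
    (hN : ∀ ρ : Fin t → α, ∃ T : Finset α, T.card ≤ N ∧
      ∀ π ∈ S, (∀ j, j ≠ i → π j = ρ j) → π i ∈ T) :
    S.card ≤ N * ∏ j ∈ Finset.univ.erase i, (P j).card := by
  have h1 : S.card ≤ N * (Fintype.piFinset (Function.update P i {a0})).card := by
    refine Finset.card_le_mul_card_image_of_maps_to (f := fun π => Function.update π i a0) ?_ N ?_
    · intro π hπ
      have hm := Fintype.mem_piFinset.mp (hS hπ)
      rw [Fintype.mem_piFinset]
      intro j
      by_cases hj : j = i
      · subst hj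
        simp
      · rw [Function.update_of_ne hj, Function.update_of_ne hj]
        exact hm j
    · intro b _
      obtain ⟨T, hT, hT2⟩ := hN b
      refine le_trans (Finset.card_le_card_of_injOn (fun π => π i) ?_ ?_) hT
      · intro π hπ
        rw [Finset.mem_coe, Finset.mem_filter] at hπ
        refine hT2 π hπ.1 ?_
        intro j hj
        have := congrFun hπ.2 j
        simpa only [Function.update_of_ne hj] using this
      · intro π hπ π' hπ' he
        rw [Finset.mem_coe, Finset.mem_filter] at hπ hπ'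
        funext j
        by_cases hj : j = i
        · subst hj
          exact he
        · have e1 := congrFun hπ.2 j
          have e2 := congrFun hπ'.2 j
          simp only [Function.update_of_ne hj] at e1 e2
          rw [e1, e2]
  have h2 : (Fintype.piFinset (Function.update P i {a0})).card =
      ∏ j ∈ Finset.univ.erase i, (P j).card := by
    rw [Fintype.card_piFinset, ← Finset.mul_prod_erase Finset.univ _ (Finset.mem_univ i)]
    rw [Function.update_self, Finset.card_singleton, one_mul]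
    refine Finset.prod_congr rfl ?_
    intro j hj
    rw [Function.update_of_ne (Finset.ne_of_mem_erase hj)]
  rw [← h2]
  exact h1

theorem toReal {α : Type u} {t : ℕ} (P : Fin t → Finset α) (i : Fin t) (N : ℕ) (c : ℝ)
    (hc : 0 < c) (hP : c ≤ (P i).card) (m : ℕ)
    (hm : m ≤ N * ∏ j ∈ Finset.univ.erase i, (P j).card) :
    (m : ℝ) ≤ (N : ℝ) / c * ∏ j, ((P j).card : ℝ) := by
  have h0 : (m : ℝ) ≤ (N : ℝ) * ∏ j ∈ Finset.univ.erase i, ((P j).card : ℝ) := by
    exact_mod_cast hm
  have h1 : ∏ j, ((P j).card : ℝ) = ((P i).card : ℝ) *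
      ∏ j ∈ Finset.univ.erase i, ((P j).card : ℝ) :=
    (Finset.mul_prod_erase Finset.univ _ (Finset.mem_univ i)).symm
  have h2 : 0 ≤ ∏ j ∈ Finset.univ.erase i, ((P j).card : ℝ) :=
    Finset.prod_nonneg fun _ _ => Nat.cast_nonneg _
  have h3 : (1 : ℝ) ≤ ((P i).card : ℝ) / c := by
    rw [le_div_iff₀ hc]; linarith
  calc (m : ℝ) ≤ (N : ℝ) * ∏ j ∈ Finset.univ.erase i, ((P j).card : ℝ) := h0
    _ = ((N : ℝ) * ∏ j ∈ Finset.univ.erase i, ((P j).card : ℝ)) * 1 := by ring
    _ ≤ ((N : ℝ) * ∏ j ∈ Finset.univ.erase i, ((P j).card : ℝ)) * (((P i).card : ℝ) / c) :=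
        mul_le_mul_of_nonneg_left h3 (mul_nonneg (Nat.cast_nonneg _) h2)
    _ = _ := by rw [h1]; ring

open Classical in
theorem assocCount {F : Type u} [Field F] [NumberField F] (p X t : ℕ)
    (P : Fin t → Finset (𝓞 F)) (hP : ∀ i, Adm F p X (P i)) (i k : Fin t) (hik : i ≠ k) :
    ((Fintype.piFinset P).filter (fun π => Associated (π i) (π k))).card ≤
      1 * ∏ j ∈ Finset.univ.erase k, (P j).card := by
  refine count P k 0 1 _ (Finset.filter_subset _ _) ?_
  intro ρ
  refine ⟨(P k).filter (fun z => Associated (ρ i) z), ?_, ?_⟩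
  · rw [Finset.card_le_one]
    intro z hz z' hz'
    rw [Finset.mem_filter] at hz hz'
    exact (hP k).na z hz.1 z' hz'.1 (hz.2.symm.trans hz'.2)
  · intro π hπ hρ
    rw [Finset.mem_filter] at hπ ⊢
    refine ⟨Fintype.mem_piFinset.mp hπ.1 k, ?_⟩
    rw [← hρ i hik]
    exact hπ.2

open Classical in
theorem divCount {F : Type u} [Field F] [NumberField F] (D0 : 𝓞 F) (hD : D0 ≠ 0) :
    ∃ N : ℕ, ∀ (p X : ℕ) (P : Finset (𝓞 F)), Adm F p X P →
      (P.filter (fun z => z ∣ D0)).card ≤ N := by
  have hI : Ideal.span {D0} ≠ 0 := by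
    intro h
    exact hD (Ideal.span_singleton_eq_bot.mp h)
  have hfin := Ideal.finite_factors hI
  refine ⟨(hfin.toFinset.image fun v => v.asIdeal).card, ?_⟩
  intro p X P hP
  refine Finset.card_le_card_of_injOn (fun z => Ideal.span {z}) ?_ ?_
  · intro z hz
    rw [Finset.mem_coe, Finset.mem_filter] at hz
    have hzp := hP.pr z hz.1
    rw [Finset.mem_coe, Finset.mem_image]
    refine ⟨⟨Ideal.span {z}, (Ideal.span_singleton_prime hzp.ne_zero).mpr hzp, ?_⟩, ?_, rfl⟩
    · intro h
      exact hzp.ne_zero (Ideal.span_singleton_eq_bot.mp h)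
    · rw [Set.Finite.mem_toFinset]
      change Ideal.span {z} ∣ Ideal.span {D0}
      rw [Ideal.dvd_span_singleton]
      exact Ideal.mem_span_singleton.mpr hz.2
  · intro z hz z' hz' he
    rw [Finset.mem_coe, Finset.mem_filter] at hz hz'
    exact hP.na z hz.1 z' hz'.1 (Ideal.span_singleton_eq_span_singleton.mp he)

open Classical in
theorem divCount2 {F : Type u} [Field F] [NumberField F] (D0 : 𝓞 F) (N p X t : ℕ)
    (hN : ∀ (p X : ℕ) (P : Finset (𝓞 F)), Adm F p X P →
      (P.filter (fun z => z ∣ D0)).card ≤ N)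
    (P : Fin t → Finset (𝓞 F)) (hP : ∀ i, Adm F p X (P i)) (i : Fin t) :
    ((Fintype.piFinset P).filter (fun π => π i ∣ D0)).card ≤
      N * ∏ j ∈ Finset.univ.erase i, (P j).card := by
  refine count P i 0 N _ (Finset.filter_subset _ _) ?_
  intro ρ
  refine ⟨(P i).filter (fun z => z ∣ D0), hN p X (P i) (hP i), ?_⟩
  intro π hπ _
  rw [Finset.mem_filter] at hπ ⊢
  exact ⟨Fintype.mem_piFinset.mp hπ.1 i, hπ.2⟩

end IEXC

open Classical in
theorem pr_EXC : StEXC.{u} := by
  intro F _ _ p t D0 hD δ hδ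
  obtain ⟨N, hN⟩ := IEXC.divCount D0 hD
  have hn : (1 : ℝ) ≤ (Module.finrank ℚ F : ℝ) := by
    have : 0 < Module.finrank ℚ F := Module.finrank_pos
    exact_mod_cast this
  have hpos : (0 : ℝ) < (Module.finrank ℚ F : ℝ) - 1 / 4 := by linarith
  set K : ℝ := ((t : ℝ) * t + (t : ℝ) * N) / δ with hK
  have htend : Filter.Tendsto (fun X : ℕ => (X : ℝ) ^ ((Module.finrank ℚ F : ℝ) - 1 / 4))
      Filter.atTop Filter.atTop :=
    (tendsto_rpow_atTop hpos).comp tendsto_natCast_atTop_atTop
  obtain ⟨X0, hX0⟩ := Filter.eventually_atTop.mp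
    ((htend.eventually_ge_atTop K).and (htend.eventually_ge_atTop 1))
  refine ⟨X0, ?_⟩
  intro X hX P hP hc
  obtain ⟨hX1, hX2⟩ := hX0 X hX
  clear_value K
  set c : ℝ := (X : ℝ) ^ ((Module.finrank ℚ F : ℝ) - 1 / 4) with hcdef
  have hc0 : 0 < c := by linarith
  set W : ℝ := ∏ i, ((P i).card : ℝ) with hW
  have hW0 : 0 ≤ W := Finset.prod_nonneg fun _ _ => Nat.cast_nonneg _
  have hsub : (Fintype.piFinset P).filter (fun π => (∃ i k, i ≠ k ∧ Associated (π i) (π k)) ∨
      ∃ i, π i ∣ D0) ⊆
      ((Finset.univ : Finset (Fin t × Fin t)).filter (fun q => q.1 ≠ q.2)).biUnion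
        (fun q => (Fintype.piFinset P).filter (fun π => Associated (π q.1) (π q.2))) ∪
      (Finset.univ : Finset (Fin t)).biUnion
        (fun i => (Fintype.piFinset P).filter (fun π => π i ∣ D0)) := by
    intro π hπ
    rw [Finset.mem_filter] at hπ
    rw [Finset.mem_union]
    rcases hπ.2 with ⟨i, k, hik, ha⟩ | ⟨i, hi⟩
    · left
      rw [Finset.mem_biUnion]
      exact ⟨(i, k), Finset.mem_filter.mpr ⟨Finset.mem_univ _, hik⟩,
        Finset.mem_filter.mpr ⟨hπ.1, ha⟩⟩
    · right
      rw [Finset.mem_biUnion]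
      exact ⟨i, Finset.mem_univ _, Finset.mem_filter.mpr ⟨hπ.1, hi⟩⟩
  have h1 := Finset.card_le_card hsub
  have h2 := h1.trans (Finset.card_union_le _ _)
  have h3 : (((Finset.univ : Finset (Fin t × Fin t)).filter (fun q => q.1 ≠ q.2)).biUnion
        (fun q => (Fintype.piFinset P).filter
          (fun π => Associated (π q.1) (π q.2)))).card ≤
      ∑ q ∈ (Finset.univ : Finset (Fin t × Fin t)).filter (fun q => q.1 ≠ q.2),
        ((Fintype.piFinset P).filter (fun π => Associated (π q.1) (π q.2))).card :=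
    Finset.card_biUnion_le
  have h4 : ((Finset.univ : Finset (Fin t)).biUnion
        (fun i => (Fintype.piFinset P).filter (fun π => π i ∣ D0))).card ≤
      ∑ i : Fin t, ((Fintype.piFinset P).filter (fun π => π i ∣ D0)).card :=
    Finset.card_biUnion_le
  have h5 : ((∑ q ∈ (Finset.univ : Finset (Fin t × Fin t)).filter (fun q => q.1 ≠ q.2),
        ((Fintype.piFinset P).filter (fun π => Associated (π q.1) (π q.2))).card : ℕ) : ℝ) ≤
      ((t : ℝ) * t) * (1 / c * W) := by
    rw [Nat.cast_sum]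
    have hb : ∀ q ∈ (Finset.univ : Finset (Fin t × Fin t)).filter (fun q => q.1 ≠ q.2),
        (((Fintype.piFinset P).filter (fun π => Associated (π q.1) (π q.2))).card : ℝ) ≤
          1 / c * W := by
      intro q hq
      have hq' := (Finset.mem_filter.mp hq).2
      have := IEXC.toReal P q.2 1 c hc0 (hc q.2) _
        (IEXC.assocCount p X t P hP q.1 q.2 hq')
      simpa using this
    refine (Finset.sum_le_sum hb).trans ?_
    rw [Finset.sum_const, nsmul_eq_mul]
    refine mul_le_mul_of_nonneg_right ?_ (mul_nonneg (one_div_nonneg.mpr hc0.le) hW0)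
    have hcard : ((Finset.univ : Finset (Fin t × Fin t)).filter (fun q => q.1 ≠ q.2)).card ≤
        t * t := by
      refine (Finset.card_filter_le _ _).trans ?_
      simp
    exact_mod_cast hcard
  have h6 : ((∑ i : Fin t, ((Fintype.piFinset P).filter (fun π => π i ∣ D0)).card : ℕ) : ℝ) ≤
      (t : ℝ) * ((N : ℝ) / c * W) := by
    rw [Nat.cast_sum]
    have hb : ∀ i ∈ (Finset.univ : Finset (Fin t)),
        (((Fintype.piFinset P).filter (fun π => π i ∣ D0)).card : ℝ) ≤ (N : ℝ) / c * W := by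
      intro i _
      exact IEXC.toReal P i N c hc0 (hc i) _ (IEXC.divCount2 D0 N p X t hN P hP i)
    refine (Finset.sum_le_sum hb).trans ?_
    rw [Finset.sum_const, nsmul_eq_mul]
    simp
  have h7 : (((Fintype.piFinset P).filter
      (fun π => (∃ i k, i ≠ k ∧ Associated (π i) (π k)) ∨ ∃ i, π i ∣ D0)).card : ℝ) ≤
      ((t : ℝ) * t) * (1 / c * W) + (t : ℝ) * ((N : ℝ) / c * W) := by
    have h8 : (((Fintype.piFinset P).filter
      (fun π => (∃ i k, i ≠ k ∧ Associated (π i) (π k)) ∨ ∃ i, π i ∣ D0)).card : ℝ) ≤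
      ((∑ q ∈ (Finset.univ : Finset (Fin t × Fin t)).filter (fun q => q.1 ≠ q.2),
        ((Fintype.piFinset P).filter (fun π => Associated (π q.1) (π q.2))).card : ℕ) : ℝ) +
      ((∑ i : Fin t, ((Fintype.piFinset P).filter (fun π => π i ∣ D0)).card : ℕ) : ℝ) := by
      exact_mod_cast h2.trans (add_le_add h3 h4)
    linarith
  have h9 : ((t : ℝ) * t) * (1 / c * W) + (t : ℝ) * ((N : ℝ) / c * W) =
      ((t : ℝ) * t + (t : ℝ) * N) / c * W := by
    clear_value W c
    ring
  have h10 : ((t : ℝ) * t + (t : ℝ) * N) / c ≤ δ := by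
    rw [div_le_iff₀ hc0]
    rw [hK, div_le_iff₀ hδ] at hX1
    linarith [mul_comm c δ]
  rw [h9] at h7
  exact h7.trans (mul_le_mul_of_nonneg_right h10 hW0)

end Pool.Agent.Work.MP_59f3ad_nt.PX
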