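import Mathlib
import Pool.Agent.Work.MP_59f3ad_nt.PX.StmtsC

/-!
Block PX, item FSL: finiteness of the group of the `d` modulo `p`-th powers whose valuations outside `p` are
divisible by `p`.
-/

set_option autoImplicit false

open NumberField IsDedekindDomain UniqueFactorizationMonoid
open scoped nonZeroDivisors

namespace Pool.Agent.Work.MP_59f3ad_nt.PX

universe u

namespace IFSL

/-- Units modulo `p`-th powers. -/
theorem units_fin (F : Type u) [Field F] [NumberField F] (p : ℕ) (hp : p ≠ 0) :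
    ∃ U : Finset (𝓞 F)ˣ, ∀ u : (𝓞 F)ˣ, ∃ w : (𝓞 F)ˣ, ∃ v ∈ U, u = w ^ p * v := by
  classical
  let N : Subgroup (𝓞 F)ˣ := (powMonoidHom p : (𝓞 F)ˣ →* (𝓞 F)ˣ).range
  have hfg : Group.FG (𝓞 F)ˣ := Group.fg_iff_monoid_fg.2 inferInstance
  have hfin : Finite ((𝓞 F)ˣ ⧸ N) := by
    apply CommGroup.finite_of_fg_isMulTorsion
    intro x
    induction x using QuotientGroup.induction_on with
    | H z =>
      rw [isOfFinOrder_iff_pow_eq_one]
      refine ⟨p, Nat.pos_of_ne_zero hp, ?_⟩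
      rw [← QuotientGroup.mk_pow, QuotientGroup.eq_one_iff]
      exact ⟨z, rfl⟩
  have := Fintype.ofFinite ((𝓞 F)ˣ ⧸ N)
  refine ⟨Finset.univ.image (fun q : (𝓞 F)ˣ ⧸ N => q.out), fun u => ?_⟩
  have h : (QuotientGroup.mk u : (𝓞 F)ˣ ⧸ N) =
      QuotientGroup.mk (QuotientGroup.mk u : (𝓞 F)ˣ ⧸ N).out := (Quotient.out_eq' _).symm
  rw [QuotientGroup.eq] at h
  obtain ⟨w, hw⟩ := h
  refine ⟨w⁻¹, _, Finset.mem_image_of_mem _ (Finset.mem_univ (QuotientGroup.mk u)), ?_⟩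
  have hw' : w ^ p = u⁻¹ * (QuotientGroup.mk u : (𝓞 F)ˣ ⧸ N).out := hw
  have h3 : (QuotientGroup.mk u : (𝓞 F)ˣ ⧸ N).out = u * w ^ p := by
    rw [hw', mul_inv_cancel_left]
  rw [h3, inv_pow]
  rw [mul_comm u, inv_mul_cancel_left]

open Classical in
/-- Valuations and multiplicities. -/
theorem dvd_count {F : Type u} [Field F] [NumberField F] (p : ℕ) (hp : p ≠ 0) (d : 𝓞 F)
    (hd : d ≠ 0) (q : HeightOneSpectrum (𝓞 F)) (h : Vd F p q (d : F)) :
    p ∣ Multiset.count q.asIdeal (normalizedFactors (Ideal.span {d})) := by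
  obtain ⟨y, hy⟩ := h
  have hd' : Ideal.span {d} ≠ (0 : Ideal (𝓞 F)) := by
    intro h0
    exact hd (Ideal.span_singleton_eq_bot.1 h0)
  rw [show ((d : 𝓞 F) : F) = algebraMap (𝓞 F) F d from rfl,
    HeightOneSpectrum.valuation_of_algebraMap, HeightOneSpectrum.intValuation_if_neg _ hd,
    Ideal.count_associates_factors_eq hd' q.isPrime q.ne_bot] at hy
  have hy0 : q.valuation F y ≠ 0 := by
    intro h0
    rw [h0, zero_pow hp] at hy
    exact WithZero.exp_ne_zero hy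
  obtain ⟨n, hn⟩ : ∃ n : ℤ, q.valuation F y = WithZero.exp n :=
    ⟨WithZero.log _, (WithZero.exp_log hy0).symm⟩
  rw [hn, ← WithZero.exp_nsmul] at hy
  have h1 := WithZero.exp_injective hy
  have h2 : (p : ℤ) ∣ (Multiset.count q.asIdeal (normalizedFactors (Ideal.span {d})) : ℤ) := by
    refine ⟨-n, ?_⟩
    have h3 : (p • n : ℤ) = (p : ℤ) * n := by simp
    rw [h3] at h1
    linarith
  exact_mod_cast h2

open Classical in
/-- The factorisation `(d) = I^p ∏ P^(e P)`. -/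
theorem fact {F : Type u} [Field F] [NumberField F] (p : ℕ) (hp : 0 < p)
    (T : Finset (Ideal (𝓞 F)))
    (hT : ∀ P : Ideal (𝓞 F), P.IsPrime → P ≠ ⊥ → (p : 𝓞 F) ∈ P → P ∈ T) (d : 𝓞 F) (hd : d ≠ 0)
    (hv : ∀ q : HeightOneSpectrum (𝓞 F), q ∉ Sp F p → Vd F p q (d : F)) :
    ∃ (I : Ideal (𝓞 F)) (e : T → Fin p), I ≠ ⊥ ∧
      Ideal.span {d} = I ^ p * ∏ P : T, (P : Ideal (𝓞 F)) ^ (e P : ℕ) := by
  set s := normalizedFactors (Ideal.span {d}) with hs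
  have hd' : Ideal.span {d} ≠ (⊥ : Ideal (𝓞 F)) := by
    intro h0
    exact hd (Ideal.span_singleton_eq_bot.1 h0)
  have hprod : s.prod = Ideal.span {d} := Ideal.prod_normalizedFactors_eq_self hd'
  have hmem : ∀ P ∈ s, P.IsPrime ∧ P ≠ ⊥ := by
    intro P hP
    have h1 := (Ideal.mem_normalizedFactors_iff hd').1 hP
    refine ⟨h1.1, ?_⟩
    intro h0
    rw [h0] at h1
    exact hd' (le_bot_iff.1 h1.2)
  refine ⟨∏ P ∈ s.toFinset, P ^ (s.count P / p),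
    fun P => ⟨s.count (P : Ideal (𝓞 F)) % p, Nat.mod_lt _ hp⟩, ?_, ?_⟩
  · rw [← Ideal.zero_eq_bot, Finset.prod_ne_zero_iff]
    intro P hP
    exact pow_ne_zero _ (hmem P (Multiset.mem_toFinset.1 hP)).2
  · have h1 : ∏ P : T, (P : Ideal (𝓞 F)) ^ (s.count (P : Ideal (𝓞 F)) % p) =
        ∏ P ∈ T, P ^ (s.count P % p) := Finset.prod_coe_sort T (fun P => P ^ (s.count P % p))
    have h2 : ∏ P ∈ T, P ^ (s.count P % p) = ∏ P ∈ s.toFinset, P ^ (s.count P % p) := by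
      have a1 : ∏ P ∈ T, P ^ (s.count P % p) = ∏ P ∈ T ∪ s.toFinset, P ^ (s.count P % p) := by
        refine Finset.prod_subset Finset.subset_union_left fun P hP hPT => ?_
        have hPs : P ∈ s := by
          rcases Finset.mem_union.1 hP with h | h
          · exact absurd h hPT
          · exact Multiset.mem_toFinset.1 h
        have h3 := hmem P hPs
        let q : HeightOneSpectrum (𝓞 F) := ⟨P, h3.1, h3.2⟩
        have hq : q ∉ Sp F p := fun hq => hPT (hT P h3.1 h3.2 hq)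
        have h4 : p ∣ s.count P := dvd_count p hp.ne' d hd q (hv q hq)
        rw [Nat.mod_eq_zero_of_dvd h4, pow_zero]
      have a2 : ∏ P ∈ s.toFinset, P ^ (s.count P % p) =
          ∏ P ∈ T ∪ s.toFinset, P ^ (s.count P % p) := by
        refine Finset.prod_subset Finset.subset_union_right fun P hP hPT => ?_
        have hPs : P ∉ s := fun h => hPT (Multiset.mem_toFinset.2 h)
        rw [Multiset.count_eq_zero_of_notMem hPs, Nat.zero_mod, pow_zero]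
      rw [a1, a2]
    have h5 : ∏ P ∈ s.toFinset, P ^ s.count P = (∏ P ∈ s.toFinset, P ^ (s.count P / p)) ^ p *
        ∏ P ∈ s.toFinset, P ^ (s.count P % p) := by
      rw [← Finset.prod_pow, ← Finset.prod_mul_distrib]
      refine Finset.prod_congr rfl fun P _ => ?_
      rw [← pow_mul, ← pow_add, Nat.div_add_mod']
    rw [← hprod, Finset.prod_multiset_count, h5]
    congr 1
    rw [← h2, ← h1]

/-- The invariants of `d`. -/
def Q {F : Type u} [Field F] [NumberField F] (p : ℕ) (T : Finset (Ideal (𝓞 F))) (d : 𝓞 F)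
    (a : (T → Fin p) × ClassGroup (𝓞 F)) : Prop :=
  d ≠ 0 ∧ ∃ I : (Ideal (𝓞 F))⁰, Ideal.span {d} =
    (I : Ideal (𝓞 F)) ^ p * ∏ P : T, (P : Ideal (𝓞 F)) ^ (a.1 P : ℕ) ∧ ClassGroup.mk0 I = a.2

theorem same {F : Type u} [Field F] [NumberField F] (p : ℕ) (T : Finset (Ideal (𝓞 F)))
    (d d' : 𝓞 F) (a : (T → Fin p) × ClassGroup (𝓞 F)) (h : Q p T d a) (h' : Q p T d' a) :
    ∃ g g' : 𝓞 F, g ≠ 0 ∧ g' ≠ 0 ∧ ∃ u : (𝓞 F)ˣ, g ^ p * d = g' ^ p * (u * d') := by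
  obtain ⟨hd, I, hI, hc⟩ := h
  obtain ⟨hd', I', hI', hc'⟩ := h'
  obtain ⟨x, y, hx, hy, hxy⟩ := ClassGroup.mk0_eq_mk0_iff.1 (hc.trans hc'.symm)
  refine ⟨x, y, hx, hy, ?_⟩
  have h1 : Ideal.span {x ^ p * d} = Ideal.span {y ^ p * d'} := by
    rw [← Ideal.span_singleton_mul_span_singleton, ← Ideal.span_singleton_mul_span_singleton,
      ← Ideal.span_singleton_pow, ← Ideal.span_singleton_pow, hI, hI', ← mul_assoc, ← mul_assoc,
      ← mul_pow, ← mul_pow, hxy]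
  rw [Ideal.span_singleton_eq_span_singleton] at h1
  obtain ⟨u, hu⟩ := h1.symm
  refine ⟨u, ?_⟩
  rw [← hu]
  ring

end IFSL

theorem pr_FSL : StFSL.{u} := by
  classical
  intro F _ _ p hpf
  have hp : 0 < p := hpf.out.pos
  have hp0 : (p : 𝓞 F) ≠ 0 := by exact_mod_cast hp.ne'
  have hpb : Ideal.span {(p : 𝓞 F)} ≠ (⊥ : Ideal (𝓞 F)) := by
    intro h0
    exact hp0 (Ideal.span_singleton_eq_bot.1 h0)
  let T : Finset (Ideal (𝓞 F)) := (normalizedFactors (Ideal.span {(p : 𝓞 F)})).toFinset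
  have hT : ∀ P : Ideal (𝓞 F), P.IsPrime → P ≠ ⊥ → (p : 𝓞 F) ∈ P → P ∈ T := by
    intro P hP _ hpP
    refine Multiset.mem_toFinset.2 ((Ideal.mem_normalizedFactors_iff hpb).2 ⟨hP, ?_⟩)
    rw [Ideal.span_singleton_le_iff_mem]
    exact hpP
  obtain ⟨U, hU⟩ := IFSL.units_fin F p hp.ne'
  have hex : ∀ a : (T → Fin p) × ClassGroup (𝓞 F), ∃ d1 : 𝓞 F, d1 ≠ 0 ∧
      ((∃ d, IFSL.Q p T d a) → IFSL.Q p T d1 a) := by
    intro a
    by_cases h : ∃ d, IFSL.Q p T d a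
    · obtain ⟨d, hd⟩ := h
      exact ⟨d, hd.1, fun _ => hd⟩
    · exact ⟨1, one_ne_zero, fun h' => absurd h' h⟩
  choose d1 hd1 hd1Q using hex
  refine ⟨(Finset.univ ×ˢ U).image (fun z : ((T → Fin p) × ClassGroup (𝓞 F)) × (𝓞 F)ˣ =>
    (z.2 : 𝓞 F) * d1 z.1), ?_, ?_⟩
  · intro ρ hρ
    obtain ⟨z, -, rfl⟩ := Finset.mem_image.1 hρ
    exact mul_ne_zero z.2.ne_zero (hd1 _)
  · intro d hd hv
    obtain ⟨I, e, hI, hIe⟩ := IFSL.fact p hp T hT d hd hv
    let I0 : (Ideal (𝓞 F))⁰ := ⟨I, mem_nonZeroDivisors_iff_ne_zero.2 hI⟩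
    let a : (T → Fin p) × ClassGroup (𝓞 F) := (e, ClassGroup.mk0 I0)
    have hQ : IFSL.Q p T d a := ⟨hd, I0, hIe, rfl⟩
    obtain ⟨g, g', hg, hg', u, hu⟩ := IFSL.same p T d (d1 a) a hQ (hd1Q a ⟨d, hQ⟩)
    obtain ⟨w, v, hv', huw⟩ := hU u
    refine ⟨(v : 𝓞 F) * d1 a, Finset.mem_image.2 ⟨(a, v),
      Finset.mem_product.2 ⟨Finset.mem_univ _, hv'⟩, rfl⟩, g, g' * w, hg,
      mul_ne_zero hg' w.ne_zero, ?_⟩
    rw [hu, huw]
    push_cast
    ring

end Pool.Agent.Work.MP_59f3ad_nt.PX
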