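import Pool.Agent.Work.MP_59f3ad_nt.PX.StmtsC

/-!
Block PX, item LPM2: local `p`-th powers, general form.
-/

set_option autoImplicit false

open NumberField IsDedekindDomain

namespace Pool.Agent.Work.MP_59f3ad_nt.PX

universe u

namespace ILPM2

theorem inj {F : Type u} [Field F] [NumberField F] {v : HeightOneSpectrum (𝓞 F)}
    {a : F} (ha : a ≠ 0) : algebraMap F (v.adicCompletion F) a ≠ 0 := by
  rw [Ne, map_eq_zero_iff _ (algebraMap F (v.adicCompletion F)).injective]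
  exact ha

end ILPM2

theorem pr_LPM2 : StLPM2.{u} := by
  intro F _ _ p _ t m0 x c π hC v hv D e k
  choose y hy using fun i => hC.lc i v hv
  have hy0 : ∀ i, y i ≠ 0 := by
    intro i h0
    have h1 := hy i
    have hp : p ≠ 0 := (Fact.out : p.Prime).ne_zero
    rw [h0, zero_pow hp, mul_zero] at h1
    have h2 : ((π i : 𝓞 F) : F) ≠ 0 := by
      have := (hC.pr i).ne_zero
      exact_mod_cast this
    exact ILPM2.inj h2 h1
  set Y : v.adicCompletion F := (∏ i, y i ^ e i) * (∏ i, y i ^ c i) ^ k with hY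
  have hY0 : Y ≠ 0 := by
    rw [hY]
    refine mul_ne_zero ?_ (pow_ne_zero _ ?_)
    · exact Finset.prod_ne_zero_iff.mpr fun i _ => pow_ne_zero _ (hy0 i)
    · exact Finset.prod_ne_zero_iff.mpr fun i _ => pow_ne_zero _ (hy0 i)
  set φ : F →+* v.adicCompletion F := algebraMap F (v.adicCompletion F) with hφ
  have key : φ ((D * (∏ i, π i ^ e i) * Mx m0 π c ^ k : 𝓞 F) : F) =
      φ ((D * (∏ i, x i ^ e i) * Mx m0 x c ^ k : 𝓞 F) : F) * Y ^ p := by
    have h1 : ∀ d : Fin t → ℕ, (∏ i, φ (π i : F) ^ d i) =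
        (∏ i, φ (x i : F) ^ d i) * (∏ i, y i ^ d i) ^ p := by
      intro d
      rw [← Finset.prod_pow, ← Finset.prod_mul_distrib]
      refine Finset.prod_congr rfl fun i _ => ?_
      rw [hy i, mul_pow, ← pow_mul, ← pow_mul, mul_comm p]
    have h2 : ∀ z : Fin t → 𝓞 F, φ ((D * (∏ i, z i ^ e i) * Mx m0 z c ^ k : 𝓞 F) : F) =
        φ (D : F) * (∏ i, φ (z i : F) ^ e i) * (φ (m0 : F) * ∏ i, φ (z i : F) ^ c i) ^ k := by
      intro z
      simp only [Mx, map_mul, map_pow, map_prod]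
    rw [h2, h2, h1 e, h1 c, hY]
    ring
  constructor
  · rintro ⟨z, hz⟩
    refine ⟨z / Y, ?_⟩
    rw [div_pow, hz, key, mul_div_assoc, div_self (pow_ne_zero _ hY0), mul_one]
  · rintro ⟨z, hz⟩
    refine ⟨z * Y, ?_⟩
    rw [mul_pow, hz, key]

end Pool.Agent.Work.MP_59f3ad_nt.PX
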