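import Mathlib
import Pool.Agent.Work.MP_59f3ad_nt.PX.StmtsB

/-!
Block PX, item PER: complete sums of products of residue characters.
-/

set_option autoImplicit false

open NumberField IsDedekindDomain

namespace Pool.Agent.Work.MP_59f3ad_nt.PX

universe u

namespace IPER

variable {F : Type u} [Field F] [NumberField F] {p : ℕ} [Fact p.Prime]
  {ind : 𝓞 F → 𝓞 F → ZMod p}

omit [Fact p.Prime] in
theorem chi_congr (hS : Sym F p ind) {π z z' : 𝓞 F} (hπ : Prime π) (hp : ¬ π ∣ (p : 𝓞 F))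
    (e : ZMod p) (h : π ∣ z - z') : chi p ind e π z = chi p ind e π z' := by
  have h1 : π ∣ z ↔ π ∣ z' := by
    constructor
    · intro h3
      have := dvd_sub h3 h
      rwa [sub_sub_cancel] at this
    · intro h3
      have := dvd_add h h3
      rwa [sub_add_cancel] at this
  unfold chi
  by_cases hz : π ∣ z
  · rw [if_pos hz, if_pos (h1.1 hz)]
  · rw [if_neg hz, if_neg (fun h' => hz (h1.2 h')), hS.cong π hπ hp z z' h]

theorem chi_mul (hEP : StEP) (hS : Sym F p ind) {π : 𝓞 F} (hπ : Prime π)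
    (hp : ¬ π ∣ (p : 𝓞 F)) (e : ZMod p) (z z' : 𝓞 F) :
    chi p ind e π (z * z') = chi p ind e π z * chi p ind e π z' := by
  unfold chi
  by_cases hz : π ∣ z
  · rw [if_pos hz, if_pos (hz.mul_right z'), zero_mul]
  · by_cases hz' : π ∣ z'
    · rw [if_pos hz', if_pos (hz'.mul_left z), mul_zero]
    · have h3 : ¬ π ∣ z * z' := fun h => (hπ.dvd_or_dvd h).elim hz hz'
      rw [if_neg hz, if_neg hz', if_neg h3, hS.mul π hπ hp z z' hz hz', mul_add, (hEP p).1]

theorem nm_pos {π : 𝓞 F} (hπ : Prime π) : nm π ≠ 0 := by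
  unfold nm
  rw [Ne, Ideal.absNorm_eq_zero_iff, Ideal.span_singleton_eq_bot]
  exact hπ.ne_zero

theorem dvd_nm (π : 𝓞 F) : π ∣ ((nm π : ℕ) : 𝓞 F) := by
  rw [← Ideal.mem_span_singleton]
  exact Ideal.absNorm_mem _

open Classical in
theorem sum_box {ι : Type} [Fintype ι] {q : ℕ} [NeZero q] (G : (ι → ℤ) → ℂ) :
    ∑ a ∈ Fintype.piFinset (fun _ : ι => Finset.Ico (0 : ℤ) (q : ℤ)), G a =
      ∑ x : ι → ZMod q, G (fun i => ((x i).val : ℤ)) := by
  refine Finset.sum_nbij' (fun a i => ((a i : ℤ) : ZMod q)) (fun x i => ((x i).val : ℤ))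
    ?_ ?_ ?_ ?_ ?_
  · intro a _
    exact Finset.mem_univ _
  · intro a _
    rw [Fintype.mem_piFinset]
    intro i
    rw [Finset.mem_Ico]
    exact ⟨Int.natCast_nonneg _, by exact_mod_cast ZMod.val_lt (a i)⟩
  · intro a ha
    rw [Fintype.mem_piFinset] at ha
    funext i
    have h1 := Finset.mem_Ico.1 (ha i)
    rw [ZMod.val_intCast]
    exact Int.emod_eq_of_lt h1.1 h1.2
  · intro x _
    funext i
    simp
  · intro a ha
    rw [Fintype.mem_piFinset] at ha
    congr 1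
    funext i
    have h1 := Finset.mem_Ico.1 (ha i)
    rw [ZMod.val_intCast]
    exact (Int.emod_eq_of_lt h1.1 h1.2).symm

omit [NumberField F] in
open Classical in
/-- translations of a periodic function -/
theorem sum_trans {ι : Type} [Fintype ι] (b : Module.Basis ι ℤ (𝓞 F)) {q : ℕ} [NeZero q]
    (f : 𝓞 F → ℂ) (hf : ∀ z z' : 𝓞 F, f (z + (q : 𝓞 F) * z') = f z) (w : 𝓞 F) :
    ∑ a ∈ Fintype.piFinset (fun _ : ι => Finset.Ico (0 : ℤ) (q : ℤ)), f (∑ i, a i • b i + w) =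
      ∑ a ∈ Fintype.piFinset (fun _ : ι => Finset.Ico (0 : ℤ) (q : ℤ)), f (∑ i, a i • b i) := by
  set G : (ι → ZMod q) → ℂ := fun x => f (∑ i, ((x i).val : ℤ) • b i) with hG
  have key : ∀ a : ι → ℤ, f (∑ i, a i • b i) = G (fun i => (a i : ZMod q)) := by
    intro a
    rw [hG]
    beta_reduce
    have e1 : ∑ i, a i • b i = ∑ i, (((a i : ZMod q)).val : ℤ) • b i +
        (q : 𝓞 F) * ∑ i, (a i / q) • b i := by
      rw [Finset.mul_sum, ← Finset.sum_add_distrib]
      refine Finset.sum_congr rfl fun i _ => ?_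
      rw [ZMod.val_intCast, zsmul_eq_mul, zsmul_eq_mul, zsmul_eq_mul, ← mul_assoc, ← add_mul]
      congr 1
      have h2 := Int.emod_add_mul_ediv (a i) (q : ℤ)
      have h3 : ((a i % q + q * (a i / q) : ℤ) : 𝓞 F) = ((a i : ℤ) : 𝓞 F) := by rw [h2]
      rw [← h3]
      push_cast
      ring
    rw [e1, hf]
  rw [sum_box (fun a => f (∑ i, a i • b i + w)), sum_box (fun a => f (∑ i, a i • b i))]
  have h1 : ∀ x : ι → ZMod q, f (∑ i, ((x i).val : ℤ) • b i + w) =
      G (x + fun i => ((b.repr w i : ℤ) : ZMod q)) := by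
    intro x
    have e2 : ∑ i, ((x i).val : ℤ) • b i + w = ∑ i, (((x i).val : ℤ) + b.repr w i) • b i := by
      conv_lhs => rw [← b.sum_repr w]
      rw [← Finset.sum_add_distrib]
      refine Finset.sum_congr rfl fun i _ => ?_
      rw [add_smul]
    rw [e2, key]
    congr 1
    funext i
    simp
  rw [Finset.sum_congr rfl fun x _ => h1 x]
  exact Equiv.sum_comp (Equiv.addRight (fun i => ((b.repr w i : ℤ) : ZMod q))) G

/-- the sum over a progression -/
theorem sum_prog (hEP : StEP) (hS : Sym F p ind) {π : 𝓞 F} (hπ : Prime π)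
    (hp : ¬ π ∣ (p : 𝓞 F)) {e : ZMod p} (he : e ≠ 0) [Fintype (𝓞 F ⧸ Ideal.span {π})]
    (z w : 𝓞 F) (hw : ¬ π ∣ w) :
    ∑ u : 𝓞 F ⧸ Ideal.span {π}, chi p ind e π (z + w * Quotient.out u) = 0 := by
  set mk : 𝓞 F →+* 𝓞 F ⧸ Ideal.span {π} := Ideal.Quotient.mk (Ideal.span {π}) with hmk
  have hmk0 : ∀ z : 𝓞 F, mk z = 0 ↔ π ∣ z := by
    intro z
    rw [hmk, Ideal.Quotient.eq_zero_iff_mem, Ideal.mem_span_singleton]
  have hout : ∀ u : 𝓞 F ⧸ Ideal.span {π}, mk (Quotient.out u) = u := fun u => Quotient.out_eq u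
  have hpr : (Ideal.span {π} : Ideal (𝓞 F)).IsPrime :=
    (Ideal.span_singleton_prime hπ.ne_zero).2 hπ
  have hdom : IsDomain (𝓞 F ⧸ Ideal.span {π}) := Ideal.Quotient.isDomain _
  have hcg : ∀ z z' : 𝓞 F, mk z = mk z' → chi p ind e π z = chi p ind e π z' := by
    intro z z' h
    refine chi_congr hS hπ hp e ?_
    rw [← hmk0, map_sub, h, sub_self]
  set X : 𝓞 F ⧸ Ideal.span {π} → ℂ := fun u => chi p ind e π (Quotient.out u) with hX
  have hXmk : ∀ z : 𝓞 F, chi p ind e π z = X (mk z) := by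
    intro z
    rw [hX]
    exact hcg _ _ (hout _).symm
  have hmul : ∀ u v : 𝓞 F ⧸ Ideal.span {π}, X (u * v) = X u * X v := by
    intro u v
    rw [hX]
    beta_reduce
    rw [← chi_mul hEP hS hπ hp]
    refine hcg _ _ ?_
    rw [map_mul, hout, hout, hout]
  have hbij : ∀ w : 𝓞 F, ¬ π ∣ w →
      Function.Bijective (fun u : 𝓞 F ⧸ Ideal.span {π} => mk w * u) := by
    intro w hw
    refine Finite.injective_iff_bijective.1 ?_
    intro u v huv
    exact mul_left_cancel₀ (fun h => hw ((hmk0 w).1 h)) huv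
  -- the complete sum
  have hsum : ∑ u : 𝓞 F ⧸ Ideal.span {π}, X u = 0 := by
    obtain ⟨g, hg, hgi⟩ := hS.non π hπ hp
    have hc : X (mk g) ≠ 1 := by
      rw [← hXmk]
      unfold chi
      rw [if_neg hg]
      exact (hEP p).2.2.2.1 _ (mul_ne_zero he hgi)
    have h5 : ∑ u : 𝓞 F ⧸ Ideal.span {π}, X u = X (mk g) * ∑ u : 𝓞 F ⧸ Ideal.span {π}, X u := by
      conv_lhs => rw [← Equiv.sum_comp (Equiv.ofBijective _ (hbij g hg)) X]
      rw [Finset.mul_sum]
      refine Finset.sum_congr rfl fun u _ => ?_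
      exact hmul (mk g) u
    have h6 : (X (mk g) - 1) * ∑ u : 𝓞 F ⧸ Ideal.span {π}, X u = 0 := by
      rw [sub_mul, one_mul, ← h5, sub_self]
    rcases mul_eq_zero.1 h6 with h7 | h7
    · exact absurd (sub_eq_zero.1 h7) hc
    · exact h7
  have h1 : ∀ u : 𝓞 F ⧸ Ideal.span {π},
      chi p ind e π (z + w * Quotient.out u) = X (mk z + mk w * u) := by
    intro u
    rw [hXmk, map_add, map_mul, hout]
  rw [Finset.sum_congr rfl fun u _ => h1 u]
  rw [← hsum, ← Equiv.sum_comp (Equiv.addLeft (mk z)) X,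
    ← Equiv.sum_comp (Equiv.ofBijective _ (hbij w hw)) (fun u => X ((Equiv.addLeft (mk z)) u))]
  rfl

end IPER

/-- Item PER. -/
theorem pr_PER (hEP : StEP) : StPER.{u} := by
  intro F _ _ p _ ind hS ι _ b π π1 hπ hπ1 hπp hπ1p hna e he
  have hq : ∀ z z' : 𝓞 F, chi p ind e π (z + ((nm π * nm π1 : ℕ) : 𝓞 F) * z') =
      chi p ind e π z ∧ chi p ind e π1 (z + ((nm π * nm π1 : ℕ) : 𝓞 F) * z') =
      chi p ind e π1 z := by
    intro z z'
    constructor
    · refine IPER.chi_congr hS hπ hπp e ?_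
      rw [add_sub_cancel_left, Nat.cast_mul]
      exact ((IPER.dvd_nm π).mul_right _).mul_right _
    · refine IPER.chi_congr hS hπ1 hπ1p e ?_
      rw [add_sub_cancel_left, Nat.cast_mul]
      exact ((IPER.dvd_nm π1).mul_left _).mul_right _
  refine ⟨hq, ?_⟩
  have hq0 : NeZero (nm π * nm π1) := ⟨mul_ne_zero (IPER.nm_pos hπ) (IPER.nm_pos hπ1)⟩
  set q := nm π * nm π1 with hqd
  set f : 𝓞 F → ℂ := fun z => chi p ind e π z * (starRingEnd ℂ) (chi p ind e π1 z) with hf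
  have hper : ∀ z z' : 𝓞 F, f (z + (q : 𝓞 F) * z') = f z := by
    intro z z'
    rw [hf]
    beta_reduce
    rw [(hq z z').1, (hq z z').2]
  have hne : (Ideal.span {π} : Ideal (𝓞 F)) ≠ ⊥ := by
    rw [Ne, Ideal.span_singleton_eq_bot]
    exact hπ.ne_zero
  have hfin : Finite (𝓞 F ⧸ (Ideal.span {π} : Ideal (𝓞 F))) :=
    Ring.HasFiniteQuotients.finiteQuotient hne
  have hft : Fintype (𝓞 F ⧸ (Ideal.span {π} : Ideal (𝓞 F))) := Fintype.ofFinite _
  have hnd : ¬ π ∣ π1 := by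
    intro h
    exact hna ((hπ.dvd_prime_iff_associated hπ1).1 h)
  classical
  set B := Fintype.piFinset (fun _ : ι => Finset.Ico (0 : ℤ) (q : ℤ)) with hB
  change ∑ a ∈ B, f (∑ i, a i • b i) = 0
  have h3 : ((Fintype.card (𝓞 F ⧸ (Ideal.span {π} : Ideal (𝓞 F))) : ℕ) : ℂ) *
      ∑ a ∈ B, f (∑ i, a i • b i) = 0 := by
    have h4 : ((Fintype.card (𝓞 F ⧸ (Ideal.span {π} : Ideal (𝓞 F))) : ℕ) : ℂ) *
        ∑ a ∈ B, f (∑ i, a i • b i) = ∑ u : 𝓞 F ⧸ (Ideal.span {π} : Ideal (𝓞 F)),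
          ∑ a ∈ B, f (∑ i, a i • b i + π1 * Quotient.out u) := by
      rw [Finset.sum_congr rfl fun (u : 𝓞 F ⧸ (Ideal.span {π} : Ideal (𝓞 F))) _ =>
        IPER.sum_trans b f hper (π1 * Quotient.out u), Finset.sum_const, Finset.card_univ,
        nsmul_eq_mul]
    rw [h4, Finset.sum_comm]
    refine Finset.sum_eq_zero fun a _ => ?_
    have h5 : ∀ u : 𝓞 F ⧸ (Ideal.span {π} : Ideal (𝓞 F)),
        f (∑ i, a i • b i + π1 * Quotient.out u) =
        chi p ind e π (∑ i, a i • b i + π1 * Quotient.out u) *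
          (starRingEnd ℂ) (chi p ind e π1 (∑ i, a i • b i)) := by
      intro u
      rw [hf]
      beta_reduce
      have e1 : chi p ind e π1 (∑ i, a i • b i + π1 * Quotient.out u) =
          chi p ind e π1 (∑ i, a i • b i) := by
        refine IPER.chi_congr hS hπ1 hπ1p e ?_
        rw [add_sub_cancel_left]
        exact dvd_mul_right _ _
      rw [e1]
    rw [Finset.sum_congr rfl fun u _ => h5 u, ← Finset.sum_mul,
      IPER.sum_prog hEP hS hπ hπp he _ π1 hnd, zero_mul]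
  rcases mul_eq_zero.1 h3 with h4 | h4
  · exact absurd (Nat.cast_eq_zero.1 h4) Fintype.card_ne_zero
  · exact h4

end Pool.Agent.Work.MP_59f3ad_nt.PX
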