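import Mathlib
import Pool.Agent.Work.MP_59f3ad_nt.PX.StmtsC

/-!
Item RX2 of block PX (helper65): the relation, general form (after `I_RL2.lean`).
-/

set_option autoImplicit false

open NumberField IsDedekindDomain

namespace Pool.Agent.Work.MP_59f3ad_nt.PX

universe u

namespace IRX2

section

variable {F : Type u} [Field F] [NumberField F] {p : ℕ} {ind : 𝓞 F → 𝓞 F → ZMod p}

theorem ind_one (h : Sym F p ind) {π : 𝓞 F} (hπ : Prime π) (hnp : ¬ π ∣ (p : 𝓞 F)) :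
    ind π 1 = 0 := by
  have h1 : ¬ π ∣ (1 : 𝓞 F) := fun h => hπ.not_isUnit (isUnit_of_dvd_one h)
  have h2 := h.mul π hπ hnp 1 1 h1 h1
  rw [mul_one] at h2
  simpa using h2

theorem ind_pow (h : Sym F p ind) {π : 𝓞 F} (hπ : Prime π) (hnp : ¬ π ∣ (p : 𝓞 F)) {z : 𝓞 F}
    (hz : ¬ π ∣ z) (n : ℕ) : ind π (z ^ n) = n * ind π z := by
  induction n with
  | zero => simp [ind_one h hπ hnp]
  | succ n ih =>
    rw [pow_succ, h.mul π hπ hnp _ _ (fun h => hz (hπ.dvd_of_dvd_pow h)) hz, ih]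
    push_cast
    ring

theorem ind_prod (h : Sym F p ind) {π : 𝓞 F} (hπ : Prime π) (hnp : ¬ π ∣ (p : 𝓞 F)) {ι : Type}
    (s : Finset ι) (f : ι → 𝓞 F) (hf : ∀ i ∈ s, ¬ π ∣ f i) :
    ind π (∏ i ∈ s, f i) = ∑ i ∈ s, ind π (f i) := by
  classical
  induction s using Finset.induction_on with
  | empty => simp [ind_one h hπ hnp]
  | insert a s ha ih =>
    rw [Finset.prod_insert ha, Finset.sum_insert ha,
      h.mul π hπ hnp _ _ (hf a (Finset.mem_insert_self a s)), ih]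
    · intro i hi
      exact hf i (Finset.mem_insert_of_mem hi)
    · intro hd
      obtain ⟨i, hi, hdi⟩ := hπ.exists_mem_finset_dvd hd
      exact hf i (Finset.mem_insert_of_mem hi) hdi

omit [NumberField F] in
/-- Comparison of the powers of `π`. -/
theorem le_of_eq {π A B : 𝓞 F} (hπ : Prime π) (hA : ¬ π ∣ A) {a b : ℕ}
    (h : π ^ a * A = π ^ b * B) : b ≤ a := by
  by_contra hlt
  push Not at hlt
  apply hA
  have h1 : π ^ a * A = π ^ a * (π ^ (b - a) * B) := by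
    rw [← mul_assoc, ← pow_add, Nat.add_sub_cancel' hlt.le]
    exact h
  have h2 : A = π ^ (b - a) * B := mul_left_cancel₀ (pow_ne_zero _ hπ.ne_zero) h1
  rw [h2]
  exact Dvd.dvd.mul_right (dvd_pow_self _ (Nat.sub_ne_zero_of_lt hlt)) _

theorem ind_eqv [hp : Fact p.Prime] (h : Sym F p ind) {π : 𝓞 F} (hπ : Prime π)
    (hnp : ¬ π ∣ (p : 𝓞 F)) {D d : 𝓞 F} (hD : ¬ π ∣ D) (hd : ¬ π ∣ d) (hE : Eqv p D d) :
    ind π D = ind π d := by
  obtain ⟨g, g', hg, hg', he⟩ := hE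
  obtain ⟨n, u, hu, rfl⟩ := WfDvdMonoid.max_power_factor hg hπ.irreducible
  obtain ⟨m, v, hv, rfl⟩ := WfDvdMonoid.max_power_factor hg' hπ.irreducible
  have he' : π ^ (n * p) * (u ^ p * D) = π ^ (m * p) * (v ^ p * d) := by
    rw [pow_mul, pow_mul, ← mul_assoc, ← mul_assoc, ← mul_pow, ← mul_pow]
    exact he
  have hup : ¬ π ∣ u ^ p := fun h => hu (hπ.dvd_of_dvd_pow h)
  have hvp : ¬ π ∣ v ^ p := fun h => hv (hπ.dvd_of_dvd_pow h)
  have hA : ¬ π ∣ u ^ p * D := fun h => (hπ.dvd_or_dvd h).elim hup hD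
  have hB : ¬ π ∣ v ^ p * d := fun h => (hπ.dvd_or_dvd h).elim hvp hd
  have hnm : n * p = m * p := le_antisymm (le_of_eq hπ hB he'.symm) (le_of_eq hπ hA he')
  rw [hnm] at he'
  have h3 : u ^ p * D = v ^ p * d := mul_left_cancel₀ (pow_ne_zero _ hπ.ne_zero) he'
  have h4 : ind π (u ^ p * D) = ind π (v ^ p * d) := by rw [h3]
  rw [h.mul π hπ hnp _ _ hup hD, h.mul π hπ hnp _ _ hvp hd, ind_pow h hπ hnp hu,
    ind_pow h hπ hnp hv] at h4
  simpa using h4

end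

end IRX2

/-- RX2: the relation, general form. -/
theorem pr_RX2 : StRX2.{u} := by
  intro F _ _ p hp ind hS t m0 x c π hC a hD l j e D g hR d hE hcop k
  classical
  have hπ := hC.pr k
  have hnp := hC.np k
  -- the prime elements are pairwise not associated
  have hki : ∀ i ∈ Finset.univ.erase k, ¬ π k ∣ π i := by
    intro i hi hdvd
    have := hC.na k i (hπ.associated_of_dvd (hC.pr i) hdvd)
    exact (Finset.ne_of_mem_erase hi) this.symm
  have hp1 : ((p - 1 : ℕ) : ZMod p) = -1 := by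
    rw [Nat.cast_sub hp.out.one_le]
    simp
  -- `ind D = ind d`
  have hkD : ¬ π k ∣ D := hR.cop k
  have hkd : ¬ π k ∣ d := hcop k
  have hDd : ind (π k) D = ind (π k) d := IRX2.ind_eqv hS hπ hnp hkD hkd hE
  -- the tame symbol
  obtain ⟨y, hy⟩ := hD.tam l j g D (fun i => (e i).val) hR.gn hR.cop hR.eq k
  have hA : ∀ n : Fin t → ℕ, ∀ i ∈ Finset.univ.erase k, ¬ π k ∣ π i ^ n i :=
    fun n i hi h => hki i hi (hπ.dvd_of_dvd_pow h)
  have hAp : ∀ n : Fin t → ℕ, ¬ π k ∣ ∏ i ∈ Finset.univ.erase k, π i ^ n i := by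
    intro n h
    obtain ⟨i, hi, hdi⟩ := hπ.exists_mem_finset_dvd h
    exact hA n i hi hdi
  have hm0 : ¬ π k ∣ m0 := hC.nm0 k
  have hmul : ∀ z : 𝓞 F, ¬ π k ∣ z → ∀ n : Fin t → ℕ,
      ¬ π k ∣ z * ∏ i ∈ Finset.univ.erase k, π i ^ n i := by
    intro z hz n h
    rcases hπ.dvd_or_dvd h with h | h
    · exact hz h
    · exact hAp n h
  have hind : ∀ z : 𝓞 F, ¬ π k ∣ z → ∀ n : Fin t → ℕ,
      ind (π k) (z * ∏ i ∈ Finset.univ.erase k, π i ^ n i) =
        ind (π k) z + ∑ i ∈ Finset.univ.erase k, (n i : ZMod p) * ind (π k) (π i) := by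
    intro z hz n
    rw [hS.mul _ hπ hnp _ _ hz (hAp n), IRX2.ind_prod hS hπ hnp _ _ (hA n)]
    congr 1
    exact Finset.sum_congr rfl fun i hi => IRX2.ind_pow hS hπ hnp (hki i hi) _
  have hX1 := hmul D hkD (fun i => (e i).val)
  have hX2 := hmul m0 hm0 c
  have h0 : ind (π k) ((D * ∏ i ∈ Finset.univ.erase k, π i ^ (e i).val) ^ c k *
      (m0 * ∏ i ∈ Finset.univ.erase k, π i ^ c i) ^ ((p - 1) * (e k).val)) = 0 := by
    refine (hS.pow _ hπ hnp _ ?_).2 ⟨y, hy⟩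
    intro h
    rcases hπ.dvd_or_dvd h with h | h
    · exact hX1 (hπ.dvd_of_dvd_pow h)
    · exact hX2 (hπ.dvd_of_dvd_pow h)
  rw [hS.mul _ hπ hnp _ _ (fun h => hX1 (hπ.dvd_of_dvd_pow h))
      (fun h => hX2 (hπ.dvd_of_dvd_pow h)), IRX2.ind_pow hS hπ hnp hX1,
    IRX2.ind_pow hS hπ hnp hX2, hind D hkD (fun i => (e i).val), hind m0 hm0 c, hDd] at h0
  push_cast at h0
  simp only [ZMod.natCast_zmod_val] at h0
  have hsum : ∑ i ∈ Finset.univ.erase k, ((c k : ZMod p) * e i - (c i : ZMod p) * e k) *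
      ind (π k) (π i) =
      (c k : ZMod p) * ∑ i ∈ Finset.univ.erase k, e i * ind (π k) (π i) -
        e k * ∑ i ∈ Finset.univ.erase k, (c i : ZMod p) * ind (π k) (π i) := by
    rw [Finset.mul_sum, Finset.mul_sum, ← Finset.sum_sub_distrib]
    exact Finset.sum_congr rfl fun i _ => by ring
  rw [hsum]
  rw [hp1] at h0
  linear_combination h0

end Pool.Agent.Work.MP_59f3ad_nt.PX
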