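import Mathlib
import Pool.Agent.Work.MP_59f3ad_nt.PX.StmtsC
import Pool.Agent.Work.MP_59f3ad_nt.PX.I_RL4
import Pool.Agent.Work.MP_59f3ad_nt.Bridge

/-!
Block PX, item RX4: different `(l, j)` have different pairs `(e, D)` modulo `p`-th powers.
-/

set_option autoImplicit false

open NumberField IsDedekindDomain

namespace Pool.Agent.Work.MP_59f3ad_nt.PX

universe u

open IRL4 in
theorem pr_RX4 (hLPM : StLPM.{u}) (hLPM2 : StLPM2.{u}) : StRX4.{u} := by
  intro F _ _ p _ t m0 x c π hC a hDt l j l' j' e D D' g g' hl1 hlp hl1' hlp' hjp hjp' hR hR' hE'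
  have hp : p.Prime := Fact.out
  obtain ⟨g1, g2, hg1, hg2, h12⟩ := hE'
  have hπ0 : ∀ i, π i ≠ 0 := fun i => (hC.pr i).ne_zero
  have hMO : Mx m0 π c ≠ 0 := by
    unfold Mx
    exact mul_ne_zero hC.m0n (Finset.prod_ne_zero_iff.mpr fun i _ => pow_ne_zero _ (hπ0 i))
  have hM : (Mx m0 π c : F) ≠ 0 := by
    intro h0
    exact hMO (RingOfIntegers.ext h0)
  have hg1F : (g1 : F) ≠ 0 := by
    intro h0
    exact hg1 (RingOfIntegers.ext h0)
  set M : F := (Mx m0 π c : F) with hMd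
  set E : 𝓞 F := ∏ i, π i ^ (e i).val with hE
  have h1 : a ^ l * M ^ j * g ^ p = (D : F) * (E : F) := by
    have := hR.eq
    rw [← hE] at this
    rw [this]
    push_cast
    rfl
  have h2 : a ^ l' * M ^ j' * g' ^ p = (D' : F) * (E : F) := by
    have := hR'.eq
    rw [← hE] at this
    rw [this]
    push_cast
    rfl
  have h3 : (g1 : F) ^ p * (D : F) = (g2 : F) ^ p * (D' : F) := by
    have := congrArg (fun z : 𝓞 F => (z : F)) h12
    simpa using this
  have ha := hDt.ne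
  have hg := hR.gn
  -- the exponents
  have hkey : ∃ h : F, a ^ (l + (p - 1) * l') * M ^ (j + (p - 1) * j') = h ^ p := by
    refine ⟨(g2 : F) * g' * (a ^ l' * M ^ j') / ((g1 : F) * g), ?_⟩
    have h4 : (a ^ l * M ^ j) * ((g1 : F) * g) ^ p = (a ^ l' * M ^ j') * ((g2 : F) * g') ^ p := by
      have e1 : (a ^ l * M ^ j) * ((g1 : F) * g) ^ p = (g1 : F) ^ p * (a ^ l * M ^ j * g ^ p) := by
        rw [mul_pow]
        ring
      have e2 : (a ^ l' * M ^ j') * ((g2 : F) * g') ^ p =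
          (g2 : F) ^ p * (a ^ l' * M ^ j' * g' ^ p) := by
        rw [mul_pow]
        ring
      rw [e1, e2, h1, h2, ← mul_assoc, ← mul_assoc, h3]
    have h6 : ((g1 : F) * g) ^ p ≠ 0 := pow_ne_zero _ (mul_ne_zero hg1F hg)
    have h7 : (a ^ l' * M ^ j') ^ p = (a ^ l' * M ^ j') * (a ^ l' * M ^ j') ^ (p - 1) := by
      rw [← pow_succ', Nat.sub_add_cancel hp.one_le]
    have h8 : a ^ (l + (p - 1) * l') * M ^ (j + (p - 1) * j') =
        (a ^ l * M ^ j) * (a ^ l' * M ^ j') ^ (p - 1) := by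
      rw [pow_add, pow_add, mul_comm (p - 1) l', mul_comm (p - 1) j', pow_mul, pow_mul, mul_pow]
      ring
    rw [div_pow, eq_div_iff h6, h8, mul_pow ((g2 : F) * g'), h7]
    calc a ^ l * M ^ j * (a ^ l' * M ^ j') ^ (p - 1) * ((g1 : F) * g) ^ p
        = ((a ^ l * M ^ j) * ((g1 : F) * g) ^ p) * (a ^ l' * M ^ j') ^ (p - 1) := by ring
      _ = ((a ^ l' * M ^ j') * ((g2 : F) * g') ^ p) * (a ^ l' * M ^ j') ^ (p - 1) := by rw [h4]
      _ = _ := by ring
  obtain ⟨h, hh⟩ := hkey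
  have hll : l = l' := by
    by_contra hne
    obtain ⟨j'', g'', hjg⟩ := root hp ha hM (fun hd => hne (eq_of_dvd hp.one_le hlp hlp' hd)) hh
    exact hDt.non j'' g'' hjg
  refine ⟨hll, ?_⟩
  by_contra hne
  subst hll
  have hN : ¬ p ∣ j + (p - 1) * j' := fun hd => hne (eq_of_dvd hp.one_le hjp hjp' hd)
  have hMp : M ^ (j + (p - 1) * j') * (1 : F) ^ 0 = (h / a ^ l) ^ p := by
    rw [pow_zero, mul_one, div_pow, eq_div_iff (pow_ne_zero _ (pow_ne_zero _ ha)), ← hh, mul_comm]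
    congr 1
    rw [← pow_mul]
    congr 1
    have h3 : l + (p - 1) * l = (p - 1 + 1) * l := by ring
    rw [h3, Nat.sub_add_cancel hp.one_le, mul_comm]
  obtain ⟨j2, g3, hg3⟩ := root hp hM one_ne_zero hN hMp
  rw [one_pow, one_mul] at hg3
  obtain ⟨v, hv⟩ := exists_prime_above F p
  have hvS : v ∈ Sp F p := hv
  have hL1 : Lp F p v M := by
    rw [hg3]
    exact (hLPM.1 F p v).2.2.1 g3
  have hiff := hLPM2 F p t m0 x c π hC v hvS 1 (fun _ => 0) 1
  apply hC.nsp v hvS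
  have e1 : (1 * (∏ i, π i ^ 0) * Mx m0 π c ^ 1 : 𝓞 F) = Mx m0 π c := by simp
  have e2 : (1 * (∏ i, x i ^ 0) * Mx m0 x c ^ 1 : 𝓞 F) = Mx m0 x c := by simp
  rw [e1, e2] at hiff
  exact hiff.mp hL1

end Pool.Agent.Work.MP_59f3ad_nt.PX
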