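import Mathlib
import Pool.Agent.Work.MP_59f3ad_nt.PX.All
import Pool.Agent.Work.MP_59f3ad_nt.PX.I_PER
import Pool.Agent.Work.MP_59f3ad_nt.PX.I_EXC
import Pool.Agent.Work.MP_59f3ad_nt.PX.I_DIV
import Pool.Agent.Work.MP_59f3ad_nt.PX.I_LPM2
import Pool.Agent.Work.MP_59f3ad_nt.PX.I_RX1
import Pool.Agent.Work.MP_59f3ad_nt.PX.I_RX2
import Pool.Agent.Work.MP_59f3ad_nt.PX.I_RX3
import Pool.Agent.Work.MP_59f3ad_nt.PX.I_RX4
import Pool.Agent.Work.MP_59f3ad_nt.PX.I_RXS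
import Pool.Agent.Work.MP_59f3ad_nt.PX.I_CNX
import Pool.Agent.Work.MP_59f3ad_nt.PX.I_FSL

/-!
Block PX: everything together.
-/

set_option autoImplicit false

namespace Pool.Agent.Work.MP_59f3ad_nt.PX

universe u

theorem all_BOX : StBOX.{u} := pr_BOX (pr_PER pr_EP) pr_PBX pr_EP
theorem all_DUA : StDUA.{u} := pr_DUA all_BOX pr_EP
theorem all_BIL : StBIL.{u} := pr_BIL all_DUA all_REP pr_NMB pr_EP
theorem all_BLT : StBLT.{u} := pr_BLT all_BIL pr_CRD pr_EP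
theorem all_FMO : StFMO.{u} := pr_FMO all_BLT pr_EP
theorem all_RX1 : StRX1.{u} := pr_RX1 pr_LFT pr_LPM pr_LPM2
theorem all_RX3 : StRX3.{u} := pr_RX3 pr_LPM pr_LPM2
theorem all_RX4 : StRX4.{u} := pr_RX4 pr_LPM pr_LPM2
theorem all_RXS : StRXS.{u} := pr_RXS all_DET all_RX1 pr_RX2 all_RX3 all_RX4 pr_LPM2
theorem all_CNX : StCNX.{u} := pr_CNX pr_IND pr_DEG all_RXS all_FMO pr_EXC
theorem all_BAS : StBAS.{u} := pr_BAS all_SHS pr_UNR (pr_DIV pr_TW1 pr_MUF) pr_TW1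

end Pool.Agent.Work.MP_59f3ad_nt.PX
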