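import Mathlib
import Pool.Agent.Work.MP_59f3ad_nt.PX.StmtsC

/-!
Block PX, part E: systems of representatives. Every docstring is the complete proof.
-/

set_option autoImplicit false

open NumberField IsDedekindDomain

namespace Pool.Agent.Work.MP_59f3ad_nt.PX

universe u

/-- `R` is a system of representatives of the pairs `(e, d mod F*^p)`, `e` not proportional to `c`, `d` a
witness for `e`. -/
structure Reps {F : Type u} [Field F] [NumberField F] (p : ℕ) {t : ℕ} (m0 : 𝓞 F)
    (x : Fin t → 𝓞 F) (c : Fin t → ℕ) (R : Finset ((Fin t → ZMod p) × 𝓞 F)) : Prop where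
  mem : ∀ a ∈ R, (∃ i k, (c k : ZMod p) * a.1 i ≠ (c i : ZMod p) * a.1 k) ∧ Wt p m0 x c a.1 a.2
  inj : ∀ a ∈ R, ∀ b ∈ R, a.1 = b.1 → Eqv p a.2 b.2 → a = b
  cov : ∀ (e : Fin t → ZMod p) (D : 𝓞 F), (∃ i k, (c k : ZMod p) * e i ≠ (c i : ZMod p) * e k) →
    Wt p m0 x c e D → ∃ d, (e, d) ∈ R ∧ Eqv p D d

/-- REX (EASY-MEDIUM, from StFSL). `Eqv p` is an equivalence relation on the nonzero elements (symmetric, transitive:
multiply; reflexive: `g = g' = 1`). By FSL the `d ≠ 0` with valuations divisible by `p` outside `p` lie in finitely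
many classes. So the set of the pairs `(e, class of d)` with `e` not proportional to `c` and `Wt p m0 x c e d` is finite
(`e` in a finite set); choose a pair `(e, d)` for every such `(e, class)`; `R` is the (finite) set of the chosen pairs. For
instance: let `R0` be the set of FSL; for `e` and `ρ ∈ R0` let `f(e, ρ)` be a `d` with `Wt e d`, `Eqv p d ρ` if there is one, chosen
as a function of `e` and the set `{ρ' ∈ R0 : Eqv p ρ ρ'}`. -/
def StREX : Prop := ∀ (F : Type u) [Field F] [NumberField F] (p : ℕ) [Fact p.Prime] (t : ℕ)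
  (m0 : 𝓞 F) (x : Fin t → 𝓞 F) (c : Fin t → ℕ),
  ∃ R : Finset ((Fin t → ZMod p) × 𝓞 F), Reps p m0 x c R

/-- BND (EASY-MEDIUM, from StLPM first part; compare `I_WW.lean`). If every witness for `0` is a `p`-th power then there is at
most one class for every `e`: two witnesses `d`, `d'` for `e` give the witness `d d'^(p-1) = g^p` for `0` (as in WW), so
`g^p d' = d d'^p`, `Eqv p d' d`. So `#R` is at most the number of the `e` not proportional to `c`; the `p` vectors
`λ c`, `λ ∈ ℤ/p`, are different (`t ≥ 1`, `c_0 ≠ 0` in `ℤ/p`) and proportional to `c`, so this number is at most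
`p^t - p`. -/
def StBND : Prop := ∀ (F : Type u) [Field F] [NumberField F] (p : ℕ) [Fact p.Prime] (t : ℕ)
  (m0 : 𝓞 F) (x : Fin t → 𝓞 F) (c : Fin t → ℕ), 1 ≤ t → m0 ≠ 0 → (∀ i, x i ≠ 0) →
  (∀ i, 1 ≤ c i ∧ c i < p) → (∀ d : 𝓞 F, Wt p m0 x c 0 d → ∃ g : 𝓞 F, g ^ p = d) →
  ∀ R : Finset ((Fin t → ZMod p) × 𝓞 F), Reps p m0 x c R → R.card ≤ p ^ t - p

end Pool.Agent.Work.MP_59f3ad_nt.PX
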