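import Mathlib
import Pool.Agent.Work.MP_59f3ad_nt.PX.StmtsE

/-! Item BND of block PX: the number of representatives if every witness for `0` is a `p`-th power. -/

set_option autoImplicit false

open NumberField IsDedekindDomain

namespace Pool.Agent.Work.MP_59f3ad_nt.PX

universe u

namespace IBND

/-- two witnesses for the same vector give a witness for `0` -/
theorem wt_zero (hLPM : StLPM.{u}) {F : Type u} [Field F] [NumberField F] (p : ℕ) [Fact p.Prime]
    {t : ℕ} {m0 : 𝓞 F} {x : Fin t → 𝓞 F} {c : Fin t → ℕ} (hx : ∀ i, x i ≠ 0)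
    {e : Fin t → ZMod p} {d d' : 𝓞 F} (hd : Wt p m0 x c e d) (hd' : Wt p m0 x c e d') :
    Wt p m0 x c 0 (d * d' ^ (p - 1)) := by
  have hp : p.Prime := Fact.out
  have hp1 : p - 1 + 1 = p := Nat.succ_pred_eq_of_pos hp.pos
  refine ⟨mul_ne_zero hd.ne (pow_ne_zero _ hd'.ne), ?_, ?_⟩
  · intro q hq
    obtain ⟨y, hy⟩ := hd.val q hq
    obtain ⟨y', hy'⟩ := hd'.val q hq
    refine ⟨y * y' ^ (p - 1), ?_⟩
    have e1 : ((d * d' ^ (p - 1) : 𝓞 F) : F) = (d : F) * (d' : F) ^ (p - 1) := by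
      push_cast
      rfl
    rw [e1, map_mul, map_pow, hy, hy', map_mul, map_pow, mul_pow, ← pow_mul, ← pow_mul,
      mul_comm p (p - 1)]
  · intro v hv
    obtain ⟨k, hk⟩ := hd.loc v hv
    obtain ⟨k', hk'⟩ := hd'.loc v hv
    obtain ⟨h1, h2, h3, h4⟩ := hLPM.1 F p v
    have hE0 : (∏ i, x i ^ (e i).val) ≠ 0 :=
      Finset.prod_ne_zero_iff.mpr (fun i _ => pow_ne_zero _ (hx i))
    have hZ : (∏ i, x i ^ ((0 : Fin t → ZMod p) i).val) = 1 := by simp
    refine ⟨k + (p - 1) * k', ?_⟩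
    rw [hZ]
    generalize (∏ i, x i ^ (e i).val) = E at hk hk' hE0
    generalize Mx m0 x c = M at hk hk' ⊢
    have h5 := h1 _ _ hk (h2 _ (p - 1) hk')
    have h6 : ((d * E * M ^ k : 𝓞 F) : F) * ((d' * E * M ^ k' : 𝓞 F) : F) ^ (p - 1) =
        ((d * d' ^ (p - 1) * 1 * M ^ (k + (p - 1) * k') : 𝓞 F) : F) * (E : F) ^ p := by
      have h7 : (d * E * M ^ k) * (d' * E * M ^ k') ^ (p - 1) =
          (d * d' ^ (p - 1) * 1 * M ^ (k + (p - 1) * k')) * E ^ p := by
        have e2 : E ^ p = E ^ (p - 1) * E := by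
          rw [← pow_succ, hp1]
        rw [e2, mul_pow, mul_pow, pow_add, ← pow_mul, mul_comm k' (p - 1)]
        ring
      have h8 := congrArg (fun z : 𝓞 F => (z : F)) h7
      simp only [map_mul, map_pow] at h8 ⊢
      exact h8
    rw [h6] at h5
    refine h4 _ ((E : F) ^ p) (pow_ne_zero _ ?_) h5 (h3 _)
    intro h9
    exact hE0 (RingOfIntegers.coe_eq_zero_iff.mp h9)

end IBND

open Classical in
theorem pr_BND (hLPM : StLPM.{u}) : StBND.{u} := by
  intro F _ _ p hpF t m0 x c ht _ hx hc hH R hR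
  have hp : p.Prime := hpF.out
  have hp1 : p - 1 + 1 = p := Nat.succ_pred_eq_of_pos hp.pos
  -- the first component is injective on `R`
  have hinj : Set.InjOn (fun a : (Fin t → ZMod p) × 𝓞 F => a.1) (R : Set _) := by
    intro a ha b hb hab
    have ha' : a ∈ R := ha
    have hb' : b ∈ R := hb
    have hab' : a.1 = b.1 := hab
    refine hR.inj a ha' b hb' hab' ?_
    have hwa := (hR.mem a ha').2
    have hwb := (hR.mem b hb').2
    rw [← hab'] at hwb
    obtain ⟨g, hg⟩ := hH _ (IBND.wt_zero hLPM p hx hwb hwa)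
    have hg0 : g ≠ 0 := by
      intro h0
      rw [h0, zero_pow hp.ne_zero] at hg
      exact mul_ne_zero hwb.ne (pow_ne_zero _ hwa.ne) hg.symm
    refine ⟨g, a.2, hg0, hwa.ne, ?_⟩
    rw [hg]
    calc b.2 * a.2 ^ (p - 1) * a.2 = b.2 * (a.2 ^ (p - 1 + 1)) := by rw [pow_succ]; ring
      _ = a.2 ^ p * b.2 := by rw [hp1]; ring
  -- the multiples of `c`
  let f : ZMod p → (Fin t → ZMod p) := fun l i => l * (c i : ZMod p)
  have hf : Function.Injective f := by
    intro l l' hll
    have h1 := congrFun hll ⟨0, ht⟩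
    have h2 : (c ⟨0, ht⟩ : ZMod p) ≠ 0 := by
      intro h3
      rw [ZMod.natCast_eq_zero_iff] at h3
      have := Nat.le_of_dvd (by have := (hc ⟨0, ht⟩).1; omega) h3
      have := (hc ⟨0, ht⟩).2
      omega
    exact mul_right_cancel₀ h2 h1
  have hdis : Disjoint (R.image (fun a => a.1)) (Finset.univ.image f) := by
    rw [Finset.disjoint_left]
    intro e he he'
    obtain ⟨a, ha, rfl⟩ := Finset.mem_image.mp he
    obtain ⟨l, _, hl⟩ := Finset.mem_image.mp he'
    obtain ⟨⟨i, k, hik⟩, _⟩ := hR.mem a ha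
    apply hik
    rw [← hl]
    show (c k : ZMod p) * (l * (c i : ZMod p)) = (c i : ZMod p) * (l * (c k : ZMod p))
    ring
  have hcard : (R.image (fun a => a.1)).card + (Finset.univ.image f).card ≤ p ^ t := by
    rw [← Finset.card_union_of_disjoint hdis]
    refine (Finset.card_le_univ _).trans ?_
    rw [Fintype.card_pi]
    simp
  rw [Finset.card_image_of_injOn hinj, Finset.card_image_of_injective _ hf, Finset.card_univ,
    ZMod.card] at hcard
  omega

end Pool.Agent.Work.MP_59f3ad_nt.PX
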