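import Mathlib
import Pool.Agent.Work.MP_59f3ad_nt.PX.StmtsE

/-!
Item REX of block PX: existence of a finite system of representatives of the pairs
`(e, d modulo p-th powers)`.
-/

set_option autoImplicit false

open NumberField IsDedekindDomain

namespace Pool.Agent.Work.MP_59f3ad_nt.PX

universe u

namespace IREX

variable {F : Type u} [Field F] [NumberField F]

theorem refl (p : ℕ) (d : 𝓞 F) : Eqv p d d := ⟨1, 1, one_ne_zero, one_ne_zero, rfl⟩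

theorem symm {p : ℕ} {d d' : 𝓞 F} (h : Eqv p d d') : Eqv p d' d := by
  obtain ⟨g, g', hg, hg', e⟩ := h
  exact ⟨g', g, hg', hg, e.symm⟩

theorem trans {p : ℕ} {d d' d'' : 𝓞 F} (h : Eqv p d d') (h' : Eqv p d' d'') : Eqv p d d'' := by
  obtain ⟨g, g', hg, hg', e⟩ := h
  obtain ⟨k, k', hk, hk', e'⟩ := h'
  refine ⟨g * k, g' * k', mul_ne_zero hg hk, mul_ne_zero hg' hk', ?_⟩
  rw [mul_pow, mul_pow]
  linear_combination k ^ p * e + g' ^ p * e'

/-- The pairs `(e, d)`, `e` not proportional to `c`, `d` a witness for `e`. -/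
def S (p : ℕ) {t : ℕ} (m0 : 𝓞 F) (x : Fin t → 𝓞 F) (c : Fin t → ℕ) : Type u :=
  {a : (Fin t → ZMod p) × 𝓞 F //
    (∃ i k, (c k : ZMod p) * a.1 i ≠ (c i : ZMod p) * a.1 k) ∧ Wt p m0 x c a.1 a.2}

/-- The equivalence relation. -/
def st (p : ℕ) {t : ℕ} (m0 : 𝓞 F) (x : Fin t → 𝓞 F) (c : Fin t → ℕ) : Setoid (S p m0 x c) where
  r a b := a.1.1 = b.1.1 ∧ Eqv p a.1.2 b.1.2
  iseqv := ⟨fun a => ⟨rfl, refl p _⟩, fun h => ⟨h.1.symm, symm h.2⟩,
    fun h h' => ⟨h.1.trans h'.1, trans h.2 h'.2⟩⟩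

theorem fin (p : ℕ) [Fact p.Prime] {t : ℕ} (m0 : 𝓞 F) (x : Fin t → 𝓞 F) (c : Fin t → ℕ)
    (R0 : Finset (𝓞 F)) (hR : ∀ d : 𝓞 F, d ≠ 0 →
      (∀ q : HeightOneSpectrum (𝓞 F), q ∉ Sp F p → Vd F p q (d : F)) → ∃ ρ ∈ R0, Eqv p d ρ) :
    Finite (Quotient (st p m0 x c)) := by
  have h : ∀ a : S p m0 x c, ∃ ρ : R0, Eqv p a.1.2 ρ.1 := by
    intro a
    obtain ⟨ρ, hρ, h⟩ := hR a.1.2 a.2.2.ne a.2.2.val
    exact ⟨⟨ρ, hρ⟩, h⟩
  choose f hf using h
  haveI : NeZero p := ⟨(Fact.out : p.Prime).ne_zero⟩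
  refine Finite.of_injective
    (fun q : Quotient (st p m0 x c) => ((Quotient.out q).1.1, f (Quotient.out q))) ?_
  intro q q' hq
  have h1 := congrArg Prod.fst hq
  have h2 := congrArg Prod.snd hq
  simp only at h1 h2
  apply Quotient.out_equiv_out.1
  refine ⟨h1, trans (hf _) ?_⟩
  rw [h2]
  exact symm (hf _)

end IREX

/-- REX -/
theorem pr_REX (hFSL : StFSL.{u}) : StREX.{u} := by
  intro F _ _ p _ t m0 x c
  obtain ⟨R0, -, hR⟩ := hFSL F p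
  haveI := IREX.fin p m0 x c R0 hR
  have hfin : (Set.range fun q : Quotient (IREX.st p m0 x c) => (Quotient.out q).1).Finite :=
    Set.finite_range _
  refine ⟨hfin.toFinset, ?_, ?_, ?_⟩
  · intro a ha
    rw [Set.Finite.mem_toFinset] at ha
    obtain ⟨q, rfl⟩ := ha
    exact (Quotient.out q).2
  · intro a ha b hb h1 h2
    rw [Set.Finite.mem_toFinset] at ha hb
    obtain ⟨q, rfl⟩ := ha
    obtain ⟨q', rfl⟩ := hb
    have h3 : q = q' := Quotient.out_equiv_out.1 ⟨h1, h2⟩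
    rw [h3]
  · intro e D he hW
    let a : IREX.S p m0 x c := ⟨(e, D), he, hW⟩
    have h := Quotient.mk_out (s := IREX.st p m0 x c) a
    obtain ⟨h1, h2⟩ := h
    refine ⟨(Quotient.out (Quotient.mk (IREX.st p m0 x c) a)).1.2, ?_, IREX.symm h2⟩
    rw [Set.Finite.mem_toFinset]
    refine ⟨Quotient.mk (IREX.st p m0 x c) a, ?_⟩
    exact Prod.ext h1 rfl

end Pool.Agent.Work.MP_59f3ad_nt.PX
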