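import Mathlib
import Pool.Agent.Work.MP_59f3ad_nt.PX.All2
import Pool.Agent.Work.MP_59f3ad_nt.PX.I_REX
import Pool.Agent.Work.MP_59f3ad_nt.PX.I_BND

/-!
Block PX: everything together, part E.
-/

set_option autoImplicit false

namespace Pool.Agent.Work.MP_59f3ad_nt.PX

universe u

theorem all_REX : StREX.{u} := pr_REX pr_FSL
theorem all_BND : StBND.{u} := pr_BND pr_LPM

end Pool.Agent.Work.MP_59f3ad_nt.PX
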