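import Mathlib
import Pool.Agent.Work.MP_59f3ad_nt.PX.StmtsE

/-!
Block PX, part F: ARBITRARY `m0 ≠ 0` (no condition on its valuations; needed for base fields whose class
group has order divisible by `p`). The places `TT F p m0` (above `p`, or where the valuation of `m0` is
not divisible by `p`) take the role of `Sp F p`. Every docstring is the complete proof.
-/

set_option autoImplicit false

open NumberField IsDedekindDomain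

namespace Pool.Agent.Work.MP_59f3ad_nt.PX

open Pool.Agent.Work.MP_59f3ad_nt.FE

universe u

/-- The places above `p` and the places where the valuation of `m0` is not divisible by `p`. -/
def TT (F : Type u) [Field F] [NumberField F] (p : ℕ) (m0 : 𝓞 F) :
    Set (HeightOneSpectrum (𝓞 F)) := {v | v ∈ Sp F p ∨ ¬ Vd F p v (m0 : F)}

/-- `Wt` with `TT F p m0` in place of `Sp F p`. -/
structure Wu {F : Type u} [Field F] [NumberField F] (p : ℕ) {t : ℕ} (m0 : 𝓞 F)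
    (x : Fin t → 𝓞 F) (c : Fin t → ℕ) (e : Fin t → ZMod p) (d : 𝓞 F) : Prop where
  ne : d ≠ 0
  val : ∀ q : HeightOneSpectrum (𝓞 F), q ∉ TT F p m0 → Vd F p q (d : F)
  loc : ∀ v ∈ TT F p m0, ∃ k : ℕ,
    Lp F p v ((d * (∏ i, x i ^ (e i).val) * Mx m0 x c ^ k : 𝓞 F) : F)

/-- `Cty` without `m0v`, with `TT F p m0` in place of `Sp F p` in `hH`, `lc`. -/
structure Cu {F : Type u} [Field F] [NumberField F] (p : ℕ) {t : ℕ} (m0 : 𝓞 F)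
    (x : Fin t → 𝓞 F) (c : Fin t → ℕ) (π : Fin t → 𝓞 F) : Prop where
  ht : 1 ≤ t
  m0n : m0 ≠ 0
  xn : ∀ i, x i ≠ 0
  hc : ∀ i, 1 ≤ c i ∧ c i < p
  nsp : ∀ v ∈ Sp F p, ¬ Lp F p v (Mx m0 x c : F)
  hH : ∀ d : 𝓞 F, Wu p m0 x c 0 d → (∀ k, ¬ π k ∣ d) →
    (∃ g : 𝓞 F, g ^ p = d) ∨ ∃ i, ¬ ∃ y : 𝓞 F, π i ∣ y ^ p - d
  pr : ∀ i, Prime (π i)
  np : ∀ i, ¬ π i ∣ (p : 𝓞 F)
  na : ∀ i k, Associated (π i) (π k) → i = k
  nm0 : ∀ i, ¬ π i ∣ m0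
  lc : ∀ i, ∀ v ∈ TT F p m0, ∃ y : v.adicCompletion F,
    algebraMap F (v.adicCompletion F) (π i : F) =
      algebraMap F (v.adicCompletion F) (x i : F) * y ^ p

/-- `Dt` with `TT F p m0` in place of `Sp F p`. -/
structure Du {F : Type u} [Field F] [NumberField F] (p : ℕ) {t : ℕ} (m0 : 𝓞 F)
    (c : Fin t → ℕ) (π : Fin t → 𝓞 F) (a : F) : Prop where
  ne : a ≠ 0
  loc : ∀ v ∈ TT F p m0, ∃ k : ℕ, Lp F p v (a * (Mx m0 π c : F) ^ k)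
  val : ∀ q : HeightOneSpectrum (𝓞 F), q ∉ TT F p m0 → (∀ i, π i ∉ q.asIdeal) → Vd F p q a
  non : ∀ (j : ℕ) (g : F), a ≠ (Mx m0 π c : F) ^ j * g ^ p
  tam : ∀ (l j : ℕ) (g : F) (D : 𝓞 F) (e : Fin t → ℕ), g ≠ 0 → (∀ k, ¬ π k ∣ D) →
    a ^ l * (Mx m0 π c : F) ^ j * g ^ p = ((D * ∏ i, π i ^ e i : 𝓞 F) : F) →
    ∀ k, ∃ y : 𝓞 F, π k ∣ y ^ p - (D * ∏ i ∈ Finset.univ.erase k, π i ^ e i) ^ c k *
      (m0 * ∏ i ∈ Finset.univ.erase k, π i ^ c i) ^ ((p - 1) * e k)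

/-- `Rl` with `Wu` in place of `Wt`. -/
structure Ru {F : Type u} [Field F] [NumberField F] (p : ℕ) {t : ℕ} (m0 : 𝓞 F)
    (x : Fin t → 𝓞 F) (c : Fin t → ℕ) (π : Fin t → 𝓞 F) (a : F) (l j : ℕ) (e : Fin t → ZMod p)
    (D : 𝓞 F) (g : F) : Prop where
  gn : g ≠ 0
  cop : ∀ k, ¬ π k ∣ D
  eq : a ^ l * (Mx m0 π c : F) ^ j * g ^ p = ((D * ∏ i, π i ^ (e i).val : 𝓞 F) : F)
  wit : Wu p m0 x c e D

/-- `Reps` with `Wu` in place of `Wt`. -/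
structure Repu {F : Type u} [Field F] [NumberField F] (p : ℕ) {t : ℕ} (m0 : 𝓞 F)
    (x : Fin t → 𝓞 F) (c : Fin t → ℕ) (R : Finset ((Fin t → ZMod p) × 𝓞 F)) : Prop where
  mem : ∀ a ∈ R, (∃ i k, (c k : ZMod p) * a.1 i ≠ (c i : ZMod p) * a.1 k) ∧ Wu p m0 x c a.1 a.2
  inj : ∀ a ∈ R, ∀ b ∈ R, a.1 = b.1 → Eqv p a.2 b.2 → a = b
  cov : ∀ (e : Fin t → ZMod p) (D : 𝓞 F), (∃ i k, (c k : ZMod p) * e i ≠ (c i : ZMod p) * e k) →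
    Wu p m0 x c e D → ∃ d, (e, d) ∈ R ∧ Eqv p D d

/-- HEN (MEDIUM). Hensel at a place `q` not above `p`. `w = u / z^p` has `q(w - 1) < 1` (`q(z) = 1`, since `q(u) = 1`
and `q(u - z^p) < 1`). In the completion `F_q` (complete discretely valued; residue characteristic `ℓ ≠ p`,
`p` is a unit): Hensel's lemma for `X^p - w` at `1` (`HenselianLocalRing` of `v.adicCompletionIntegers F` if Mathlib
has the instance, by completeness; or by hand: the Newton sequence; or: `w^(ℓ^n)` tends to `1`, choose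
naturals `s_n` with `p s_n = 1 + ℓ^n b_n` compatible, e.g. `s_(n+1) = s_n + ℓ^n j_n`, then `w^(s_n)` is Cauchy and its
limit `y` has `y^p = lim w^(1 + ℓ^n b_n) = w`). -/
def StHEN : Prop := ∀ (F : Type u) [Field F] [NumberField F] (p : ℕ) [Fact p.Prime]
  (q : HeightOneSpectrum (𝓞 F)), q ∉ Sp F p → ∀ (u : F) (z : 𝓞 F), q.valuation F u = 1 →
  q.valuation F (u - (z : F) ^ p) < 1 → Lp F p q u

/-- RMQ (EASY-MEDIUM; the proof of `I_RAM.lean` for a place `q` in place of a prime element `π`). `v` above `q`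
(`IRAM.exists_above`). `q(m) = exp(-k)`, `k ∈ ℤ`, `p ∤ k` (otherwise `Vd F p q m`: a power of a uniformizer). As in
`IRAM.p_dvd` `p` divides the ramification index of `v`, `IRAM.e_p`: `e = p`, `f = 1`, `v` is the only place above
`q`. The rest as in `I_RAM.lean`. -/
def StRMQ : Prop := ∀ (F L : Type u) [Field F] [NumberField F] [Field L] [NumberField L]
  [Algebra F L] (p : ℕ) [Fact p.Prime] (ζ m : F) (x : L) (σ : L ≃ₐ[F] L), Cf F L p ζ m x σ →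
  ∀ q : HeightOneSpectrum (𝓞 F), ¬ Vd F p q m →
  ∃ v : HeightOneSpectrum (𝓞 L), v.asIdeal.LiesOver q.asIdeal ∧ Q3.Inert (σ : L ≃+* L) v ∧
    (∀ y : 𝓞 L, ∃ z : 𝓞 F, y - algebraMap (𝓞 F) (𝓞 L) z ∈ v.asIdeal) ∧
    ∀ a : F, v.valuation L (algebraMap F L a) = q.valuation F a ^ p

/-- TMQ (MEDIUM; the proof of `I_TAM.lean`, simpler). `v(σ^i ε) = v(ε)` (`σ` maps `v` to itself, it acts trivially
modulo `v`), so `v(ε)^p = v(u) = q(u)^p = 1`, `v(ε) = 1`. `ε = y1 / y2` with `y1, y2 ∈ 𝓞 L` outside `v`, `y1`, `y2`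
congruent modulo `v` to `z1, z2 ∈ 𝓞 F`, and `σ^i y - y ∈ v` for `y ∈ 𝓞 L`. So `u ∏ σ^i y2 = ∏ σ^i y1` gives
`v(u z2^p - z1^p) < 1`, `q(u z2^p - z1^p) < 1`, `q(z2) = 1`. Choose `w ∈ 𝓞 F` with `w z2 = 1` modulo `q`; `z = z1 w`. -/
def StTMQ : Prop := ∀ (F L : Type u) [Field F] [NumberField F] [Field L] [NumberField L]
  [Algebra F L] (p : ℕ) [Fact p.Prime] (ζ m : F) (x : L) (σ : L ≃ₐ[F] L), Cf F L p ζ m x σ →
  ∀ (q : HeightOneSpectrum (𝓞 F)) (v : HeightOneSpectrum (𝓞 L)), v.asIdeal.LiesOver q.asIdeal →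
  Q3.Inert (σ : L ≃+* L) v →
  (∀ y : 𝓞 L, ∃ z : 𝓞 F, y - algebraMap (𝓞 F) (𝓞 L) z ∈ v.asIdeal) →
  (∀ a : F, v.valuation L (algebraMap F L a) = q.valuation F a ^ p) →
  ∀ (u : F) (ε : L), q.valuation F u = 1 →
  ∏ i ∈ Finset.range p, (σ ^ i) ε = algebraMap F L u →
  ∃ z : 𝓞 F, q.valuation F (u - (z : F) ^ p) < 1

/-- TRT (EASY-MEDIUM, from StRMQ, StTMQ, StHEN, StNX). `q(a) = exp(-α)`, `q(m) = exp(-μ)`, `p ∤ μ` (otherwise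
`Vd F p q m`, as there is `g` with `q(g) = exp(-μ/p)`: power of a uniformizer, `valuation_exists_uniformizer`).
Choose `k : ℕ` with `p ∣ α + k μ` and `g ∈ F*` with `q(g)^p = q(a m^k)`. `u = a m^k / g^p` has `q(u) = 1` and is
the norm of `ε = δ x^k / g` (NX; `σ` fixes `g`, a product of `p` factors `g`). TMQ, HEN: `Lp u`, so
`Lp (a m^k)`, `a m^k = u g^p`. -/
def StTRT : Prop := ∀ (F L : Type u) [Field F] [NumberField F] [Field L] [NumberField L]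
  [Algebra F L] (p : ℕ) [Fact p.Prime] (ζ m : F) (x : L) (σ : L ≃ₐ[F] L), Cf F L p ζ m x σ →
  ∀ q : HeightOneSpectrum (𝓞 F), q ∉ Sp F p → ¬ Vd F p q m → ∀ (a : F) (δ : L), a ≠ 0 →
  ∏ i ∈ Finset.range p, (σ ^ i) δ = algebraMap F L a → ∃ k : ℕ, Lp F p q (a * m ^ k)

/-- DTU (EASY-MEDIUM; copy of `I_DET.lean` with the changes at the places where `StDET` is used with `m0v`). From
StCFG, StINH, StTR1, StTR2, StRAM, StTAM, StNX, StTRT. `m = m0 ∏ π_i^(c_i)`. The places of `TT F p m0`: above `p`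
by TR1; a place `v` not above `p` with `¬ Vd F p v m0`: `π_i ∉ v` for all `i` (otherwise `v = (π_i)`,
`v(m0) = 1` as `π_i ∤ m0`, so `Vd`), so `v(m) = v(m0)`, `¬ Vd F p v m`, and TRT (`Bad.hδ`). A place
`q ∉ TT F p m0` with `π_i ∉ q` for all `i`: `q(m) = q(m0)`, TR2. The rest is the proof of DET word for word (`m0v` is
not used there). -/
def StDTU : Prop := ∀ (F : Type u) [Field F] [NumberField F] (p : ℕ) [Fact p.Prime], p ≠ 2 →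
  ∀ ζ : F, IsPrimitiveRoot ζ p → ∀ (t : ℕ) (m0 : 𝓞 F) (π : Fin t → 𝓞 F) (c : Fin t → ℕ),
  1 ≤ t → m0 ≠ 0 → (∀ i, Prime (π i)) →
  (∀ i, ¬ π i ∣ (p : 𝓞 F)) → (∀ i k, Associated (π i) (π k) → i = k) → (∀ i, ¬ π i ∣ m0) →
  (∀ i, 1 ≤ c i ∧ c i < p) →
  (∀ v ∈ Sp F p, ¬ Lp F p v ((m0 * ∏ i, π i ^ c i : 𝓞 F) : F)) →
  ∀ (L : Type u) [Field L] [NumberField L] [Algebra F L] (x : L), Module.finrank F L = p →
  x ^ p = algebraMap F L ((m0 * ∏ i, π i ^ c i : 𝓞 F) : F) →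
  ∀ r : ℤ, r ≠ 0 → Sha1 F p r (Sp F p) = ⊥ →
  ∀ S : Set (HeightOneSpectrum (𝓞 L)), (∀ v ∈ Sp L p, v ∈ S) → Sha1 L p r S ≠ ⊥ →
  ∃ a : F, Du p m0 c π a

/-- LPU (EASY; `I_LPM2.lean` with `Cu` in place of `Cty` and `TT F p m0` in place of `Sp F p`). -/
def StLPU : Prop := ∀ (F : Type u) [Field F] [NumberField F] (p : ℕ) [Fact p.Prime] (t : ℕ)
    (m0 : 𝓞 F) (x : Fin t → 𝓞 F) (c : Fin t → ℕ) (π : Fin t → 𝓞 F), Cu p m0 x c π →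
    ∀ v ∈ TT F p m0, ∀ (D : 𝓞 F) (e : Fin t → ℕ) (k : ℕ),
    Lp F p v ((D * (∏ i, π i ^ e i) * Mx m0 π c ^ k : 𝓞 F) : F) ↔
      Lp F p v ((D * (∏ i, x i ^ e i) * Mx m0 x c ^ k : 𝓞 F) : F)

/-- RU1 (EASY; `I_RX1.lean` with `Cu`, `Du`, `Ru`, `TT F p m0`). At a place `q ∉ TT F p m0` the valuation of `m0` is
divisible by `p` by definition (this replaces `m0v`). -/
def StRU1 : Prop := ∀ (F : Type u) [Field F] [NumberField F] (p : ℕ) [Fact p.Prime] (t : ℕ)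
  (m0 : 𝓞 F) (x : Fin t → 𝓞 F) (c : Fin t → ℕ) (π : Fin t → 𝓞 F), Cu p m0 x c π →
  ∀ a : F, Du p m0 c π a → ∀ l j : ℕ, ∃ (e : Fin t → ZMod p) (D : 𝓞 F) (g : F),
    Ru p m0 x c π a l j e D g

/-- RU2 (EASY; `I_RX2.lean` with `Cu`, `Du`, `Ru`). -/
def StRU2 : Prop := ∀ (F : Type u) [Field F] [NumberField F] (p : ℕ) [Fact p.Prime]
  (ind : 𝓞 F → 𝓞 F → ZMod p), Sym F p ind → ∀ (t : ℕ)
  (m0 : 𝓞 F) (x : Fin t → 𝓞 F) (c : Fin t → ℕ) (π : Fin t → 𝓞 F), Cu p m0 x c π →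
  ∀ a : F, Du p m0 c π a → ∀ (l j : ℕ) (e : Fin t → ZMod p) (D : 𝓞 F) (g : F),
  Ru p m0 x c π a l j e D g → ∀ d : 𝓞 F, Eqv p D d → (∀ k, ¬ π k ∣ d) →
  ∀ k, ∑ i ∈ Finset.univ.erase k, ((c k : ZMod p) * e i - (c i : ZMod p) * e k) *
    ind (π k) (π i) = -((c k : ZMod p) * ind (π k) d - e k * ind (π k) m0)

/-- RU3 (EASY; `I_RX3.lean` with `Cu`, `Du`, `Ru`, `TT F p m0`, `StLPU`). The witness `d' = D m0^(λ')` for `0`: at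
`q ∉ TT F p m0` the valuation of `m0` is divisible by `p` by definition. -/
def StRU3 : Prop := ∀ (F : Type u) [Field F] [NumberField F] (p : ℕ) [Fact p.Prime]
  (ind : 𝓞 F → 𝓞 F → ZMod p), Sym F p ind → ∀ (t : ℕ)
  (m0 : 𝓞 F) (x : Fin t → 𝓞 F) (c : Fin t → ℕ) (π : Fin t → 𝓞 F), Cu p m0 x c π →
  ∀ a : F, Du p m0 c π a → ∀ (l j : ℕ) (e : Fin t → ZMod p) (D : 𝓞 F) (g : F),
  Ru p m0 x c π a l j e D g → ¬ p ∣ l →
  ∃ i k, (c k : ZMod p) * e i ≠ (c i : ZMod p) * e k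

/-- RU4 (EASY; `I_RX4.lean` with `Cu`, `Du`, `Ru`, `StLPU`; `Sp F p ⊆ TT F p m0`). -/
def StRU4 : Prop := ∀ (F : Type u) [Field F] [NumberField F] (p : ℕ) [Fact p.Prime] (t : ℕ)
  (m0 : 𝓞 F) (x : Fin t → 𝓞 F) (c : Fin t → ℕ) (π : Fin t → 𝓞 F), Cu p m0 x c π →
  ∀ a : F, Du p m0 c π a → ∀ (l j l' j' : ℕ) (e : Fin t → ZMod p) (D D' : 𝓞 F) (g g' : F),
  1 ≤ l → l < p → 1 ≤ l' → l' < p → j < p → j' < p →
  Ru p m0 x c π a l j e D g → Ru p m0 x c π a l' j' e D' g' → Eqv p D D' → l = l' ∧ j = j'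

/-- RUS (EASY; `I_RXS.lean` with `Cu`, `Du`, `Ru`; from StDTU, StRU1, StRU2, StRU3, StRU4, StLPU). -/
def StRUS : Prop := ∀ (F : Type u) [Field F] [NumberField F] (p : ℕ) [Fact p.Prime], p ≠ 2 →
  ∀ ζ : F, IsPrimitiveRoot ζ p → ∀ ind : 𝓞 F → 𝓞 F → ZMod p, Sym F p ind → ∀ (t : ℕ)
  (m0 : 𝓞 F) (x : Fin t → 𝓞 F) (c : Fin t → ℕ) (π : Fin t → 𝓞 F), Cu p m0 x c π →
  ∀ R : Finset ((Fin t → ZMod p) × 𝓞 F), (∀ a ∈ R, ∀ k, ¬ π k ∣ a.2) →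
  (∀ (e : Fin t → ZMod p) (D : 𝓞 F), (∃ i k, (c k : ZMod p) * e i ≠ (c i : ZMod p) * e k) →
    Wu p m0 x c e D → ∃ d, (e, d) ∈ R ∧ Eqv p D d) →
  ¬ Good p m0 c π →
  ∃ T : Finset ((Fin t → ZMod p) × 𝓞 F), T.card = (p - 1) * p ∧ ∀ a ∈ T, a ∈ R ∧
    (∃ i k, (c k : ZMod p) * a.1 i ≠ (c i : ZMod p) * a.1 k) ∧
    ∀ k, ∑ i ∈ Finset.univ.erase k, ((c k : ZMod p) * a.1 i - (c i : ZMod p) * a.1 k) *
      ind (π k) (π i) = -((c k : ZMod p) * ind (π k) a.2 - a.1 k * ind (π k) m0)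

open Classical in
/-- CNU (EASY; `I_CNX.lean` with `Cu`, `Wu`, `TT F p m0`; from StIND, StDEG, StRUS, StFMO, StEXC). -/
def StCNU : Prop := ∀ (F : Type u) [Field F] [NumberField F] (p : ℕ) [Fact p.Prime], p ≠ 2 →
  ∀ ζ : F, IsPrimitiveRoot ζ p → ∀ (t : ℕ) (m0 : 𝓞 F) (x : Fin t → 𝓞 F) (c : Fin t → ℕ), 1 ≤ t →
  m0 ≠ 0 → (∀ i, x i ≠ 0) →
  (∀ i, 1 ≤ c i ∧ c i < p) → (∀ v ∈ Sp F p, ¬ Lp F p v (Mx m0 x c : F)) →
  ∀ R : Finset ((Fin t → ZMod p) × 𝓞 F), (∀ a ∈ R, a.2 ≠ 0) →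
  (∀ (e : Fin t → ZMod p) (D : 𝓞 F), (∃ i k, (c k : ZMod p) * e i ≠ (c i : ZMod p) * e k) →
    Wu p m0 x c e D → ∃ d, (e, d) ∈ R ∧ Eqv p D d) → ∀ ε : ℝ, 0 < ε →
  ∃ X0 : ℕ, ∀ X : ℕ, X0 ≤ X → ∀ P : Fin t → Finset (𝓞 F), (∀ i, Adm F p X (P i)) →
  (∀ i, (X : ℝ) ^ ((Module.finrank ℚ F : ℝ) - 1 / 4) ≤ (P i).card) →
  (∀ i, ∀ z ∈ P i, ∀ v ∈ TT F p m0, ∃ y : v.adicCompletion F,
    algebraMap F (v.adicCompletion F) (z : F) =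
      algebraMap F (v.adicCompletion F) (x i : F) * y ^ p) →
  (∀ d : 𝓞 F, Wu p m0 x c 0 d → (∃ g : 𝓞 F, g ^ p = d) ∨
    ∃ i, ∀ z ∈ P i, ¬ z ∣ d → ¬ ∃ y : 𝓞 F, z ∣ y ^ p - d) →
  (((Fintype.piFinset P).filter (fun π => ¬ Good p m0 c π)).card : ℝ) ≤
    ((R.card : ℝ) / (((p : ℝ) - 1) * (p : ℝ) ^ t) + ε) * ∏ i, ((P i).card : ℝ)

/-- TFI (EASY-MEDIUM). `TT F p m0` is finite if `m0 ≠ 0`: a place `v` with `p ∉ v`, `m0 ∉ v` has `v(m0) = 1 = v(1)^p`;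
so `TT F p m0` is contained in the set of the places containing `p m0 ≠ 0` (a nonzero ideal has finitely many prime
divisors: `Ideal.finite_factors`). -/
def StTFI : Prop := ∀ (F : Type u) [Field F] [NumberField F] (p : ℕ) [Fact p.Prime]
  (m0 : 𝓞 F), m0 ≠ 0 → (TT F p m0).Finite

/-- FSU (MEDIUM; `I_FSL.lean` with any finite set `T` of places in place of `Sp F p`). -/
def StFSU : Prop := ∀ (F : Type u) [Field F] [NumberField F] (p : ℕ) [Fact p.Prime]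
  (T : Set (HeightOneSpectrum (𝓞 F))), T.Finite →
  ∃ R : Finset (𝓞 F), (∀ ρ ∈ R, ρ ≠ 0) ∧ ∀ d : 𝓞 F, d ≠ 0 →
    (∀ q : HeightOneSpectrum (𝓞 F), q ∉ T → Vd F p q (d : F)) → ∃ ρ ∈ R, Eqv p d ρ

/-- REU (EASY; `I_REX.lean` with `Repu`, `Wu`; from StTFI, StFSU with `T = TT F p m0`). -/
def StREU : Prop := ∀ (F : Type u) [Field F] [NumberField F] (p : ℕ) [Fact p.Prime] (t : ℕ)
  (m0 : 𝓞 F) (x : Fin t → 𝓞 F) (c : Fin t → ℕ), m0 ≠ 0 →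
  ∃ R : Finset ((Fin t → ZMod p) × 𝓞 F), Repu p m0 x c R

/-- BNU (EASY; `I_BND.lean` with `Repu`, `Wu`; from StLPM). -/
def StBNU : Prop := ∀ (F : Type u) [Field F] [NumberField F] (p : ℕ) [Fact p.Prime] (t : ℕ)
  (m0 : 𝓞 F) (x : Fin t → 𝓞 F) (c : Fin t → ℕ), 1 ≤ t → m0 ≠ 0 → (∀ i, x i ≠ 0) →
  (∀ i, 1 ≤ c i ∧ c i < p) → (∀ d : 𝓞 F, Wu p m0 x c 0 d → ∃ g : 𝓞 F, g ^ p = d) →
  ∀ R : Finset ((Fin t → ZMod p) × 𝓞 F), Repu p m0 x c R → R.card ≤ p ^ t - p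

end Pool.Agent.Work.MP_59f3ad_nt.PX
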