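import Mathlib
import Pool.Agent.Work.MP_59f3ad_nt.PX.StmtsF
import Pool.Agent.Work.MP_59f3ad_nt.PX.I_DET

/-!
Block PX, item DTU: the deterministic theorem for an arbitrary `m0`.
-/

set_option autoImplicit false

open NumberField IsDedekindDomain

namespace Pool.Agent.Work.MP_59f3ad_nt.PX

open Pool.Agent.Work.MP_59f3ad_nt.FE

universe u

namespace IDTU

/-- a place which contains no `π i` does not see the product -/
theorem valM (F : Type u) [Field F] [NumberField F] {t : ℕ} (m0 : 𝓞 F) (π : Fin t → 𝓞 F)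
    (c : Fin t → ℕ) (q : HeightOneSpectrum (𝓞 F)) (hπq : ∀ i, π i ∉ q.asIdeal) :
    q.valuation F ((m0 * ∏ i, π i ^ c i : 𝓞 F) : F) = q.valuation F (m0 : F) := by
  rw [RingOfIntegers.coe_eq_algebraMap, RingOfIntegers.coe_eq_algebraMap, map_mul, map_mul,
    map_prod, map_prod]
  have h1 : ∀ i : Fin t, q.valuation F (algebraMap (𝓞 F) F (π i ^ c i)) = 1 := by
    intro i
    rw [map_pow, map_pow, HeightOneSpectrum.valuation_of_algebraMap,
      HeightOneSpectrum.intValuation_eq_one_iff.mpr (hπq i), one_pow]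
  rw [Finset.prod_congr rfl fun i _ => h1 i, Finset.prod_const_one, mul_one]

/-- a place at which the valuation of `m0` is not divisible by `p` contains no `π i` -/
theorem notmem (F : Type u) [Field F] [NumberField F] (p : ℕ) (m0 π : 𝓞 F) (hπ : Prime π)
    (h : ¬ π ∣ m0) (v : HeightOneSpectrum (𝓞 F)) (hv : ¬ Vd F p v (m0 : F)) :
    π ∉ v.asIdeal := by
  intro hmem
  obtain ⟨q, hq⟩ := IDET.place F π hπ
  have hle : q.asIdeal ≤ v.asIdeal := by
    rw [hq, Ideal.span_singleton_le_iff_mem]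
    exact hmem
  have hqm : q.asIdeal.IsMaximal := q.isMaximal
  have heq : q.asIdeal = v.asIdeal := hqm.eq_of_le v.isPrime.ne_top hle
  apply hv
  refine ⟨1, ?_⟩
  have h0 : m0 ∉ v.asIdeal := by
    rw [← heq, hq, Ideal.mem_span_singleton]
    exact h
  rw [map_one, one_pow, RingOfIntegers.coe_eq_algebraMap,
    HeightOneSpectrum.valuation_of_algebraMap, HeightOneSpectrum.intValuation_eq_one_iff.mpr h0]

end IDTU

open IDET IDTU in
/-- item DTU -/
theorem pr_DTU (hCFG : StCFG.{u}) (hINH : StINH.{u}) (hTR1 : StTR1.{u}) (hTR2 : StTR2.{u})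
    (hRAM : StRAM.{u}) (hTAM : StTAM.{u}) (hNX : StNX.{u}) (hTRT : StTRT.{u}) : StDTU.{u} := by
  intro F _ _ p _ hp2 ζ hζ t m0 π c ht hm0 hπ hπp hna hπm0 hc hLp L _ _ _ x hfin hx r hr
    hF S hS hLS
  have hp : p.Prime := Fact.out
  set M : 𝓞 F := m0 * ∏ i, π i ^ c i with hM
  have hM0 : M ≠ 0 := by
    rw [hM]
    exact mul_ne_zero hm0 (Finset.prod_ne_zero_iff.mpr fun i _ => pow_ne_zero _ (hπ i).ne_zero)
  have hm : ((M : 𝓞 F) : F) ≠ 0 := by
    rw [RingOfIntegers.coe_eq_algebraMap, Ne, FaithfulSMul.algebraMap_eq_zero_iff]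
    exact hM0
  have hsp : ∀ k, M = π k ^ c k * (m0 * ∏ i ∈ Finset.univ.erase k, π i ^ c i) := fun k =>
    split π m0 c k
  -- the place `q0`
  let i0 : Fin t := ⟨0, by omega⟩
  obtain ⟨q0, hq0⟩ := place F (π i0) (hπ i0)
  have hq0p : q0 ∉ Sp F p := by
    intro h
    have h1 : (p : 𝓞 F) ∈ q0.asIdeal := h
    rw [hq0, Ideal.mem_span_singleton] at h1
    exact hπp i0 h1
  have hnVd : ¬ Vd F p q0 ((M : 𝓞 F) : F) := by
    rw [hsp i0]
    exact nVd F p hp (π i0) _ (hπ i0) (nd π hπ hna m0 c i0 (hπm0 i0)) (c i0) (hc i0).1 (hc i0).2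
      q0 hq0
  have hnp : ∀ z : F, z ^ p ≠ ((M : 𝓞 F) : F) := by
    intro z hz
    apply hnVd
    exact ⟨z, by rw [← hz, map_pow]⟩
  obtain ⟨σ, hσ⟩ := hCFG F L p hp2 ζ ((M : 𝓞 F) : F) x hζ hm hfin hx hnp
  obtain ⟨A, a, δ, hbad⟩ := hINH F L p ζ ((M : 𝓞 F) : F) x σ hσ hLp q0 hq0p hnVd r hr hF S hS hLS
  refine ⟨a, hbad.ha, ?_, ?_, ?_, ?_⟩
  · intro v hv
    by_cases hvp : v ∈ Sp F p
    · exact hTR1 F L p ζ ((M : 𝓞 F) : F) x σ hσ v hvp (hLp v hvp) A a δ hbad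
    · have hv0 : ¬ Vd F p v (m0 : F) := by
        rcases hv with hv | hv
        · exact absurd hv hvp
        · exact hv
      have hπv : ∀ i, π i ∉ v.asIdeal := fun i =>
        notmem F p m0 (π i) (hπ i) (hπm0 i) v hv0
      have hvM : ¬ Vd F p v ((M : 𝓞 F) : F) := by
        rintro ⟨y, hy⟩
        exact hv0 ⟨y, by rw [← hy, hM, valM F m0 π c v hπv]⟩
      exact hTRT F L p ζ ((M : 𝓞 F) : F) x σ hσ v hvp hvM a δ hbad.ha hbad.hδ
  · intro q hq hπq
    have hqp : q ∉ Sp F p := fun h => hq (Or.inl h)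
    have hq0 : Vd F p q (m0 : F) := by
      by_contra h
      exact hq (Or.inr h)
    refine hTR2 F L p ζ ((M : 𝓞 F) : F) x σ hσ q hqp ?_ A a δ hbad
    obtain ⟨y, hy⟩ := hq0
    exact ⟨y, by rw [← hy, hM, valM F m0 π c q hπq]⟩
  · intro j g haj
    obtain ⟨y, hy⟩ := rootL F L p hp ζ _ x hζ hx A a hbad.ha hbad.hA j g haj
    obtain ⟨h, hh⟩ := hbad.ne
    apply hh
    rw [hy]
    exact h.commutes y
  · intro l j g D e hg hD hEq k
    have hN := nd π hπ hna m0 c k (hπm0 k)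
    have hN'' := nd π hπ hna D e k (hD k)
    obtain ⟨q, v, hRt⟩ := hRAM F L p ζ ((M : 𝓞 F) : F) x σ hσ (π k)
      (m0 * ∏ i ∈ Finset.univ.erase k, π i ^ c i) (c k) (hπ k) (hπp k) (hc k).1 (hc k).2 hN
      (by rw [← hsp k])
    refine hTAM F L p ζ ((M : 𝓞 F) : F) x σ hσ (π k)
      (m0 * ∏ i ∈ Finset.univ.erase k, π i ^ c i) (D * ∏ i ∈ Finset.univ.erase k, π i ^ e i)
      (c k) (e k) q v (hπ k) (hc k).1 (hc k).2 hN hN'' (by rw [← hsp k]) hRt
      (δ ^ l * x ^ j * algebraMap F L g) ?_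
    have h1 : ∏ i ∈ Finset.range p, (σ ^ i) (δ ^ l * x ^ j * algebraMap F L g) =
        (∏ i ∈ Finset.range p, (σ ^ i) δ) ^ l * (∏ i ∈ Finset.range p, (σ ^ i) x) ^ j *
          (algebraMap F L g) ^ p := by
      have h2 : ∀ i ∈ Finset.range p, (σ ^ i) (δ ^ l * x ^ j * algebraMap F L g) =
          ((σ ^ i) δ) ^ l * ((σ ^ i) x) ^ j * algebraMap F L g := by
        intro i _
        rw [map_mul, map_mul, map_pow, map_pow, AlgEquiv.commutes]
      rw [Finset.prod_congr rfl h2, Finset.prod_mul_distrib, Finset.prod_mul_distrib,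
        Finset.prod_pow, Finset.prod_pow, Finset.prod_const, Finset.card_range]
    rw [h1, hbad.hδ, hNX F L p ζ ((M : 𝓞 F) : F) x σ hσ, ← split π D e k, ← hEq, map_mul, map_mul,
      map_pow, map_pow, map_pow]
    rfl

end Pool.Agent.Work.MP_59f3ad_nt.PX
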