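import Mathlib
import Pool.Agent.Work.MP_59f3ad_nt.PX.StmtsF
import Pool.Agent.Work.MP_59f3ad_nt.PX.I_FSL

/-!
Block PX, item FSU: finiteness of the group of the `d` modulo `p`-th powers whose valuations outside a finite
set of places are divisible by `p`.
-/

set_option autoImplicit false

open NumberField IsDedekindDomain UniqueFactorizationMonoid
open scoped nonZeroDivisors

namespace Pool.Agent.Work.MP_59f3ad_nt.PX

universe u

namespace IFSU

open Classical in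
/-- The factorisation `(d) = I^p ∏ P^(e P)`. -/
theorem fact {F : Type u} [Field F] [NumberField F] (p : ℕ) (hp : 0 < p)
    (T : Finset (Ideal (𝓞 F))) (W : Set (HeightOneSpectrum (𝓞 F)))
    (hT : ∀ q : HeightOneSpectrum (𝓞 F), q ∈ W → q.asIdeal ∈ T) (d : 𝓞 F) (hd : d ≠ 0)
    (hv : ∀ q : HeightOneSpectrum (𝓞 F), q ∉ W → Vd F p q (d : F)) :
    ∃ (I : Ideal (𝓞 F)) (e : T → Fin p), I ≠ ⊥ ∧
      Ideal.span {d} = I ^ p * ∏ P : T, (P : Ideal (𝓞 F)) ^ (e P : ℕ) := by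
  set s := normalizedFactors (Ideal.span {d}) with hs
  have hd' : Ideal.span {d} ≠ (⊥ : Ideal (𝓞 F)) := by
    intro h0
    exact hd (Ideal.span_singleton_eq_bot.1 h0)
  have hprod : s.prod = Ideal.span {d} := Ideal.prod_normalizedFactors_eq_self hd'
  have hmem : ∀ P ∈ s, P.IsPrime ∧ P ≠ ⊥ := by
    intro P hP
    have h1 := (Ideal.mem_normalizedFactors_iff hd').1 hP
    refine ⟨h1.1, ?_⟩
    intro h0
    rw [h0] at h1
    exact hd' (le_bot_iff.1 h1.2)
  refine ⟨∏ P ∈ s.toFinset, P ^ (s.count P / p),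
    fun P => ⟨s.count (P : Ideal (𝓞 F)) % p, Nat.mod_lt _ hp⟩, ?_, ?_⟩
  · rw [← Ideal.zero_eq_bot, Finset.prod_ne_zero_iff]
    intro P hP
    exact pow_ne_zero _ (hmem P (Multiset.mem_toFinset.1 hP)).2
  · have h1 : ∏ P : T, (P : Ideal (𝓞 F)) ^ (s.count (P : Ideal (𝓞 F)) % p) =
        ∏ P ∈ T, P ^ (s.count P % p) := Finset.prod_coe_sort T (fun P => P ^ (s.count P % p))
    have h2 : ∏ P ∈ T, P ^ (s.count P % p) = ∏ P ∈ s.toFinset, P ^ (s.count P % p) := by
      have a1 : ∏ P ∈ T, P ^ (s.count P % p) = ∏ P ∈ T ∪ s.toFinset, P ^ (s.count P % p) := by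
        refine Finset.prod_subset Finset.subset_union_left fun P hP hPT => ?_
        have hPs : P ∈ s := by
          rcases Finset.mem_union.1 hP with h | h
          · exact absurd h hPT
          · exact Multiset.mem_toFinset.1 h
        have h3 := hmem P hPs
        let q : HeightOneSpectrum (𝓞 F) := ⟨P, h3.1, h3.2⟩
        have hq : q ∉ W := fun hq => hPT (hT q hq)
        have h4 : p ∣ s.count P := IFSL.dvd_count p hp.ne' d hd q (hv q hq)
        rw [Nat.mod_eq_zero_of_dvd h4, pow_zero]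
      have a2 : ∏ P ∈ s.toFinset, P ^ (s.count P % p) =
          ∏ P ∈ T ∪ s.toFinset, P ^ (s.count P % p) := by
        refine Finset.prod_subset Finset.subset_union_right fun P hP hPT => ?_
        have hPs : P ∉ s := fun h => hPT (Multiset.mem_toFinset.2 h)
        rw [Multiset.count_eq_zero_of_notMem hPs, Nat.zero_mod, pow_zero]
      rw [a1, a2]
    have h5 : ∏ P ∈ s.toFinset, P ^ s.count P = (∏ P ∈ s.toFinset, P ^ (s.count P / p)) ^ p *
        ∏ P ∈ s.toFinset, P ^ (s.count P % p) := by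
      rw [← Finset.prod_pow, ← Finset.prod_mul_distrib]
      refine Finset.prod_congr rfl fun P _ => ?_
      rw [← pow_mul, ← pow_add, Nat.div_add_mod']
    rw [← hprod, Finset.prod_multiset_count, h5]
    congr 1
    rw [← h2, ← h1]

end IFSU

/-- FSU: finiteness of the group of the `d` modulo `p`-th powers whose valuations outside a finite set `T` of
places are divisible by `p`. -/
theorem pr_FSU : StFSU.{u} := by
  classical
  intro F _ _ p hpf W hW
  have hp : 0 < p := hpf.out.pos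
  let T : Finset (Ideal (𝓞 F)) := hW.toFinset.image (fun q => q.asIdeal)
  have hT : ∀ q : HeightOneSpectrum (𝓞 F), q ∈ W → q.asIdeal ∈ T := fun q hq =>
    Finset.mem_image.2 ⟨q, hW.mem_toFinset.2 hq, rfl⟩
  obtain ⟨U, hU⟩ := IFSL.units_fin F p hp.ne'
  have hex : ∀ a : (T → Fin p) × ClassGroup (𝓞 F), ∃ d1 : 𝓞 F, d1 ≠ 0 ∧
      ((∃ d, IFSL.Q p T d a) → IFSL.Q p T d1 a) := by
    intro a
    by_cases h : ∃ d, IFSL.Q p T d a
    · obtain ⟨d, hd⟩ := h
      exact ⟨d, hd.1, fun _ => hd⟩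
    · exact ⟨1, one_ne_zero, fun h' => absurd h' h⟩
  choose d1 hd1 hd1Q using hex
  refine ⟨(Finset.univ ×ˢ U).image (fun z : ((T → Fin p) × ClassGroup (𝓞 F)) × (𝓞 F)ˣ =>
    (z.2 : 𝓞 F) * d1 z.1), ?_, ?_⟩
  · intro ρ hρ
    obtain ⟨z, -, rfl⟩ := Finset.mem_image.1 hρ
    exact mul_ne_zero z.2.ne_zero (hd1 _)
  · intro d hd hv
    obtain ⟨I, e, hI, hIe⟩ := IFSU.fact p hp T W hT d hd hv
    let I0 : (Ideal (𝓞 F))⁰ := ⟨I, mem_nonZeroDivisors_iff_ne_zero.2 hI⟩
    let a : (T → Fin p) × ClassGroup (𝓞 F) := (e, ClassGroup.mk0 I0)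
    have hQ : IFSL.Q p T d a := ⟨hd, I0, hIe, rfl⟩
    obtain ⟨g, g', hg, hg', u, hu⟩ := IFSL.same p T d (d1 a) a hQ (hd1Q a ⟨d, hQ⟩)
    obtain ⟨w, v, hv', huw⟩ := hU u
    refine ⟨(v : 𝓞 F) * d1 a, Finset.mem_image.2 ⟨(a, v),
      Finset.mem_product.2 ⟨Finset.mem_univ _, hv'⟩, rfl⟩, g, g' * w, hg,
      mul_ne_zero hg' w.ne_zero, ?_⟩
    rw [hu, huw]
    push_cast
    ring

end Pool.Agent.Work.MP_59f3ad_nt.PX
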