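import Mathlib
import Pool.Agent.Work.MP_59f3ad_nt.PX.StmtsF

/-!
Block PX, item HEN: Hensel at a place not above p (by the Newton sequence in the completion).
-/

set_option autoImplicit false

open NumberField IsDedekindDomain

namespace Pool.Agent.Work.MP_59f3ad_nt.PX

universe u

namespace IHEN

section Gen

variable {K : Type*} [NormedField K] [IsUltrametricDist K]

lemma norm_add_le_of {a b : K} {c : ℝ} (ha : ‖a‖ ≤ c) (hb : ‖b‖ ≤ c) : ‖a + b‖ ≤ c :=
  (IsUltrametricDist.norm_add_le_max a b).trans (max_le ha hb)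

lemma norm_nat_le_one (n : ℕ) : ‖(n : K)‖ ≤ 1 := by
  induction n with
  | zero => simp
  | succ n ih =>
    push_cast
    exact norm_add_le_of ih (by simp)

/-- The error term of the expansion of the power. -/
lemma err (y h : K) (hy : ‖y‖ ≤ 1) (hh : ‖h‖ ≤ 1) (n : ℕ) :
    ‖(y + h) ^ (n + 1) - y ^ (n + 1) - (n + 1 : ℕ) * y ^ n * h‖ ≤ ‖h‖ ^ 2 := by
  induction n with
  | zero =>
    have : (y + h) ^ (0 + 1) - y ^ (0 + 1) - ((0 + 1 : ℕ) : K) * y ^ 0 * h = 0 := by
      push_cast; ring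
    rw [this, norm_zero]
    positivity
  | succ n ih =>
    have e : (y + h) ^ (n + 1 + 1) - y ^ (n + 1 + 1) - ((n + 1 + 1 : ℕ) : K) * y ^ (n + 1) * h =
        (y + h) * ((y + h) ^ (n + 1) - y ^ (n + 1) - ((n + 1 : ℕ) : K) * y ^ n * h) +
          ((n + 1 : ℕ) : K) * y ^ n * h ^ 2 := by
      push_cast; ring
    rw [e]
    refine norm_add_le_of ?_ ?_
    · rw [norm_mul]
      calc _ ≤ 1 * ‖h‖ ^ 2 :=
            mul_le_mul (norm_add_le_of hy hh) ih (norm_nonneg _) zero_le_one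
        _ = _ := one_mul _
    · rw [norm_mul, norm_mul, norm_pow, norm_pow]
      have h1 : ‖((n + 1 : ℕ) : K)‖ * ‖y‖ ^ n ≤ 1 :=
        mul_le_one₀ (norm_nat_le_one _) (by positivity) (pow_le_one₀ (norm_nonneg _) hy)
      calc _ ≤ 1 * ‖h‖ ^ 2 := mul_le_mul_of_nonneg_right h1 (by positivity)
        _ = _ := one_mul _

lemma pow_sub_one (y : K) (hy : ‖y‖ ≤ 1) (n : ℕ) : ‖y ^ n - 1‖ ≤ ‖y - 1‖ := by
  induction n with
  | zero => simp
  | succ n ih =>
    have e : y ^ (n + 1) - 1 = y * (y ^ n - 1) + (y - 1) := by ring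
    rw [e]
    refine norm_add_le_of ?_ le_rfl
    rw [norm_mul]
    calc _ ≤ 1 * ‖y - 1‖ := mul_le_mul hy ih (norm_nonneg _) zero_le_one
      _ = _ := one_mul _

/-- Newton sequence. -/
noncomputable def nw (p : ℕ) (w : K) : ℕ → K
  | 0 => 1
  | n + 1 => nw p w n - (nw p w n ^ p - w) / p

lemma nw_spec (p : ℕ) (hp : p ≠ 0) (w : K) (hpK : ‖(p : K)‖ = 1) (hw : ‖1 - w‖ < 1) (n : ℕ) :
    ‖nw p w n - 1‖ ≤ ‖1 - w‖ ∧ ‖nw p w n ^ p - w‖ ≤ ‖1 - w‖ ^ (n + 1) := by
  set ρ := ‖1 - w‖ with hρ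
  have hρ0 : 0 ≤ ρ := norm_nonneg _
  have hpn : (p : K) ≠ 0 := by
    intro h; rw [h, norm_zero] at hpK; exact zero_ne_one hpK
  induction n with
  | zero =>
    refine ⟨by simp [nw, hρ0], by simp [nw, hρ]⟩
  | succ n ih =>
    obtain ⟨h1, h2⟩ := ih
    set y := nw p w n with hy
    have hy1 : ‖y‖ ≤ 1 := by
      have : y = (y - 1) + 1 := by ring
      rw [this]
      exact norm_add_le_of (h1.trans hw.le) (by simp)
    set h : K := -((y ^ p - w) / p) with hh
    have hhn : ‖h‖ = ‖y ^ p - w‖ := by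
      rw [hh, norm_neg, norm_div, hpK, div_one]
    have hhρ : ‖h‖ ≤ ρ ^ (n + 1) := hhn ▸ h2
    have hρn : ρ ^ (n + 1) ≤ ρ := by
      calc ρ ^ (n + 1) ≤ ρ ^ 1 := pow_le_pow_of_le_one hρ0 hw.le (by omega)
        _ = ρ := pow_one _
    have hh1 : ‖h‖ ≤ 1 := (hhρ.trans hρn).trans hw.le
    have hnext : nw p w (n + 1) = y + h := by
      simp only [nw, hh]; rw [← hy]; ring
    rw [hnext]
    refine ⟨?_, ?_⟩
    · have : y + h - 1 = (y - 1) + h := by ring
      rw [this]
      exact norm_add_le_of h1 (hhρ.trans hρn)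
    · obtain ⟨k, rfl⟩ : ∃ k, p = k + 1 := ⟨p - 1, by omega⟩
      have e : (y + h) ^ (k + 1) - w = (y ^ (k + 1) - w) * (1 - y ^ k) +
          ((y + h) ^ (k + 1) - y ^ (k + 1) - ((k + 1 : ℕ) : K) * y ^ k * h) := by
        have : ((k + 1 : ℕ) : K) * h = -(y ^ (k + 1) - w) := by
          rw [hh, mul_neg, mul_div_cancel₀ _ hpn]
        have h3 : ((k + 1 : ℕ) : K) * y ^ k * h = -(y ^ (k + 1) - w) * y ^ k := by
          rw [← this]; ring
        rw [h3]; ring
      rw [e]
      refine norm_add_le_of ?_ ?_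
      · rw [norm_mul, pow_succ ρ (n + 1)]
        refine mul_le_mul h2 ?_ (norm_nonneg _) (by positivity)
        rw [norm_sub_rev]
        exact (pow_sub_one y hy1 k).trans h1
      · refine (err y h hy1 hh1 k).trans ?_
        calc ‖h‖ ^ 2 ≤ (ρ ^ (n + 1)) ^ 2 := by gcongr
          _ = ρ ^ ((n + 1) * 2) := (pow_mul _ _ _).symm
          _ ≤ ρ ^ (n + 1 + 1) := pow_le_pow_of_le_one hρ0 hw.le (by omega)

lemma exists_root [CompleteSpace K] (p : ℕ) (hp : p ≠ 0) (w : K) (hpK : ‖(p : K)‖ = 1)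
    (hw : ‖1 - w‖ < 1) : ∃ y : K, y ^ p = w := by
  set ρ := ‖1 - w‖ with hρ
  have hρ0 : 0 ≤ ρ := norm_nonneg _
  have hc : CauchySeq (nw p w) := by
    refine cauchySeq_of_le_geometric ρ ρ hw fun n => ?_
    rw [dist_eq_norm]
    have : nw p w n - nw p w (n + 1) = (nw p w n ^ p - w) / p := by
      simp only [nw]; ring
    rw [this, norm_div, hpK, div_one, ← pow_succ']
    exact (nw_spec p hp w hpK hw n).2
  obtain ⟨y, hy⟩ := cauchySeq_tendsto_of_complete hc
  refine ⟨y, ?_⟩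
  have h1 : Filter.Tendsto (fun n => nw p w n ^ p - w) Filter.atTop (nhds (y ^ p - w)) :=
    (hy.pow p).sub_const w
  have h2 : Filter.Tendsto (fun n => nw p w n ^ p - w) Filter.atTop (nhds 0) := by
    refine squeeze_zero_norm (fun n => (nw_spec p hp w hpK hw n).2) ?_
    exact (tendsto_pow_atTop_nhds_zero_of_lt_one hρ0 hw).comp (Filter.tendsto_add_atTop_nat 1)
  exact sub_eq_zero.mp (tendsto_nhds_unique h1 h2)

end Gen

variable {F : Type u} [Field F] [NumberField F]

lemma norm_coe_lt_one (q : HeightOneSpectrum (𝓞 F)) (x : F) :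
    ‖(algebraMap F (q.adicCompletion F) x)‖ < 1 ↔ q.valuation F x < 1 := by
  rw [← HeightOneSpectrum.valuedAdicCompletion_eq_valuation']
  exact Valued.toNormedField.norm_lt_one_iff

lemma norm_coe_le_one (q : HeightOneSpectrum (𝓞 F)) (x : F) :
    ‖(algebraMap F (q.adicCompletion F) x)‖ ≤ 1 ↔ q.valuation F x ≤ 1 := by
  rw [← HeightOneSpectrum.valuedAdicCompletion_eq_valuation']
  exact Valued.toNormedField.norm_le_one_iff

end IHEN

open IHEN in
/-- Item HEN. -/
theorem pr_HEN : StHEN.{u} := by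
  intro F _ _ p hpf q hq u z hu hz
  have hp0 : p ≠ 0 := hpf.out.ne_zero
  have hz1 : q.valuation F (z : F) = 1 := by
    have h1 : q.valuation F ((z : F) ^ p) = 1 := by
      have e : (z : F) ^ p = u - (u - (z : F) ^ p) := by ring
      rw [e, Valuation.map_sub_eq_of_lt_left, hu]
      rw [hu]; exact hz
    rw [map_pow] at h1
    exact (pow_eq_one_iff.mp h1).resolve_right hp0
  have hzn : (z : F) ≠ 0 := by
    intro h; rw [h, map_zero] at hz1; exact zero_ne_one hz1
  set w : F := u / (z : F) ^ p with hw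
  have hwv : q.valuation F (1 - w) < 1 := by
    have e : 1 - w = -(u - (z : F) ^ p) / (z : F) ^ p := by
      rw [hw]; field_simp; ring
    rw [e, map_div₀, Valuation.map_neg, map_pow, hz1, one_pow, div_one]
    exact hz
  have hpv : ¬ q.valuation F (p : F) < 1 := by
    intro h
    apply hq
    have h2 : q.valuation F (algebraMap (𝓞 F) F (p : 𝓞 F)) < 1 := by
      rw [map_natCast]; exact h
    exact (HeightOneSpectrum.valuation_lt_one_iff_mem q (p : 𝓞 F)).mp h2
  have hpn : ‖((p : ℕ) : q.adicCompletion F)‖ = 1 := by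
    have e : ((p : ℕ) : q.adicCompletion F) = algebraMap F (q.adicCompletion F) (p : F) := by
      rw [map_natCast]
    rw [e]
    refine le_antisymm ?_ (not_lt.mp fun h => hpv ((norm_coe_lt_one q _).mp h))
    rw [norm_coe_le_one]
    have h3 : q.valuation F (algebraMap (𝓞 F) F (p : 𝓞 F)) ≤ 1 := q.valuation_le_one (p : 𝓞 F)
    rwa [map_natCast] at h3
  have hwn : ‖(1 : q.adicCompletion F) - algebraMap F (q.adicCompletion F) w‖ < 1 := by
    rw [← map_one (algebraMap F (q.adicCompletion F)), ← map_sub]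
    exact (norm_coe_lt_one q _).mpr hwv
  obtain ⟨y, hy⟩ := exists_root p hp0 _ hpn hwn
  refine ⟨y * algebraMap F (q.adicCompletion F) (z : F), ?_⟩
  rw [mul_pow, hy, ← map_pow, ← map_mul, hw, div_mul_cancel₀ _ (pow_ne_zero p hzn)]

end Pool.Agent.Work.MP_59f3ad_nt.PX
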