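import Mathlib
import Pool.Agent.Work.MP_59f3ad_nt.PX.StmtsF
import Pool.Agent.Work.MP_59f3ad_nt.PX.I_RAM

/-!
Block PX, item RMQ: the places where the valuation of `m` is not divisible by `p` are totally
ramified (after `I_RAM.lean`).
-/

set_option autoImplicit false

open NumberField IsDedekindDomain

namespace Pool.Agent.Work.MP_59f3ad_nt.PX

open Pool.Agent.Work.MP_59f3ad_nt.FE

universe u

namespace IRMQ

/-- `p` divides the ramification index. -/
theorem p_dvd {F L : Type u} [Field F] [NumberField F] [Field L] [NumberField L]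
    [Algebra F L] (p : ℕ) (hp : p.Prime) (q : HeightOneSpectrum (𝓞 F))
    (v : HeightOneSpectrum (𝓞 L))
    (hv : v.asIdeal.LiesOver q.asIdeal) (a : F) (x : L) (c : ℤ) (hc : ¬ (p : ℤ) ∣ c)
    (hx : x ^ p = algebraMap F L a) (ha : q.valuation F a = WithZero.exp c) :
    p ∣ q.asIdeal.ramificationIdx' v.asIdeal := by
  have h1 := HeightOneSpectrum.valuation_liesOver L q v a
  rw [← hx, map_pow, ha] at h1
  have h2 : v.valuation L x ≠ 0 := by
    intro h0
    rw [h0, zero_pow hp.ne_zero] at h1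
    rw [← WithZero.exp_nsmul] at h1
    simp at h1
  obtain ⟨k, hk⟩ : ∃ k : ℤ, v.valuation L x = WithZero.exp k :=
    ⟨WithZero.log (v.valuation L x), (WithZero.exp_log h2).symm⟩
  rw [hk, ← WithZero.exp_nsmul, ← WithZero.exp_nsmul, WithZero.exp_inj] at h1
  simp only [nsmul_eq_mul] at h1
  have h3 : (p : ℤ) ∣ (q.asIdeal.ramificationIdx' v.asIdeal : ℤ) * c := ⟨k, h1⟩
  rcases (Nat.prime_iff_prime_int.mp hp).dvd_mul.1 h3 with h | h
  · exact_mod_cast h
  · exact absurd h hc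

end IRMQ

theorem pr_RMQ : StRMQ.{u} := by
  intro F L _ _ _ _ _ p hpp ζ m x σ cfg q hq
  have hp : p.Prime := hpp.out
  obtain ⟨v, hv⟩ := IRAM.exists_above (L := L) q
  have hm0 : q.valuation F m ≠ 0 := (Valuation.ne_zero_iff _).mpr cfg.hm
  obtain ⟨c, hc⟩ : ∃ c : ℤ, q.valuation F m = WithZero.exp c :=
    ⟨WithZero.log (q.valuation F m), (WithZero.exp_log hm0).symm⟩
  have hpc : ¬ (p : ℤ) ∣ c := by
    rintro ⟨s, hs⟩
    apply hq
    obtain ⟨π, hπ⟩ := HeightOneSpectrum.valuation_exists_uniformizer F q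
    refine ⟨π ^ (-s), ?_⟩
    rw [hc, hs, map_zpow₀, hπ, ← WithZero.exp_zsmul, ← WithZero.exp_nsmul]
    congr 1
    simp
  have h3e := IRMQ.p_dvd p hp q v hv m x c hpc cfg.hx hc
  obtain ⟨he, hf, hu⟩ := IRAM.e_p p hp cfg.hL q v hv h3e
  have hres := IRAM.res_of q v hv hf
  refine ⟨v, hv, IRAM.inert_of σ q v hv hu hres, hres, fun a => ?_⟩
  rw [← HeightOneSpectrum.valuation_liesOver L q v a, he]

end Pool.Agent.Work.MP_59f3ad_nt.PX
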