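import Mathlib
import Pool.Agent.Work.MP_59f3ad_nt.PX.StmtsF
import Pool.Agent.Work.MP_59f3ad_nt.PX.I_RL3

/-!
Item RU3 of block PX: the exponent vector of a relation is not proportional to `c` (arbitrary `m0`).
-/

set_option autoImplicit false

open NumberField IsDedekindDomain

namespace Pool.Agent.Work.MP_59f3ad_nt.PX

universe u

namespace IRU3

/-- the index of a power -/
theorem ind_pow {F : Type u} [Field F] [NumberField F] {p : ℕ} {ind : 𝓞 F → 𝓞 F → ZMod p}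
    (hS : Sym F p ind) {π z : 𝓞 F} (hπ : Prime π) (hp : ¬ π ∣ (p : 𝓞 F)) (hz : ¬ π ∣ z) (n : ℕ) :
    ind π (z ^ n) = (n : ZMod p) * ind π z := by
  have h1 : ¬ π ∣ (1 : 𝓞 F) := fun h => hπ.not_isUnit (isUnit_of_dvd_one h)
  induction n with
  | zero =>
    have h2 := hS.mul π hπ hp 1 1 h1 h1
    rw [mul_one] at h2
    have h3 : ind π 1 = 0 := by
      have h4 : ind π 1 + 0 = ind π 1 + ind π 1 := by rw [add_zero]; exact h2
      exact (add_left_cancel h4).symm
    rw [pow_zero, h3]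
    simp
  | succ n ih =>
    have h2 : ¬ π ∣ z ^ n := fun h => hz (hπ.dvd_of_dvd_pow h)
    rw [pow_succ, hS.mul π hπ hp _ _ h2 hz, ih]
    push_cast
    ring

end IRU3

/-- RU3 -/
theorem pr_RU3 (hLPM : StLPM.{u}) (hLPU : StLPU.{u}) : StRU3.{u} := by
  intro F _ _ p _ ind hS t m0 x c π hC a hD l j e D g hR hl
  by_contra hcon
  push Not at hcon
  obtain ⟨hL, -⟩ := hLPM
  have hp : p.Prime := Fact.out
  obtain ⟨s, f, hf⟩ := IRL3.exps hC.ht c hC.hc e hcon
  have hm0 : algebraMap (𝓞 F) F (Mx m0 π c) ≠ 0 := by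
    rw [Ne, FaithfulSMul.algebraMap_eq_zero_iff]
    exact mul_ne_zero hC.m0n (Finset.prod_ne_zero_iff.2 fun i _ => pow_ne_zero _ (hC.pr i).ne_zero)
  have hP0 : algebraMap (𝓞 F) F (∏ i, π i ^ f i) ≠ 0 := by
    rw [Ne, FaithfulSMul.algebraMap_eq_zero_iff]
    exact Finset.prod_ne_zero_iff.2 fun i _ => pow_ne_zero _ (hC.pr i).ne_zero
  have heq : a ^ l * algebraMap (𝓞 F) F (Mx m0 π c) ^ j * g ^ p =
      algebraMap (𝓞 F) F (D * ∏ i, π i ^ (e i).val) := hR.eq
  have hid : D * (∏ i, π i ^ (e i).val) * Mx m0 π c ^ s =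
      D * m0 ^ s * (∏ i, π i ^ f i) ^ p := IRL3.prodId π _ c f s m0 D hf
  have hid2 : algebraMap (𝓞 F) F (D * m0 ^ s) * algebraMap (𝓞 F) F (∏ i, π i ^ f i) ^ p =
      a ^ l * algebraMap (𝓞 F) F (Mx m0 π c) ^ (j + s) * g ^ p := by
    rw [← map_pow, ← map_mul, ← hid, map_mul, ← heq, map_pow, pow_add]
    ring
  have hdk : ∀ k, ¬ π k ∣ D * m0 ^ s := by
    intro k h
    rcases (hC.pr k).dvd_or_dvd h with h1 | h1
    · exact hR.cop k h1
    · exact hC.nm0 k ((hC.pr k).dvd_of_dvd_pow h1)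
  -- `D * m0 ^ s` is a witness for the vector `0`
  have hW : Wu p m0 x c 0 (D * m0 ^ s) := by
    refine ⟨mul_ne_zero hR.wit.ne (pow_ne_zero _ hC.m0n), ?_, ?_⟩
    · intro q hq
      have h1 := IRL3.vd (hR.wit.val q hq) (by by_contra h; exact hq (Or.inr h)) s
      have h2 : ((D * m0 ^ s : 𝓞 F) : F) = (D : F) * (m0 : F) ^ s := by
        change algebraMap (𝓞 F) F (D * m0 ^ s) = _
        rw [map_mul, map_pow]
      rw [h2]
      exact h1
    · intro v hv
      obtain ⟨k, hk⟩ := hD.loc v hv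
      obtain ⟨L1, L2, L3, L5⟩ := hL F p v
      refine ⟨k * l + (p - 1) * (j + s), ?_⟩
      have h1 := L1 _ _ (L2 _ l hk)
        (L3 (algebraMap (𝓞 F) F (Mx m0 π c) ^ (j + s) * g))
      have h2 : (a * algebraMap (𝓞 F) F (Mx m0 π c) ^ k) ^ l *
          (algebraMap (𝓞 F) F (Mx m0 π c) ^ (j + s) * g) ^ p =
          (algebraMap (𝓞 F) F (D * m0 ^ s) *
            algebraMap (𝓞 F) F (Mx m0 π c) ^ (k * l + (p - 1) * (j + s))) *
            algebraMap (𝓞 F) F (∏ i, π i ^ f i) ^ p := by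
        obtain ⟨q, hq⟩ : ∃ q, p = q + 1 := ⟨p - 1, by have := hp.pos; omega⟩
        have h3 : (algebraMap (𝓞 F) F (D * m0 ^ s) *
            algebraMap (𝓞 F) F (Mx m0 π c) ^ (k * l + (p - 1) * (j + s))) *
            algebraMap (𝓞 F) F (∏ i, π i ^ f i) ^ p =
            (algebraMap (𝓞 F) F (D * m0 ^ s) * algebraMap (𝓞 F) F (∏ i, π i ^ f i) ^ p) *
            algebraMap (𝓞 F) F (Mx m0 π c) ^ (k * l + (p - 1) * (j + s)) := by ring
        rw [h3, hid2]
        generalize algebraMap (𝓞 F) F (Mx m0 π c) = m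
        have h4 : (m ^ (j + s)) ^ p = m ^ (j + s) * m ^ ((p - 1) * (j + s)) := by
          rw [← pow_mul, ← pow_add]
          congr 1
          rw [hq, Nat.add_sub_cancel]
          ring
        rw [mul_pow, mul_pow, h4, pow_add m (k * l), pow_mul]
        ring
      have h5 : Lp F p v ((a * algebraMap (𝓞 F) F (Mx m0 π c) ^ k) ^ l *
          (algebraMap (𝓞 F) F (Mx m0 π c) ^ (j + s) * g) ^ p) := h1
      rw [h2] at h5
      have h6 := L5 _ _ (pow_ne_zero p hP0) h5 (L3 _)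
      have h7 := (hLPU F p t m0 x c π hC v hv (D * m0 ^ s) (fun _ => 0)
        (k * l + (p - 1) * (j + s))).1 (by
          have h8 : ((D * m0 ^ s * (∏ i, π i ^ (fun _ : Fin t => 0) i) *
              Mx m0 π c ^ (k * l + (p - 1) * (j + s)) : 𝓞 F) : F) =
              algebraMap (𝓞 F) F (D * m0 ^ s) *
              algebraMap (𝓞 F) F (Mx m0 π c) ^ (k * l + (p - 1) * (j + s)) := by
            change algebraMap (𝓞 F) F _ = _
            simp only [pow_zero, Finset.prod_const_one, mul_one]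
            rw [map_mul _ (D * m0 ^ s), map_pow _ (Mx m0 π c)]
          rw [h8]
          exact h6)
      simpa using h7
  have hg : g ≠ 0 := hR.gn
  rcases hC.hH _ hW hdk with ⟨g', hg'⟩ | ⟨i, hi⟩
  · have hw : a ^ l * algebraMap (𝓞 F) F (Mx m0 π c) ^ (j + s) =
        (algebraMap (𝓞 F) F g' * algebraMap (𝓞 F) F (∏ i, π i ^ f i) / g) ^ p := by
      rw [div_pow, eq_div_iff (pow_ne_zero _ hg), ← hid2, ← hg', map_pow, mul_pow]
    obtain ⟨l', s', hl'⟩ := IRL3.inv hp hl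
    obtain ⟨J, G, hJ⟩ := IRL3.fin hD.ne hm0 hp.one_le hw hl'
    exact hD.non J G hJ
  · -- the tame condition at `π i`
    have ht := hD.tam l (j + s) (g / algebraMap (𝓞 F) F (∏ i, π i ^ f i)) (D * m0 ^ s)
      (fun _ => 0) (div_ne_zero hg hP0) hdk (by
        have h1 : ((D * m0 ^ s * ∏ i, π i ^ (fun _ : Fin t => 0) i : 𝓞 F) : F) =
            algebraMap (𝓞 F) F (D * m0 ^ s) := by
          change algebraMap (𝓞 F) F _ = _
          simp only [pow_zero, Finset.prod_const_one, mul_one]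
        rw [h1, div_pow, mul_div_assoc', div_eq_iff (pow_ne_zero _ hP0)]
        exact hid2.symm) i
    obtain ⟨y, hy⟩ := ht
    simp only [pow_zero, Finset.prod_const_one, mul_one, mul_zero] at hy
    have hci : (c i : ZMod p) ≠ 0 := by
      rw [Ne, ZMod.natCast_eq_zero_iff]
      exact Nat.not_dvd_of_pos_of_lt (hC.hc i).1 (hC.hc i).2
    have h1 : ¬ π i ∣ (D * m0 ^ s) ^ c i := fun h => hdk i ((hC.pr i).dvd_of_dvd_pow h)
    have h2 := (hS.pow (π i) (hC.pr i) (hC.np i) _ h1).2 ⟨y, hy⟩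
    rw [IRU3.ind_pow hS (hC.pr i) (hC.np i) (hdk i)] at h2
    have h3 := (mul_eq_zero.1 h2).resolve_left hci
    exact hi ((hS.pow (π i) (hC.pr i) (hC.np i) _ (hdk i)).1 h3)

end Pool.Agent.Work.MP_59f3ad_nt.PX
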