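import Pool.Agent.Work.MP_59f3ad_nt.PX.StmtsF

set_option autoImplicit false

/-!
Item TFI of the block PX: `TT F p m0` is finite.
-/

open NumberField IsDedekindDomain

namespace Pool.Agent.Work.MP_59f3ad_nt.PX

universe u

/-- TFI. -/
theorem pr_TFI : StTFI.{u} := by
  intro F _ _ p hp m0 hm0
  have hp0 : (p : 𝓞 F) ≠ 0 := Nat.cast_ne_zero.mpr hp.out.ne_zero
  have hI : Ideal.span {(p : 𝓞 F) * m0} ≠ 0 := by
    rw [Ne, Ideal.zero_eq_bot, Ideal.span_singleton_eq_bot]
    exact mul_ne_zero hp0 hm0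
  refine (Ideal.finite_factors hI).subset ?_
  intro v hv
  have h1 : (p : 𝓞 F) * m0 ∈ v.asIdeal := by
    rcases hv with h | h
    · exact Ideal.mul_mem_right _ _ h
    · by_contra hc
      apply h
      have h2 : m0 ∉ v.asIdeal := fun h3 => hc (Ideal.mul_mem_left _ _ h3)
      refine ⟨1, ?_⟩
      rw [map_one, one_pow]
      exact (HeightOneSpectrum.valuation_eq_one_iff_notMem (K := F) v).mpr h2
  show v.asIdeal ∣ Ideal.span {(p : 𝓞 F) * m0}
  rw [Ideal.dvd_span_singleton]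
  exact h1

end Pool.Agent.Work.MP_59f3ad_nt.PX
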