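import Pool.Agent.Work.MP_59f3ad_nt.PX.StmtsF

/-!
Item TRT of block PX: the local condition at the places where the valuation of `m` is not divisible
by `p`.
-/

set_option autoImplicit false

open NumberField IsDedekindDomain

namespace Pool.Agent.Work.MP_59f3ad_nt.PX

open Pool.Agent.Work.MP_59f3ad_nt.FE

universe u

namespace ITRT

theorem exists_log (F : Type u) [Field F] [NumberField F] (q : HeightOneSpectrum (𝓞 F)) (a : F)
    (ha : a ≠ 0) : ∃ n : ℤ, q.valuation F a = WithZero.exp n := by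
  have h : q.valuation F a ≠ 0 := (Valuation.ne_zero_iff _).2 ha
  exact ⟨WithZero.log (q.valuation F a), (WithZero.exp_log h).symm⟩

theorem exists_elt (F : Type u) [Field F] [NumberField F] (q : HeightOneSpectrum (𝓞 F)) (n : ℤ) :
    ∃ g : F, g ≠ 0 ∧ q.valuation F g = WithZero.exp n := by
  obtain ⟨g, hg⟩ := q.valuation_surjective F (WithZero.exp n)
  refine ⟨g, ?_, hg⟩
  intro h
  rw [h, map_zero] at hg
  exact WithZero.exp_ne_zero hg.symm

theorem exists_k (p : ℕ) [Fact p.Prime] (α μ : ℤ) (h : ¬ (p : ℤ) ∣ μ) :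
    ∃ (k : ℕ) (ν : ℤ), α + k * μ = p * ν := by
  have hμ : ((μ : ℤ) : ZMod p) ≠ 0 := by
    intro h0
    exact h ((ZMod.intCast_zmod_eq_zero_iff_dvd μ p).1 h0)
  refine ⟨(-(α : ZMod p) * (μ : ZMod p)⁻¹).val, ?_⟩
  have h1 : (p : ℤ) ∣ α + ((-(α : ZMod p) * (μ : ZMod p)⁻¹).val : ℤ) * μ := by
    rw [← ZMod.intCast_zmod_eq_zero_iff_dvd]
    push_cast
    rw [ZMod.natCast_zmod_val, mul_assoc, inv_mul_cancel₀ hμ]
    ring
  obtain ⟨ν, hν⟩ := h1
  exact ⟨ν, hν⟩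

end ITRT

/-- TRT -/
theorem pr_TRT (hRMQ : StRMQ.{u}) (hTMQ : StTMQ.{u}) (hHEN : StHEN.{u}) (hNX : StNX.{u}) :
    StTRT.{u} := by
  intro F L _ _ _ _ _ p hp ζ m x σ C q hq hV a δ ha hδ
  obtain ⟨α, hα⟩ := ITRT.exists_log F q a ha
  obtain ⟨μ, hμ⟩ := ITRT.exists_log F q m C.hm
  have hpμ : ¬ (p : ℤ) ∣ μ := by
    rintro ⟨ν, hν⟩
    obtain ⟨g, -, hg⟩ := ITRT.exists_elt F q ν
    refine hV ⟨g, ?_⟩
    rw [hμ, hg, hν, ← WithZero.exp_nsmul]
    congr 1
  obtain ⟨k, ν, hk⟩ := ITRT.exists_k p α μ hpμ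
  obtain ⟨g, hg0, hg⟩ := ITRT.exists_elt F q ν
  have hgp : g ^ p ≠ 0 := pow_ne_zero p hg0
  have hval : q.valuation F (a * m ^ k) = q.valuation F g ^ p := by
    rw [map_mul, map_pow, hα, hμ, hg, ← WithZero.exp_nsmul, ← WithZero.exp_nsmul,
      ← WithZero.exp_add]
    congr 1
  have hu : q.valuation F (a * m ^ k / g ^ p) = 1 := by
    rw [map_div₀, hval, map_pow, div_self]
    rw [← map_pow]
    exact (Valuation.ne_zero_iff _).2 hgp
  have hε : ∏ i ∈ Finset.range p, (σ ^ i) (δ * x ^ k / algebraMap F L g) =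
      algebraMap F L (a * m ^ k / g ^ p) := by
    have e : ∀ i ∈ Finset.range p, (σ ^ i) (δ * x ^ k / algebraMap F L g) =
        (σ ^ i) δ * ((σ ^ i) x) ^ k / algebraMap F L g := by
      intro i _
      rw [map_div₀, map_mul, map_pow, AlgEquiv.commutes]
    rw [Finset.prod_congr rfl e, Finset.prod_div_distrib, Finset.prod_mul_distrib,
      Finset.prod_pow, hδ, hNX F L p ζ m x σ C, Finset.prod_const, Finset.card_range, map_div₀,
      map_mul, map_pow, map_pow]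
  obtain ⟨v, hv1, hv2, hv3, hv4⟩ := hRMQ F L p ζ m x σ C q hV
  obtain ⟨z, hz⟩ := hTMQ F L p ζ m x σ C q v hv1 hv2 hv3 hv4 _ _ hu hε
  obtain ⟨y, hy⟩ := hHEN F p q hq _ z hu hz
  refine ⟨k, y * algebraMap F (q.adicCompletion F) g, ?_⟩
  rw [mul_pow, hy, ← map_pow, ← map_mul, div_mul_cancel₀ _ hgp]

end Pool.Agent.Work.MP_59f3ad_nt.PX
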