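import Mathlib
import Pool.Agent.Work.MP_59f3ad_nt.PX.All3
import Pool.Agent.Work.MP_59f3ad_nt.PX.StmtsF
import Pool.Agent.Work.MP_59f3ad_nt.PX.I_HEN
import Pool.Agent.Work.MP_59f3ad_nt.PX.I_RMQ
import Pool.Agent.Work.MP_59f3ad_nt.PX.I_TMQ
import Pool.Agent.Work.MP_59f3ad_nt.PX.I_TRT
import Pool.Agent.Work.MP_59f3ad_nt.PX.I_DTU
import Pool.Agent.Work.MP_59f3ad_nt.PX.I_LPU
import Pool.Agent.Work.MP_59f3ad_nt.PX.I_RU1
import Pool.Agent.Work.MP_59f3ad_nt.PX.I_RU2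
import Pool.Agent.Work.MP_59f3ad_nt.PX.I_RU3
import Pool.Agent.Work.MP_59f3ad_nt.PX.I_RU4
import Pool.Agent.Work.MP_59f3ad_nt.PX.I_RUS
import Pool.Agent.Work.MP_59f3ad_nt.PX.I_CNU
import Pool.Agent.Work.MP_59f3ad_nt.PX.I_TFI
import Pool.Agent.Work.MP_59f3ad_nt.PX.I_FSU
import Pool.Agent.Work.MP_59f3ad_nt.PX.I_REU
import Pool.Agent.Work.MP_59f3ad_nt.PX.I_BNU

/-!
Block PX: everything together, part F (arbitrary `m0`).
-/

set_option autoImplicit false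

namespace Pool.Agent.Work.MP_59f3ad_nt.PX

universe u

theorem all_TRT : StTRT.{u} := pr_TRT pr_RMQ pr_TMQ pr_HEN pr_NX
theorem all_DTU : StDTU.{u} :=
  pr_DTU pr_CFG all_INH all_TR1 all_TR2 pr_RAM all_TAM pr_NX all_TRT
theorem all_RU1 : StRU1.{u} := pr_RU1 pr_LFT pr_LPM pr_LPU
theorem all_RU3 : StRU3.{u} := pr_RU3 pr_LPM pr_LPU
theorem all_RU4 : StRU4.{u} := pr_RU4 pr_LPM pr_LPU
theorem all_RUS : StRUS.{u} := pr_RUS all_DTU all_RU1 pr_RU2 all_RU3 all_RU4 pr_LPU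
theorem all_CNU : StCNU.{u} := pr_CNU pr_IND pr_DEG all_RUS all_FMO pr_EXC
theorem all_REU : StREU.{u} := pr_REU pr_TFI pr_FSU
theorem all_BNU : StBNU.{u} := pr_BNU pr_LPM

end Pool.Agent.Work.MP_59f3ad_nt.PX
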