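import Pool.Agent.Work.MP_59f3ad_nt.PX.StmtsB

set_option autoImplicit false

/-! Block PX, item EP: the standard additive character of `ℤ/p`. -/

namespace Pool.Agent.Work.MP_59f3ad_nt.PX

namespace IEP

theorem ep_eq (p : ℕ) [Fact p.Prime] (a : ZMod p) : ep p a = ZMod.stdAddChar a := by
  have h1 := ZMod.stdAddChar_coe (N := p) (a.val : ℤ)
  have h2 : (((a.val : ℤ)) : ZMod p) = a := by
    rw [Int.cast_natCast, ZMod.natCast_zmod_val]
  rw [h2] at h1
  rw [h1, ep]
  congr 1
  push_cast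
  ring

end IEP

open IEP in
/-- Item EP. -/
theorem pr_EP : StEP := by
  intro p _
  refine ⟨fun a b => ?_, fun a => ?_, fun a => ?_, fun a ha => ?_, fun a ha => ?_⟩
  · rw [ep_eq, ep_eq, ep_eq, AddChar.map_add_eq_mul]
  · rw [ep_eq, AddChar.norm_apply]
  · rw [ep_eq, ep_eq, AddChar.map_neg_eq_conj]
  · rw [ep_eq]
    intro h
    apply ha
    apply ZMod.injective_stdAddChar (N := p)
    rw [h, AddChar.map_zero_eq_one]
  · classical
    have h := AddChar.sum_mulShift (ψ := ZMod.stdAddChar (N := p)) a (ZMod.isPrimitive_stdAddChar p)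
    rw [if_neg ha, Nat.cast_zero] at h
    rw [← h]
    exact Finset.sum_congr rfl fun j _ => ep_eq p _

end Pool.Agent.Work.MP_59f3ad_nt.PX
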