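import Mathlib
import Pool.Agent.Work.MP_59f3ad_nt.PX.StmtsB

/-!
Block PX, item IND: a system of indices modulo the prime elements not above `p`.
-/

set_option autoImplicit false

open NumberField IsDedekindDomain

namespace Pool.Agent.Work.MP_59f3ad_nt.PX

universe u

namespace IIND

/-- The index modulo `p` in a cyclic group with an element of order `p`. -/
theorem grp {G : Type u} [CommGroup G] [IsCyclic G] (p : ℕ) [Fact p.Prime] (w : G)
    (hw : w ^ p = 1) (hw1 : w ≠ 1) : ∃ f : G → ZMod p, (∀ a b, f (a * b) = f a + f b) ∧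
    (∀ a, f a = 0 ↔ ∃ y, y ^ p = a) ∧ ∃ a, f a ≠ 0 := by
  obtain ⟨g, hg⟩ := IsCyclic.exists_generator (α := G)
  choose e he using fun a => Subgroup.mem_zpowers_iff.1 (hg a)
  have hd : (p : ℤ) ∣ orderOf g := by
    have h1 : orderOf w = p := orderOf_eq_prime hw hw1
    have h2 : orderOf w ∣ orderOf g := by
      rw [← he w]
      exact orderOf_dvd_of_pow_eq_one (by
        rw [← zpow_natCast, ← zpow_mul, mul_comm, zpow_mul, zpow_natCast, pow_orderOf_eq_one,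
          one_zpow])
    rw [h1] at h2
    exact_mod_cast h2
  have key : ∀ (j : ℤ) (a : G), g ^ j = a → ((e a : ℤ) : ZMod p) = (j : ZMod p) := by
    intro j a hj
    have h1 : g ^ (j - e a) = 1 := by
      rw [zpow_sub, he, hj, mul_inv_cancel]
    have h2 : (orderOf g : ℤ) ∣ j - e a := orderOf_dvd_iff_zpow_eq_one.2 h1
    rw [ZMod.intCast_eq_intCast_iff_dvd_sub]
    exact hd.trans h2
  refine ⟨fun a => (e a : ZMod p), ?_, ?_, g, ?_⟩
  · intro a b
    have h1 : ((e (a * b) : ℤ) : ZMod p) = ((e a + e b : ℤ) : ZMod p) :=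
      key _ _ (by rw [zpow_add, he, he])
    push_cast at h1
    exact h1
  · intro a
    constructor
    · intro h
      obtain ⟨c, hc⟩ := (ZMod.intCast_zmod_eq_zero_iff_dvd (e a) p).1 h
      exact ⟨g ^ c, by rw [← zpow_natCast, ← zpow_mul, mul_comm, ← hc, he]⟩
    · rintro ⟨y, rfl⟩
      have h1 : ((e (y ^ p) : ℤ) : ZMod p) = (((p : ℤ) * e y : ℤ) : ZMod p) :=
        key _ _ (by rw [mul_comm, zpow_mul, he, zpow_natCast])
      show ((e (y ^ p) : ℤ) : ZMod p) = 0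
      rw [h1]
      simp
  · have h1 : ((e g : ℤ) : ZMod p) = ((1 : ℤ) : ZMod p) := key 1 g (zpow_one g)
    show ((e g : ℤ) : ZMod p) ≠ 0
    rw [h1]
    simp

/-- The index modulo `p` in a finite field with a nontrivial `p`-th root of unity. -/
theorem fld {k : Type u} [Field k] [Finite k] (p : ℕ) [Fact p.Prime] (w : k)
    (hw : w ^ p = 1) (hw1 : w ≠ 1) : ∃ f : k → ZMod p,
    (∀ a b, a ≠ 0 → b ≠ 0 → f (a * b) = f a + f b) ∧
    (∀ a, a ≠ 0 → (f a = 0 ↔ ∃ y, y ^ p = a)) ∧ ∃ a, a ≠ 0 ∧ f a ≠ 0 := by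
  have hp0 : p ≠ 0 := (Fact.out : p.Prime).ne_zero
  have hw0 : w ≠ 0 := by
    rintro rfl
    rw [zero_pow hp0] at hw
    exact zero_ne_one hw
  obtain ⟨f, h1, h2, a, ha⟩ := grp (G := kˣ) p (Units.mk0 w hw0)
    (Units.ext (by simpa using hw)) (fun h => hw1 (by simpa using congrArg Units.val h))
  classical
  have hf : ∀ (a : k) (h : a ≠ 0), (if h : a = 0 then 0 else f (Units.mk0 a h)) =
      f (Units.mk0 a h) := fun a h => dif_neg h
  refine ⟨fun a => if h : a = 0 then 0 else f (Units.mk0 a h), ?_, ?_, (a : k), a.ne_zero, ?_⟩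
  · intro b c hb hc
    show (if h : b * c = 0 then 0 else f (Units.mk0 (b * c) h)) =
      (if h : b = 0 then 0 else f (Units.mk0 b h)) + (if h : c = 0 then 0 else f (Units.mk0 c h))
    rw [hf _ (mul_ne_zero hb hc), hf _ hb, hf _ hc, ← h1]
    congr 1
    ext
    simp
  · intro b hb
    show (if h : b = 0 then 0 else f (Units.mk0 b h)) = 0 ↔ _
    rw [hf _ hb, h2]
    constructor
    · rintro ⟨y, hy⟩
      exact ⟨y, by simpa using congrArg Units.val hy⟩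
    · rintro ⟨y, hy⟩
      have hy0 : y ≠ 0 := by
        rintro rfl
        rw [zero_pow hp0] at hy
        exact hb hy.symm
      exact ⟨Units.mk0 y hy0, Units.ext (by simpa using hy)⟩
  · show (if h : (a : k) = 0 then 0 else f (Units.mk0 (a : k) h)) ≠ 0
    rw [hf _ a.ne_zero, Units.mk0_val]
    exact ha

/-- The index modulo one prime element. -/
theorem one {F : Type u} [Field F] [NumberField F] (p : ℕ) [Fact p.Prime] (ζ : F)
    (hζ : IsPrimitiveRoot ζ p) (π : 𝓞 F) (hπ : Prime π) (hπp : ¬ π ∣ (p : 𝓞 F)) :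
    ∃ f : 𝓞 F → ZMod p, (∀ z z' : 𝓞 F, ¬ π ∣ z → ¬ π ∣ z' → f (z * z') = f z + f z') ∧
    (∀ z z' : 𝓞 F, π ∣ z - z' → f z = f z') ∧
    (∀ z : 𝓞 F, ¬ π ∣ z → (f z = 0 ↔ ∃ y : 𝓞 F, π ∣ y ^ p - z)) ∧
    ∃ z : 𝓞 F, ¬ π ∣ z ∧ f z ≠ 0 := by
  have hpp : p.Prime := Fact.out
  have : NeZero p := ⟨hpp.ne_zero⟩
  have hI : (Ideal.span {π}).IsPrime := (Ideal.span_singleton_prime hπ.ne_zero).2 hπ
  have hI0 : Ideal.span {π} ≠ ⊥ := by
    rw [Ne, Ideal.span_singleton_eq_bot]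
    exact hπ.ne_zero
  have hM : (Ideal.span {π}).IsMaximal := hI.isMaximal hI0
  let _ : Field (𝓞 F ⧸ Ideal.span {π}) := Ideal.Quotient.field _
  have : Finite (𝓞 F ⧸ Ideal.span {π}) := Ideal.finiteQuotientOfFreeOfNeBot _ hI0
  have hq0 : ∀ z : 𝓞 F, Ideal.Quotient.mk (Ideal.span {π}) z = 0 ↔ π ∣ z := by
    intro z
    rw [Ideal.Quotient.eq_zero_iff_mem, Ideal.mem_span_singleton]
  have hz := hζ.toInteger_isPrimitiveRoot
  obtain ⟨f, h1, h2, a, ha, ha2⟩ := fld (k := 𝓞 F ⧸ Ideal.span {π}) p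
    (Ideal.Quotient.mk (Ideal.span {π}) hζ.toInteger)
    (by rw [← map_pow, hz.pow_eq_one, map_one])
    (by
      intro h
      apply hπp
      rw [← hq0, map_natCast]
      have h3 := congrArg (Ideal.Quotient.mk (Ideal.span {π})) (hz.geom_sum_eq_zero hpp.one_lt)
      rw [map_sum, map_zero] at h3
      simpa [map_pow, h] using h3)
  obtain ⟨z0, rfl⟩ := Ideal.Quotient.mk_surjective a
  refine ⟨fun z => f (Ideal.Quotient.mk (Ideal.span {π}) z), ?_, ?_, ?_, z0, ?_, ha2⟩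
  · intro z z' hz1 hz2
    show f _ = f _ + f _
    rw [map_mul]
    exact h1 _ _ (fun h => hz1 ((hq0 z).1 h)) (fun h => hz2 ((hq0 z').1 h))
  · intro z z' h
    show f _ = f _
    congr 1
    rw [Ideal.Quotient.eq, Ideal.mem_span_singleton]
    exact h
  · intro z hz1
    show f _ = 0 ↔ _
    rw [h2 _ (fun h => hz1 ((hq0 z).1 h))]
    constructor
    · rintro ⟨y, hy⟩
      obtain ⟨y, rfl⟩ := Ideal.Quotient.mk_surjective y
      refine ⟨y, ?_⟩
      rw [← hq0, map_sub, map_pow, hy, sub_self]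
    · rintro ⟨y, hy⟩
      refine ⟨Ideal.Quotient.mk (Ideal.span {π}) y, ?_⟩
      rw [← sub_eq_zero, ← map_pow, ← map_sub, hq0]
      exact hy
  · rw [← hq0]
    exact ha

end IIND

/-- IND -/
theorem pr_IND : StIND.{u} := by
  intro F _ _ p _ ζ hζ
  have key : ∀ π : 𝓞 F, ∃ f : 𝓞 F → ZMod p, Prime π → ¬ π ∣ (p : 𝓞 F) →
      (∀ z z' : 𝓞 F, ¬ π ∣ z → ¬ π ∣ z' → f (z * z') = f z + f z') ∧
      (∀ z z' : 𝓞 F, π ∣ z - z' → f z = f z') ∧
      (∀ z : 𝓞 F, ¬ π ∣ z → (f z = 0 ↔ ∃ y : 𝓞 F, π ∣ y ^ p - z)) ∧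
      ∃ z : 𝓞 F, ¬ π ∣ z ∧ f z ≠ 0 := by
    intro π
    by_cases h : Prime π ∧ ¬ π ∣ (p : 𝓞 F)
    · obtain ⟨f, hf⟩ := IIND.one p ζ hζ π h.1 h.2
      exact ⟨f, fun _ _ => hf⟩
    · exact ⟨0, fun h1 h2 => absurd ⟨h1, h2⟩ h⟩
  choose ind hind using key
  exact ⟨ind, fun π h1 h2 => (hind π h1 h2).1, fun π h1 h2 => (hind π h1 h2).2.1,
    fun π h1 h2 => (hind π h1 h2).2.2.1, fun π h1 h2 => (hind π h1 h2).2.2.2⟩

end Pool.Agent.Work.MP_59f3ad_nt.PX
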