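import Mathlib
import Pool.Agent.Work.MP_59f3ad_nt.PX.StmtsB

/-!
Item REP of block PX: the number of representations as a product of `J` primes. Model: `Q3/I_Rep.lean`.
-/

set_option autoImplicit false

open NumberField IsDedekindDomain

namespace Pool.Agent.Work.MP_59f3ad_nt.PX

universe u

namespace IREP

open Classical in
theorem card_fib (hUFD : StUFD.{u}) (F : Type u) [Field F] [NumberField F] (P : Finset (𝓞 F))
    (h1 : ∀ z ∈ P, Prime z) (h2 : ∀ z ∈ P, ∀ z' ∈ P, Associated z z' → z = z') (J : ℕ)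
    (v : Fin J → 𝓞 F) (hv : ∀ i, v i ∈ P) :
    ((Fintype.piFinset (fun _ : Fin J => P)).filter
      (fun v' => ∏ i, v' i = ∏ i, v i)).card ≤ J.factorial := by
  have hs : (Fintype.piFinset (fun _ : Fin J => P)).filter (fun v' => ∏ i, v' i = ∏ i, v i) ⊆
      (Finset.univ : Finset (Equiv.Perm (Fin J))).image (fun ρ i => v (ρ i)) := by
    intro v' hv'
    obtain ⟨ha, hb⟩ := Finset.mem_filter.mp hv'
    have hc := Fintype.mem_piFinset.mp ha
    obtain ⟨ρ, hρ⟩ := hUFD F P h1 h2 J v v' hv hc hb.symm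
    exact Finset.mem_image.mpr ⟨ρ, Finset.mem_univ _, funext fun i => (hρ i).symm⟩
  refine (Finset.card_le_card hs).trans (Finset.card_image_le.trans ?_)
  rw [Finset.card_univ, Fintype.card_perm, Fintype.card_fin]

end IREP

/-- REP -/
theorem pr_REP (hUFD : StUFD.{u}) : StREP.{u} := by
  classical
  intro F _ _ P h1 h2 J β hβ Z
  have hn : ∀ z : 𝓞 F, ‖∑ v ∈ (Fintype.piFinset (fun _ : Fin J => P)).filter
      (fun v => ∏ i, v i = z), ∏ i, β (v i)‖ ≤
      (((Fintype.piFinset (fun _ : Fin J => P)).filter (fun v => ∏ i, v i = z)).card : ℝ) := by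
    intro z
    refine (norm_sum_le _ _).trans ?_
    refine (Finset.sum_le_card_nsmul _ _ 1 ?_).trans (by simp)
    intro v _
    rw [norm_prod]
    exact Finset.prod_le_one (fun i _ => norm_nonneg _) (fun i _ => hβ _)
  have hk : ∀ z ∈ Z, ‖∑ v ∈ (Fintype.piFinset (fun _ : Fin J => P)).filter
      (fun v => ∏ i, v i = z), ∏ i, β (v i)‖ ^ 2 ≤
      (J.factorial : ℝ) * (((Fintype.piFinset (fun _ : Fin J => P)).filter
        (fun v => ∏ i, v i = z)).card : ℝ) := by
    intro z _
    rw [sq]
    by_cases hz : ((Fintype.piFinset (fun _ : Fin J => P)).filter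
        (fun v => ∏ i, v i = z)).Nonempty
    · obtain ⟨v, hv⟩ := hz
      obtain ⟨ha, hb⟩ := Finset.mem_filter.mp hv
      have hc := Fintype.mem_piFinset.mp ha
      have h3 := IREP.card_fib hUFD F P h1 h2 J v hc
      rw [hb] at h3
      have h4 : (((Fintype.piFinset (fun _ : Fin J => P)).filter
          (fun v => ∏ i, v i = z)).card : ℝ) ≤ (J.factorial : ℝ) := by exact_mod_cast h3
      exact mul_le_mul ((hn z).trans h4) (hn z) (norm_nonneg _) (Nat.cast_nonneg _)
    · rw [Finset.not_nonempty_iff_eq_empty] at hz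
      rw [hz]
      simp
  refine (Finset.sum_le_sum hk).trans ?_
  rw [← Finset.mul_sum]
  refine mul_le_mul_of_nonneg_left ?_ (Nat.cast_nonneg _)
  have h5 : ∑ z ∈ Z, ((Fintype.piFinset (fun _ : Fin J => P)).filter
      (fun v => ∏ i, v i = z)).card ≤ (Fintype.piFinset (fun _ : Fin J => P)).card := by
    rw [← Finset.card_biUnion]
    · refine Finset.card_le_card ?_
      intro v hv
      obtain ⟨z, _, hz⟩ := Finset.mem_biUnion.mp hv
      exact (Finset.mem_filter.mp hz).1
    · intro z _ z' _ hzz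
      rw [Function.onFun, Finset.disjoint_left]
      intro v hv hv'
      exact hzz ((Finset.mem_filter.mp hv).2.symm.trans (Finset.mem_filter.mp hv').2)
  rw [Fintype.card_piFinset_const] at h5
  exact_mod_cast h5

end Pool.Agent.Work.MP_59f3ad_nt.PX
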