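import Mathlib
import Pool.Agent.Work.MP_59f3ad_nt.PX.StmtsA

/-!
Block PX, item SQM: the cocycles of `SH` and of `SQ` form submodules, that of `SQ` is saturated, and
`SH` implies `SQ`.
-/

set_option autoImplicit false

open NumberField IsDedekindDomain

namespace Pool.Agent.Work.MP_59f3ad_nt.PX

open Pool.Agent.Work.MP_59f3ad_nt.FE

universe u

namespace ISQM

variable {L : Type u} [Field L] {p : ℕ} [Fact p.Prime] {r : ℤ}

theorem pne : (p : ℤ_[p]) ≠ 0 := Nat.cast_ne_zero.2 (Fact.out : p.Prime).ne_zero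

theorem sq_zero : SQ L (AlgebraicClosure L) p r (0 : GK L → ℤ_[p]) where
  cont := continuous_const
  mul := by intro g h; simp
  inr := by intro Q _ _ h _; rfl
  dec := by
    intro Q _ _
    exact ⟨0, 0, fun h _ => by simp⟩

theorem sq_add {φ ψ : GK L → ℤ_[p]} (hφ : SQ L (AlgebraicClosure L) p r φ)
    (hψ : SQ L (AlgebraicClosure L) p r ψ) : SQ L (AlgebraicClosure L) p r (φ + ψ) where
  cont := hφ.cont.add hψ.cont
  mul := by
    intro g h
    simp only [Pi.add_apply, hφ.mul g h, hψ.mul g h]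
    ring
  inr := by
    intro Q hQ hp h hh
    simp only [Pi.add_apply, hφ.inr Q hQ hp h hh, hψ.inr Q hQ hp h hh, add_zero]
  dec := by
    intro Q hQ hp
    obtain ⟨n1, c1, h1⟩ := hφ.dec Q hQ hp
    obtain ⟨n2, c2, h2⟩ := hψ.dec Q hQ hp
    refine ⟨n1 + n2, (p : ℤ_[p]) ^ n2 * c1 + (p : ℤ_[p]) ^ n1 * c2, fun h hh => ?_⟩
    have e1 := h1 h hh
    have e2 := h2 h hh
    simp only [Pi.add_apply]
    rw [pow_add]
    linear_combination (p : ℤ_[p]) ^ n2 * e1 + (p : ℤ_[p]) ^ n1 * e2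

theorem sq_smul (a : ℤ_[p]) {φ : GK L → ℤ_[p]} (hφ : SQ L (AlgebraicClosure L) p r φ) :
    SQ L (AlgebraicClosure L) p r (a • φ) where
  cont := continuous_const.mul hφ.cont
  mul := by
    intro g h
    simp only [Pi.smul_apply, smul_eq_mul, hφ.mul g h]
    ring
  inr := by
    intro Q hQ hp h hh
    simp only [Pi.smul_apply, smul_eq_mul, hφ.inr Q hQ hp h hh, mul_zero]
  dec := by
    intro Q hQ hp
    obtain ⟨n1, c1, h1⟩ := hφ.dec Q hQ hp
    refine ⟨n1, a * c1, fun h hh => ?_⟩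
    have e1 := h1 h hh
    simp only [Pi.smul_apply, smul_eq_mul]
    linear_combination a * e1

theorem sh_zero : SH L (AlgebraicClosure L) p r (0 : GK L → ℤ_[p]) where
  cont := continuous_const
  mul := by intro g h; simp
  inr := by intro Q _ _ h _; rfl
  dec := by
    intro Q _ _
    exact ⟨0, fun h _ => by simp⟩

theorem sh_add {φ ψ : GK L → ℤ_[p]} (hφ : SH L (AlgebraicClosure L) p r φ)
    (hψ : SH L (AlgebraicClosure L) p r ψ) : SH L (AlgebraicClosure L) p r (φ + ψ) where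
  cont := hφ.cont.add hψ.cont
  mul := by
    intro g h
    simp only [Pi.add_apply, hφ.mul g h, hψ.mul g h]
    ring
  inr := by
    intro Q hQ hp h hh
    simp only [Pi.add_apply, hφ.inr Q hQ hp h hh, hψ.inr Q hQ hp h hh, add_zero]
  dec := by
    intro Q hQ hp
    obtain ⟨c1, h1⟩ := hφ.dec Q hQ hp
    obtain ⟨c2, h2⟩ := hψ.dec Q hQ hp
    refine ⟨c1 + c2, fun h hh => ?_⟩
    simp only [Pi.add_apply, h1 h hh, h2 h hh]
    ring

theorem sh_smul (a : ℤ_[p]) {φ : GK L → ℤ_[p]} (hφ : SH L (AlgebraicClosure L) p r φ) :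
    SH L (AlgebraicClosure L) p r (a • φ) where
  cont := continuous_const.mul hφ.cont
  mul := by
    intro g h
    simp only [Pi.smul_apply, smul_eq_mul, hφ.mul g h]
    ring
  inr := by
    intro Q hQ hp h hh
    simp only [Pi.smul_apply, smul_eq_mul, hφ.inr Q hQ hp h hh, mul_zero]
  dec := by
    intro Q hQ hp
    obtain ⟨c1, h1⟩ := hφ.dec Q hQ hp
    refine ⟨a * c1, fun h hh => ?_⟩
    simp only [Pi.smul_apply, smul_eq_mul, h1 h hh]
    ring

theorem sh_sq {φ : GK L → ℤ_[p]} (hφ : SH L (AlgebraicClosure L) p r φ) :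
    SQ L (AlgebraicClosure L) p r φ where
  cont := hφ.cont
  mul := hφ.mul
  inr := hφ.inr
  dec := by
    intro Q hQ hp
    obtain ⟨c, hc⟩ := hφ.dec Q hQ hp
    exact ⟨0, c, fun h hh => by rw [pow_zero, one_mul]; exact hc h hh⟩

theorem cont_of_mul {X : Type u} [TopologicalSpace X] {φ : X → ℤ_[p]}
    (h : Continuous fun g => (p : ℤ_[p]) * φ g) : Continuous φ := by
  rw [continuous_iff_continuousAt] at h ⊢
  intro g
  have h1 := h g
  unfold ContinuousAt at h1 ⊢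
  rw [tendsto_iff_norm_sub_tendsto_zero] at h1 ⊢
  have h2 := h1.const_mul (p : ℝ)
  rw [mul_zero] at h2
  refine h2.congr fun y => ?_
  have hp0 : (p : ℝ) ≠ 0 := Nat.cast_ne_zero.2 (Fact.out : p.Prime).ne_zero
  rw [← mul_sub, norm_mul, PadicInt.norm_p, ← mul_assoc, mul_inv_cancel₀ hp0, one_mul]

theorem sq_sat {φ : GK L → ℤ_[p]}
    (hφ : SQ L (AlgebraicClosure L) p r (fun g => (p : ℤ_[p]) * φ g)) :
    SQ L (AlgebraicClosure L) p r φ where
  cont := cont_of_mul hφ.cont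
  mul := by
    intro g h
    have e := hφ.mul g h
    refine mul_left_cancel₀ (pne (p := p)) ?_
    rw [e]
    ring
  inr := by
    intro Q hQ hp h hh
    have e := hφ.inr Q hQ hp h hh
    exact (mul_eq_zero.1 e).resolve_left pne
  dec := by
    intro Q hQ hp
    obtain ⟨n, c, hc⟩ := hφ.dec Q hQ hp
    refine ⟨n + 1, c, fun h hh => ?_⟩
    rw [← hc h hh, pow_succ, mul_assoc]

end ISQM

/-- SQM -/
theorem pr_SQM : StSQM.{u} := by
  intro L _ _ p _ r
  refine ⟨⟨⟨⟨⟨{φ | SQ L (AlgebraicClosure L) p r φ}, ?_⟩, ?_⟩, ?_⟩, ?_, ?_⟩,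
    ⟨⟨⟨⟨{φ | SH L (AlgebraicClosure L) p r φ}, ?_⟩, ?_⟩, ?_⟩, ?_⟩, ?_⟩
  · intro φ ψ hφ hψ
    exact ISQM.sq_add hφ hψ
  · exact ISQM.sq_zero
  · intro a φ hφ
    exact ISQM.sq_smul a hφ
  · intro φ
    exact Iff.rfl
  · intro φ hφ
    exact ISQM.sq_sat hφ
  · intro φ ψ hφ hψ
    exact ISQM.sh_add hφ hψ
  · exact ISQM.sh_zero
  · intro a φ hφ
    exact ISQM.sh_smul a hφ
  · intro φ
    exact Iff.rfl
  · intro φ hφ
    exact ISQM.sh_sq hφ

end Pool.Agent.Work.MP_59f3ad_nt.PX
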