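import Pool.Agent.Work.MP_59f3ad_nt.PX.StmtsA

/-!
Block PX, item CHN: the chain lemma.
-/

set_option autoImplicit false

namespace Pool.Agent.Work.MP_59f3ad_nt.PX

universe u

namespace ICHN

open Polynomial

theorem stab {R : Type} [CommRing R] {M : Type u} [AddCommGroup M] [Module R M]
    (S : Submodule R M) (T : Module.End R M) (h : ∀ x ∈ S, T x ∈ S) (Q : ℤ[X]) :
    ∀ x ∈ S, (aeval T Q) x ∈ S := by
  induction Q using Polynomial.induction_on with
  | C a =>
    intro x hx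
    have e : (aeval T (C a)) x = a • x := by
      rw [aeval_C, eq_intCast]
      rfl
    rw [e]
    exact S.toAddSubgroup.zsmul_mem hx a
  | add P Q hP hQ =>
    intro x hx
    rw [map_add]
    exact S.add_mem (hP x hx) (hQ x hx)
  | monomial n a ih =>
    intro x hx
    have e : (aeval T (C a * X ^ (n + 1))) x = (aeval T (C a * X ^ n)) (T x) := by
      rw [pow_succ, ← mul_assoc, map_mul, aeval_X]
      rfl
    rw [e]
    exact ih _ (h x hx)

end ICHN

open ICHN Polynomial in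
theorem pr_CHN (hCH0 : StCH0) (hCH1 : StCH1.{u}) : StCHN.{u} := by
  intro G p hp h2 κ β A hC φ hφ hN
  obtain ⟨V, hV⟩ := hCH0 p hp.out
  let T : Module.End ℤ_[p] (G → ℤ_[p]) := LinearMap.funLeft ℤ_[p] ℤ_[p] κ
  have hT : ∀ (f : G → ℤ_[p]) (g : G), T f g = f (κ g) := fun f g => rfl
  have hTi : ∀ (i : ℕ) (f : G → ℤ_[p]) (g : G), (T ^ i) f g = f (κ^[i] g) := by
    intro i
    induction i with
    | zero => intro f g; rfl
    | succ i ih =>
      intro f g
      rw [pow_succ', Module.End.mul_apply, hT, ih, ← Function.iterate_succ_apply]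
  let π : Module.End ℤ_[p] (G → ℤ_[p]) := T - 1
  have hπ : ∀ (f : G → ℤ_[p]), π f = T f - f := fun f => rfl
  let N : Module.End ℤ_[p] (G → ℤ_[p]) := ∑ i ∈ Finset.range p, T ^ i
  have hNf : ∀ (f : G → ℤ_[p]) (g : G), N f g = ∑ i ∈ Finset.range p, f (κ^[i] g) := by
    intro f g
    simp only [N, LinearMap.sum_apply, Finset.sum_apply]
    exact Finset.sum_congr rfl fun i _ => hTi i f g
  let W : Module.End ℤ_[p] (G → ℤ_[p]) := 1 + π * aeval π V
  have hNW : N = π ^ (p - 1) + (p : Module.End ℤ_[p] (G → ℤ_[p])) * W := by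
    have h := congrArg (aeval π) hV
    rw [map_sum, map_add, map_pow, map_mul, map_add, map_mul, aeval_X, map_one] at h
    have e1 : ∀ i ∈ Finset.range p, aeval π ((1 + X : ℤ[X]) ^ i) = T ^ i := by
      intro i _
      rw [map_pow, map_add, map_one, aeval_X]
      congr 1
      simp only [π]
      abel
    rw [Finset.sum_congr rfl e1] at h
    have e2 : (aeval π (C (p : ℤ))) = (p : Module.End ℤ_[p] (G → ℤ_[p])) := by
      rw [aeval_C, eq_intCast]
      simp
    rw [e2] at h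
    exact h
  have hTN : ∀ f : G → ℤ_[p], N (T f) = T (N f) := by
    intro f
    have : Commute N T := by
      apply Commute.sum_left
      intro i _
      exact (Commute.refl T).pow_left i
    exact LinearMap.congr_fun this.eq f
  have hTβ : T β = β := funext fun g => hC.inv g
  have hπβ : π β = 0 := by rw [hπ, hTβ, sub_self]
  -- the submodule `R`
  let R : Submodule ℤ_[p] (G → ℤ_[p]) :=
    { carrier := {f | f ∈ A ∧ ∃ c : ℤ_[p], N f = c • β}
      add_mem' := by
        rintro f f' ⟨h1, c, h3⟩ ⟨h1', c', h3'⟩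
        refine ⟨A.add_mem h1 h1', c + c', ?_⟩
        rw [map_add, h3, h3', add_smul]
      zero_mem' := ⟨A.zero_mem, 0, by rw [map_zero, zero_smul]⟩
      smul_mem' := by
        rintro a f ⟨h1, c, h3⟩
        refine ⟨A.smul_mem a h1, a * c, ?_⟩
        rw [map_smul, h3, mul_smul] }
  have hR : ∀ f, f ∈ R ↔ f ∈ A ∧ ∃ c : ℤ_[p], N f = c • β := fun f => Iff.rfl
  have hR' : ∀ f, f ∈ R ↔ f ∈ A ∧ ∃ c : ℤ_[p], ∀ g, ∑ i ∈ Finset.range p, f (κ^[i] g) = c * β g := by
    intro f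
    rw [hR]
    constructor
    · rintro ⟨h1, c, h3⟩
      refine ⟨h1, c, fun g => ?_⟩
      rw [← hNf, h3]
      rfl
    · rintro ⟨h1, c, h3⟩
      refine ⟨h1, c, funext fun g => ?_⟩
      rw [hNf, h3]
      rfl
  have hRT : ∀ f ∈ R, T f ∈ R := by
    rintro f ⟨h1, c, h3⟩
    refine ⟨hC.sta f h1, c, ?_⟩
    rw [hTN, h3, map_smul, hTβ]
  have hRπ : ∀ f ∈ R, π f ∈ R := fun f hf => R.sub_mem (hRT f hf) hf
  have hRW : ∀ f ∈ R, W f ∈ R := by
    intro f hf
    exact R.add_mem hf (hRπ _ (stab R π hRπ V f hf))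
  -- step 1
  have s1 : ∀ n : ℕ, ∀ f ∈ R, ∃ α ∈ R, ∃ c : ℤ_[p], f = (π ^ n) α + c • β := by
    intro n
    induction n with
    | zero =>
      intro f hf
      exact ⟨f, hf, 0, by rw [zero_smul, add_zero, pow_zero]; rfl⟩
    | succ n ih =>
      intro f hf
      obtain ⟨α, hα, c, h3⟩ := ih f hf
      obtain ⟨hα1, hα2⟩ := (hR' α).1 hα
      obtain ⟨α', hα'1, hα'2, c', h4⟩ := hCH1 G p h2 κ β A hC α hα1 hα2
      have h5 : α = π α' + c' • β := by
        funext g
        rw [h4 g]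
        rfl
      rcases n with _ | n
      · refine ⟨α', (hR' α').2 ⟨hα'1, hα'2⟩, c' + c, ?_⟩
        rw [h3, pow_zero, zero_add, pow_one, Module.End.one_apply, h5, add_smul]
        abel
      · refine ⟨α', (hR' α').2 ⟨hα'1, hα'2⟩, c, ?_⟩
        rw [h3, h5, map_add, map_smul, pow_succ π n, Module.End.mul_apply, Module.End.mul_apply,
          hπβ, map_zero, smul_zero, add_zero, pow_succ π (n + 1), pow_succ π n,
          Module.End.mul_apply, Module.End.mul_apply]
  -- step 2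
  have s2 : ∀ f ∈ R, ∃ α ∈ R, ∃ c : ℤ_[p], f = (p : ℤ_[p]) • α + c • β := by
    intro f hf
    obtain ⟨α, hα, c, h3⟩ := s1 (p - 1) f hf
    obtain ⟨hα1, c', h4⟩ := hα
    have h5 : N α = (π ^ (p - 1)) α + (p : ℤ_[p]) • W α := by
      conv_lhs => rw [hNW]
      rw [LinearMap.add_apply, Module.End.mul_apply, Module.End.natCast_apply,
        Nat.cast_smul_eq_nsmul]
    refine ⟨-W α, R.neg_mem (hRW α ⟨hα1, c', h4⟩), c' + c, ?_⟩
    have h6 : (π ^ (p - 1)) α = c' • β - (p : ℤ_[p]) • W α := by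
      rw [← h4, h5]
      abel
    rw [h3, h6, smul_neg, add_smul]
    abel
  -- step 3
  have s3 : ∀ n : ℕ, ∀ f ∈ R, ∃ α ∈ R, ∃ c : ℤ_[p], f = ((p : ℤ_[p]) ^ n) • α + c • β := by
    intro n
    induction n with
    | zero =>
      intro f hf
      exact ⟨f, hf, 0, by rw [zero_smul, add_zero, pow_zero, one_smul]⟩
    | succ n ih =>
      intro f hf
      obtain ⟨α, hα, c, h3⟩ := ih f hf
      obtain ⟨α', hα', c', h4⟩ := s2 α hα
      refine ⟨α', hα', (p : ℤ_[p]) ^ n * c' + c, ?_⟩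
      rw [h3, h4, smul_add, smul_smul, smul_smul, ← pow_succ, add_smul, add_assoc]
  -- step 4
  obtain ⟨g0, hg0⟩ := hC.un
  have hu : IsUnit (β g0) := by
    rw [PadicInt.isUnit_iff]
    by_contra hne
    exact hg0 (PadicInt.norm_lt_one_iff_dvd _ |>.1 (lt_of_le_of_ne (PadicInt.norm_le_one _) hne))
  obtain ⟨u, hu1⟩ := hu.exists_right_inv
  refine ⟨φ g0 * u, fun g => ?_⟩
  by_contra hne
  have hne' : φ g - φ g0 * u * β g ≠ 0 := sub_ne_zero.2 hne
  have hfin : FiniteMultiplicity (p : ℤ_[p]) (φ g - φ g0 * u * β g) :=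
    FiniteMultiplicity.of_not_isUnit PadicInt.prime_p.not_isUnit hne'
  obtain ⟨n, hn⟩ := hfin
  apply hn
  obtain ⟨α, -, c, h3⟩ := s3 (n + 1) φ ((hR' φ).2 ⟨hφ, hN⟩)
  have h4 : ∀ y, φ y = (p : ℤ_[p]) ^ (n + 1) * α y + c * β y := by
    intro y
    conv_lhs => rw [h3]
    rfl
  refine ⟨α g - α g0 * u * β g, ?_⟩
  rw [h4 g, h4 g0]
  linear_combination (-c * β g) * hu1

end Pool.Agent.Work.MP_59f3ad_nt.PX
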