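import Mathlib
import Pool.Agent.Work.MP_59f3ad_nt.PX.StmtsF
import Pool.Agent.Work.MP_59f3ad_nt.PX.I_RX2

/-!
Item RU2 of block PX: the relation, for arbitrary `m0` (the proof of `I_RX2.lean` by helper65).
-/

set_option autoImplicit false

open NumberField IsDedekindDomain

namespace Pool.Agent.Work.MP_59f3ad_nt.PX

universe u

/-- RU2: the relation, for arbitrary `m0`. -/
theorem pr_RU2 : StRU2.{u} := by
  intro F _ _ p hp ind hS t m0 x c π hC a hD l j e D g hR d hE hcop k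
  classical
  have hπ := hC.pr k
  have hnp := hC.np k
  -- the prime elements are pairwise not associated
  have hki : ∀ i ∈ Finset.univ.erase k, ¬ π k ∣ π i := by
    intro i hi hdvd
    have := hC.na k i (hπ.associated_of_dvd (hC.pr i) hdvd)
    exact (Finset.ne_of_mem_erase hi) this.symm
  have hp1 : ((p - 1 : ℕ) : ZMod p) = -1 := by
    rw [Nat.cast_sub hp.out.one_le]
    simp
  -- `ind D = ind d`
  have hkD : ¬ π k ∣ D := hR.cop k
  have hkd : ¬ π k ∣ d := hcop k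
  have hDd : ind (π k) D = ind (π k) d := IRX2.ind_eqv hS hπ hnp hkD hkd hE
  -- the tame symbol
  obtain ⟨y, hy⟩ := hD.tam l j g D (fun i => (e i).val) hR.gn hR.cop hR.eq k
  have hA : ∀ n : Fin t → ℕ, ∀ i ∈ Finset.univ.erase k, ¬ π k ∣ π i ^ n i :=
    fun n i hi h => hki i hi (hπ.dvd_of_dvd_pow h)
  have hAp : ∀ n : Fin t → ℕ, ¬ π k ∣ ∏ i ∈ Finset.univ.erase k, π i ^ n i := by
    intro n h
    obtain ⟨i, hi, hdi⟩ := hπ.exists_mem_finset_dvd h
    exact hA n i hi hdi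
  have hm0 : ¬ π k ∣ m0 := hC.nm0 k
  have hmul : ∀ z : 𝓞 F, ¬ π k ∣ z → ∀ n : Fin t → ℕ,
      ¬ π k ∣ z * ∏ i ∈ Finset.univ.erase k, π i ^ n i := by
    intro z hz n h
    rcases hπ.dvd_or_dvd h with h | h
    · exact hz h
    · exact hAp n h
  have hind : ∀ z : 𝓞 F, ¬ π k ∣ z → ∀ n : Fin t → ℕ,
      ind (π k) (z * ∏ i ∈ Finset.univ.erase k, π i ^ n i) =
        ind (π k) z + ∑ i ∈ Finset.univ.erase k, (n i : ZMod p) * ind (π k) (π i) := by
    intro z hz n
    rw [hS.mul _ hπ hnp _ _ hz (hAp n), IRX2.ind_prod hS hπ hnp _ _ (hA n)]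
    congr 1
    exact Finset.sum_congr rfl fun i hi => IRX2.ind_pow hS hπ hnp (hki i hi) _
  have hX1 := hmul D hkD (fun i => (e i).val)
  have hX2 := hmul m0 hm0 c
  have h0 : ind (π k) ((D * ∏ i ∈ Finset.univ.erase k, π i ^ (e i).val) ^ c k *
      (m0 * ∏ i ∈ Finset.univ.erase k, π i ^ c i) ^ ((p - 1) * (e k).val)) = 0 := by
    refine (hS.pow _ hπ hnp _ ?_).2 ⟨y, hy⟩
    intro h
    rcases hπ.dvd_or_dvd h with h | h
    · exact hX1 (hπ.dvd_of_dvd_pow h)
    · exact hX2 (hπ.dvd_of_dvd_pow h)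
  rw [hS.mul _ hπ hnp _ _ (fun h => hX1 (hπ.dvd_of_dvd_pow h))
      (fun h => hX2 (hπ.dvd_of_dvd_pow h)), IRX2.ind_pow hS hπ hnp hX1,
    IRX2.ind_pow hS hπ hnp hX2, hind D hkD (fun i => (e i).val), hind m0 hm0 c, hDd] at h0
  push_cast at h0
  simp only [ZMod.natCast_zmod_val] at h0
  have hsum : ∑ i ∈ Finset.univ.erase k, ((c k : ZMod p) * e i - (c i : ZMod p) * e k) *
      ind (π k) (π i) =
      (c k : ZMod p) * ∑ i ∈ Finset.univ.erase k, e i * ind (π k) (π i) -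
        e k * ∑ i ∈ Finset.univ.erase k, (c i : ZMod p) * ind (π k) (π i) := by
    rw [Finset.mul_sum, Finset.mul_sum, ← Finset.sum_sub_distrib]
    exact Finset.sum_congr rfl fun i _ => by ring
  rw [hsum]
  rw [hp1] at h0
  linear_combination h0

end Pool.Agent.Work.MP_59f3ad_nt.PX
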