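import Pool.Agent.Work.MP_59f3ad_nt.PX.StmtsC

/-!
Block PX, item RXS: a bad tuple satisfies `(p - 1) p` relations, general form.
-/

set_option autoImplicit false

open NumberField IsDedekindDomain

namespace Pool.Agent.Work.MP_59f3ad_nt.PX

universe u

namespace IRXS

theorem eqv {F : Type u} [Field F] [NumberField F] {p : ℕ} {D D' d : 𝓞 F}
    (h1 : Eqv p D d) (h2 : Eqv p D' d) : Eqv p D D' := by
  obtain ⟨g, g', hg, hg', e1⟩ := h1
  obtain ⟨h, h', hh, hh', e2⟩ := h2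
  refine ⟨h' * g, g' * h, mul_ne_zero hh' hg, mul_ne_zero hg' hh, ?_⟩
  calc (h' * g) ^ p * D = h' ^ p * (g ^ p * D) := by ring
    _ = h' ^ p * (g' ^ p * d) := by rw [e1]
    _ = g' ^ p * (h' ^ p * d) := by ring
    _ = g' ^ p * (h ^ p * D') := by rw [e2]
    _ = (g' * h) ^ p * D' := by ring

end IRXS

/-- Item RXS. -/
theorem pr_RXS (hDET : StDET.{u}) (hRX1 : StRX1.{u}) (hRX2 : StRX2.{u}) (hRX3 : StRX3.{u})
    (hRX4 : StRX4.{u}) (hLPM2 : StLPM2.{u}) : StRXS.{u} := by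
  classical
  intro F _ _ p hp hp2 ζ hζ ind hind t m0 x c π hC R hRd hR hbad
  simp only [Good, not_forall] at hbad
  obtain ⟨L, iL, nL, aL, y, hfr, hy, r, hr, hSF, S, hS, hne⟩ := hbad
  have h0 : ∀ v ∈ Sp F p, ¬ Lp F p v (Mx m0 π c : F) := by
    intro v hv h
    have h1 := hLPM2 F p t m0 x c π hC v hv 1 (fun _ => 0) 1
    simp only [pow_zero, Finset.prod_const_one, mul_one, one_mul, pow_one] at h1
    exact hC.nsp v hv (h1.1 h)
  obtain ⟨a, ha0, hloc, hval, hnon, htam⟩ := hDET F p hp2 ζ hζ t m0 π c hC.ht hC.m0n hC.m0v hC.pr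
    hC.np hC.na hC.nm0 hC.hc h0 L y hfr hy r hr hSF S hS hne
  have hDt : Dt p m0 c π a := ⟨ha0, hloc, hval, hnon, htam⟩
  choose e D g hRl using hRX1 F p t m0 x c π hC a hDt
  have hndvd : ∀ l : ℕ, 1 ≤ l → l < p → ¬ p ∣ l := by
    intro l h1 h2 h3
    exact absurd (Nat.le_of_dvd h1 h3) (not_le.2 h2)
  have hpr : ∀ l j : ℕ, 1 ≤ l → l < p →
      ∃ i k, (c k : ZMod p) * e l j i ≠ (c i : ZMod p) * e l j k := fun l j h1 h2 =>
    hRX3 F p ind hind t m0 x c π hC a hDt l j (e l j) (D l j) (g l j) (hRl l j) (hndvd l h1 h2)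
  have hd : ∀ l j : ℕ, ∃ d : 𝓞 F, 1 ≤ l → l < p → (e l j, d) ∈ R ∧ Eqv p (D l j) d := by
    intro l j
    by_cases h : 1 ≤ l ∧ l < p
    · obtain ⟨d, h1, h2⟩ := hR (e l j) (D l j) (hpr l j h.1 h.2) (hRl l j).wit
      exact ⟨d, fun _ _ => ⟨h1, h2⟩⟩
    · exact ⟨0, fun h1 h2 => absurd ⟨h1, h2⟩ h⟩
  choose d hd using hd
  refine ⟨(Finset.Ico 1 p ×ˢ Finset.range p).image
    (fun z : ℕ × ℕ => (e z.1 z.2, d z.1 z.2)), ?_, ?_⟩
  · rw [Finset.card_image_of_injOn, Finset.card_product, Nat.card_Ico, Finset.card_range]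
    rintro ⟨l, j⟩ h1 ⟨l', j'⟩ h2 h3
    simp only [Finset.coe_product, Set.mem_prod, Finset.mem_coe, Finset.mem_Ico,
      Finset.mem_range] at h1 h2
    simp only [Prod.mk.injEq] at h3
    have h4 := hRl l' j'
    rw [← h3.1] at h4
    have h7 := (hd l j h1.1.1 h1.1.2).2
    have h8 := (hd l' j' h2.1.1 h2.1.2).2
    rw [← h3.2] at h8
    obtain ⟨h5, h6⟩ := hRX4 F p t m0 x c π hC a hDt l j l' j' (e l j) (D l j) (D l' j') (g l j)
      (g l' j') h1.1.1 h1.1.2 h2.1.1 h2.1.2 h1.2 h2.2 (hRl l j) h4 (IRXS.eqv h7 h8)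
    rw [h5, h6]
  · intro a' ha'
    obtain ⟨⟨l, j⟩, hlj, rfl⟩ := Finset.mem_image.1 ha'
    simp only [Finset.mem_product, Finset.mem_Ico, Finset.mem_range] at hlj
    obtain ⟨h9, h10⟩ := hd l j hlj.1.1 hlj.1.2
    exact ⟨h9, hpr l j hlj.1.1 hlj.1.2, fun k => hRX2 F p ind hind t m0 x c π hC a hDt l j (e l j)
      (D l j) (g l j) (hRl l j) (d l j) h10 (hRd _ h9) k⟩

end Pool.Agent.Work.MP_59f3ad_nt.PX
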