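import Mathlib
import Pool.Agent.Work.MP_59f3ad_nt.PX.StmtsB
import Pool.Agent.Work.MP_59f3ad_nt.FE.I_DN
import Pool.Agent.Work.MP_59f3ad_nt.FE.I_DQ
import Pool.Agent.Work.MP_59f3ad_nt.FE.I_DV
import Pool.Agent.Work.MP_59f3ad_nt.FE.I_DK
import Pool.Agent.Work.MP_59f3ad_nt.FE.I_DX
import Pool.Agent.Work.MP_59f3ad_nt.FE.I_DT
import Pool.Agent.Work.MP_59f3ad_nt.FE.I_DE

/-!
Block PX, item VFK: class number prime to `p`; an integer whose valuations outside `p` are divisible
by `p` and which is a local `p`-th power at all places above `p` is a `p`-th power.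
-/

set_option autoImplicit false

open NumberField IsDedekindDomain

namespace Pool.Agent.Work.MP_59f3ad_nt.PX

open Pool.Agent.Work.MP_59f3ad_nt.FE

universe u

namespace IVFK

/-- an automorphism which fixes all algebraic integers is the identity -/
theorem eq_one {K : Type u} [Field K] [NumberField K] (h : GK K)
    (hh : Inr (⊥ : Ideal (𝓞 (AlgebraicClosure K))) h) : h = 1 := by
  have hfix : ∀ y : AlgebraicClosure K, IsIntegral ℤ y → h y = y := by
    intro y hy
    have hint : IsIntegral ℤ (h y) := map_isIntegral_int h hy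
    have h1 := hh ⟨y, hy⟩ ⟨h y, hint⟩ rfl
    rw [Ideal.mem_bot, sub_eq_zero] at h1
    exact congrArg (fun z : 𝓞 (AlgebraicClosure K) => (z : AlgebraicClosure K)) h1
  ext x
  have ha : Algebra.IsAlgebraic ℚ (AlgebraicClosure K) :=
    Algebra.IsAlgebraic.trans ℚ K (AlgebraicClosure K)
  have hx : IsAlgebraic ℤ x :=
    (IsFractionRing.isAlgebraic_iff ℤ ℚ (AlgebraicClosure K)).2 (Algebra.IsAlgebraic.isAlgebraic x)
  obtain ⟨m, hm, hy⟩ := hx.exists_integral_multiple
  have h1 := hfix _ hy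
  rw [zsmul_eq_mul, map_mul, map_intCast] at h1
  have hm0 : ((m : ℤ) : AlgebraicClosure K) ≠ 0 := Int.cast_ne_zero.2 hm
  exact mul_left_cancel₀ hm0 h1

/-- quotients of `p`-th roots of the same element -/
theorem root {C : Type u} [Field C] {p : ℕ} (hp : p.Prime) {ζ : C} (hζ : IsPrimitiveRoot ζ p)
    {x y : C} (hy : y ≠ 0) (hxy : x ^ p = y ^ p) : ∃ i < p, x = ζ ^ i * y := by
  have : NeZero p := ⟨hp.ne_zero⟩
  have h1 : (x / y) ^ p = 1 := by
    rw [div_pow, hxy, div_self (pow_ne_zero _ hy)]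
  obtain ⟨i, hi, h2⟩ := hζ.eq_pow_of_pow_eq_one h1
  exact ⟨i, hi, by rw [h2, div_mul_cancel₀ _ hy]⟩

/-- functions of `g D` are continuous -/
theorem cont {K : Type u} [Field K] [NumberField K] {p : ℕ} [Fact p.Prime]
    (D : AlgebraicClosure K) (n : GK K → ℕ) (hn : ∀ g h : GK K, g D = h D → n g = n h) :
    Continuous (fun g : GK K => ((n g : ℕ) : ℤ_[p])) := by
  have hlc : IsLocallyConstant n := by
    rw [IsLocallyConstant.iff_exists_open]
    intro g
    have hint : IsIntegral K D := Algebra.IsIntegral.isIntegral D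
    have hfd : FiniteDimensional K (IntermediateField.adjoin K {D}) :=
      IntermediateField.adjoin.finiteDimensional hint
    refine ⟨{h | g⁻¹ * h ∈ (IntermediateField.adjoin K {D}).fixingSubgroup}, ?_, ?_, ?_⟩
    · exact (IntermediateField.fixingSubgroup_isOpen _).preimage (continuous_const_mul g⁻¹)
    · show g⁻¹ * g ∈ (IntermediateField.adjoin K {D}).fixingSubgroup
      rw [inv_mul_cancel]
      exact one_mem _
    · intro h hh
      have h1 : (g⁻¹ * h) D = D :=
        (IntermediateField.mem_fixingSubgroup_iff _ _).1 hh D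
          (IntermediateField.mem_adjoin_simple_self K D)
      apply hn
      have h2 : g ((g⁻¹ * h) D) = h D := by
        show (g * (g⁻¹ * h)) D = h D
        rw [mul_inv_cancel_left]
      rw [← h2, h1]
  exact (hlc.comp (fun m : ℕ => (m : ℤ_[p]))).continuous

/-- an integer below `p` divisible by `p` in the `p`-adic integers is zero -/
theorem eq_zero {p : ℕ} [Fact p.Prime] {m : ℕ} (hm : m < p) (h : (p : ℤ_[p]) ∣ (m : ℤ_[p])) :
    m = 0 := by
  obtain ⟨c, hc⟩ := h
  have h1 := congrArg (PadicInt.toZMod (p := p)) hc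
  rw [map_mul, map_natCast, map_natCast, ZMod.natCast_self, zero_mul] at h1
  have h2 : p ∣ m := (ZMod.natCast_eq_zero_iff m p).1 h1
  exact Nat.eq_zero_of_dvd_of_lt h2 hm

/-- the prime below -/
theorem below {K : Type u} [Field K] [NumberField K] (Q : Ideal (𝓞 (AlgebraicClosure K)))
    (hQ : Q.IsPrime) (hQ0 : Q ≠ ⊥) : ∃ v : HeightOneSpectrum (𝓞 K),
      Q.comap (algebraMap (𝓞 K) (𝓞 (AlgebraicClosure K))) = v.asIdeal ∧
      ∀ p : ℕ, (p : 𝓞 K) ∈ v.asIdeal ↔ (p : 𝓞 (AlgebraicClosure K)) ∈ Q := by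
  obtain ⟨x, hxQ, hx0⟩ := Submodule.exists_mem_ne_zero_of_ne_bot hQ0
  have hint : IsIntegral (𝓞 K) x := (NumberField.RingOfIntegers.isIntegral x).tower_top
  have hne : Q.comap (algebraMap (𝓞 K) (𝓞 (AlgebraicClosure K))) ≠ ⊥ :=
    Ideal.comap_ne_bot_of_integral_mem hx0 hxQ hint
  have hpr : (Q.comap (algebraMap (𝓞 K) (𝓞 (AlgebraicClosure K)))).IsPrime :=
    Ideal.comap_isPrime _ Q
  refine ⟨⟨_, hpr, hne⟩, rfl, fun p => ?_⟩
  show (p : 𝓞 K) ∈ Q.comap (algebraMap (𝓞 K) (𝓞 (AlgebraicClosure K))) ↔ _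
  rw [Ideal.mem_comap, map_natCast]

end IVFK

theorem pr_VFK (hUNR : StUNR.{u}) (hI2 : StI2.{u}) : StVFK.{u} := by
  intro K _ _ p _ h2 ζ hζ hcl d hd hval hloc
  have hp : p.Prime := Fact.out
  have hDE : FE.StDE.{u} := FE.pr_DE FE.pr_DN (FE.pr_DT FE.pr_DQ) (FE.pr_DK FE.pr_DV) FE.pr_DX
  obtain ⟨D, hD⟩ := IsAlgClosed.exists_pow_nat_eq
    (algebraMap K (AlgebraicClosure K) (d : K)) hp.pos
  have hdK : (d : K) ≠ 0 := by
    intro h
    exact hd (RingOfIntegers.ext h)
  have hdΩ : algebraMap K (AlgebraicClosure K) (d : K) ≠ 0 :=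
    (map_ne_zero (algebraMap K (AlgebraicClosure K))).2 hdK
  have hD0 : D ≠ 0 := by
    intro h
    rw [h, zero_pow hp.ne_zero] at hD
    exact hdΩ hD.symm
  have hζ0 : ζ ≠ 0 := hζ.ne_zero hp.ne_zero
  have hζΩ : IsPrimitiveRoot (algebraMap K (AlgebraicClosure K) ζ) p :=
    hζ.map_of_injective (algebraMap K (AlgebraicClosure K)).injective
  have hex : ∀ g : GK K, ∃ i < p, g D = algebraMap K (AlgebraicClosure K) (ζ ^ i) * D := by
    intro g
    have h1 : (g D) ^ p = D ^ p := by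
      rw [← map_pow, hD, AlgEquiv.commutes]
    obtain ⟨i, hi, h3⟩ := IVFK.root hp hζΩ hD0 h1
    exact ⟨i, hi, by rw [h3, map_pow]⟩
  choose n hn hgD using hex
  have hinj : ∀ a b : K, algebraMap K (AlgebraicClosure K) a * D =
      algebraMap K (AlgebraicClosure K) b * D → a = b := by
    intro a b hab
    exact (algebraMap K (AlgebraicClosure K)).injective (mul_right_cancel₀ hD0 hab)
  have hfix : ∀ g : GK K, g D = D → n g = 0 := by
    intro g hg
    have h1 : ζ ^ n g = 1 := by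
      apply hinj
      rw [← hgD g, hg, map_one, one_mul]
    exact Nat.eq_zero_of_dvd_of_lt ((hζ.pow_eq_one_iff_dvd _).1 h1) (hn g)
  have hnn : ∀ g h : GK K, g D = h D → n g = n h := by
    intro g h hgh
    have h1 : ζ ^ n g = ζ ^ n h := by
      apply hinj
      rw [← hgD g, ← hgD h, hgh]
    exact hζ.pow_inj (hn g) (hn h) h1
  have hmul : ∀ g h : GK K, (p : ℤ_[p]) ∣
      ((n (g * h) : ℕ) : ℤ_[p]) - (((n g : ℕ) : ℤ_[p]) + ((n h : ℕ) : ℤ_[p])) := by
    intro g h
    have h1 : ζ ^ n (g * h) = ζ ^ n g * ζ ^ n h := by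
      apply hinj
      rw [← hgD (g * h)]
      show g (h D) = _
      rw [hgD h, map_mul, AlgEquiv.commutes, hgD g, map_mul]
      ring
    have h3 : ζ ^ ((n (g * h) : ℤ) - ((n g : ℤ) + (n h : ℤ))) = 1 := by
      rw [zpow_sub₀ hζ0, zpow_add₀ hζ0, zpow_natCast, zpow_natCast, zpow_natCast, h1, div_self]
      exact mul_ne_zero (pow_ne_zero _ hζ0) (pow_ne_zero _ hζ0)
    obtain ⟨c, hc⟩ := (hζ.zpow_eq_one_iff_dvd _).1 h3
    refine ⟨(c : ℤ_[p]), ?_⟩
    have h4 := congrArg (fun z : ℤ => (z : ℤ_[p])) hc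
    push_cast at h4
    exact h4
  have key := hUNR K p h2 hcl (fun g => ((n g : ℕ) : ℤ_[p])) (IVFK.cont D n hnn) hmul ?_ ?_
  · -- conclusion
    have hall : ∀ g : GK K, g D = D := by
      intro g
      have h1 : n g = 0 := IVFK.eq_zero (hn g) (key g)
      rw [hgD g, h1, pow_zero, map_one, one_mul]
    have hmem : D ∈ Set.range (algebraMap K (AlgebraicClosure K)) := by
      rw [InfiniteGalois.mem_range_algebraMap_iff_fixed]
      exact hall
    obtain ⟨δ, hδ⟩ := hmem
    have h1 : δ ^ p = (d : K) := by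
      apply (algebraMap K (AlgebraicClosure K)).injective
      rw [map_pow, hδ, hD]
    have h3 : IsIntegral ℤ δ := by
      refine IsIntegral.of_pow hp.pos ?_
      rw [h1]
      exact RingOfIntegers.isIntegral_coe d
    exact ⟨⟨δ, h3⟩, RingOfIntegers.ext h1⟩
  · -- inertia outside `p`
    intro Q hQ hpQ h hh
    have h1 : h D = D := by
      by_cases hQ0 : Q = ⊥
      · subst hQ0
        rw [IVFK.eq_one h hh]
        rfl
      · obtain ⟨v, hv, hvp⟩ := IVFK.below Q hQ hQ0
        have hpv : (p : 𝓞 K) ∉ v.asIdeal := fun hc => hpQ ((hvp p).1 hc)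
        exact hI2 K (AlgebraicClosure K) p ζ hζ v hpv Q hQ hv D (d : K) hdK hD
          (hval v hpv) h hh
    show (p : ℤ_[p]) ∣ ((n h : ℕ) : ℤ_[p])
    rw [hfix h h1, Nat.cast_zero]
    exact dvd_zero _
  · -- inertia above `p`
    intro Q hQ hpQ h hh
    have hQ0 : Q ≠ ⊥ := by
      intro hc
      rw [hc, Ideal.mem_bot] at hpQ
      exact (Nat.cast_ne_zero.2 hp.ne_zero) hpQ
    obtain ⟨v, hv, hvp⟩ := IVFK.below Q hQ hQ0
    obtain ⟨ι, hι⟩ := hDE K v Q hQ hv
    obtain ⟨g, hg⟩ := hι h hh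
    obtain ⟨y, hy⟩ := hloc v ((hvp p).2 hpQ)
    have hζC : IsPrimitiveRoot (algebraMap K (AlgebraicClosure (v.adicCompletion K)) ζ) p :=
      hζ.map_of_injective (algebraMap K (AlgebraicClosure (v.adicCompletion K))).injective
    have h3 : (ι D) ^ p =
        (algebraMap (v.adicCompletion K) (AlgebraicClosure (v.adicCompletion K)) y) ^ p := by
      rw [← map_pow, hD, AlgHom.commutes, ← map_pow, hy,
        IsScalarTower.algebraMap_apply K (v.adicCompletion K)
          (AlgebraicClosure (v.adicCompletion K)) (d : K)]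
    have hy0 : algebraMap (v.adicCompletion K) (AlgebraicClosure (v.adicCompletion K)) y ≠ 0 := by
      intro hc
      rw [hc, zero_pow hp.ne_zero, pow_eq_zero_iff hp.ne_zero] at h3
      exact hD0 ((map_eq_zero ι).1 h3)
    obtain ⟨i, -, h4⟩ := IVFK.root hp hζC hy0 h3
    have h5 : g (ι D) = ι D := by
      rw [h4, map_mul, map_pow, AlgEquiv.commutes,
        IsScalarTower.algebraMap_apply K (v.adicCompletion K)
          (AlgebraicClosure (v.adicCompletion K)) ζ, AlgEquiv.commutes]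
    have h1 : h D = D := ι.injective (by
      show ι (h D) = ι D
      rw [hg D, h5])
    show (p : ℤ_[p]) ∣ ((n h : ℕ) : ℤ_[p])
    rw [hfix h h1, Nat.cast_zero]
    exact dvd_zero _

end Pool.Agent.Work.MP_59f3ad_nt.PX
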